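import Pool.Agent.Work.MP_763b10_co.AR.Num

/-!
# MP_763b10_co, board modar, module SprX (S)

Sets with dense abscissas are well distributed.

Proof. For `n` large `K = KK n ≥ 2` (`num_misc`). For `m ≥ 1`, `c`: the first coordinates of the points of the class are integers `x ∈ [0, n K/4]` with `x ≡ c.1 mod m`, at most
`n K/(4m) + 1` values, and by `NC` each value is the first coordinate of at most two points: at most `n K/(2m) + 2 ≤ K (n/m + 1)`.
-/

set_option autoImplicit false

namespace BlkAR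

/-- a vertical line contains at most two points -/
private theorem vert {P : Finset (ℤ × ℤ)} (hN : NC P) (x : ℤ) :
    (P.filter fun p => p.1 = x).card ≤ 2 := by
  by_contra hc
  push Not at hc
  obtain ⟨a, b, c, ha, hb, hc', hab, hac, hbc⟩ := Finset.two_lt_card_iff.1 hc
  rw [Finset.mem_filter] at ha hb hc'
  have := hN a ha.1 b hb.1 c hc'.1 hab hac hbc
  apply this
  rw [ha.2, hb.2, hc'.2]
  ring

theorem sprX : ∃ n₀ : ℕ, ∀ P : Finset (ℤ × ℤ), n₀ ≤ P.card → NC P →
    (∀ p ∈ P, 0 ≤ p.1 ∧ (p.1 : ℝ) ≤ P.card * KK P.card / 4) → Spr (KK P.card) P := by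
  obtain ⟨n₀, h0⟩ := num_misc 0
  refine ⟨n₀, ?_⟩
  intro P hn hN hP
  obtain ⟨-, -, hK, -⟩ := h0 P.card hn
  set K := KK P.card with hKd
  intro m hm c
  have hm0 : (0 : ℝ) < m := by exact_mod_cast hm
  set n : ℝ := (P.card : ℝ) with hnd
  have hn0 : 0 ≤ n := Nat.cast_nonneg _
  set M : ℝ := n * K / 4 with hM
  have hM0 : 0 ≤ M := by positivity
  -- the values
  set S : Finset ℤ := (P.filter fun p => (m : ℤ) ∣ p.1 - c.1 ∧ (m : ℤ) ∣ p.2 - c.2).image
    (fun p => (p.1 - c.1 % m) / m) with hS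
  have hSsub : S ⊆ Finset.Icc 0 (⌊M / m⌋) := by
    intro z hz
    rw [hS, Finset.mem_image] at hz
    obtain ⟨p, hp, rfl⟩ := hz
    rw [Finset.mem_filter] at hp
    obtain ⟨hpP, hp1, -⟩ := hp
    have hmz : (0 : ℤ) < m := by exact_mod_cast hm
    have hr0 := Int.emod_nonneg c.1 hmz.ne'
    have hr1 := Int.emod_lt_of_pos c.1 hmz
    have hdv : (m : ℤ) ∣ p.1 - c.1 % m := by
      have : p.1 - c.1 % m = (p.1 - c.1) + m * (c.1 / m) := by
        have := Int.emod_add_mul_ediv c.1 m
        linarith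
      rw [this]
      exact dvd_add hp1 (dvd_mul_right _ _)
    obtain ⟨k, hk⟩ := hdv
    have hp0 := hP p hpP
    rw [hk, Int.mul_ediv_cancel_left _ hmz.ne', Finset.mem_Icc]
    constructor
    · by_contra hneg
      push Not at hneg
      have h1 : m * k ≤ -(m : ℤ) := by nlinarith
      have := hp0.1
      omega
    · rw [Int.le_floor, le_div_iff₀ hm0]
      have h2 : ((m * k : ℤ) : ℝ) ≤ p.1 := by
        have : (m : ℤ) * k ≤ p.1 := by omega
        exact_mod_cast this
      push_cast at h2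
      have h3 := hp0.2
      linarith
  have hScard : (S.card : ℝ) ≤ M / m + 1 := by
    have h1 := Finset.card_le_card hSsub
    rw [Int.card_Icc] at h1
    have h2 : (0 : ℤ) ≤ ⌊M / m⌋ := Int.floor_nonneg.2 (by positivity)
    have h3 : (S.card : ℤ) ≤ ⌊M / m⌋ + 1 := by omega
    have h4 : (S.card : ℝ) ≤ (⌊M / m⌋ : ℝ) + 1 := by exact_mod_cast h3
    have h5 := Int.floor_le (M / m)
    linarith
  have hcard : (P.filter fun p => (m : ℤ) ∣ p.1 - c.1 ∧ (m : ℤ) ∣ p.2 - c.2).card ≤
      2 * S.card := by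
    apply Finset.card_le_mul_card_image
    intro z hz
    rcases Finset.eq_empty_or_nonempty
      ((P.filter fun p => (m : ℤ) ∣ p.1 - c.1 ∧ (m : ℤ) ∣ p.2 - c.2).filter fun p =>
        (p.1 - c.1 % m) / m = z) with he | ⟨a, ha⟩
    · rw [he]
      simp
    · refine le_trans (Finset.card_le_card ?_) (vert hN a.1)
      intro b hb
      rw [Finset.mem_filter, Finset.mem_filter] at ha hb
      rw [Finset.mem_filter]
      refine ⟨hb.1.1, ?_⟩
      have hmz : (0 : ℤ) < m := by exact_mod_cast hm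
      have hdv : ∀ p : ℤ × ℤ, (m : ℤ) ∣ p.1 - c.1 → (m : ℤ) ∣ p.1 - c.1 % m := by
        intro p hp
        have : p.1 - c.1 % m = (p.1 - c.1) + m * (c.1 / m) := by
          have := Int.emod_add_mul_ediv c.1 m
          linarith
        rw [this]
        exact dvd_add hp (dvd_mul_right _ _)
      have e1 := Int.ediv_mul_cancel (hdv a ha.1.2.1)
      have e2 := Int.ediv_mul_cancel (hdv b hb.1.2.1)
      rw [ha.2] at e1
      rw [hb.2] at e2
      linarith
  have hcardR : ((P.filter fun p => (m : ℤ) ∣ p.1 - c.1 ∧ (m : ℤ) ∣ p.2 - c.2).card : ℝ) ≤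
      2 * S.card := by exact_mod_cast hcard
  have h6 : M / m = K * (n / m) / 4 := by
    rw [hM]
    ring
  have h7 : 0 ≤ K * (n / m) := by positivity
  rw [h6] at hScard
  linarith

end BlkAR
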