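import Pool.Agent.Work.MP_763b10_co.AR.Main
import Pool.Agent.Work.MP_763b10_co.AR.SprX

/-!
# MP_763b10_co, board modar, module Fin (S)

The statements of the hand-in.

Proof. `nc_of`: if the determinant of `p, q, r` is `0`, the three points are collinear (`collinear_iff_of_mem`, direction `q - p`). `blocks_of`: `openSegment` by parameters
(`openSegment_eq_image'`, `t ∈ Ioo 0 1`). Then `main` (with `⌈C⌉₊`, and `sprX` for the second part; the first coordinates are `≤ n KK n/4 ≤ n^(A+2)` for large `n`).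
-/

set_option autoImplicit false

namespace BlkAR

/-- The point of the real plane. -/
def em (p : ℤ × ℤ) : ℝ × ℝ := ((p.1 : ℝ), (p.2 : ℝ))

private theorem nc_of {P : Finset (ℤ × ℤ)}
    (h : ∀ a ∈ P, ∀ b ∈ P, ∀ c ∈ P, a ≠ b → a ≠ c → b ≠ c →
      ¬ Collinear ℝ ({em a, em b, em c} : Set (ℝ × ℝ))) : NC P := by
  intro p hp q hq r hr hpq hpr hqr hdet
  refine h p hp q hq r hr hpq hpr hqr ?_
  have hdet' : ((q.1 : ℝ) - p.1) * ((r.2 : ℝ) - p.2) - ((q.2 : ℝ) - p.2) * ((r.1 : ℝ) - p.1) = 0 := by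
    exact_mod_cast hdet
  rw [collinear_iff_of_mem (p₀ := em p) (by simp)]
  refine ⟨em q - em p, ?_⟩
  have key : ∃ t : ℝ, em r = t • (em q - em p) +ᵥ em p := by
    by_cases h1 : (q.1 : ℝ) - p.1 = 0
    · have h2 : (q.2 : ℝ) - p.2 ≠ 0 := by
        intro h2
        apply hpq
        have e1 : (p.1 : ℝ) = q.1 := by linarith
        have e2 : (p.2 : ℝ) = q.2 := by linarith
        exact Prod.ext (by exact_mod_cast e1) (by exact_mod_cast e2)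
      have h3 : (r.1 : ℝ) - p.1 = 0 := by
        rw [h1, zero_mul, zero_sub, neg_eq_zero] at hdet'
        rcases mul_eq_zero.mp hdet' with h | h
        · exact absurd h h2
        · exact h
      refine ⟨((r.2 : ℝ) - p.2) / ((q.2 : ℝ) - p.2), ?_⟩
      refine Prod.ext ?_ ?_
      · show (r.1 : ℝ) = ((r.2 : ℝ) - p.2) / ((q.2 : ℝ) - p.2) * ((q.1 : ℝ) - p.1) + p.1
        rw [h1, mul_zero]
        linarith
      · show (r.2 : ℝ) = ((r.2 : ℝ) - p.2) / ((q.2 : ℝ) - p.2) * ((q.2 : ℝ) - p.2) + p.2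
        rw [div_mul_cancel₀ _ h2]
        ring
    · refine ⟨((r.1 : ℝ) - p.1) / ((q.1 : ℝ) - p.1), ?_⟩
      refine Prod.ext ?_ ?_
      · show (r.1 : ℝ) = ((r.1 : ℝ) - p.1) / ((q.1 : ℝ) - p.1) * ((q.1 : ℝ) - p.1) + p.1
        rw [div_mul_cancel₀ _ h1]
        ring
      · show (r.2 : ℝ) = ((r.1 : ℝ) - p.1) / ((q.1 : ℝ) - p.1) * ((q.2 : ℝ) - p.2) + p.2
        have e : ((r.1 : ℝ) - p.1) / ((q.1 : ℝ) - p.1) * ((q.2 : ℝ) - p.2) = (r.2 : ℝ) - p.2 := by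
          rw [div_mul_eq_mul_div, div_eq_iff h1]
          linarith
        rw [e]
        ring
  intro x hx
  rcases hx with rfl | rfl | hx
  · exact ⟨0, by rw [zero_smul, zero_vadd]⟩
  · exact ⟨1, by rw [one_smul, vadd_eq_add, sub_add_cancel]⟩
  · rw [Set.mem_singleton_iff.mp hx]
    exact key

private theorem blocks_of {P : Finset (ℤ × ℤ)} {Q : Finset (ℝ × ℝ)}
    (h : ∀ p ∈ P, ∀ q ∈ P, p ≠ q → ∃ x ∈ Q, x ∈ openSegment ℝ (em p) (em q)) : Blocks P Q := by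
  intro p hp q hq hpq
  obtain ⟨x, hx, hs⟩ := h p hp q hq hpq
  rw [openSegment_eq_image'] at hs
  obtain ⟨t, ⟨ht0, ht1⟩, rfl⟩ := hs
  exact ⟨t, ht0, ht1, hx⟩

theorem fin1 (C : ℝ) (A : ℕ) : ∃ N : ℕ, ∀ P : Finset (ℤ × ℤ), N ≤ P.card →
    (∀ a ∈ P, ∀ b ∈ P, ∀ c ∈ P, a ≠ b → a ≠ c → b ≠ c →
      ¬ Collinear ℝ ({em a, em b, em c} : Set (ℝ × ℝ))) →
    (∀ p ∈ P, |(p.1 : ℝ)| ≤ (P.card : ℝ) ^ A ∧ |(p.2 : ℝ)| ≤ (P.card : ℝ) ^ A) →
    (∀ m : ℕ, 1 ≤ m → ∀ a b : ℤ,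
      ((P.filter fun p => (m : ℤ) ∣ p.1 - a ∧ (m : ℤ) ∣ p.2 - b).card : ℝ) ≤
        Real.exp ((Real.log P.card) ^ (1 / 20 : ℝ)) * ((P.card : ℝ) / m + 1)) →
    ∀ Q : Finset (ℝ × ℝ),
      (∀ p ∈ P, ∀ q ∈ P, p ≠ q → ∃ x ∈ Q, x ∈ openSegment ℝ (em p) (em q)) →
      C * (P.card : ℝ) ≤ (Q.card : ℝ) := by
  obtain ⟨n₀, h⟩ := main ⌈C⌉₊ A
  refine ⟨n₀, fun P hP hnc hht hspr Q hQ => ?_⟩
  have h1 := h P Q hP (nc_of hnc) hht (fun m hm c => hspr m hm c.1 c.2) (blocks_of hQ)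
  exact (mul_le_mul_of_nonneg_right (Nat.le_ceil C) (Nat.cast_nonneg _)).trans h1

theorem fin2 (C : ℝ) (A : ℕ) : ∃ N : ℕ, ∀ P : Finset (ℤ × ℤ), N ≤ P.card →
    (∀ a ∈ P, ∀ b ∈ P, ∀ c ∈ P, a ≠ b → a ≠ c → b ≠ c →
      ¬ Collinear ℝ ({em a, em b, em c} : Set (ℝ × ℝ))) →
    (∀ p ∈ P, 0 ≤ p.1 ∧
      (p.1 : ℝ) ≤ P.card * Real.exp ((Real.log P.card) ^ (1 / 20 : ℝ)) / 4 ∧
      |(p.2 : ℝ)| ≤ (P.card : ℝ) ^ A) →
    ∀ Q : Finset (ℝ × ℝ),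
      (∀ p ∈ P, ∀ q ∈ P, p ≠ q → ∃ x ∈ Q, x ∈ openSegment ℝ (em p) (em q)) →
      C * (P.card : ℝ) ≤ (Q.card : ℝ) := by
  obtain ⟨n₀, h⟩ := main ⌈C⌉₊ (A + 2)
  obtain ⟨n₁, h1⟩ := sprX
  refine ⟨n₀ + n₁ + 3, fun P hP hnc hht Q hQ => ?_⟩
  have hncP := nc_of hnc
  have hspr : Spr (KK P.card) P :=
    h1 P (by omega) hncP (fun p hp => ⟨(hht p hp).1, (hht p hp).2.1⟩)
  have hn3 : (3 : ℝ) ≤ (P.card : ℝ) := by
    have : 3 ≤ P.card := by omega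
    exact_mod_cast this
  have hn1 : (1 : ℝ) ≤ (P.card : ℝ) := by linarith
  have hlog : 1 ≤ Real.log P.card := by
    rw [Real.le_log_iff_exp_le (by linarith)]
    exact (Real.exp_one_lt_d9.le.trans (by norm_num)).trans hn3
  have hKK : Real.exp ((Real.log P.card) ^ (1 / 20 : ℝ)) ≤ (P.card : ℝ) := by
    calc Real.exp ((Real.log P.card) ^ (1 / 20 : ℝ)) ≤ Real.exp ((Real.log P.card) ^ (1 : ℝ)) :=
          Real.exp_le_exp.mpr (Real.rpow_le_rpow_of_exponent_le hlog (by norm_num))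
      _ = (P.card : ℝ) := by rw [Real.rpow_one, Real.exp_log (by linarith)]
  have hpw : (P.card : ℝ) ^ 2 ≤ (P.card : ℝ) ^ (A + 2) :=
    pow_le_pow_right₀ hn1 (by omega)
  have hht' : ∀ p ∈ P, |(p.1 : ℝ)| ≤ (P.card : ℝ) ^ (A + 2) ∧
      |(p.2 : ℝ)| ≤ (P.card : ℝ) ^ (A + 2) := by
    intro p hp
    obtain ⟨a1, a2, a3⟩ := hht p hp
    constructor
    · have a1' : (0 : ℝ) ≤ (p.1 : ℝ) := by exact_mod_cast a1
      rw [abs_of_nonneg a1']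
      refine le_trans ?_ hpw
      have a4 : (P.card : ℝ) * Real.exp ((Real.log P.card) ^ (1 / 20 : ℝ)) ≤
          (P.card : ℝ) * P.card := mul_le_mul_of_nonneg_left hKK (by linarith)
      nlinarith
    · exact a3.trans (pow_le_pow_right₀ hn1 (by omega))
  have h2 := h P Q (by omega) hncP hht' hspr (blocks_of hQ)
  exact (mul_le_mul_of_nonneg_right (Nat.le_ceil C) (Nat.cast_nonneg _)).trans h2

end BlkAR
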