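import Pool.Agent.Work.MP_763b10_co.AR.CsDefs

/-!
# MP_763b10_co, board modar, module Four (S-M)

The Fourier expansion of `FS A` on a finite group has small `l¹` norm.

Proof. `N = |G|`. `FS A y = |A|^(-2) ∑_{x ∈ A} ∑_{a ∈ A} 1_{A-A}(x + y - a)`. Put `c ψ = (1/N) ∑_y FS A y * ψ (-y)`. Fourier inversion:
`∑_ψ c ψ * ψ z = (1/N) ∑_y FS A y ∑_ψ ψ (z - y) = FS A z` (`AddChar.sum_apply_eq_ite`). Substituting `s = x + y - a`:
`c ψ = (1/(N |A|²)) ∑_{x,a ∈ A} ∑_{s ∈ A-A} ψ (-(s - x + a)) = (1/(N|A|²)) (∑_{s ∈ A-A} ψ(-s)) (∑_{x ∈ A} ψ x) (∑_{a ∈ A} ψ(-a))`, so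
`‖c ψ‖ ≤ |A-A|/(N|A|²) ‖∑_{a ∈ A} ψ a‖²`, and `∑_ψ ‖∑_{a∈A} ψ a‖² = ∑_ψ ∑_{a,b} ψ(a - b) = N |A|`. So `∑ ‖c ψ‖ ≤ |A-A|/|A|`.
-/

set_option autoImplicit false

namespace BlkAR

open Finset
open scoped Pointwise

section

variable {G : Type*} [AddCommGroup G] [Fintype G] [DecidableEq G]

private theorem FS_eq (A : Finset G) (y : G) : (FS A y : ℂ) =
    (∑ x ∈ A, ∑ a ∈ A, if x + y - a ∈ A - A then (1 : ℂ) else 0) / (A.card : ℂ) ^ 2 := by
  unfold FS fS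
  push_cast
  rw [Finset.sum_div, Finset.sum_div]
  refine Finset.sum_congr rfl fun x _ => ?_
  rw [Finset.natCast_card_filter, div_div, pow_two]

private theorem inner_sum (A : Finset G) (ψ : AddChar G ℂ) (x a : G) :
    ∑ y : G, (if x + y - a ∈ A - A then (1 : ℂ) else 0) * ψ (-y) =
      ψ x * ψ (-a) * ∑ s ∈ A - A, ψ (-s) := by
  have h1 : ∑ y : G, (if x + y - a ∈ A - A then (1 : ℂ) else 0) * ψ (-y) =
      ∑ s : G, (if s ∈ A - A then (1 : ℂ) else 0) * (ψ x * ψ (-a) * ψ (-s)) := by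
    refine Fintype.sum_equiv (Equiv.addRight (x - a)) _ _ fun y => ?_
    have e1 : x + y - a = y + (x - a) := by abel
    have e2 : ψ x * ψ (-a) * ψ (-(y + (x - a))) = ψ (-y) := by
      rw [← AddChar.map_add_eq_mul, ← AddChar.map_add_eq_mul]
      congr 1
      abel
    show (if x + y - a ∈ A - A then (1 : ℂ) else 0) * ψ (-y) =
      (if y + (x - a) ∈ A - A then (1 : ℂ) else 0) * (ψ x * ψ (-a) * ψ (-(y + (x - a))))
    rw [e2, e1]
  rw [h1, Finset.mul_sum]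
  have h2 : ∀ s : G, (if s ∈ A - A then (1 : ℂ) else 0) * (ψ x * ψ (-a) * ψ (-s)) =
      if s ∈ A - A then ψ x * ψ (-a) * ψ (-s) else 0 := by
    intro s
    split_ifs
    · rw [one_mul]
    · rw [zero_mul]
  simp only [h2]
  rw [← Finset.sum_filter]
  refine Finset.sum_congr ?_ fun _ _ => rfl
  ext s
  simp

private theorem parseval (A : Finset G) :
    ∑ ψ : AddChar G ℂ, ‖∑ a ∈ A, ψ a‖ ^ 2 = Fintype.card G * A.card := by
  have h1 : ∀ ψ : AddChar G ℂ, ((‖∑ a ∈ A, ψ a‖ ^ 2 : ℝ) : ℂ) =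
      ∑ a ∈ A, ∑ b ∈ A, ψ (a - b) := by
    intro ψ
    have e1 : ((‖∑ a ∈ A, ψ a‖ ^ 2 : ℝ) : ℂ) =
        (∑ a ∈ A, ψ a) * (starRingEnd ℂ) (∑ b ∈ A, ψ b) := by
      rw [Complex.mul_conj, Complex.normSq_eq_norm_sq]
    rw [e1, map_sum, Finset.sum_mul_sum]
    refine Finset.sum_congr rfl fun a _ => Finset.sum_congr rfl fun b _ => ?_
    rw [sub_eq_add_neg, AddChar.map_add_eq_mul, AddChar.map_neg_eq_conj]
  have h2 : ((∑ ψ : AddChar G ℂ, ‖∑ a ∈ A, ψ a‖ ^ 2 : ℝ) : ℂ) =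
      ((Fintype.card G * A.card : ℝ) : ℂ) := by
    rw [Complex.ofReal_sum]
    simp only [h1]
    rw [Finset.sum_comm]
    have h3 : ∀ a ∈ A, ∑ ψ : AddChar G ℂ, ∑ b ∈ A, ψ (a - b) = (Fintype.card G : ℂ) := by
      intro a ha
      rw [Finset.sum_comm]
      have h4 : ∀ b ∈ A, ∑ ψ : AddChar G ℂ, ψ (a - b) =
          if a = b then (Fintype.card G : ℂ) else 0 := by
        intro b _
        rw [AddChar.sum_apply_eq_ite]
        simp only [sub_eq_zero]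
      rw [Finset.sum_congr rfl h4, Finset.sum_ite_eq, if_pos ha]
    rw [Finset.sum_congr rfl h3, Finset.sum_const, nsmul_eq_mul]
    push_cast
    ring
  exact_mod_cast h2

theorem four {G : Type*} [AddCommGroup G] [Fintype G] [DecidableEq G] (A : Finset G)
    (hA : A.Nonempty) : ∃ c : AddChar G ℂ → ℂ, (∀ y : G, (FS A y : ℂ) = ∑ ψ, c ψ * ψ y) ∧
      ∑ ψ, ‖c ψ‖ ≤ ((A - A).card : ℝ) / A.card := by
  have hN : (Fintype.card G : ℂ) ≠ 0 := Nat.cast_ne_zero.2 Fintype.card_ne_zero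
  have hNr : (0 : ℝ) < Fintype.card G := Nat.cast_pos.2 Fintype.card_pos
  have hAr : (0 : ℝ) < A.card := Nat.cast_pos.2 hA.card_pos
  refine ⟨fun ψ => (∑ y : G, (FS A y : ℂ) * ψ (-y)) / Fintype.card G, fun z => ?_, ?_⟩
  · have h1 : ∀ ψ : AddChar G ℂ, (∑ y : G, (FS A y : ℂ) * ψ (-y)) / Fintype.card G * ψ z =
        (∑ y : G, (FS A y : ℂ) * ψ (z - y)) / Fintype.card G := by
      intro ψ
      rw [div_mul_eq_mul_div, Finset.sum_mul]
      congr 1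
      refine Finset.sum_congr rfl fun y _ => ?_
      rw [mul_assoc, ← AddChar.map_add_eq_mul]
      congr 2
      abel
    simp only [h1]
    rw [← Finset.sum_div, Finset.sum_comm]
    have h2 : ∀ y : G, ∑ ψ : AddChar G ℂ, (FS A y : ℂ) * ψ (z - y) =
        if z = y then (FS A y : ℂ) * Fintype.card G else 0 := by
      intro y
      rw [← Finset.mul_sum, AddChar.sum_apply_eq_ite]
      simp only [sub_eq_zero, mul_ite, mul_zero]
    simp only [h2]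
    rw [Finset.sum_ite_eq, if_pos (Finset.mem_univ z), mul_div_assoc, div_self hN, mul_one]
  · have h1 : ∀ ψ : AddChar G ℂ, ∑ y : G, (FS A y : ℂ) * ψ (-y) =
        (∑ x ∈ A, ψ x) * (∑ a ∈ A, ψ (-a)) * (∑ s ∈ A - A, ψ (-s)) / (A.card : ℂ) ^ 2 := by
      intro ψ
      have e1 : ∀ y : G, (FS A y : ℂ) * ψ (-y) = (∑ x ∈ A, ∑ a ∈ A,
          (if x + y - a ∈ A - A then (1 : ℂ) else 0) * ψ (-y)) / (A.card : ℂ) ^ 2 := by
        intro y
        rw [FS_eq, div_mul_eq_mul_div, Finset.sum_mul]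
        congr 1
        exact Finset.sum_congr rfl fun x _ => Finset.sum_mul _ _ _
      simp only [e1]
      rw [← Finset.sum_div, Finset.sum_comm]
      congr 1
      have e2 : ∀ x ∈ A, ∑ y : G, ∑ a ∈ A,
          (if x + y - a ∈ A - A then (1 : ℂ) else 0) * ψ (-y) =
          ψ x * ((∑ a ∈ A, ψ (-a)) * (∑ s ∈ A - A, ψ (-s))) := by
        intro x _
        rw [Finset.sum_comm, Finset.sum_mul, Finset.mul_sum]
        refine Finset.sum_congr rfl fun a _ => ?_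
        rw [inner_sum, mul_assoc]
      rw [Finset.sum_congr rfl e2, ← Finset.sum_mul, mul_assoc]
    have h2 : ∀ ψ : AddChar G ℂ, ‖(∑ y : G, (FS A y : ℂ) * ψ (-y)) / Fintype.card G‖ ≤
        ((A - A).card : ℝ) / (Fintype.card G * (A.card : ℝ) ^ 2) * ‖∑ a ∈ A, ψ a‖ ^ 2 := by
      intro ψ
      have e1 : ‖∑ a ∈ A, ψ (-a)‖ = ‖∑ a ∈ A, ψ a‖ := by
        have e2 : ∑ a ∈ A, ψ (-a) = (starRingEnd ℂ) (∑ a ∈ A, ψ a) := by
          rw [map_sum]
          exact Finset.sum_congr rfl fun a _ => AddChar.map_neg_eq_conj _ _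
        rw [e2, Complex.norm_conj]
      have e3 : ‖∑ s ∈ A - A, ψ (-s)‖ ≤ ((A - A).card : ℝ) := by
        refine (norm_sum_le _ _).trans ?_
        have : ∀ s ∈ A - A, ‖ψ (-s)‖ = 1 := fun s _ => AddChar.norm_apply ψ (-s)
        rw [Finset.sum_congr rfl this, Finset.sum_const, nsmul_eq_mul, mul_one]
      rw [h1, norm_div, norm_div, norm_mul, norm_mul, e1, norm_pow, Complex.norm_natCast,
        Complex.norm_natCast]
      rw [div_div, div_mul_eq_mul_div]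
      rw [mul_comm ((A.card : ℝ) ^ 2) (Fintype.card G : ℝ)]
      refine div_le_div_of_nonneg_right ?_ (by positivity)
      calc ‖∑ a ∈ A, ψ a‖ * ‖∑ a ∈ A, ψ a‖ * ‖∑ s ∈ A - A, ψ (-s)‖
          ≤ ‖∑ a ∈ A, ψ a‖ * ‖∑ a ∈ A, ψ a‖ * ((A - A).card : ℝ) :=
            mul_le_mul_of_nonneg_left e3 (by positivity)
        _ = ((A - A).card : ℝ) * ‖∑ a ∈ A, ψ a‖ ^ 2 := by ring
    refine (Finset.sum_le_sum fun ψ _ => h2 ψ).trans ?_
    rw [← Finset.mul_sum, parseval]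
    refine le_of_eq ?_
    field_simp

end

end BlkAR
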