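import Pool.Agent.Work.MP_763b10_co.AR.CsDefs
import Pool.Agent.Work.MP_763b10_co.AR.Four

/-!
# MP_763b10_co, board modar, module Boot (M)

The Bogolyubov-Sanders bootstrapping: a Bohr set is contained in `2A - 2A`.

Proof. Let `g(y)` be the average of `FS A (y + ∑_{i<k} (u_i - v_i))` over `u, v ∈ T^k` (`Fintype.piFinset`). By `hT`,
`|g(y) - FS A y| ≤ 1/8` for all `y`. Write `FS A = ∑_ψ c ψ ψ` (`four`); then `g(y) = ∑_ψ c ψ ‖m ψ‖^(2k) ψ y`, `m ψ = (1/|T|) ∑_{t∈T} ψ t`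
(the average of `ψ(∑ (u_i - v_i))` is `(m ψ * conj (m ψ))^k`, `Finset.prod_univ_sum`). So
`|g(s) - g(0)| ≤ ∑_ψ ‖c ψ‖ ‖m ψ‖^(2k) ‖ψ s - 1‖`. If `‖m ψ‖ < 1/2`: `‖m ψ‖^(2k) ‖ψ s - 1‖ ≤ 2 * 4^(-k) ≤ 1/(8K)`. If `‖m ψ‖ ≥ 1/2`, then by
`hΛ` `ψ = ∑_{χ∈Λ} ε χ • χ`, so `‖ψ s - 1‖ ≤ ∑_{χ∈Λ} ‖χ s - 1‖ ≤ |Λ|/(8K(|Λ|+1)) ≤ 1/(8K)` (`‖∏ z_i - 1‖ ≤ ∑ ‖z_i - 1‖` for `‖z_i‖ = 1`;
`‖z^ε - 1‖ ≤ ‖z - 1‖` for `ε ∈ {-1,0,1}`), and `‖m ψ‖ ≤ 1`. As `∑ ‖c ψ‖ ≤ |A-A|/|A| ≤ K`: `|g(s) - g(0)| ≤ 1/8`.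
`FS A 0 = 1` (for `x, a ∈ A`: `x - a ∈ A - A`). So `FS A s ≥ g(s) - 1/8 ≥ g(0) - 1/4 ≥ 1 - 3/8 > 0`; hence there are `x, a ∈ A` with
`x + s - a ∈ A - A`, and `s = (x + s - a) - x + a ∈ (A + A) - (A + A)`.
-/

set_option autoImplicit false

namespace BlkAR

open Finset
open scoped Pointwise

private theorem norm_prod_sub_one {ι : Type*} [DecidableEq ι] (s : Finset ι) (z : ι → ℂ)
    (hz : ∀ i ∈ s, ‖z i‖ = 1) : ‖∏ i ∈ s, z i - 1‖ ≤ ∑ i ∈ s, ‖z i - 1‖ := by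
  induction s using Finset.induction_on with
  | empty => simp
  | insert a s ha ih =>
    rw [prod_insert ha, sum_insert ha]
    have h1 : z a * ∏ i ∈ s, z i - 1 = z a * (∏ i ∈ s, z i - 1) + (z a - 1) := by ring
    rw [h1]
    refine (norm_add_le _ _).trans ?_
    rw [norm_mul, hz a (mem_insert_self a s), one_mul]
    have := ih (fun i hi => hz i (mem_insert_of_mem hi))
    linarith

private theorem norm_zpow_sub_one {z : ℂ} (hz : ‖z‖ = 1) {n : ℤ} (hn : n = -1 ∨ n = 0 ∨ n = 1) :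
    ‖z ^ n - 1‖ ≤ ‖z - 1‖ := by
  have hz0 : z ≠ 0 := by
    intro h
    rw [h, norm_zero] at hz
    exact zero_ne_one hz
  rcases hn with h | h | h
  · rw [h, zpow_neg_one]
    have h1 : z⁻¹ - 1 = -(z⁻¹ * (z - 1)) := by
      field_simp
      ring
    rw [h1, norm_neg, norm_mul, norm_inv, hz]
    simp
  · rw [h, zpow_zero]
    simp
  · rw [h, zpow_one]

private theorem char_close {G : Type*} [AddCommGroup G] [Fintype G] (K : ℝ)
    (hK1 : 1 ≤ K) (Λ : Finset (AddChar G ℂ)) (ψ : AddChar G ℂ)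
    (h : ∃ ε : AddChar G ℂ → ℤ, (∀ χ, ε χ = -1 ∨ ε χ = 0 ∨ ε χ = 1) ∧ ∑ χ ∈ Λ, ε χ • χ = ψ)
    (s : G) (hs : ∀ χ ∈ Λ, ‖χ s - 1‖ ≤ 1 / (8 * K * (Λ.card + 1))) :
    ‖ψ s - 1‖ ≤ 1 / (8 * K) := by
  classical
  obtain ⟨ε, hε, hψ⟩ := h
  have h1 : ψ s = ∏ χ ∈ Λ, (χ s) ^ (ε χ) := by
    rw [← hψ, AddChar.sum_apply]
    apply prod_congr rfl
    intro χ _
    rw [AddChar.zsmul_apply]
  rw [h1]
  refine (norm_prod_sub_one Λ _ ?_).trans ?_
  · intro χ _
    rw [norm_zpow, AddChar.norm_apply, one_zpow]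
  refine (sum_le_sum (g := fun _ => 1 / (8 * K * ((Λ.card : ℝ) + 1))) ?_).trans ?_
  · intro χ hχ
    exact (norm_zpow_sub_one (AddChar.norm_apply _ _) (hε χ)).trans (hs χ hχ)
  · rw [sum_const, nsmul_eq_mul]
    have hK0 : 0 < K := by linarith
    have hc : (0 : ℝ) ≤ Λ.card := Nat.cast_nonneg _
    rw [mul_one_div, div_le_div_iff₀ (by positivity) (by positivity)]
    nlinarith [mul_pos hK0 hK0]

private theorem char_sum {G ι : Type*} [AddCommGroup G] [DecidableEq ι] (ψ : AddChar G ℂ)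
    (s : Finset ι) (f : ι → G) : ψ (∑ i ∈ s, f i) = ∏ i ∈ s, ψ (f i) := by
  induction s using Finset.induction_on with
  | empty => simp
  | insert a s ha ih => rw [sum_insert ha, prod_insert ha, AddChar.map_add_eq_mul, ih]

private theorem avg_char {G : Type*} [AddCommGroup G] [Fintype G] [DecidableEq G] (T : Finset G)
    (k : ℕ) (ψ : AddChar G ℂ) :
    ∑ u ∈ (Fintype.piFinset fun _ : Fin k => T), ∑ v ∈ (Fintype.piFinset fun _ : Fin k => T),
      ψ (∑ i, (u i - v i)) = ((‖∑ t ∈ T, ψ t‖ ^ 2) ^ k : ℝ) := by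
  have h1 : ∀ u v : Fin k → G, ψ (∑ i, (u i - v i)) =
      (∏ i, ψ (u i)) * ∏ i, (starRingEnd ℂ) (ψ (v i)) := by
    intro u v
    rw [sum_sub_distrib, sub_eq_add_neg, AddChar.map_add_eq_mul, AddChar.map_neg_eq_conj,
      char_sum, char_sum, map_prod]
  have h2 : ∑ u ∈ (Fintype.piFinset fun _ : Fin k => T),
      ∑ v ∈ (Fintype.piFinset fun _ : Fin k => T), ψ (∑ i, (u i - v i)) =
      (∑ u ∈ (Fintype.piFinset fun _ : Fin k => T), ∏ i, ψ (u i)) *
      (∑ v ∈ (Fintype.piFinset fun _ : Fin k => T), ∏ i, (starRingEnd ℂ) (ψ (v i))) := by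
    rw [sum_mul_sum]
    apply sum_congr rfl
    intro u _
    apply sum_congr rfl
    intro v _
    exact h1 u v
  rw [h2]
  rw [← prod_univ_sum (fun _ : Fin k => T) (fun _ x => ψ x)]
  rw [← prod_univ_sum (fun _ : Fin k => T) (fun _ x => (starRingEnd ℂ) (ψ x))]
  rw [prod_const, prod_const, card_univ, Fintype.card_fin, ← map_sum (starRingEnd ℂ), ← mul_pow,
    Complex.mul_conj, Complex.normSq_eq_norm_sq]
  push_cast
  rfl

private theorem FS_zero {G : Type*} [AddCommGroup G] [DecidableEq G] (A : Finset G)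
    (hA : A.Nonempty) : FS A 0 = 1 := by
  have hc : (A.card : ℝ) ≠ 0 := by exact_mod_cast hA.card_pos.ne'
  unfold FS
  have h1 : ∀ x ∈ A, fS A (x + 0) = 1 := by
    intro x hx
    unfold fS
    rw [add_zero, filter_true_of_mem, div_self hc]
    intro a ha
    exact sub_mem_sub hx ha
  rw [sum_congr rfl h1, sum_const, nsmul_eq_mul, mul_one, div_self hc]

private theorem mem_of_FS_pos {G : Type*} [AddCommGroup G] [DecidableEq G] (A : Finset G) (s : G)
    (h : 0 < FS A s) : s ∈ (A + A) - (A + A) := by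
  unfold FS at h
  have h1 : ∃ x ∈ A, 0 < fS A (x + s) := by
    by_contra hc
    push Not at hc
    have h2 : ∑ x ∈ A, fS A (x + s) ≤ 0 := sum_nonpos hc
    have h3 : (∑ x ∈ A, fS A (x + s)) / (A.card : ℝ) ≤ 0 :=
      div_nonpos_of_nonpos_of_nonneg h2 (Nat.cast_nonneg _)
    linarith
  obtain ⟨x, hx, h2⟩ := h1
  unfold fS at h2
  have h3 : (A.filter fun a => x + s - a ∈ A - A).Nonempty := by
    rw [nonempty_iff_ne_empty]
    intro h4
    rw [h4] at h2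
    simp at h2
  obtain ⟨a, ha⟩ := h3
  rw [mem_filter] at ha
  obtain ⟨b, hb, c, hc, hbc⟩ := mem_sub.1 ha.2
  have h5 : s = (b + a) - (c + x) := by
    have h6 : s = (x + s - a) + a - x := by abel
    rw [h6, ← hbc]
    abel
  rw [h5]
  exact sub_mem_sub (add_mem_add hb ha.1) (add_mem_add hc hx)

theorem boot {G : Type*} [AddCommGroup G] [Fintype G] [DecidableEq G] (A T : Finset G)
    (hA : A.Nonempty) (hTn : T.Nonempty) (K : ℝ) (hK1 : 1 ≤ K)
    (hK : ((A - A).card : ℝ) ≤ K * A.card) (k : ℕ) (hk : 16 * K ≤ 4 ^ k)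
    (hT : ∀ (y : G) (u v : Fin k → G), (∀ i, u i ∈ T) → (∀ i, v i ∈ T) →
      |FS A (y + ∑ i, (u i - v i)) - FS A y| ≤ 1 / 8)
    (Λ : Finset (AddChar G ℂ))
    (hΛ : ∀ ψ : AddChar G ℂ, 1 / 2 ≤ ‖∑ t ∈ T, ψ t‖ / T.card →
      ∃ ε : AddChar G ℂ → ℤ, (∀ χ, ε χ = -1 ∨ ε χ = 0 ∨ ε χ = 1) ∧ ∑ χ ∈ Λ, ε χ • χ = ψ)
    (s : G) (hs : ∀ χ ∈ Λ, ‖χ s - 1‖ ≤ 1 / (8 * K * (Λ.card + 1))) :
    s ∈ (A + A) - (A + A) := by
  classical
  have hK0 : 0 < K := by linarith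
  obtain ⟨c, hc1, hc2⟩ := four A hA
  have hAc : (0 : ℝ) < A.card := by exact_mod_cast hA.card_pos
  have hTc : (0 : ℝ) < T.card := by exact_mod_cast hTn.card_pos
  have hcK : ∑ ψ, ‖c ψ‖ ≤ K := hc2.trans (by rw [div_le_iff₀ hAc]; exact hK)
  obtain ⟨D, hD⟩ : ∃ D : ℝ, D = ((T.card : ℝ) ^ k) ^ 2 := ⟨_, rfl⟩
  have hD0 : 0 < D := by rw [hD]; positivity
  obtain ⟨g, hg⟩ : ∃ g : G → ℝ, g = fun y =>
      ∑ u ∈ (Fintype.piFinset fun _ : Fin k => T), ∑ v ∈ (Fintype.piFinset fun _ : Fin k => T),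
        FS A (y + ∑ i, (u i - v i)) := ⟨_, rfl⟩
  have hcard : ((Fintype.piFinset fun _ : Fin k => T).card : ℝ) = (T.card : ℝ) ^ k := by
    rw [Fintype.card_piFinset]
    simp
  -- the average is close to `FS A`
  have hclose : ∀ y, |g y - D * FS A y| ≤ D / 8 := by
    intro y
    have e1 : g y - D * FS A y = ∑ u ∈ (Fintype.piFinset fun _ : Fin k => T),
        ∑ v ∈ (Fintype.piFinset fun _ : Fin k => T),
          (FS A (y + ∑ i, (u i - v i)) - FS A y) := by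
      rw [hg]
      simp only [sum_sub_distrib, sum_const, nsmul_eq_mul]
      rw [hcard, hD]
      ring
    rw [e1]
    refine (abs_sum_le_sum_abs _ _).trans ?_
    have e2 : ∀ u ∈ (Fintype.piFinset fun _ : Fin k => T),
        |∑ v ∈ (Fintype.piFinset fun _ : Fin k => T),
          (FS A (y + ∑ i, (u i - v i)) - FS A y)| ≤ (T.card : ℝ) ^ k * (1 / 8) := by
      intro u hu
      refine (abs_sum_le_sum_abs _ _).trans ?_
      refine (sum_le_sum (g := fun _ => (1 / 8 : ℝ)) ?_).trans ?_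
      · intro v hv
        exact hT y u v (fun i => Fintype.mem_piFinset.1 hu i) (fun i => Fintype.mem_piFinset.1 hv i)
      · rw [sum_const, nsmul_eq_mul, hcard]
    refine (sum_le_sum e2).trans ?_
    rw [sum_const, nsmul_eq_mul, hcard, hD]
    apply le_of_eq
    ring
  -- Fourier expansion of the average
  have hfour : ∀ y, (g y : ℂ) = ∑ ψ, c ψ * ψ y * ((‖∑ t ∈ T, ψ t‖ ^ 2) ^ k : ℝ) := by
    intro y
    rw [hg]
    push_cast
    have e1 : ∀ u v : Fin k → G, (FS A (y + ∑ i, (u i - v i)) : ℂ) =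
        ∑ ψ, c ψ * ψ y * ψ (∑ i, (u i - v i)) := by
      intro u v
      rw [hc1]
      apply sum_congr rfl
      intro ψ _
      rw [AddChar.map_add_eq_mul, mul_assoc]
    simp only [e1]
    have e2 : ∀ u : Fin k → G, ∑ v ∈ (Fintype.piFinset fun _ : Fin k => T),
        ∑ ψ, c ψ * ψ y * ψ (∑ i, (u i - v i)) =
        ∑ ψ, ∑ v ∈ (Fintype.piFinset fun _ : Fin k => T), c ψ * ψ y * ψ (∑ i, (u i - v i)) :=
      fun u => sum_comm
    simp only [e2]
    rw [sum_comm]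
    apply sum_congr rfl
    intro ψ _
    simp only [← mul_sum]
    rw [avg_char]
    push_cast
    ring
  -- difference
  have hdiff : |g s - g 0| ≤ D / 8 := by
    have e1 : ((g s - g 0 : ℝ) : ℂ) =
        ∑ ψ, c ψ * (ψ s - 1) * ((‖∑ t ∈ T, ψ t‖ ^ 2) ^ k : ℝ) := by
      push_cast
      rw [hfour s, hfour 0, ← sum_sub_distrib]
      apply sum_congr rfl
      intro ψ _
      rw [AddChar.map_zero_eq_one]
      push_cast
      ring
    rw [← Real.norm_eq_abs, ← Complex.norm_real, e1]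
    refine (norm_sum_le _ _).trans ?_
    have e2 : ∀ ψ ∈ (univ : Finset (AddChar G ℂ)),
        ‖c ψ * (ψ s - 1) * (((‖∑ t ∈ T, ψ t‖ ^ 2) ^ k : ℝ) : ℂ)‖ ≤ ‖c ψ‖ * (D / (8 * K)) := by
      intro ψ _
      obtain ⟨m, hm⟩ : ∃ m : ℝ, m = ‖∑ t ∈ T, ψ t‖ := ⟨_, rfl⟩
      have hm0 : 0 ≤ m := by rw [hm]; exact norm_nonneg _
      have hm1 : m ≤ T.card := by
        rw [hm]
        refine (norm_sum_le _ _).trans ?_
        simp [AddChar.norm_apply]
      rw [norm_mul, norm_mul, Complex.norm_real, Real.norm_eq_abs, ← hm,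
        abs_of_nonneg (by positivity : (0 : ℝ) ≤ (m ^ 2) ^ k), mul_assoc]
      apply mul_le_mul_of_nonneg_left _ (norm_nonneg _)
      have hDk : D = ((T.card : ℝ) ^ 2) ^ k := by
        rw [hD]
        ring
      rcases le_or_gt (1 / 2) (m / T.card) with h | h
      · have e3 := char_close K hK1 Λ ψ (hΛ ψ (by rw [← hm]; exact h)) s hs
        have e4 : (m ^ 2) ^ k ≤ D := by
          rw [hDk]
          exact pow_le_pow_left₀ (by positivity) (pow_le_pow_left₀ hm0 hm1 2) k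
        calc ‖ψ s - 1‖ * (m ^ 2) ^ k ≤ 1 / (8 * K) * D := by
              apply mul_le_mul e3 e4 (by positivity) (by positivity)
          _ = D / (8 * K) := by ring
      · have e3 : ‖ψ s - 1‖ ≤ 2 := by
          refine (norm_sub_le _ _).trans ?_
          rw [AddChar.norm_apply, norm_one]
          norm_num
        have e4 : m ≤ T.card / 2 := by
          rw [div_lt_iff₀ hTc] at h
          linarith
        have e5 : (m ^ 2) ^ k ≤ D / 4 ^ k := by
          rw [hDk, ← div_pow]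
          apply pow_le_pow_left₀ (by positivity)
          have e6 := pow_le_pow_left₀ hm0 e4 2
          have e7 : ((T.card : ℝ) / 2) ^ 2 = (T.card : ℝ) ^ 2 / 4 := by ring
          linarith
        calc ‖ψ s - 1‖ * (m ^ 2) ^ k ≤ 2 * (D / 4 ^ k) := by
              apply mul_le_mul e3 e5 (by positivity) (by norm_num)
          _ = 2 * D / 4 ^ k := by ring
          _ ≤ D / (8 * K) := by
              rw [div_le_div_iff₀ (by positivity) (by positivity)]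
              nlinarith
    refine (sum_le_sum e2).trans ?_
    rw [← sum_mul]
    calc (∑ ψ, ‖c ψ‖) * (D / (8 * K)) ≤ K * (D / (8 * K)) :=
          mul_le_mul_of_nonneg_right hcK (by positivity)
      _ = D / 8 := by field_simp
  -- conclusion
  have h0 := hclose 0
  have h1 := hclose s
  rw [FS_zero A hA] at h0
  rw [abs_le] at h0 h1 hdiff
  have h2 : 0 < D * FS A s := by
    have := h0.1
    have := h1.2
    have := hdiff.1
    linarith
  exact mem_of_FS_pos A s (pos_of_mul_pos_right (by linarith) hD0.le)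

end BlkAR
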