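import Pool.Agent.Work.MP_763b10_co.AR.Defs

/-!
# MP_763b10_co, board modar, module Chang (M)

Chang's theorem for the spectrum of a set at level `1/2`.

Proof. By `Finset.exists_subset_addSpan_card_le_of_forall_addDissociated` (Mathlib, applied to the finset `s` of all `ψ` with
`1/2 ≤ ‖∑_{t ∈ T} ψ t‖/|T|`, `d = ⌊8 log(N/|T|)⌋₊`) it is enough that every dissociated `Λ ⊆ s` has `|Λ| ≤ 8 log(N/|T|)`, `N = |G|`.
For `λ ∈ Λ` choose `c λ` with `‖c λ‖ = 1` and `c λ ∑_{t∈T} λ t = ‖∑_{t∈T} λ t‖`. `g(x) = ∑_{λ∈Λ} Re (c λ * λ x)`; `∑_{t ∈ T} g(t) ≥ |T||Λ|/2`.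
Jensen (or `exp u ≥ exp u₀ (1 + u - u₀)` with `u₀ = |Λ|/4`): `(1/|T|) ∑_{t∈T} exp(g(t)/2) ≥ exp(|Λ|/4)`. On the other hand
`exp(u/2) ≤ cosh(1/2) + u sinh(1/2)` for `|u| ≤ 1` (convexity), so
`(1/N) ∑_x exp(g(x)/2) ≤ 𝔼_x ∏_{λ∈Λ} (cosh(1/2) + sinh(1/2) Re(c λ * λ x)) = cosh(1/2)^|Λ| ≤ exp(|Λ|/8)`
(`AddDissociated.randomisation` with `c ψ = cosh(1/2)` on `Λ`, `1` elsewhere, `d ψ = sinh(1/2) c ψ` on `Λ`, `0` elsewhere; `cosh x ≤ exp(x²/2)`:
`Real.cosh_le_exp_half_sq`). As `∑_{t∈T} ≤ ∑_x`: `|T| exp(|Λ|/4) ≤ N exp(|Λ|/8)`, so `|Λ|/8 ≤ log(N/|T|)`.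
-/

set_option autoImplicit false

namespace BlkAR

open Finset
open scoped Pointwise

private theorem chang_exp {u : ℝ} (h : |u| ≤ 1) :
    Real.exp (u / 2) ≤ Real.cosh (1 / 2) + Real.sinh (1 / 2) * u := by
  obtain ⟨h1, h2⟩ := abs_le.1 h
  have h3 := convexOn_exp.2 (Set.mem_univ (1 / 2 : ℝ)) (Set.mem_univ (-(1 / 2) : ℝ))
    (show (0 : ℝ) ≤ (1 + u) / 2 by linarith) (show (0 : ℝ) ≤ (1 - u) / 2 by linarith) (by ring)
  simp only [smul_eq_mul] at h3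
  have h4 : (1 + u) / 2 * (1 / 2) + (1 - u) / 2 * -(1 / 2) = u / 2 := by ring
  rw [h4] at h3
  rw [Real.cosh_eq, Real.sinh_eq]
  linarith

private theorem chang_card {G : Type*} [AddCommGroup G] [Fintype G] (T : Finset G)
    (hT : T.Nonempty) (Λ : Finset (AddChar G ℂ)) (hd : AddDissociated (Λ : Set (AddChar G ℂ)))
    (hΛ : ∀ ψ ∈ Λ, 1 / 2 ≤ ‖∑ t ∈ T, ψ t‖ / T.card) :
    (Λ.card : ℝ) ≤ 8 * Real.log ((Fintype.card G : ℝ) / T.card) := by
  classical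
  have hT0 : (0 : ℝ) < T.card := by
    exact_mod_cast hT.card_pos
  have hN0 : (0 : ℝ) < Fintype.card G := by
    have h1 : T.card ≤ Fintype.card G := T.card_le_univ
    have h2 : (T.card : ℝ) ≤ Fintype.card G := by exact_mod_cast h1
    linarith
  have hc : ∀ ψ : AddChar G ℂ, ∃ c : ℂ, ‖c‖ = 1 ∧ ((‖∑ t ∈ T, ψ t‖ : ℝ) : ℂ) = c * ∑ t ∈ T, ψ t :=
    fun ψ => RCLike.exists_norm_eq_mul_self (K := ℂ) (∑ t ∈ T, ψ t)
  choose c hc1 hc2 using hc
  obtain ⟨g, hg⟩ : ∃ g : G → ℝ, ∀ x, g x = ∑ ψ ∈ Λ, (c ψ * ψ x).re := ⟨_, fun _ => rfl⟩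
  have hsum : (T.card : ℝ) * Λ.card / 2 ≤ ∑ t ∈ T, g t := by
    have h1 : ∑ t ∈ T, g t = ∑ ψ ∈ Λ, ‖∑ t ∈ T, ψ t‖ := by
      simp only [hg]
      rw [Finset.sum_comm]
      refine Finset.sum_congr rfl fun ψ _ => ?_
      rw [← Complex.re_sum, ← Finset.mul_sum, ← hc2 ψ, Complex.ofReal_re]
    rw [h1]
    have h2 : ∀ ψ ∈ Λ, (T.card : ℝ) / 2 ≤ ‖∑ t ∈ T, ψ t‖ := by
      intro ψ hψ
      have h3 := hΛ ψ hψ
      rw [le_div_iff₀ hT0] at h3
      linarith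
    calc (T.card : ℝ) * Λ.card / 2 = ∑ _ψ ∈ Λ, (T.card : ℝ) / 2 := by
          rw [Finset.sum_const, nsmul_eq_mul]
          ring
      _ ≤ _ := Finset.sum_le_sum h2
  -- the lower bound
  have hlow : (T.card : ℝ) * Real.exp (Λ.card / 4) ≤ ∑ t ∈ T, Real.exp (g t / 2) := by
    have h1 : ∀ t ∈ T, Real.exp (Λ.card / 4) * (g t / 2 - Λ.card / 4 + 1) ≤
        Real.exp (g t / 2) := by
      intro t _
      have h2 := Real.add_one_le_exp (g t / 2 - Λ.card / 4)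
      have h3 : Real.exp (g t / 2) =
          Real.exp (Λ.card / 4) * Real.exp (g t / 2 - Λ.card / 4) := by
        rw [← Real.exp_add]
        congr 1
        ring
      rw [h3]
      exact mul_le_mul_of_nonneg_left h2 (Real.exp_pos _).le
    refine le_trans ?_ (Finset.sum_le_sum h1)
    rw [← Finset.mul_sum, mul_comm]
    refine mul_le_mul_of_nonneg_left ?_ (Real.exp_pos _).le
    rw [Finset.sum_add_distrib, Finset.sum_sub_distrib, ← Finset.sum_div, Finset.sum_const,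
      Finset.sum_const, nsmul_eq_mul, nsmul_eq_mul]
    linarith
  -- the upper bound
  obtain ⟨C, hC⟩ : ∃ C : AddChar G ℂ → ℝ, ∀ ψ, C ψ = if ψ ∈ Λ then Real.cosh (1 / 2) else 1 :=
    ⟨_, fun _ => rfl⟩
  obtain ⟨d, hdd⟩ : ∃ d : AddChar G ℂ → ℂ,
      ∀ ψ, d ψ = if ψ ∈ Λ then ((Real.sinh (1 / 2) : ℝ) : ℂ) * c ψ else 0 := ⟨_, fun _ => rfl⟩
  have hsub : AddDissociated {ψ | d ψ ≠ 0} := by
    refine hd.subset fun ψ hψ => ?_
    by_contra h
    apply hψ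
    rw [hdd, if_neg (by simpa using h)]
  have hrand := AddDissociated.randomisation C d hsub
  have hprodC : ∏ ψ, C ψ = Real.cosh (1 / 2) ^ Λ.card := by
    rw [← Finset.prod_subset (Finset.subset_univ Λ)]
    · rw [Finset.prod_congr rfl (g := fun _ => Real.cosh (1 / 2))
        (fun ψ hψ => by rw [hC, if_pos hψ]), Finset.prod_const]
    · intro ψ _ hψ
      rw [hC, if_neg hψ]
  have hup : ∀ a : G, Real.exp (g a / 2) ≤ ∏ ψ, (C ψ + (d ψ * ψ a).re) := by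
    intro a
    have h1 : ∏ ψ, (C ψ + (d ψ * ψ a).re) =
        ∏ ψ ∈ Λ, (Real.cosh (1 / 2) + Real.sinh (1 / 2) * (c ψ * ψ a).re) := by
      rw [← Finset.prod_subset (Finset.subset_univ Λ)]
      · refine Finset.prod_congr rfl fun ψ hψ => ?_
        rw [hC, hdd, if_pos hψ, if_pos hψ, mul_assoc, Complex.re_ofReal_mul]
      · intro ψ _ hψ
        rw [hC, hdd, if_neg hψ, if_neg hψ, zero_mul, Complex.zero_re, add_zero]
    rw [h1, hg, Finset.sum_div, Real.exp_sum]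
    refine Finset.prod_le_prod (fun ψ _ => (Real.exp_pos _).le) fun ψ _ => ?_
    apply chang_exp
    refine (Complex.abs_re_le_norm _).trans ?_
    rw [norm_mul, hc1, one_mul, AddChar.norm_apply]
  have hupsum : ∑ a : G, Real.exp (g a / 2) ≤ Fintype.card G * Real.exp (Λ.card / 8) := by
    have h1 : ∑ a : G, ∏ ψ, (C ψ + (d ψ * ψ a).re) =
        Fintype.card G * Real.cosh (1 / 2) ^ Λ.card := by
      rw [← hprodC, ← hrand, Fintype.expect_eq_sum_div_card]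
      field_simp
    refine (Finset.sum_le_sum fun a _ => hup a).trans ?_
    rw [h1]
    refine mul_le_mul_of_nonneg_left ?_ hN0.le
    have h2 := Real.cosh_le_exp_half_sq (1 / 2)
    have h3 : Real.exp (Λ.card / 8) = Real.exp ((1 / 2) ^ 2 / 2) ^ Λ.card := by
      rw [← Real.exp_nat_mul]
      congr 1
      ring
    rw [h3]
    exact pow_le_pow_left₀ (Real.cosh_pos _).le h2 _
  have hmid : ∑ t ∈ T, Real.exp (g t / 2) ≤ ∑ a : G, Real.exp (g a / 2) :=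
    Finset.sum_le_sum_of_subset_of_nonneg (Finset.subset_univ T)
      (fun a _ _ => (Real.exp_pos _).le)
  have hall : (T.card : ℝ) * Real.exp (Λ.card / 4) ≤
      Fintype.card G * Real.exp (Λ.card / 8) := hlow.trans (hmid.trans hupsum)
  have h8 : Real.exp (Λ.card / 4 : ℝ) = Real.exp (Λ.card / 8) * Real.exp (Λ.card / 8) := by
    rw [← Real.exp_add]
    congr 1
    ring
  have h9 : Real.exp (Λ.card / 8 : ℝ) ≤ (Fintype.card G : ℝ) / T.card := by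
    rw [le_div_iff₀ hT0]
    have h10 : Real.exp (Λ.card / 8 : ℝ) * T.card * Real.exp (Λ.card / 8) ≤
        Fintype.card G * Real.exp (Λ.card / 8) := by
      rw [h8] at hall
      linarith
    exact le_of_mul_le_mul_right h10 (Real.exp_pos _)
  have h11 := (Real.le_log_iff_exp_le (div_pos hN0 hT0)).2 h9
  linarith

theorem chang {G : Type*} [AddCommGroup G] [Fintype G] [DecidableEq G] (T : Finset G)
    (hT : T.Nonempty) : ∃ Λ : Finset (AddChar G ℂ),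
      (Λ.card : ℝ) ≤ 8 * Real.log ((Fintype.card G : ℝ) / T.card) ∧
      ∀ ψ : AddChar G ℂ, 1 / 2 ≤ ‖∑ t ∈ T, ψ t‖ / T.card →
        ∃ ε : AddChar G ℂ → ℤ, (∀ χ, ε χ = -1 ∨ ε χ = 0 ∨ ε χ = 1) ∧ ∑ χ ∈ Λ, ε χ • χ = ψ := by
  classical
  have hT0 : (0 : ℝ) < T.card := by
    exact_mod_cast hT.card_pos
  have hle : (T.card : ℝ) ≤ Fintype.card G := by
    exact_mod_cast T.card_le_univ
  have hL : 0 ≤ 8 * Real.log ((Fintype.card G : ℝ) / T.card) := by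
    have h1 : 1 ≤ (Fintype.card G : ℝ) / T.card := by
      rw [le_div_iff₀ hT0, one_mul]
      exact hle
    have h2 := Real.log_nonneg h1
    linarith
  obtain ⟨Λ, -, h1, h2⟩ := Finset.exists_subset_addSpan_card_le_of_forall_addDissociated
    (s := (Finset.univ : Finset (AddChar G ℂ)).filter
      fun ψ => 1 / 2 ≤ ‖∑ t ∈ T, ψ t‖ / T.card)
    (d := ⌊8 * Real.log ((Fintype.card G : ℝ) / T.card)⌋₊) (by
      intro Λ hΛ hd
      rw [Nat.le_floor_iff hL]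
      refine chang_card T hT Λ hd fun ψ hψ => ?_
      exact (Finset.mem_filter.1 (hΛ hψ)).2)
  refine ⟨Λ, (Nat.cast_le.2 h1).trans (Nat.floor_le hL), fun ψ hψ => ?_⟩
  exact Finset.mem_addSpan.1 (h2 (Finset.mem_filter.2 ⟨Finset.mem_univ _, hψ⟩))

end BlkAR
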