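import Pool.Agent.Work.MP_763b10_co.AR.Defs

/-!
# MP_763b10_co, board modar, module Model (M)

Ruzsa's model lemma (order 6) in `ℤ²`.

Proof. Let `N = 4 |6A - 6A|`. Choose `M` larger than all coordinates of `6A - 6A` (`× 4`): `θ(x, y) = x + M y` is injective on `6A - 6A`
(only `θ(u) = 0 → u = 0` for `u ∈ 6A - 6A` is needed) and additive. Choose a prime `p` larger than `|θ(u)|` for all `u ∈ 6A - 6A`, `p > 2N + 2`
and `p > 2 |6A - 6A| + 2`.
For `λ ∈ {1, .., p-1}` let `r_λ(x) = (λ θ(x)) mod p ∈ {0, .., p-1}`. Claim: some `λ` has, for all `u ∈ 6A - 6A`, `u ≠ 0`, with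
`v = (λ θ(u)) mod p ∈ {1, .., p-1}`: `N ∤ v` and `N ∤ v - p`. Indeed for given `u` the map `λ ↦ v` is a bijection of `{1, .., p-1}`, the number of
`v` with `N ∣ v` is `≤ (p-1)/N`, with `N ∣ p - v` `≤ (p-1)/N`; in total at most `|6A - 6A| * 2(p-1)/N = (p-1)/2 < p - 1` bad `λ`.
Fix it. By pigeonhole some `j ∈ {0, .., 5}` has `|A'| ≥ |A|/6` for `A' = {x ∈ A : j p ≤ 6 r_λ(x) < (j+1) p}`. `φ(x) = (r_λ(x) : ZMod N)`.
For `x_i, y_i ∈ A'`: `D = ∑ r_λ(x_i) - ∑ r_λ(y_i)` satisfies `|D| < p` and `D ≡ λ θ(u) mod p`, `u = ∑ x_i - ∑ y_i ∈ 6A - 6A`.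
If `u = 0`: `p ∣ D`, so `D = 0` and `∑ φ(x_i) = ∑ φ(y_i)`. If `u ≠ 0`: `D ∈ {v, v - p}` is not divisible by `N`, so `∑ φ(x_i) ≠ ∑ φ(y_i)`.
-/

set_option autoImplicit false

namespace BlkAR

open Finset
open scoped Pointwise

private theorem sum_mem_nsmul_aux {G : Type*} [AddCommMonoid G] [DecidableEq G] (A : Finset G) :
    ∀ (n : ℕ) (x : Fin n → G), (∀ i, x i ∈ A) → ∑ i, x i ∈ n • A := by
  intro n
  induction n with
  | zero =>
    intro x _
    simp
  | succ n ih =>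
    intro x hx
    rw [Fin.sum_univ_castSucc, succ_nsmul]
    exact add_mem_add (ih _ fun i => hx _) (hx _)

private theorem count_aux {p N : ℕ} (hp : p.Prime) (t : ℤ) (ht : ¬ (p : ℤ) ∣ t) :
    ((Ioc 0 (p - 1)).filter fun lam : ℕ => (N : ℤ) ∣ ((lam : ℤ) * t) % p).card ≤ (p - 1) / N := by
  have hpp := hp.pos
  have hpz : (0 : ℤ) < p := by exact_mod_cast hpp
  have hprime : Prime (p : ℤ) := Nat.prime_iff_prime_int.1 hp
  rw [← Nat.Ioc_filter_dvd_card_eq_div (p - 1) N]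
  apply card_le_card_of_injOn (fun lam : ℕ => (((lam : ℤ) * t) % p).toNat)
  · intro lam h
    rw [mem_coe, mem_filter, mem_Ioc] at h
    obtain ⟨⟨h1, h2⟩, h3⟩ := h
    have h4 : 0 ≤ ((lam : ℤ) * t) % p := Int.emod_nonneg _ hpz.ne'
    have h5 : ((lam : ℤ) * t) % p < p := Int.emod_lt_of_pos _ hpz
    have h6 : ((lam : ℤ) * t) % p ≠ 0 := by
      intro h7
      have h8 : (p : ℤ) ∣ lam * t := Int.dvd_of_emod_eq_zero h7
      rcases hprime.dvd_or_dvd h8 with h9 | h9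
      · have h10 : p ∣ lam := by exact_mod_cast h9
        have h11 := Nat.le_of_dvd h1 h10
        omega
      · exact ht h9
    rw [mem_coe, mem_filter, mem_Ioc]
    refine ⟨⟨?_, ?_⟩, ?_⟩
    · dsimp only
      omega
    · dsimp only
      omega
    · have h7 : ((((lam : ℤ) * t) % p).toNat : ℤ) = ((lam : ℤ) * t) % p := Int.toNat_of_nonneg h4
      have h8 : (N : ℤ) ∣ ((((lam : ℤ) * t) % p).toNat : ℤ) := by rw [h7]; exact h3
      exact_mod_cast h8
  · intro a ha b hb hab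
    rw [mem_coe, mem_filter, mem_Ioc] at ha hb
    dsimp only at hab
    have h4 : 0 ≤ ((a : ℤ) * t) % p := Int.emod_nonneg _ hpz.ne'
    have h5 : 0 ≤ ((b : ℤ) * t) % p := Int.emod_nonneg _ hpz.ne'
    have h6 : ((a : ℤ) * t) % p = ((b : ℤ) * t) % p := by omega
    have h7 : (p : ℤ) ∣ ((a : ℤ) - b) * t := by
      have h8 := (Int.emod_emod_of_dvd ((a : ℤ) * t) (dvd_refl (p : ℤ)))
      have h9 : (p : ℤ) ∣ (a : ℤ) * t - (b : ℤ) * t := Int.ModEq.dvd h6.symm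
      have h10 : ((a : ℤ) - b) * t = (a : ℤ) * t - (b : ℤ) * t := by ring
      rw [h10]
      exact h9
    rcases hprime.dvd_or_dvd h7 with h8 | h8
    · have h9 : (a : ℤ) - b = 0 := by
        apply Int.eq_zero_of_abs_lt_dvd h8
        rw [abs_lt]
        omega
      omega
    · exact absurd h8 ht

private theorem theta_aux (U : Finset (ℤ × ℤ)) :
    ∃ M : ℤ, ∀ u ∈ U, u.1 + M * u.2 = 0 → u = 0 := by
  refine ⟨(U.sup fun u => u.1.natAbs : ℕ) + 1, ?_⟩
  intro u hu h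
  have h1 : u.1.natAbs ≤ U.sup fun u => u.1.natAbs :=
    Finset.le_sup (f := fun u : ℤ × ℤ => u.1.natAbs) hu
  obtain ⟨B, hB⟩ : ∃ B : ℕ, B = U.sup fun u => u.1.natAbs := ⟨_, rfl⟩
  rw [← hB] at h h1
  have h2 : |u.1| ≤ B := by
    rw [Int.abs_eq_natAbs]
    exact_mod_cast h1
  have h3 : u.2 = 0 := by
    by_contra h4
    have h5 : 1 ≤ |u.2| := Int.one_le_abs h4
    have h6 : u.1 = -(((B : ℤ) + 1) * u.2) := by linarith
    have h7 : |u.1| = ((B : ℤ) + 1) * |u.2| := by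
      rw [h6, abs_neg, abs_mul, abs_of_nonneg (by omega : (0 : ℤ) ≤ (B : ℤ) + 1)]
    nlinarith
  rw [h3] at h
  ext
  · simpa using h
  · exact h3

/-- The choice of the multiplier. -/
private theorem mult_aux (U : Finset (ℤ × ℤ)) (hU : U.Nonempty) (M : ℤ)
    (hM : ∀ u ∈ U, u.1 + M * u.2 = 0 → u = 0) :
    ∃ (p : ℕ) (lam : ℤ), p.Prime ∧ ∀ u ∈ U, u ≠ 0 → ∀ D : ℤ, |D| < p →
      (p : ℤ) ∣ D - lam * (u.1 + M * u.2) → ¬ ((4 * U.card : ℕ) : ℤ) ∣ D := by
  classical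
  obtain ⟨p, hp1, hp⟩ := Nat.exists_infinite_primes
    ((U.sup fun u => (u.1 + M * u.2).natAbs) + 3)
  have hUc : 0 < U.card := hU.card_pos
  have hth : ∀ u ∈ U, u ≠ 0 → ¬ (p : ℤ) ∣ (u.1 + M * u.2) := by
    intro u hu hu0 h
    have h1 : (u.1 + M * u.2).natAbs ≤ U.sup fun u => (u.1 + M * u.2).natAbs :=
      Finset.le_sup (f := fun u : ℤ × ℤ => (u.1 + M * u.2).natAbs) hu
    have h2 : u.1 + M * u.2 = 0 := by
      apply Int.eq_zero_of_abs_lt_dvd h
      rw [Int.abs_eq_natAbs]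
      have h3 : (u.1 + M * u.2).natAbs < p := by omega
      exact_mod_cast h3
    exact hu0 (hM u hu h2)
  obtain ⟨bad, hbad⟩ : ∃ bad : ℤ × ℤ → Finset ℕ, bad = fun u =>
      ((Ioc 0 (p - 1)).filter fun lam : ℕ => ((4 * U.card : ℕ) : ℤ) ∣
        ((lam : ℤ) * (u.1 + M * u.2)) % p) ∪
      ((Ioc 0 (p - 1)).filter fun lam : ℕ => ((4 * U.card : ℕ) : ℤ) ∣
        ((lam : ℤ) * (-(u.1 + M * u.2))) % p) := ⟨_, rfl⟩
  have hcard : ((U.filter fun u => u ≠ 0).biUnion bad).card < (Ioc 0 (p - 1)).card := by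
    refine (card_biUnion_le).trans_lt ?_
    have h1 : ∀ u ∈ U.filter (fun u => u ≠ 0), (bad u).card ≤ 2 * ((p - 1) / (4 * U.card)) := by
      intro u hu
      rw [mem_filter] at hu
      rw [hbad]
      refine (card_union_le _ _).trans ?_
      have h2 := count_aux (N := 4 * U.card) hp (u.1 + M * u.2) (hth u hu.1 hu.2)
      have h3 := count_aux (N := 4 * U.card) hp (-(u.1 + M * u.2))
        (by rw [dvd_neg]; exact hth u hu.1 hu.2)
      omega
    refine (sum_le_sum h1).trans_lt ?_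
    rw [sum_const, smul_eq_mul, Nat.card_Ioc]
    have h2 : (U.filter fun u => u ≠ 0).card ≤ U.card := card_filter_le _ _
    have h3 : 4 * U.card * ((p - 1) / (4 * U.card)) ≤ p - 1 := Nat.mul_div_le _ _
    have h4 : (U.filter fun u => u ≠ 0).card * (2 * ((p - 1) / (4 * U.card))) ≤
        U.card * (2 * ((p - 1) / (4 * U.card))) := Nat.mul_le_mul_right _ h2
    have h5 : 2 * (U.card * (2 * ((p - 1) / (4 * U.card)))) =
        4 * U.card * ((p - 1) / (4 * U.card)) := by ring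
    omega
  obtain ⟨lam, hlam, hnot⟩ := exists_mem_notMem_of_card_lt_card hcard
  refine ⟨p, lam, hp, ?_⟩
  intro u hu hu0 D hD hdvd hND
  apply hnot
  rw [mem_biUnion]
  refine ⟨u, mem_filter.2 ⟨hu, hu0⟩, ?_⟩
  rw [hbad]
  rw [mem_union, mem_filter, mem_filter]
  have hpz : (0 : ℤ) < p := by exact_mod_cast hp.pos
  rcases le_or_gt 0 D with h | h
  · left
    refine ⟨hlam, ?_⟩
    have h1 : ((lam : ℤ) * (u.1 + M * u.2)) % p = D := by
      have h2 : ((lam : ℤ) * (u.1 + M * u.2)) % p = D % p := (Int.emod_emod_of_dvd _ (dvd_refl _)).symm.trans (by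
        have h3 : (lam : ℤ) * (u.1 + M * u.2) ≡ D [ZMOD p] := Int.modEq_iff_dvd.2 hdvd
        rw [Int.emod_emod_of_dvd _ (dvd_refl _)]
        exact h3)
      rw [h2, Int.emod_eq_of_lt h (abs_lt.1 hD).2]
    rw [h1]
    exact hND
  · right
    refine ⟨hlam, ?_⟩
    have h1 : ((lam : ℤ) * (-(u.1 + M * u.2))) % p = -D := by
      have h3 : (lam : ℤ) * (-(u.1 + M * u.2)) ≡ -D [ZMOD p] := by
        apply Int.modEq_iff_dvd.2
        obtain ⟨w, hw⟩ := hdvd
        exact ⟨-w, by linear_combination -hw⟩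
      rw [h3, Int.emod_eq_of_lt (by omega) (by have := (abs_lt.1 hD).1; omega)]
    rw [h1, dvd_neg]
    exact hND

theorem model (A : Finset (ℤ × ℤ)) (hA : A.Nonempty) : ∃ A' ⊆ A, A.card ≤ 6 * A'.card ∧
    ∃ (N : ℕ) (_ : NeZero N) (φ : ℤ × ℤ → ZMod N), N ≤ 4 * (6 • A - 6 • A).card ∧
      ∀ x y : Fin 6 → ℤ × ℤ, (∀ i, x i ∈ A') → (∀ i, y i ∈ A') →
        (∑ i, φ (x i) = ∑ i, φ (y i) ↔ ∑ i, x i = ∑ i, y i) := by
  classical
  obtain ⟨U, hU⟩ : ∃ U : Finset (ℤ × ℤ), U = 6 • A - 6 • A := ⟨_, rfl⟩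
  have hUn : U.Nonempty := by
    rw [hU]
    exact (hA.nsmul).sub (hA.nsmul)
  obtain ⟨M, hM⟩ := theta_aux U
  obtain ⟨p, lam, hp, hlam⟩ := mult_aux U hUn M hM
  have hpz : (0 : ℤ) < p := by exact_mod_cast hp.pos
  have hUc : 0 < U.card := hUn.card_pos
  obtain ⟨r, hr⟩ : ∃ r : ℤ × ℤ → ℤ, r = fun x => (lam * (x.1 + M * x.2)) % p := ⟨_, rfl⟩
  have hr0 : ∀ x, 0 ≤ r x := by
    intro x
    rw [hr]
    exact Int.emod_nonneg _ hpz.ne'
  have hr1 : ∀ x, r x < p := by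
    intro x
    rw [hr]
    exact Int.emod_lt_of_pos _ hpz
  have hr2 : ∀ x, (p : ℤ) ∣ r x - lam * (x.1 + M * x.2) := by
    intro x
    rw [hr]
    have h1 := Int.mul_ediv_add_emod (lam * (x.1 + M * x.2)) p
    exact ⟨-((lam * (x.1 + M * x.2)) / p), by linarith⟩
  -- pigeonhole
  obtain ⟨j, hj⟩ : ∃ j : ℤ, A.card ≤ 6 * (A.filter fun x => 6 * r x / p = j).card := by
    by_contra hcon
    push Not at hcon
    have h1 : ∀ x ∈ A, 6 * r x / p ∈ Ico (0 : ℤ) 6 := by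
      intro x _
      rw [mem_Ico]
      constructor
      · exact Int.ediv_nonneg (by have := hr0 x; omega) hpz.le
      · rw [Int.ediv_lt_iff_lt_mul hpz]
        have := hr1 x
        omega
    have h2 := card_eq_sum_card_fiberwise h1
    have h3 : 6 * A.card = ∑ j ∈ Ico (0 : ℤ) 6, 6 * (A.filter fun x => 6 * r x / p = j).card := by
      rw [← mul_sum, ← h2]
    have h4 : ∑ j ∈ Ico (0 : ℤ) 6, 6 * (A.filter fun x => 6 * r x / p = j).card <
        ∑ j ∈ Ico (0 : ℤ) 6, A.card :=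
      sum_lt_sum_of_nonempty ⟨0, by simp⟩ (fun j _ => hcon j)
    rw [sum_const, Int.card_Ico, ← h3] at h4
    simp at h4
  refine ⟨A.filter fun x => 6 * r x / p = j, filter_subset _ _, hj, 4 * U.card,
    ⟨by omega⟩, fun x => ((r x : ℤ) : ZMod (4 * U.card)), by rw [hU], ?_⟩
  intro x y hx hy
  have hxj : ∀ i, p * j ≤ 6 * r (x i) ∧ 6 * r (x i) < p * j + p := by
    intro i
    have h1 := (mem_filter.1 (hx i)).2
    have h2 := Int.mul_ediv_add_emod (6 * r (x i)) p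
    have h3 := Int.emod_nonneg (6 * r (x i)) hpz.ne'
    have h4 := Int.emod_lt_of_pos (6 * r (x i)) hpz
    rw [h1] at h2
    constructor <;> linarith
  have hyj : ∀ i, p * j ≤ 6 * r (y i) ∧ 6 * r (y i) < p * j + p := by
    intro i
    have h1 := (mem_filter.1 (hy i)).2
    have h2 := Int.mul_ediv_add_emod (6 * r (y i)) p
    have h3 := Int.emod_nonneg (6 * r (y i)) hpz.ne'
    have h4 := Int.emod_lt_of_pos (6 * r (y i)) hpz
    rw [h1] at h2
    constructor <;> linarith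
  obtain ⟨D, hD⟩ : ∃ D : ℤ, D = ∑ i, (r (x i) - r (y i)) := ⟨_, rfl⟩
  have hDp : |D| < p := by
    have h1 : ∀ i ∈ (univ : Finset (Fin 6)), 6 * (r (x i) - r (y i)) < p := by
      intro i _
      have := hxj i
      have := hyj i
      linarith
    have h2 : ∀ i ∈ (univ : Finset (Fin 6)), -(p : ℤ) < 6 * (r (x i) - r (y i)) := by
      intro i _
      have := hxj i
      have := hyj i
      linarith
    have h3 := sum_lt_sum_of_nonempty univ_nonempty h1
    have h4 := sum_lt_sum_of_nonempty univ_nonempty h2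
    rw [← mul_sum, ← hD, sum_const, card_univ, Fintype.card_fin] at h3 h4
    rw [abs_lt]
    constructor
    · have : (6 : ℤ) * (-p) < 6 * D := by simpa using h4
      linarith
    · have : (6 : ℤ) * D < 6 * p := by simpa using h3
      linarith
  have hDu : (p : ℤ) ∣ D - lam * ((∑ i, x i - ∑ i, y i).1 + M * (∑ i, x i - ∑ i, y i).2) := by
    have h1 : D - lam * ((∑ i, x i - ∑ i, y i).1 + M * (∑ i, x i - ∑ i, y i).2) =
        ∑ i, ((r (x i) - lam * ((x i).1 + M * (x i).2)) -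
          (r (y i) - lam * ((y i).1 + M * (y i).2))) := by
      rw [hD, Prod.fst_sub, Prod.snd_sub, Prod.fst_sum, Prod.snd_sum, Prod.fst_sum, Prod.snd_sum]
      simp only [sum_sub_distrib, ← mul_sum, sum_add_distrib]
      ring
    rw [h1]
    exact dvd_sum fun i _ => dvd_sub (hr2 _) (hr2 _)
  have hcast : ∑ i, ((r (x i) : ℤ) : ZMod (4 * U.card)) = ∑ i, ((r (y i) : ℤ) : ZMod (4 * U.card)) ↔
      ((4 * U.card : ℕ) : ℤ) ∣ D := by
    rw [← ZMod.intCast_zmod_eq_zero_iff_dvd, hD]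
    push_cast
    rw [sum_sub_distrib, sub_eq_zero]
  have hmem : ∑ i, x i - ∑ i, y i ∈ U := by
    rw [hU]
    exact sub_mem_sub (sum_mem_nsmul_aux A 6 x fun i => (mem_filter.1 (hx i)).1)
      (sum_mem_nsmul_aux A 6 y fun i => (mem_filter.1 (hy i)).1)
  rw [hcast]
  constructor
  · intro h
    by_contra hne
    exact hlam _ hmem (sub_ne_zero.2 hne) D hDp hDu h
  · intro h
    have h0 : ∑ i, x i - ∑ i, y i = 0 := sub_eq_zero.2 h
    rw [h0] at hDu
    have h1 : (p : ℤ) ∣ D := by simpa using hDu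
    rw [Int.eq_zero_of_abs_lt_dvd h1 hDp]
    exact dvd_zero _

end BlkAR
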