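import Pool.Agent.Work.MP_763b10_co.AR.Defs

/-!
# MP_763b10_co, board modar, module Pig (S-M)

A nonzero element of a Bohr set by the pigeonhole principle.

Proof. Map `x ∈ G` to `(⌊(Re (χ x) + 1)/η⌋, ⌊(Im (χ x) + 1)/η⌋)_{χ ∈ Λ}` with `η = 2/M`, `M = ⌈3/δ⌉`; each coordinate takes at most
`M + 1` values in each component, at most `(M + 1)² ≤ (8/δ)²` (as `M + 1 ≤ 3/δ + 2 ≤ 5/δ`). If `|G| > (8/δ)^(2|Λ|)` two different `x, x'` have
the same image; `v = x - x'`: `‖χ v - 1‖ = ‖χ x - χ x'‖ ≤ √2 η ≤ 3/M ≤ δ`.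
-/

set_option autoImplicit false

namespace BlkAR

open Finset

private theorem pig_abs {a b : ℝ} (ha : 0 ≤ a) (hb : 0 ≤ b) (h : ⌊a⌋₊ = ⌊b⌋₊) : |a - b| < 1 := by
  have h1 := Nat.floor_le ha
  have h2 := Nat.lt_floor_add_one a
  have h3 := Nat.floor_le hb
  have h4 := Nat.lt_floor_add_one b
  rw [h] at h1 h2
  rw [abs_lt]
  constructor
  · linarith
  · linarith

theorem pig {G : Type*} [AddCommGroup G] [Fintype G] [DecidableEq G] (Λ : Finset (AddChar G ℂ))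
    (δ : ℝ) (h0 : 0 < δ) (h1 : δ ≤ 1) (h : (8 / δ) ^ (2 * Λ.card) < Fintype.card G) :
    ∃ v : G, v ≠ 0 ∧ ∀ χ ∈ Λ, ‖χ v - 1‖ ≤ δ := by
  obtain ⟨M, hM⟩ : ∃ M : ℕ, M = ⌈3 / δ⌉₊ := ⟨_, rfl⟩
  have hM1 : 3 / δ ≤ M := by
    rw [hM]
    exact Nat.le_ceil _
  have hM2 : (M : ℝ) < 3 / δ + 1 := by
    rw [hM]
    exact Nat.ceil_lt_add_one (by positivity)
  have hδ1 : 1 ≤ 1 / δ := by
    rw [le_div_iff₀ h0]
    linarith
  have hM0 : 0 < (M : ℝ) := lt_of_lt_of_le (by positivity) hM1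
  have hM5 : (M : ℝ) + 1 ≤ 8 / δ := by
    have e1 : 8 / δ = 8 * (1 / δ) := by ring
    have e2 : 3 / δ = 3 * (1 / δ) := by ring
    rw [e2] at hM2
    rw [e1]
    linarith
  have hre : ∀ (χ : AddChar G ℂ) (x : G), 0 ≤ ((χ x).re + 1) * (M / 2) ∧
      ((χ x).re + 1) * (M / 2) ≤ M := by
    intro χ x
    have hn : ‖χ x‖ = 1 := AddChar.norm_apply χ x
    have h2 := Complex.abs_re_le_norm (χ x)
    rw [hn, abs_le] at h2
    constructor
    · have : 0 ≤ (χ x).re + 1 := by linarith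
      positivity
    · have h3 : ((χ x).re + 1) * (M / 2) ≤ 2 * (M / 2) :=
        mul_le_mul_of_nonneg_right (by linarith) (by positivity)
      linarith
  have him : ∀ (χ : AddChar G ℂ) (x : G), 0 ≤ ((χ x).im + 1) * (M / 2) ∧
      ((χ x).im + 1) * (M / 2) ≤ M := by
    intro χ x
    have hn : ‖χ x‖ = 1 := AddChar.norm_apply χ x
    have h2 := Complex.abs_im_le_norm (χ x)
    rw [hn, abs_le] at h2
    constructor
    · have : 0 ≤ (χ x).im + 1 := by linarith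
      positivity
    · have h3 : ((χ x).im + 1) * (M / 2) ≤ 2 * (M / 2) :=
        mul_le_mul_of_nonneg_right (by linarith) (by positivity)
      linarith
  have hfl : ∀ r : ℝ, 0 ≤ r → r ≤ M → ⌊r⌋₊ < M + 1 := by
    intro r hr hrM
    have h2 : ⌊r⌋₊ ≤ M := by
      have := Nat.floor_le hr
      have h3 : ((⌊r⌋₊ : ℕ) : ℝ) ≤ M := by linarith
      exact_mod_cast h3
    omega
  have hcard : Fintype.card (Λ → Fin (M + 1) × Fin (M + 1)) < Fintype.card G := by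
    rw [Fintype.card_fun, Fintype.card_prod, Fintype.card_fin, Fintype.card_coe]
    have h2 : (((M + 1) * (M + 1)) ^ Λ.card : ℝ) ≤ (8 / δ) ^ (2 * Λ.card) := by
      rw [pow_mul]
      refine pow_le_pow_left₀ (by positivity) ?_ _
      rw [pow_two]
      exact mul_le_mul hM5 hM5 (by positivity) (by positivity)
    have h3 := lt_of_le_of_lt h2 h
    exact_mod_cast h3
  obtain ⟨x, y, hxy, he⟩ := Fintype.exists_ne_map_eq_of_card_lt
    (fun (x : G) (χ : Λ) => ((⟨⌊(((χ : AddChar G ℂ) x).re + 1) * (M / 2)⌋₊,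
      hfl _ (hre χ x).1 (hre χ x).2⟩ : Fin (M + 1)),
      (⟨⌊(((χ : AddChar G ℂ) x).im + 1) * (M / 2)⌋₊,
      hfl _ (him χ x).1 (him χ x).2⟩ : Fin (M + 1)))) hcard
  refine ⟨x - y, sub_ne_zero.2 hxy, fun χ hχ => ?_⟩
  have h2 := congrFun he ⟨χ, hχ⟩
  simp only [Prod.mk.injEq, Fin.mk.injEq] at h2
  have h3 := pig_abs (hre χ x).1 (hre χ y).1 h2.1
  have h4 := pig_abs (him χ x).1 (him χ y).1 h2.2
  have e3 : ((χ x).re + 1) * (M / 2) - ((χ y).re + 1) * (M / 2) =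
      ((χ x).re - (χ y).re) * (M / 2) := by ring
  have e4 : ((χ x).im + 1) * (M / 2) - ((χ y).im + 1) * (M / 2) =
      ((χ x).im - (χ y).im) * (M / 2) := by ring
  rw [e3] at h3
  rw [e4] at h4
  have hny : ‖χ y‖ = 1 := AddChar.norm_apply χ y
  have hy0 : χ y ≠ 0 := by
    intro h5
    rw [h5, norm_zero] at hny
    exact zero_ne_one hny
  have h5 : χ (x - y) - 1 = (χ x - χ y) / χ y := by
    rw [AddChar.map_sub_eq_div, sub_div, div_self hy0]
  rw [h5, norm_div, hny, div_one]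
  have h6 : ‖χ x - χ y‖ ^ 2 = ((χ x).re - (χ y).re) ^ 2 + ((χ x).im - (χ y).im) ^ 2 := by
    rw [← Complex.normSq_eq_norm_sq, Complex.normSq_apply, Complex.sub_re, Complex.sub_im]
    ring
  have h7 : (((χ x).re - (χ y).re) * (M / 2)) ^ 2 < 1 := by
    rw [sq_lt_one_iff_abs_lt_one]
    exact h3
  have h8 : (((χ x).im - (χ y).im) * (M / 2)) ^ 2 < 1 := by
    rw [sq_lt_one_iff_abs_lt_one]
    exact h4
  have h9 : 3 ≤ M * δ := by
    rw [div_le_iff₀ h0] at hM1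
    exact hM1
  have h10 : ‖χ x - χ y‖ ^ 2 * M ^ 2 ≤ δ ^ 2 * M ^ 2 := by
    rw [h6]
    nlinarith
  have h11 : ‖χ x - χ y‖ ^ 2 ≤ δ ^ 2 := le_of_mul_le_mul_right h10 (by positivity)
  exact (abs_le.1 (abs_le_of_sq_le_sq h11 h0.le)).2

end BlkAR
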