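import Pool.Agent.Work.MP_763b10_co.AR.Cs
import Pool.Agent.Work.MP_763b10_co.AR.Chang
import Pool.Agent.Work.MP_763b10_co.AR.Boot
import Pool.Agent.Work.MP_763b10_co.AR.Pig
import Pool.Agent.Work.MP_763b10_co.AR.Model

/-!
# MP_763b10_co, board modar, module Ap (M-L)

A long arithmetic progression in `2A' - 2A'` for a set of small doubling in `ℤ²`.

Proof. `model` gives `A'`, `N`, `φ`; `A₀ = φ(A') ⊆ ZMod N`. `φ` is injective on `A'` (take `x_i = x`, `y_i = y` for one `i` and `x_i = y_i = x` for the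
others), and `|A₀ - A₀| = |A' - A'|` (only `≤` is needed: if `x - y = x' - y'` then `φ x - φ y = φ x' - φ y'`, same padding), so
`|A₀ - A₀| ≤ |A - A| ≤ K |A| ≤ K₁ |A₀|`, `K₁ = 6K`. `k` = least with `16 K₁ ≤ 4^k` (`k ≤ C log K`), `l = ⌈4096 k² log(128 k K₁³)⌉₊ ≤ C (log K)³`.
`cs` gives `T ⊆ A₀`, `|T| ≥ |A₀|/(2K₁^l)`; `chang` gives `Λ`, and `N ≤ 4 |6A - 6A| ≤ 4 K¹² |A| ≤ 24 K¹² |A₀|`
(`pluennecke_ruzsa_inequality_nsmul_sub_nsmul_sub`), so `|Λ| ≤ 8 log(48 K¹² K₁^l) ≤ C (log K)⁴`. Let `δ = 1/(8 K₁ (|Λ|+1) K²⁰)`. As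
`log N ≥ log |A₀| ≥ log |A| - log 6` and `2|Λ| log(8/δ) ≤ C (log K)⁵`, `pig` gives `v₀ ≠ 0` in `ZMod N` with `‖χ v₀ - 1‖ ≤ δ` on `Λ`
(`K ≥ 2`: all lower order terms are absorbed in `C (log K)⁵`). For `j ≤ K²⁰`: `‖χ (j v₀) - 1‖ ≤ j δ ≤ 1/(8K₁(|Λ|+1))`, so by `boot`
`j v₀ ∈ (A₀ + A₀) - (A₀ + A₀)`, say `j v₀ = φ b₁ + φ b₂ - φ b₃ - φ b₄`; put `w_j = b₁ + b₂ - b₃ - b₄`, `v = w_1`. By the property of `φ`
(six terms on each side) `w_0 = 0`, `w_{j+1} = w_j + v`, so `w_j = j v`; and `v ≠ 0` because otherwise `v₀ = 0`.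
-/

set_option autoImplicit false

namespace BlkAR

open Finset
open scoped Pointwise

private theorem vec6 {α : Type*} {A : Finset α} {a1 a2 a3 a4 a5 a6 : α} (h1 : a1 ∈ A)
    (h2 : a2 ∈ A) (h3 : a3 ∈ A) (h4 : a4 ∈ A) (h5 : a5 ∈ A) (h6 : a6 ∈ A) :
    ∀ i, (![a1, a2, a3, a4, a5, a6] : Fin 6 → α) i ∈ A
  | 0 => h1
  | 1 => h2
  | 2 => h3
  | 3 => h4
  | 4 => h5
  | 5 => h6

private theorem F6 {N : ℕ} {A : Finset (ℤ × ℤ)} {φ : ℤ × ℤ → ZMod N}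
    (hφ : ∀ x y : Fin 6 → ℤ × ℤ, (∀ i, x i ∈ A) → (∀ i, y i ∈ A) →
      (∑ i, φ (x i) = ∑ i, φ (y i) ↔ ∑ i, x i = ∑ i, y i))
    {a1 a2 a3 a4 a5 a6 b1 b2 b3 b4 b5 b6 : ℤ × ℤ} (h1 : a1 ∈ A) (h2 : a2 ∈ A) (h3 : a3 ∈ A)
    (h4 : a4 ∈ A) (h5 : a5 ∈ A) (h6 : a6 ∈ A) (k1 : b1 ∈ A) (k2 : b2 ∈ A) (k3 : b3 ∈ A)
    (k4 : b4 ∈ A) (k5 : b5 ∈ A) (k6 : b6 ∈ A) :
    φ a1 + φ a2 + φ a3 + φ a4 + φ a5 + φ a6 = φ b1 + φ b2 + φ b3 + φ b4 + φ b5 + φ b6 ↔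
      a1 + a2 + a3 + a4 + a5 + a6 = b1 + b2 + b3 + b4 + b5 + b6 := by
  have h := hφ ![a1, a2, a3, a4, a5, a6] ![b1, b2, b3, b4, b5, b6] (vec6 h1 h2 h3 h4 h5 h6)
    (vec6 k1 k2 k3 k4 k5 k6)
  rw [Fin.sum_univ_six, Fin.sum_univ_six, Fin.sum_univ_six, Fin.sum_univ_six] at h
  exact h

private theorem F2 {N : ℕ} {A : Finset (ℤ × ℤ)} {φ : ℤ × ℤ → ZMod N}
    (hφ : ∀ x y : Fin 6 → ℤ × ℤ, (∀ i, x i ∈ A) → (∀ i, y i ∈ A) →
      (∑ i, φ (x i) = ∑ i, φ (y i) ↔ ∑ i, x i = ∑ i, y i))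
    {a1 a2 b1 b2 : ℤ × ℤ} (h1 : a1 ∈ A) (h2 : a2 ∈ A) (k1 : b1 ∈ A) (k2 : b2 ∈ A) :
    φ a1 + φ a2 = φ b1 + φ b2 ↔ a1 + a2 = b1 + b2 := by
  have h := F6 hφ h1 h2 h1 h1 h1 h1 k1 k2 h1 h1 h1 h1
  simpa only [add_left_inj] using h

private theorem F1 {N : ℕ} {A : Finset (ℤ × ℤ)} {φ : ℤ × ℤ → ZMod N}
    (hφ : ∀ x y : Fin 6 → ℤ × ℤ, (∀ i, x i ∈ A) → (∀ i, y i ∈ A) →
      (∑ i, φ (x i) = ∑ i, φ (y i) ↔ ∑ i, x i = ∑ i, y i))
    {a b : ℤ × ℤ} (h1 : a ∈ A) (h2 : b ∈ A) (h : φ a = φ b) : a = b := by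
  have h3 := (F2 hφ h1 h1 h2 h1).1 (by rw [h])
  exact add_right_cancel h3

private theorem card_img {N : ℕ} {A : Finset (ℤ × ℤ)} {φ : ℤ × ℤ → ZMod N}
    (hφ : ∀ x y : Fin 6 → ℤ × ℤ, (∀ i, x i ∈ A) → (∀ i, y i ∈ A) →
      (∑ i, φ (x i) = ∑ i, φ (y i) ↔ ∑ i, x i = ∑ i, y i)) :
    ((A.image φ) - (A.image φ)).card ≤ (A - A).card := by
  have hch : ∀ d : ℤ × ℤ, ∃ p : (ℤ × ℤ) × (ℤ × ℤ),
      d ∈ A - A → p.1 ∈ A ∧ p.2 ∈ A ∧ p.1 - p.2 = d := by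
    intro d
    by_cases h : d ∈ A - A
    · obtain ⟨a, ha, b, hb, hab⟩ := Finset.mem_sub.1 h
      exact ⟨(a, b), fun _ => ⟨ha, hb, hab⟩⟩
    · exact ⟨(0, 0), fun h' => absurd h' h⟩
  choose g hg using hch
  have hsub : (A.image φ) - (A.image φ) ⊆
      (A - A).image (fun d => φ (g d).1 - φ (g d).2) := by
    intro z hz
    obtain ⟨u, hu, w, hw, rfl⟩ := Finset.mem_sub.1 hz
    obtain ⟨a, ha, rfl⟩ := Finset.mem_image.1 hu
    obtain ⟨b, hb, rfl⟩ := Finset.mem_image.1 hw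
    refine Finset.mem_image.2 ⟨a - b, Finset.sub_mem_sub ha hb, ?_⟩
    obtain ⟨h1, h2, h3⟩ := hg (a - b) (Finset.sub_mem_sub ha hb)
    have h4 : φ (g (a - b)).1 + φ b = φ a + φ (g (a - b)).2 :=
      (F2 hφ h1 hb ha h2).2 (sub_eq_sub_iff_add_eq_add.1 h3)
    exact sub_eq_sub_iff_add_eq_add.2 h4
  exact (Finset.card_le_card hsub).trans Finset.card_image_le

private theorem lift_prog {N : ℕ} {A : Finset (ℤ × ℤ)} {φ : ℤ × ℤ → ZMod N}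
    (hφ : ∀ x y : Fin 6 → ℤ × ℤ, (∀ i, x i ∈ A) → (∀ i, y i ∈ A) →
      (∑ i, φ (x i) = ∑ i, φ (y i) ↔ ∑ i, x i = ∑ i, y i))
    {v₀ : ZMod N} (hv : v₀ ≠ 0) (J : ℕ → Prop) (hJ : ∀ j, J (j + 1) → J j) (hJ1 : J 1)
    (h : ∀ j, J j → j • v₀ ∈ (A.image φ + A.image φ) - (A.image φ + A.image φ)) :
    ∃ v : ℤ × ℤ, v ≠ 0 ∧ ∀ j, J j → j • v ∈ (A + A) - (A + A) := by
  have h' : ∀ j, J j → ∃ b1 b2 b3 b4, b1 ∈ A ∧ b2 ∈ A ∧ b3 ∈ A ∧ b4 ∈ A ∧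
      j • v₀ = φ b1 + φ b2 - (φ b3 + φ b4) := by
    intro j hj
    obtain ⟨u, hu, w, hw, huw⟩ := Finset.mem_sub.1 (h j hj)
    obtain ⟨u1, hu1, u2, hu2, rfl⟩ := Finset.mem_add.1 hu
    obtain ⟨w1, hw1, w2, hw2, rfl⟩ := Finset.mem_add.1 hw
    obtain ⟨b1, hb1, rfl⟩ := Finset.mem_image.1 hu1
    obtain ⟨b2, hb2, rfl⟩ := Finset.mem_image.1 hu2
    obtain ⟨b3, hb3, rfl⟩ := Finset.mem_image.1 hw1
    obtain ⟨b4, hb4, rfl⟩ := Finset.mem_image.1 hw2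
    exact ⟨b1, b2, b3, b4, hb1, hb2, hb3, hb4, huw.symm⟩
  obtain ⟨c1, c2, c3, c4, hc1, hc2, hc3, hc4, hc⟩ := h' 1 hJ1
  rw [one_nsmul] at hc
  refine ⟨c1 + c2 - (c3 + c4), ?_, ?_⟩
  · intro h0
    have h1 := (F2 hφ hc1 hc2 hc3 hc4).2 (sub_eq_zero.1 h0)
    apply hv
    rw [hc, h1, sub_self]
  · have key : ∀ j, J j → ∃ b1 b2 b3 b4, b1 ∈ A ∧ b2 ∈ A ∧ b3 ∈ A ∧ b4 ∈ A ∧
        j • v₀ = φ b1 + φ b2 - (φ b3 + φ b4) ∧
        j • (c1 + c2 - (c3 + c4)) = b1 + b2 - (b3 + b4) := by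
      intro j
      induction j with
      | zero =>
        intro hj
        obtain ⟨b1, b2, b3, b4, hb1, hb2, hb3, hb4, hb⟩ := h' 0 hj
        refine ⟨b1, b2, b3, b4, hb1, hb2, hb3, hb4, hb, ?_⟩
        rw [zero_nsmul] at hb
        have h1 := (F2 hφ hb1 hb2 hb3 hb4).1 (sub_eq_zero.1 hb.symm)
        rw [h1, sub_self, zero_nsmul]
      | succ j ih =>
        intro hj
        obtain ⟨b1, b2, b3, b4, hb1, hb2, hb3, hb4, hb, hb'⟩ := ih (hJ j hj)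
        obtain ⟨d1, d2, d3, d4, hd1, hd2, hd3, hd4, hd⟩ := h' (j + 1) hj
        refine ⟨d1, d2, d3, d4, hd1, hd2, hd3, hd4, hd, ?_⟩
        have h1 : φ d1 + φ d2 + φ b3 + φ b4 + φ c3 + φ c4 =
            φ d3 + φ d4 + φ b1 + φ b2 + φ c1 + φ c2 := by
          have h2 : (j + 1) • v₀ = j • v₀ + v₀ := succ_nsmul _ _
          rw [hd, hb] at h2
          linear_combination h2 + hc
        have h3 := (F6 hφ hd1 hd2 hb3 hb4 hc3 hc4 hd3 hd4 hb1 hb2 hc1 hc2).1 h1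
        rw [succ_nsmul, hb']
        linear_combination -h3
    intro j hj
    obtain ⟨b1, b2, b3, b4, hb1, hb2, hb3, hb4, -, hb'⟩ := key j hj
    rw [hb']
    exact Finset.sub_mem_sub (Finset.add_mem_add hb1 hb2) (Finset.add_mem_add hb3 hb4)

private theorem L_half {K : ℝ} (hK : 2 ≤ K) : 1 / 2 ≤ Real.log K := by
  have h1 := Real.log_two_gt_d9
  have h2 : Real.log 2 ≤ Real.log K := Real.log_le_log (by norm_num) hK
  linarith

private theorem L_le {K : ℝ} (hK : 2 ≤ K) : Real.log K ≤ K := by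
  have h1 := Real.log_le_sub_one_of_pos (show 0 < K by linarith)
  linarith

private theorem pow_ge {K : ℝ} (hK : 2 ≤ K) (n : ℕ) : (2 : ℝ) ^ n ≤ K ^ n :=
  pow_le_pow_left₀ (by norm_num) hK n

private theorem numk {K : ℝ} (hK : 2 ≤ K) :
    1 ≤ ⌈8 * Real.log K⌉₊ ∧ 16 * (6 * K) ≤ 4 ^ ⌈8 * Real.log K⌉₊ ∧
      (⌈8 * Real.log K⌉₊ : ℝ) ≤ 10 * Real.log K := by
  have hL := L_half hK
  have hk := Nat.le_ceil (8 * Real.log K)
  have hk' := (Nat.ceil_lt_add_one (show 0 ≤ 8 * Real.log K by linarith)).le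
  refine ⟨?_, ?_, by linarith⟩
  · rw [Nat.one_le_ceil_iff]
    linarith
  · have h1 : Real.exp (8 * Real.log K) = K ^ 8 := by
      have h2 : 8 * Real.log K = Real.log (K ^ 8) := by
        rw [Real.log_pow]
        norm_num
      rw [h2, Real.exp_log (by positivity)]
    have h2 : Real.exp (8 * Real.log K) ≤ Real.exp (⌈8 * Real.log K⌉₊ : ℝ) :=
      Real.exp_le_exp.2 hk
    have h3 : Real.exp (⌈8 * Real.log K⌉₊ : ℝ) ≤ 4 ^ ⌈8 * Real.log K⌉₊ := by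
      have h4 : Real.exp (⌈8 * Real.log K⌉₊ : ℝ) = (Real.exp 1) ^ ⌈8 * Real.log K⌉₊ := by
        rw [← Real.exp_nat_mul, mul_one]
      rw [h4]
      refine pow_le_pow_left₀ (Real.exp_pos 1).le ?_ _
      have := Real.exp_one_lt_d9
      linarith
    have h5 : 16 * (6 * K) ≤ K ^ 8 := by
      have h6 := pow_ge hK 7
      have h7 : K ^ 8 = K ^ 7 * K := by ring
      rw [h7]
      nlinarith
    linarith

private theorem numl {K : ℝ} (hK : 2 ≤ K) {k : ℕ} (hk : (k : ℝ) ≤ 10 * Real.log K)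
    (hk1 : 1 ≤ k) :
    4096 * (k : ℝ) ^ 2 * Real.log (128 * k * (6 * K) ^ 3) ≤ ⌈10 ^ 7 * Real.log K ^ 3⌉₊ ∧
      (⌈10 ^ 7 * Real.log K ^ 3⌉₊ : ℝ) ≤ (10 ^ 7 + 8) * Real.log K ^ 3 := by
  have hL := L_half hK
  have hLK := L_le hK
  obtain ⟨L, hLd⟩ : ∃ L, L = Real.log K := ⟨_, rfl⟩
  rw [← hLd] at hk hL hLK ⊢
  have hK0 : 0 < K := by linarith
  have hk1' : (1 : ℝ) ≤ k := by exact_mod_cast hk1
  have hL3 : 1 / 8 ≤ L ^ 3 := by
    have := pow_le_pow_left₀ (show (0 : ℝ) ≤ 1 / 2 by norm_num) hL 3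
    norm_num at this
    linarith
  constructor
  · have h1 : Real.log (128 * k * (6 * K) ^ 3) ≤ 24 * L := by
      have h2 : 128 * (k : ℝ) * (6 * K) ^ 3 ≤ K ^ 24 := by
        have a1 : (128 : ℝ) ≤ K ^ 7 := by
          have := pow_ge hK 7
          norm_num at this
          exact this
        have a2 : (k : ℝ) ≤ K ^ 5 := by
          have b1 : (16 : ℝ) ≤ K ^ 4 := by
            have := pow_ge hK 4
            norm_num at this
            exact this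
          have b2 : K ^ 5 = K ^ 4 * K := by ring
          rw [b2]
          nlinarith
        have a3 : (6 * K) ^ 3 ≤ K ^ 12 := by
          have b1 : 6 * K ≤ K ^ 4 := by
            have := pow_ge hK 3
            have b2 : K ^ 4 = K ^ 3 * K := by ring
            rw [b2]
            nlinarith
          have b3 := pow_le_pow_left₀ (by positivity) b1 3
          have b4 : (K ^ 4) ^ 3 = K ^ 12 := by ring
          rw [b4] at b3
          exact b3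
        calc 128 * (k : ℝ) * (6 * K) ^ 3 ≤ K ^ 7 * K ^ 5 * K ^ 12 := by gcongr
          _ = K ^ 24 := by ring
      have h3 := Real.log_le_log (by positivity) h2
      rw [Real.log_pow, ← hLd] at h3
      exact_mod_cast h3
    have h4 : (k : ℝ) ^ 2 ≤ 100 * L ^ 2 := by
      have := pow_le_pow_left₀ (by positivity) hk 2
      linarith [this, (by ring : (10 * L) ^ 2 = 100 * L ^ 2)]
    calc 4096 * (k : ℝ) ^ 2 * Real.log (128 * k * (6 * K) ^ 3)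
        ≤ 4096 * (k : ℝ) ^ 2 * (24 * L) := by gcongr
      _ ≤ 4096 * (100 * L ^ 2) * (24 * L) := by gcongr
      _ = 9830400 * L ^ 3 := by ring
      _ ≤ 10 ^ 7 * L ^ 3 := by nlinarith
      _ ≤ _ := Nat.le_ceil _
  · have h1 := (Nat.ceil_lt_add_one (show 0 ≤ 10 ^ 7 * L ^ 3 by positivity)).le
    linarith

private theorem numM {K : ℝ} (hK : 2 ≤ K) {l : ℕ}
    (hl : (l : ℝ) ≤ (10 ^ 7 + 8) * Real.log K ^ 3) {M : ℝ}
    (hM : M ≤ 8 * Real.log (48 * K ^ 12 * (6 * K) ^ l)) :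
    M ≤ 4 * 10 ^ 8 * Real.log K ^ 4 := by
  have hL := L_half hK
  obtain ⟨L, hLd⟩ : ∃ L, L = Real.log K := ⟨_, rfl⟩
  rw [← hLd] at hl hL ⊢
  have hK0 : 0 < K := by linarith
  have hL3 : 1 / 8 ≤ L ^ 3 := by
    have := pow_le_pow_left₀ (show (0 : ℝ) ≤ 1 / 2 by norm_num) hL 3
    norm_num at this
    linarith
  have h1 : 48 * K ^ 12 * (6 * K) ^ l ≤ K ^ (18 + 4 * l) := by
    have a1 : (48 : ℝ) ≤ K ^ 6 := by
      have := pow_ge hK 6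
      norm_num at this
      linarith
    have a2 : (6 * K) ^ l ≤ K ^ (4 * l) := by
      have b1 : 6 * K ≤ K ^ 4 := by
        have := pow_ge hK 3
        have b2 : K ^ 4 = K ^ 3 * K := by ring
        rw [b2]
        nlinarith
      rw [pow_mul]
      exact pow_le_pow_left₀ (by positivity) b1 l
    calc 48 * K ^ 12 * (6 * K) ^ l ≤ K ^ 6 * K ^ 12 * K ^ (4 * l) := by gcongr
      _ = K ^ (18 + 4 * l) := by rw [pow_add]; ring
  have h2 := Real.log_le_log (by positivity) h1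
  rw [Real.log_pow, ← hLd] at h2
  push_cast at h2
  have h3 : (l : ℝ) * L ≤ (10 ^ 7 + 8) * L ^ 4 := by
    calc (l : ℝ) * L ≤ ((10 ^ 7 + 8) * L ^ 3) * L := by gcongr
      _ = (10 ^ 7 + 8) * L ^ 4 := by ring
  have h4 : L ≤ 8 * L ^ 4 := by
    have : 8 * L ^ 4 = 8 * L ^ 3 * L := by ring
    nlinarith
  nlinarith

private theorem numN {K : ℝ} (hK : 2 ≤ K) {M : ℕ} (hM : (M : ℝ) ≤ 4 * 10 ^ 8 * Real.log K ^ 4)
    {N a : ℝ} (ha : 0 < a) (haN : a ≤ 6 * N) (hlog : 10 ^ 11 * Real.log K ^ 5 ≤ Real.log a) :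
    (8 / (1 / (8 * (6 * K) * (M + 1) * K ^ 20))) ^ (2 * M) < N := by
  have hL := L_half hK
  have hLK := L_le hK
  obtain ⟨L, hLd⟩ : ∃ L, L = Real.log K := ⟨_, rfl⟩
  rw [← hLd] at hM hL hLK hlog
  have hK0 : 0 < K := by linarith
  have hN : 0 < N := by linarith
  have hL4 : 1 / 16 ≤ L ^ 4 := by
    have := pow_le_pow_left₀ (show (0 : ℝ) ≤ 1 / 2 by norm_num) hL 4
    norm_num at this
    linarith
  have hL5 : 1 / 32 ≤ L ^ 5 := by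
    have := pow_le_pow_left₀ (show (0 : ℝ) ≤ 1 / 2 by norm_num) hL 5
    norm_num at this
    linarith
  have h1 : (M : ℝ) + 1 ≤ K ^ 33 := by
    have a1 : (M : ℝ) + 1 ≤ 5 * 10 ^ 8 * L ^ 4 := by linarith
    have a2 : (5 : ℝ) * 10 ^ 8 ≤ K ^ 29 := by
      have := pow_ge hK 29
      norm_num at this
      linarith
    calc (M : ℝ) + 1 ≤ 5 * 10 ^ 8 * L ^ 4 := a1
      _ ≤ K ^ 29 * K ^ 4 := by gcongr
      _ = K ^ 33 := by ring
  have h2 : 8 / (1 / (8 * (6 * K) * ((M : ℝ) + 1) * K ^ 20)) ≤ K ^ 63 := by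
    rw [div_div_eq_mul_div, div_one]
    have a1 : (384 : ℝ) ≤ K ^ 9 := by
      have := pow_ge hK 9
      norm_num at this
      linarith
    calc 8 * (8 * (6 * K) * ((M : ℝ) + 1) * K ^ 20) = 384 * K ^ 21 * ((M : ℝ) + 1) := by ring
      _ ≤ K ^ 9 * K ^ 21 * K ^ 33 := by gcongr
      _ = K ^ 63 := by ring
  have h3 : (8 / (1 / (8 * (6 * K) * ((M : ℝ) + 1) * K ^ 20))) ^ (2 * M) ≤ K ^ (126 * M) := by
    have a1 := pow_le_pow_left₀ (by positivity) h2 (2 * M)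
    rw [← pow_mul] at a1
    have a2 : 63 * (2 * M) = 126 * M := by ring
    rw [a2] at a1
    exact a1
  refine lt_of_le_of_lt h3 ?_
  rw [← Real.log_lt_log_iff (by positivity) hN, Real.log_pow, ← hLd]
  have h4 : Real.log a ≤ Real.log 6 + Real.log N := by
    rw [← Real.log_mul (by norm_num) hN.ne']
    exact Real.log_le_log ha haN
  have h5 : Real.log 6 ≤ 2 := by
    rw [Real.log_le_iff_le_exp (by norm_num)]
    have a1 := Real.exp_one_gt_d9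
    have a2 : Real.exp 2 = Real.exp 1 * Real.exp 1 := by
      rw [← Real.exp_add]
      norm_num
    rw [a2]
    nlinarith
  have h6 : (M : ℝ) * L ≤ 4 * 10 ^ 8 * L ^ 5 := by
    calc (M : ℝ) * L ≤ (4 * 10 ^ 8 * L ^ 4) * L := by gcongr
      _ = 4 * 10 ^ 8 * L ^ 5 := by ring
  push_cast
  nlinarith

private theorem pow_near {z : ℂ} (hz : ‖z‖ = 1) (j : ℕ) : ‖z ^ j - 1‖ ≤ j * ‖z - 1‖ := by
  induction j with
  | zero => simp
  | succ j ih =>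
    have e : z ^ (j + 1) - 1 = z ^ j * (z - 1) + (z ^ j - 1) := by ring
    rw [e]
    refine (norm_add_le _ _).trans ?_
    rw [norm_mul, norm_pow, hz, one_pow, one_mul]
    push_cast
    linarith

theorem ap : ∃ C : ℝ, 0 < C ∧ ∀ (A : Finset (ℤ × ℤ)) (K : ℝ), 2 ≤ K → A.Nonempty →
    ((A - A).card : ℝ) ≤ K * A.card → C * (Real.log K) ^ 5 ≤ Real.log A.card →
    ∃ A' ⊆ A, A.card ≤ 6 * A'.card ∧ ∃ v : ℤ × ℤ, v ≠ 0 ∧
      ∀ j : ℕ, (j : ℝ) ≤ K ^ 20 → j • v ∈ (A' + A') - (A' + A') := by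
  refine ⟨10 ^ 11, by norm_num, ?_⟩
  intro A K hK hA hAA hlog
  obtain ⟨A', hA', hcard, N, hN0, φ, hNb, hφ⟩ := model A hA
  refine ⟨A', hA', hcard, ?_⟩
  have hK0 : 0 < K := by linarith
  have hApos : 0 < A.card := hA.card_pos
  have hA'pos : 0 < A'.card := by omega
  have hA'n : A'.Nonempty := Finset.card_pos.1 hA'pos
  have hcardR : (A.card : ℝ) ≤ 6 * A'.card := by exact_mod_cast hcard
  obtain ⟨A₀, hA₀⟩ : ∃ A₀, A₀ = A'.image φ := ⟨_, rfl⟩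
  have hA₀n : A₀.Nonempty := by
    rw [hA₀]
    exact hA'n.image φ
  have hA₀c : A₀.card = A'.card := by
    rw [hA₀]
    exact Finset.card_image_of_injOn fun a ha b hb hab => F1 hφ ha hb hab
  have hA₀pos : (0 : ℝ) < A₀.card := by
    rw [hA₀c]
    exact_mod_cast hA'pos
  have hd : ((A₀ - A₀).card : ℝ) ≤ (6 * K) * A₀.card := by
    have h1 : (A₀ - A₀).card ≤ (A - A).card := by
      rw [hA₀]
      exact (card_img hφ).trans (Finset.card_le_card (Finset.sub_subset_sub hA' hA'))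
    have h2 : ((A₀ - A₀).card : ℝ) ≤ (A - A).card := by exact_mod_cast h1
    rw [hA₀c]
    nlinarith
  -- the parameters
  obtain ⟨k, hk⟩ : ∃ k, k = ⌈8 * Real.log K⌉₊ := ⟨_, rfl⟩
  obtain ⟨hk1, hk2, hk3⟩ := numk hK
  rw [← hk] at hk1 hk2 hk3
  obtain ⟨l, hl⟩ : ∃ l, l = ⌈10 ^ 7 * Real.log K ^ 3⌉₊ := ⟨_, rfl⟩
  obtain ⟨hl1, hl2⟩ := numl hK hk3 hk1
  rw [← hl] at hl1 hl2
  obtain ⟨T, hTA, hTc, hT⟩ := cs A₀ hA₀n (6 * K) hd k l hk1 hl1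
  have hK1l : (0 : ℝ) < (6 * K) ^ l := by positivity
  have hTpos : (0 : ℝ) < T.card := lt_of_lt_of_le (by positivity) hTc
  have hTn : T.Nonempty := Finset.card_pos.1 (by exact_mod_cast hTpos)
  obtain ⟨Λ, hΛc, hΛ⟩ := chang T hTn
  rw [ZMod.card] at hΛc
  have hNpos : (0 : ℝ) < N := by
    have := NeZero.pos N
    exact_mod_cast this
  have hNle : (N : ℝ) ≤ 24 * K ^ 12 * A₀.card := by
    have h1 : (N : ℝ) ≤ 4 * (6 • A - 6 • A).card := by exact_mod_cast hNb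
    have h2 := pluennecke_ruzsa_inequality_nsmul_sub_nsmul_sub hA A 6 6
    have h3 : ((6 • A - 6 • A).card : ℝ) ≤
        (((A - A).card : ℝ) / A.card) ^ (6 + 6) * A.card := by
      have h2' := (NNRat.cast_le (K := ℝ)).2 h2
      push_cast at h2'
      exact h2'
    have hAposR : (0 : ℝ) < A.card := by exact_mod_cast hApos
    have h4 : ((A - A).card : ℝ) / A.card ≤ K := by
      rw [div_le_iff₀ hAposR]
      exact hAA
    have h5 : (((A - A).card : ℝ) / A.card) ^ (6 + 6) * A.card ≤ K ^ 12 * (6 * A'.card) := by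
      gcongr
    rw [hA₀c]
    linarith
  have hM : (Λ.card : ℝ) ≤ 4 * 10 ^ 8 * Real.log K ^ 4 := by
    refine numM hK hl2 (hΛc.trans ?_)
    refine mul_le_mul_of_nonneg_left (Real.log_le_log (by positivity) ?_) (by norm_num)
    rw [div_le_iff₀ hTpos]
    have h1 : (A₀.card : ℝ) ≤ T.card * (2 * (6 * K) ^ l) := by
      rw [div_le_iff₀ (by positivity)] at hTc
      exact hTc
    calc (N : ℝ) ≤ 24 * K ^ 12 * A₀.card := hNle
      _ ≤ 24 * K ^ 12 * (T.card * (2 * (6 * K) ^ l)) := by gcongr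
      _ = 48 * K ^ 12 * (6 * K) ^ l * T.card := by ring
  have hNA : (A.card : ℝ) ≤ 6 * N := by
    have h1 : A₀.card ≤ N := by
      have := Finset.card_le_univ A₀
      rwa [ZMod.card] at this
    have h2 : (A₀.card : ℝ) ≤ N := by exact_mod_cast h1
    rw [hA₀c] at h2
    linarith
  have hAposR : (0 : ℝ) < A.card := by exact_mod_cast hApos
  have hbig := numN hK hM hAposR hNA hlog
  obtain ⟨δ, hδ⟩ : ∃ δ : ℝ, δ = 1 / (8 * (6 * K) * (Λ.card + 1) * K ^ 20) := ⟨_, rfl⟩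
  rw [← hδ] at hbig
  have hδ0 : 0 < δ := by
    rw [hδ]
    positivity
  have hden : (1 : ℝ) ≤ 8 * (6 * K) * (Λ.card + 1) * K ^ 20 := by
    have a1 : (1 : ℝ) ≤ 8 * (6 * K) := by linarith
    have a2 : (1 : ℝ) ≤ (Λ.card : ℝ) + 1 := by
      have : (0 : ℝ) ≤ Λ.card := Nat.cast_nonneg _
      linarith
    have a3 : (1 : ℝ) ≤ K ^ 20 := one_le_pow₀ (by linarith)
    have a4 : (1 : ℝ) ≤ 8 * (6 * K) * (Λ.card + 1) := by nlinarith
    nlinarith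
  have hδ1 : δ ≤ 1 := by
    rw [hδ, div_le_one (by linarith)]
    exact hden
  obtain ⟨v₀, hv₀, hvΛ⟩ := pig Λ δ hδ0 hδ1 (by rw [ZMod.card]; exact hbig)
  refine lift_prog hφ hv₀ (fun j => (j : ℝ) ≤ K ^ 20) ?_ ?_ ?_
  · intro j hj
    push_cast at hj
    linarith
  · have : (1 : ℝ) ≤ K ^ 20 := one_le_pow₀ (by linarith)
    exact_mod_cast this
  · intro j hj
    rw [← hA₀]
    refine boot A₀ T hA₀n hTn (6 * K) (by linarith) hd k hk2 hT Λ hΛ (j • v₀) ?_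
    intro χ hχ
    rw [AddChar.map_nsmul_eq_pow]
    have h1 := pow_near (AddChar.norm_apply χ v₀) j
    have h2 := hvΛ χ hχ
    have h3 : (j : ℝ) * ‖χ v₀ - 1‖ ≤ K ^ 20 * δ := by
      refine mul_le_mul hj h2 (norm_nonneg _) (by positivity)
    have h4 : K ^ 20 * δ = 1 / (8 * (6 * K) * (Λ.card + 1)) := by
      rw [hδ]
      field_simp
    rw [← h4]
    exact h1.trans h3

end BlkAR
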