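import Pool.Agent.Work.MP_763b10_co.AR.Defs

/-!
# MP_763b10_co, board modar, module Bdf (S-M)

Facts on bounded bidegrees.

Proof. `bd_swap`: `(swap F).coeff i |>.coeff j = (F.coeff j).coeff i`. `bd_mul`: degrees of products and sums. `bd_dvd`: over a field (a domain is enough):
if `G = F H ≠ 0` the `Y`-degrees add (`natDegree_mul`) and the `X`-degrees (the `Y`-degrees after `swap`) add. `ev_dvd`: clear. `factors_card`: for a
nonzero `G` with `BD d G` the number of irreducible factors (with multiplicity) is at most `2 d`: an irreducible factor is not a unit, so it has positive degree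
in `Y` or in `X`; the degrees in `Y` add up to at most `d`, the same in `X` (induction on the multiset).
-/

set_option autoImplicit false

namespace BlkAR

open Finset Polynomial

private theorem bd_iff {K : Type*} [CommSemiring K] {d : ℕ} {F : K[X][X]} :
    BD d F ↔ ∀ i j, d < i ∨ d < j → (F.coeff j).coeff i = 0 := by
  constructor
  · rintro ⟨h1, h2⟩ i j (h | h)
    · exact coeff_eq_zero_of_natDegree_lt (lt_of_le_of_lt (h2 j) h)
    · rw [coeff_eq_zero_of_natDegree_lt (lt_of_le_of_lt h1 h), coeff_zero]
  · intro h
    constructor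
    · rw [natDegree_le_iff_coeff_eq_zero]
      intro j hj
      ext i
      rw [h i j (Or.inr hj), coeff_zero]
    · intro j
      rw [natDegree_le_iff_coeff_eq_zero]
      intro i hi
      exact h i j (Or.inl hi)

private theorem bd_coeff_swap {K : Type*} [CommSemiring K] (F : K[X][X]) (i j : ℕ) :
    ((Bivariate.swap F).coeff i).coeff j = (F.coeff j).coeff i := by
  induction F using Polynomial.induction_on' with
  | add p q hp hq =>
    rw [map_add, coeff_add, coeff_add, coeff_add, coeff_add, hp, hq]
  | monomial n f =>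
    induction f using Polynomial.induction_on' with
    | add p q hp hq =>
      have h1 : (monomial n (p + q) : K[X][X]) = monomial n p + monomial n q := map_add _ _ _
      rw [h1, map_add, coeff_add, coeff_add, coeff_add, coeff_add, hp, hq]
    | monomial m r =>
      rw [Bivariate.swap_monomial_monomial, coeff_monomial, coeff_monomial]
      by_cases h1 : m = i
      · by_cases h2 : n = j
        · rw [if_pos h1, if_pos h2, coeff_monomial, coeff_monomial, if_pos h1, if_pos h2]
        · rw [if_pos h1, if_neg h2, coeff_monomial, if_neg h2, coeff_zero]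
      · by_cases h2 : n = j
        · rw [if_neg h1, if_pos h2, coeff_monomial, if_neg h1, coeff_zero]
        · rw [if_neg h1, if_neg h2, coeff_zero, coeff_zero]

theorem bd_swap {K : Type*} [CommSemiring K] {d : ℕ} {F : K[X][X]} (h : BD d F) :
    BD d (Bivariate.swap F) := by
  rw [bd_iff] at h ⊢
  intro i j hij
  rw [bd_coeff_swap]
  exact h j i (Or.symm hij)

theorem bd_mul {K : Type*} [CommSemiring K] {d e : ℕ} {F G : K[X][X]} (h : BD d F) (h' : BD e G) :
    BD (d + e) (F * G) := by
  constructor
  · exact natDegree_mul_le.trans (Nat.add_le_add h.1 h'.1)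
  · intro i
    rw [coeff_mul]
    refine natDegree_sum_le_of_forall_le _ _ fun x _ => ?_
    exact natDegree_mul_le.trans (Nat.add_le_add (h.2 _) (h'.2 _))

theorem bd_dvd {K : Type*} [Field K] {d : ℕ} {F G : K[X][X]} (hG : G ≠ 0) (hd : F ∣ G)
    (h : BD d G) : BD d F := by
  obtain ⟨H, rfl⟩ := hd
  have hF : F ≠ 0 := left_ne_zero_of_mul hG
  have hH : H ≠ 0 := right_ne_zero_of_mul hG
  have hinj := (Bivariate.swap (R := K)).injective
  have h1 : F.natDegree ≤ d := by
    have h2 := h.1
    rw [natDegree_mul hF hH] at h2
    omega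
  have h3 : (Bivariate.swap F).natDegree ≤ d := by
    have h2 := (bd_swap h).1
    rw [map_mul, natDegree_mul ((map_ne_zero_iff _ hinj).2 hF) ((map_ne_zero_iff _ hinj).2 hH)] at h2
    omega
  rw [bd_iff]
  rintro i j (hi | hj)
  · rw [← bd_coeff_swap, coeff_eq_zero_of_natDegree_lt (lt_of_le_of_lt h3 hi), coeff_zero]
  · rw [coeff_eq_zero_of_natDegree_lt (lt_of_le_of_lt h1 hj), coeff_zero]

theorem ev_swap {K : Type*} [CommSemiring K] (F : K[X][X]) (x : K × K) :
    ev (Bivariate.swap F) x.swap = ev F x := by
  have h := Bivariate.aevalAeval_swap (A := K) x.2 x.1 F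
  rw [coe_aevalAeval_eq_evalEval, coe_aevalAeval_eq_evalEval] at h
  exact h

theorem ev_mul {K : Type*} [CommSemiring K] (F G : K[X][X]) (x : K × K) :
    ev (F * G) x = ev F x * ev G x := by
  unfold ev
  exact evalEval_mul _ _ _ _

theorem factors_card {K : Type*} [Field K] {d : ℕ} (s : Multiset K[X][X])
    (hs : ∀ F ∈ s, Irreducible F) (h : BD d s.prod) : Multiset.card s ≤ 2 * d := by
  have hinj := (Bivariate.swap (R := K)).injective
  have key : ∀ F : K[X][X], Irreducible F → 1 ≤ F.natDegree + (Bivariate.swap F).natDegree := by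
    intro F hF
    by_contra hlt
    have h1 : F.natDegree = 0 := by omega
    have h2 : (Bivariate.swap F).natDegree = 0 := by omega
    rw [eq_C_of_natDegree_eq_zero h1, Bivariate.swap_C, natDegree_map_eq_of_injective C_injective] at h2
    apply hF.not_isUnit
    rw [eq_C_of_natDegree_eq_zero h1, eq_C_of_natDegree_eq_zero h2, isUnit_C, isUnit_C]
    rw [isUnit_iff_ne_zero]
    intro h3
    apply hF.ne_zero
    rw [eq_C_of_natDegree_eq_zero h1, eq_C_of_natDegree_eq_zero h2, h3, C_0, C_0]
  have hmain : ∀ t : Multiset K[X][X], (∀ F ∈ t, Irreducible F) → t.prod ≠ 0 ∧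
      Multiset.card t ≤ t.prod.natDegree + (Bivariate.swap t.prod).natDegree := by
    intro t
    induction t using Multiset.induction_on with
    | empty =>
      intro _
      rw [Multiset.prod_zero, Multiset.card_zero]
      exact ⟨one_ne_zero, Nat.zero_le _⟩
    | cons F t ih =>
      intro ht
      obtain ⟨i1, i2⟩ := ih fun G hG => ht G (Multiset.mem_cons_of_mem hG)
      have hF := ht F (Multiset.mem_cons_self F t)
      have h1 := key F hF
      rw [Multiset.prod_cons, Multiset.card_cons]
      refine ⟨mul_ne_zero hF.ne_zero i1, ?_⟩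
      rw [map_mul, natDegree_mul hF.ne_zero i1,
        natDegree_mul ((map_ne_zero_iff _ hinj).2 hF.ne_zero) ((map_ne_zero_iff _ hinj).2 i1)]
      omega
  obtain ⟨-, h1⟩ := hmain s hs
  have h2 := h.1
  have h3 := (bd_swap h).1
  omega

end BlkAR
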