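import Pool.Agent.Work.MP_763b10_co.AR.Elim

/-!
# MP_763b10_co, board modar, module Bez (S)

Weak Bezout theorem.

Proof. `elim` for `F, G`: the first coordinates of common zeros are roots of `r ≠ 0`, at most `2d²` values; `elim` for `swap F, swap G` (`bd_swap`, `ev_swap`,
`swap` is an isomorphism, so it keeps `IsRelPrime`): at most `2d²` second coordinates.
-/

set_option autoImplicit false

namespace BlkAR

open Finset Polynomial

private theorem bez_one {K : Type*} [Field K] {d : ℕ} {F G : K[X][X]} (hF : BD d F)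
    (hG : BD d G) (h : IsRelPrime F G) : ∃ r : K[X], r ≠ 0 ∧ r.natDegree ≤ 2 * d ^ 2 ∧
      ∀ z : K × K, ev F z = 0 → ev G z = 0 → r.eval z.1 = 0 := by
  obtain ⟨r, hr, hd, U, V, hUV⟩ := elim hF hG h
  refine ⟨r, hr, hd, fun z h1 h2 => ?_⟩
  have h3 : (U * F + V * G).evalEval z.1 z.2 = (C r).evalEval z.1 z.2 := by rw [hUV]
  rw [evalEval_add, evalEval_mul, evalEval_mul, evalEval_C] at h3
  unfold ev at h1 h2
  rw [h1, h2, mul_zero, mul_zero, add_zero] at h3
  exact h3.symm

private theorem bez_swap {K : Type*} [Field K] {F G : K[X][X]} (h : IsRelPrime F G) :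
    IsRelPrime (Bivariate.swap F) (Bivariate.swap G) := by
  intro c h1 h2
  have h3 : Bivariate.swap c ∣ F := by
    have h4 := map_dvd (Bivariate.swap (R := K)) h1
    rwa [Bivariate.swap_swap_apply] at h4
  have h5 : Bivariate.swap c ∣ G := by
    have h4 := map_dvd (Bivariate.swap (R := K)) h2
    rwa [Bivariate.swap_swap_apply] at h4
  have h6 := (h h3 h5).map (Bivariate.swap (R := K))
  rwa [Bivariate.swap_swap_apply] at h6

theorem bez {K : Type*} [Field K] {d : ℕ} {F G : K[X][X]} (hF : BD d F) (hG : BD d G)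
    (h : IsRelPrime F G) (Z : Finset (K × K)) (hZ : ∀ z ∈ Z, ev F z = 0 ∧ ev G z = 0) :
    Z.card ≤ 4 * d ^ 4 := by
  classical
  obtain ⟨r, hr, hrd, hr0⟩ := bez_one hF hG h
  obtain ⟨t, ht, htd, ht0⟩ := bez_one (bd_swap hF) (bd_swap hG) (bez_swap h)
  have hsub : Z ⊆ r.roots.toFinset ×ˢ t.roots.toFinset := by
    intro z hz
    obtain ⟨h1, h2⟩ := hZ z hz
    rw [Finset.mem_product, Multiset.mem_toFinset, Multiset.mem_toFinset, mem_roots hr,
      mem_roots ht]
    refine ⟨hr0 z h1 h2, ?_⟩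
    have h3 := ht0 z.swap (by rw [ev_swap, h1]) (by rw [ev_swap, h2])
    exact h3
  have h1 : r.roots.toFinset.card ≤ 2 * d ^ 2 :=
    ((Multiset.toFinset_card_le _).trans (card_roots' r)).trans hrd
  have h2 : t.roots.toFinset.card ≤ 2 * d ^ 2 :=
    ((Multiset.toFinset_card_le _).trans (card_roots' t)).trans htd
  calc Z.card ≤ (r.roots.toFinset ×ˢ t.roots.toFinset).card := Finset.card_le_card hsub
    _ = r.roots.toFinset.card * t.roots.toFinset.card := Finset.card_product _ _
    _ ≤ (2 * d ^ 2) * (2 * d ^ 2) := Nat.mul_le_mul h1 h2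
    _ = 4 * d ^ 4 := by ring

end BlkAR
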