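import Pool.Agent.Work.MP_763b10_co.AR.Defs

/-!
# MP_763b10_co, board modar, module Bsg (M)

Balog-Szemeredi-Gowers (dependent random choice version).

Proof. `n = |P|`, `N(b) = {p ∈ P : (p, b) ∈ E}` for `b ∈ P`. `∑_b |N(b)| = |E| ≥ n²/K`, so `∑_b |N(b)|² ≥ n³/K²`.
For `(x, y) ∈ P²` let `codeg = #{b ∈ P : (x,b) ∈ E, (y,b) ∈ E}`; call `(x, y)` bad if `codeg < c n`, `c = 1/(32 K²)`.
`∑_b #{bad (x,y) ∈ N(b)²} = ∑_{bad} codeg ≤ c n³`. So `∑_b (|N(b)|² - 16 bad_b) ≥ n³/K² - 16 c n³ = n³/(2K²)` and some `b` has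
`|N(b)|² - 16 bad_b ≥ n²/(2K²)`. Put `A' = N(b)`: `|A'| ≥ n/(√2 K)` and `bad_b ≤ |A'|²/16`.
`A = {x ∈ A' : #{y ∈ A' : (x,y) bad} ≤ |A'|/4}`: `|A' \ A| ≤ |A'|/4`, so `|A| ≥ (3/4) |A'| ≥ n/(2K)` (badness is symmetric).
For `x, y ∈ A` at least `|A'|/2` elements `z ∈ A'` have `(x,z)`, `(y,z)` not bad; each gives `≥ (c n)²` pairs `(b₁, b₂)` with
`(x,b₁), (z,b₁), (z,b₂), (y,b₂) ∈ E`; with `s₁ = a x + b b₁`, `s₂ = a z + b b₁`, `s₃ = a z + b b₂`, `s₄ = a y + b b₂` in
`S = {a p + b p' : (p,p') ∈ E}` one has `a (x - y) = s₁ - s₂ + s₃ - s₄`. For fixed `(x, y)` the map `(z, b₁, b₂) ↦ (s₁, s₂, s₃, s₄)`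
is injective (`a, b ≠ 0`). Choose one `(x, y)` for each element of `A - A` (the elements `a (x - y)` are different for different
`x - y`): `|A - A| (|A'|/2) (c n)² ≤ |S|⁴ ≤ K⁴ n⁴`, so `|A - A| ≤ 2048 K⁸ n²/|A'| ≤ 2897 K⁹ n ≤ 5794 K¹⁰ |A| ≤ K²³ |A|` (`K ≥ 2`).
-/

set_option autoImplicit false

namespace BlkAR

open Finset
open scoped Pointwise

private theorem zsm_cancel {a : ℤ} (ha : a ≠ 0) {u v : ℤ × ℤ} (h : a • u = a • v) : u = v := by
  have h1 := congrArg Prod.fst h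
  have h2 := congrArg Prod.snd h
  simp only [Prod.smul_fst, Prod.smul_snd, smul_eq_mul] at h1 h2
  exact Prod.ext (mul_left_cancel₀ ha h1) (mul_left_cancel₀ ha h2)

/-- codegree. -/
private def cod (P : Finset (ℤ × ℤ)) (E : Finset ((ℤ × ℤ) × (ℤ × ℤ))) (x y : ℤ × ℤ) : ℕ :=
  (P.filter (fun b => (x, b) ∈ E ∧ (y, b) ∈ E)).card

private theorem cod_symm (P : Finset (ℤ × ℤ)) (E : Finset ((ℤ × ℤ) × (ℤ × ℤ))) (x y : ℤ × ℤ) :
    cod P E x y = cod P E y x := by
  unfold cod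
  congr 1
  apply filter_congr
  intro b _
  exact and_comm

/-- the choice of the neighbourhood. -/
private theorem choose_b {P : Finset (ℤ × ℤ)} {E : Finset ((ℤ × ℤ) × (ℤ × ℤ))} {K : ℝ}
    (hP : P.Nonempty) (hE : E ⊆ P ×ˢ P) (hK : 2 ≤ K) (hc : (P.card : ℝ) ^ 2 / K ≤ E.card) :
    ∃ A' ⊆ P, (P.card : ℝ) ^ 2 / (2 * K ^ 2) + 16 * (∑ x ∈ A',
      ((A'.filter (fun y => (cod P E x y : ℝ) < P.card / (32 * K ^ 2))).card : ℝ)) ≤
      (A'.card : ℝ) ^ 2 := by
  classical
  have hn : (0 : ℝ) < P.card := by exact_mod_cast hP.card_pos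
  have hK0 : 0 < K := by linarith
  -- the sum of the degrees
  have h1 : (E.card : ℝ) ≤ ∑ b ∈ P, ((P.filter (fun p => (p, b) ∈ E)).card : ℝ) := by
    have h2 : E ⊆ P.biUnion (fun b => (P.filter (fun p => (p, b) ∈ E)).image (fun p => (p, b))) := by
      intro x hx
      have h3 := mem_product.1 (hE hx)
      rw [mem_biUnion]
      exact ⟨x.2, h3.2, mem_image.2 ⟨x.1, mem_filter.2 ⟨h3.1, hx⟩, rfl⟩⟩
    have h3 : E.card ≤ ∑ b ∈ P, (P.filter (fun p => (p, b) ∈ E)).card := by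
      refine (card_le_card h2).trans (card_biUnion_le.trans ?_)
      exact sum_le_sum fun b _ => card_image_le
    exact_mod_cast h3
  have h2 : (∑ b ∈ P, ((P.filter (fun p => (p, b) ∈ E)).card : ℝ)) ^ 2 ≤
      P.card * ∑ b ∈ P, ((P.filter (fun p => (p, b) ∈ E)).card : ℝ) ^ 2 :=
    sq_sum_le_card_mul_sum_sq
  have h3 : (P.card : ℝ) ^ 3 / K ^ 2 ≤
      ∑ b ∈ P, ((P.filter (fun p => (p, b) ∈ E)).card : ℝ) ^ 2 := by
    have h4 : ((P.card : ℝ) ^ 2 / K) ^ 2 ≤
        P.card * ∑ b ∈ P, ((P.filter (fun p => (p, b) ∈ E)).card : ℝ) ^ 2 := by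
      refine le_trans (pow_le_pow_left₀ (by positivity) (hc.trans h1) 2) h2
    have h5 : ((P.card : ℝ) ^ 2 / K) ^ 2 = P.card * ((P.card : ℝ) ^ 3 / K ^ 2) := by
      field_simp
    rw [h5] at h4
    exact le_of_mul_le_mul_left h4 hn
  -- the bad pairs
  have h4 : ∑ b ∈ P, (∑ x ∈ P.filter (fun p => (p, b) ∈ E),
      (((P.filter (fun p => (p, b) ∈ E)).filter
        (fun y => (cod P E x y : ℝ) < P.card / (32 * K ^ 2))).card : ℝ)) ≤
      (P.card : ℝ) ^ 3 / (32 * K ^ 2) := by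
    have e1 : ∀ b ∈ P, (∑ x ∈ P.filter (fun p => (p, b) ∈ E),
        (((P.filter (fun p => (p, b) ∈ E)).filter
          (fun y => (cod P E x y : ℝ) < P.card / (32 * K ^ 2))).card : ℝ)) =
        ∑ x ∈ P, ∑ y ∈ P, if (cod P E x y : ℝ) < P.card / (32 * K ^ 2) then
          (if (x, b) ∈ E ∧ (y, b) ∈ E then (1 : ℝ) else 0) else 0 := by
      intro b _
      rw [sum_filter]
      refine sum_congr rfl fun x _ => ?_
      by_cases hx : (x, b) ∈ E
      · rw [if_pos hx, filter_filter, card_filter]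
        push_cast
        refine sum_congr rfl fun y _ => ?_
        by_cases hy : (y, b) ∈ E
        · by_cases hbad : (cod P E x y : ℝ) < P.card / (32 * K ^ 2)
          · rw [if_pos ⟨hy, hbad⟩, if_pos hbad, if_pos ⟨hx, hy⟩]
          · rw [if_neg (fun h => hbad h.2), if_neg hbad]
        · rw [if_neg (fun h => hy h.1)]
          split_ifs with h7 h8
          · exact absurd h8.2 hy
          · rfl
          · rfl
      · rw [if_neg hx]
        symm
        apply sum_eq_zero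
        intro y _
        split_ifs with h7 h8
        · exact absurd h8.1 hx
        · rfl
        · rfl
    rw [sum_congr rfl e1, sum_comm]
    have e2 : ∀ x ∈ P, ∑ b ∈ P, ∑ y ∈ P, (if (cod P E x y : ℝ) < P.card / (32 * K ^ 2) then
        (if (x, b) ∈ E ∧ (y, b) ∈ E then (1 : ℝ) else 0) else 0) ≤
        P.card * (P.card / (32 * K ^ 2)) := by
      intro x _
      rw [sum_comm]
      have e3 : ∀ y ∈ P, ∑ b ∈ P, (if (cod P E x y : ℝ) < P.card / (32 * K ^ 2) then
          (if (x, b) ∈ E ∧ (y, b) ∈ E then (1 : ℝ) else 0) else 0) ≤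
          P.card / (32 * K ^ 2) := by
        intro y _
        by_cases hbad : (cod P E x y : ℝ) < P.card / (32 * K ^ 2)
        · have e4 : ∑ b ∈ P, (if (cod P E x y : ℝ) < P.card / (32 * K ^ 2) then
            (if (x, b) ∈ E ∧ (y, b) ∈ E then (1 : ℝ) else 0) else 0) = cod P E x y := by
            unfold cod at hbad ⊢
            rw [card_filter]
            push_cast
            refine sum_congr rfl fun b _ => ?_
            rw [if_pos]
            rw [card_filter] at hbad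
            push_cast at hbad
            exact hbad
          rw [e4]
          exact hbad.le
        · have e4 : ∑ b ∈ P, (if (cod P E x y : ℝ) < P.card / (32 * K ^ 2) then
            (if (x, b) ∈ E ∧ (y, b) ∈ E then (1 : ℝ) else 0) else 0) = 0 := by
            apply sum_eq_zero
            intro b _
            rw [if_neg hbad]
          rw [e4]
          positivity
      refine (sum_le_sum e3).trans ?_
      rw [sum_const, nsmul_eq_mul]
    refine (sum_le_sum e2).trans ?_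
    rw [sum_const, nsmul_eq_mul]
    apply le_of_eq
    field_simp
  -- the average
  have h5 : ∑ b ∈ P, ((P.card : ℝ) ^ 2 / (2 * K ^ 2)) ≤
      ∑ b ∈ P, (((P.filter (fun p => (p, b) ∈ E)).card : ℝ) ^ 2 -
        16 * ∑ x ∈ P.filter (fun p => (p, b) ∈ E),
      (((P.filter (fun p => (p, b) ∈ E)).filter
        (fun y => (cod P E x y : ℝ) < P.card / (32 * K ^ 2))).card : ℝ)) := by
    rw [sum_sub_distrib, ← mul_sum, sum_const, nsmul_eq_mul]
    have e1 : (P.card : ℝ) * ((P.card : ℝ) ^ 2 / (2 * K ^ 2)) =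
        (P.card : ℝ) ^ 3 / K ^ 2 - 16 * ((P.card : ℝ) ^ 3 / (32 * K ^ 2)) := by
      field_simp
      ring
    rw [e1]
    linarith
  obtain ⟨b, -, hb⟩ := exists_le_of_sum_le hP h5
  refine ⟨P.filter (fun p => (p, b) ∈ E), filter_subset _ _, ?_⟩
  linarith

theorem bsg {P : Finset (ℤ × ℤ)} {E : Finset ((ℤ × ℤ) × (ℤ × ℤ))} {a b : ℤ} {K : ℝ}
    (hP : P.Nonempty) (hE : E ⊆ P ×ˢ P) (ha : a ≠ 0) (hb : b ≠ 0) (hK : 2 ≤ K)
    (hc : (P.card : ℝ) ^ 2 / K ≤ E.card)
    (hS : ((E.image fun x => a • x.1 + b • x.2).card : ℝ) ≤ K * P.card) :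
    ∃ A ⊆ P, (P.card : ℝ) / (2 * K) ≤ A.card ∧ ((A - A).card : ℝ) ≤ K ^ 23 * A.card := by
  classical
  obtain ⟨A', hA'P, hA'⟩ := choose_b hP hE hK hc
  have hn : (0 : ℝ) < P.card := by exact_mod_cast hP.card_pos
  have hK0 : 0 < K := by linarith
  obtain ⟨n, hndef⟩ : ∃ n : ℝ, n = P.card := ⟨_, rfl⟩
  obtain ⟨m, hmdef⟩ : ∃ m : ℝ, m = A'.card := ⟨_, rfl⟩
  rw [← hndef] at hn hA' hS ⊢
  rw [← hmdef] at hA'
  obtain ⟨c, hcdef⟩ : ∃ c : ℝ, c = n / (32 * K ^ 2) := ⟨_, rfl⟩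
  rw [← hcdef] at hA'
  have hc0 : 0 < c := by
    rw [hcdef]
    positivity
  obtain ⟨β, hβdef⟩ : ∃ β : ℝ, β = ∑ x ∈ A',
      ((A'.filter (fun y => (cod P E x y : ℝ) < c)).card : ℝ) := ⟨_, rfl⟩
  rw [← hβdef] at hA'
  have hβ0 : 0 ≤ β := by
    rw [hβdef]
    exact sum_nonneg fun _ _ => Nat.cast_nonneg _
  have hm0 : 0 ≤ m := by
    rw [hmdef]
    exact Nat.cast_nonneg _
  have hnm : n ^ 2 / (2 * K ^ 2) ≤ m ^ 2 := by linarith
  have hβm : 16 * β ≤ m ^ 2 := by
    have h1 : 0 ≤ n ^ 2 / (2 * K ^ 2) := by positivity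
    linarith
  have hm : 0 < m := by
    rcases hm0.lt_or_eq with h | h
    · exact h
    · exfalso
      rw [← h] at hnm
      have h1 : 0 < n ^ 2 / (2 * K ^ 2) := by positivity
      nlinarith
  -- the set `A`
  obtain ⟨A, hAdef⟩ : ∃ A : Finset (ℤ × ℤ), A = A'.filter (fun x =>
      4 * ((A'.filter (fun y => (cod P E x y : ℝ) < c)).card : ℝ) ≤ m) := ⟨_, rfl⟩
  have hAA' : A ⊆ A' := by
    rw [hAdef]
    exact filter_subset _ _
  have hAbad : ∀ x ∈ A, 4 * ((A'.filter (fun y => (cod P E x y : ℝ) < c)).card : ℝ) ≤ m := by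
    intro x hx
    rw [hAdef] at hx
    exact (mem_filter.1 hx).2
  have hcardA : 3 * m ≤ 4 * (A.card : ℝ) := by
    have h1 : (A'.card : ℝ) = A.card + (A'.filter (fun x =>
        ¬ 4 * ((A'.filter (fun y => (cod P E x y : ℝ) < c)).card : ℝ) ≤ m)).card := by
      rw [hAdef]
      exact_mod_cast (card_filter_add_card_filter_not _).symm
    have h2 : ((A'.filter (fun x =>
        ¬ 4 * ((A'.filter (fun y => (cod P E x y : ℝ) < c)).card : ℝ) ≤ m)).card : ℝ) * (m / 4) ≤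
        β := by
      rw [hβdef, ← nsmul_eq_mul, ← sum_const]
      refine le_trans ?_ (sum_le_sum_of_subset_of_nonneg (filter_subset (fun x =>
        ¬ 4 * ((A'.filter (fun y => (cod P E x y : ℝ) < c)).card : ℝ) ≤ m) A')
        (fun _ _ _ => Nat.cast_nonneg _))
      refine sum_le_sum fun x hx => ?_
      have h3 := (mem_filter.1 hx).2
      push Not at h3
      linarith
    rw [← hmdef] at h1
    have h3 : ((A'.filter (fun x =>
        ¬ 4 * ((A'.filter (fun y => (cod P E x y : ℝ) < c)).card : ℝ) ≤ m)).card : ℝ) * 4 ≤ m := by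
      have h4 : (((A'.filter (fun x =>
        ¬ 4 * ((A'.filter (fun y => (cod P E x y : ℝ) < c)).card : ℝ) ≤ m)).card : ℝ) * 4) * m ≤
          m * m := by nlinarith
      exact le_of_mul_le_mul_right h4 hm
    linarith
  -- the pairs
  have hch : ∀ d ∈ A - A, ∃ x y : ℤ × ℤ, x ∈ A ∧ y ∈ A ∧ x - y = d := by
    intro d hd
    obtain ⟨x, hx, y, hy, hxy⟩ := mem_sub.1 hd
    exact ⟨x, y, hx, hy, hxy⟩
  choose! X Y hXA hYA hXY using hch
  -- the number of the good `z`
  have hgood : ∀ x ∈ A, ∀ y ∈ A, m / 2 * c ^ 2 ≤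
      ∑ z ∈ A', (cod P E x z : ℝ) * (cod P E z y : ℝ) := by
    intro x hx y hy
    have h1 : (A'.filter (fun z => ¬ (cod P E x z : ℝ) < c ∧ ¬ (cod P E y z : ℝ) < c)).card +
        ((A'.filter (fun z => (cod P E x z : ℝ) < c)).card +
        (A'.filter (fun z => (cod P E y z : ℝ) < c)).card) ≥ A'.card := by
      have h2 : A' ⊆ (A'.filter (fun z => ¬ (cod P E x z : ℝ) < c ∧ ¬ (cod P E y z : ℝ) < c)) ∪
          ((A'.filter (fun z => (cod P E x z : ℝ) < c)) ∪
          (A'.filter (fun z => (cod P E y z : ℝ) < c))) := by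
        intro z hz
        rw [mem_union, mem_union, mem_filter, mem_filter, mem_filter]
        tauto
      refine (card_le_card h2).trans ((card_union_le _ _).trans ?_)
      exact Nat.add_le_add_left (card_union_le _ _) _
    have h2 := hAbad x hx
    have h3 := hAbad y hy
    have h4 : m / 2 ≤ ((A'.filter (fun z => ¬ (cod P E x z : ℝ) < c ∧
        ¬ (cod P E y z : ℝ) < c)).card : ℝ) := by
      have h5 : (A'.card : ℝ) ≤ ((A'.filter (fun z => ¬ (cod P E x z : ℝ) < c ∧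
        ¬ (cod P E y z : ℝ) < c)).card : ℝ) +
        (((A'.filter (fun z => (cod P E x z : ℝ) < c)).card : ℝ) +
        ((A'.filter (fun z => (cod P E y z : ℝ) < c)).card : ℝ)) := by exact_mod_cast h1
      rw [← hmdef] at h5
      linarith
    calc m / 2 * c ^ 2 ≤ ((A'.filter (fun z => ¬ (cod P E x z : ℝ) < c ∧
        ¬ (cod P E y z : ℝ) < c)).card : ℝ) * c ^ 2 :=
          mul_le_mul_of_nonneg_right h4 (by positivity)
      _ = ∑ z ∈ A'.filter (fun z => ¬ (cod P E x z : ℝ) < c ∧ ¬ (cod P E y z : ℝ) < c),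
          c ^ 2 := by rw [sum_const, nsmul_eq_mul]
      _ ≤ ∑ z ∈ A'.filter (fun z => ¬ (cod P E x z : ℝ) < c ∧ ¬ (cod P E y z : ℝ) < c),
          (cod P E x z : ℝ) * (cod P E z y : ℝ) := by
          refine sum_le_sum fun z hz => ?_
          obtain ⟨-, h5, h6⟩ := mem_filter.1 hz
          push Not at h5 h6
          rw [cod_symm P E z y, pow_two]
          exact mul_le_mul h5 h6 hc0.le (Nat.cast_nonneg _)
      _ ≤ ∑ z ∈ A', (cod P E x z : ℝ) * (cod P E z y : ℝ) :=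
          sum_le_sum_of_subset_of_nonneg (filter_subset _ _) (fun _ _ _ => by positivity)
  -- the injection
  obtain ⟨S, hSdef⟩ : ∃ S : Finset (ℤ × ℤ), S = E.image fun x => a • x.1 + b • x.2 := ⟨_, rfl⟩
  rw [← hSdef] at hS
  have hmemS : ∀ x y : ℤ × ℤ, (x, y) ∈ E → a • x + b • y ∈ S := by
    intro x y h
    rw [hSdef]
    exact mem_image.2 ⟨(x, y), h, rfl⟩
  have hcount : ∑ d ∈ A - A, ∑ z ∈ A', cod P E (X d) z * cod P E z (Y d) ≤ S.card ^ 4 := by
    have h1 : ∑ d ∈ A - A, ∑ z ∈ A', cod P E (X d) z * cod P E z (Y d) =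
        ((A - A).sigma (fun d => A'.sigma (fun z =>
          (P.filter (fun b => (X d, b) ∈ E ∧ (z, b) ∈ E)) ×ˢ
          (P.filter (fun b => (z, b) ∈ E ∧ (Y d, b) ∈ E))))).card := by
      rw [card_sigma]
      refine sum_congr rfl fun d _ => ?_
      rw [card_sigma]
      refine sum_congr rfl fun z _ => ?_
      rw [card_product]
      rfl
    have h2 : (S ×ˢ (S ×ˢ (S ×ˢ S))).card = S.card ^ 4 := by
      rw [card_product, card_product, card_product]
      ring
    rw [h1, ← h2]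
    refine card_le_card_of_injOn
      (fun t => (a • X t.1 + b • t.2.2.1, a • t.2.1 + b • t.2.2.1, a • t.2.1 + b • t.2.2.2,
        a • Y t.1 + b • t.2.2.2)) ?_ ?_
    · rintro ⟨d, z, b₁, b₂⟩ ht
      rw [mem_coe, mem_sigma, mem_sigma, mem_product, mem_filter, mem_filter] at ht
      obtain ⟨-, -, ⟨-, t1, t2⟩, -, t3, t4⟩ := ht
      rw [mem_coe, mem_product, mem_product, mem_product]
      exact ⟨hmemS _ _ t1, hmemS _ _ t2, hmemS _ _ t3, hmemS _ _ t4⟩
    · rintro ⟨d, z, b₁, b₂⟩ ht ⟨d', z', b₁', b₂'⟩ ht' heq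
      rw [mem_coe, mem_sigma] at ht ht'
      have hd := hXY d ht.1
      have hd' := hXY d' ht'.1
      simp only [Prod.mk.injEq] at heq
      obtain ⟨e1, e2, e3, e4⟩ := heq
      have e5 : a • d = a • d' := by
        have f1 : a • d = (a • X d + b • b₁) - (a • z + b • b₁) + (a • z + b • b₂) -
            (a • Y d + b • b₂) := by
          have f0 : a • d = a • X d - a • Y d := by
            conv_lhs => rw [← hd]
            rw [smul_sub]
          rw [f0]
          abel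
        have f2 : a • d' = (a • X d' + b • b₁') - (a • z' + b • b₁') + (a • z' + b • b₂') -
            (a • Y d' + b • b₂') := by
          have f0 : a • d' = a • X d' - a • Y d' := by
            conv_lhs => rw [← hd']
            rw [smul_sub]
          rw [f0]
          abel
        rw [f1, f2, e1, e2, e3, e4]
      obtain rfl := zsm_cancel ha e5
      obtain rfl := zsm_cancel hb (add_left_cancel e1)
      obtain rfl := zsm_cancel ha (add_right_cancel e2)
      obtain rfl := zsm_cancel hb (add_left_cancel e4)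
      rfl
  -- the numbers
  have hfin : ((A - A).card : ℝ) * (m / 2 * c ^ 2) ≤ (K * n) ^ 4 := by
    calc ((A - A).card : ℝ) * (m / 2 * c ^ 2) = ∑ d ∈ A - A, m / 2 * c ^ 2 := by
          rw [sum_const, nsmul_eq_mul]
      _ ≤ ∑ d ∈ A - A, ∑ z ∈ A', (cod P E (X d) z : ℝ) * (cod P E z (Y d) : ℝ) :=
          sum_le_sum fun d hd => hgood _ (hXA d hd) _ (hYA d hd)
      _ ≤ (S.card : ℝ) ^ 4 := by exact_mod_cast hcount
      _ ≤ (K * n) ^ 4 := pow_le_pow_left₀ (Nat.cast_nonneg _) hS 4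
  refine ⟨A, hAA'.trans hA'P, ?_, ?_⟩
  · by_contra hcon
    push Not at hcon
    have h1 : 3 * m / 4 < n / (2 * K) := by linarith
    have h2 : (3 * m / 4) ^ 2 < (n / (2 * K)) ^ 2 := pow_lt_pow_left₀ h1 (by positivity) (by norm_num)
    have h3 : (n / (2 * K)) ^ 2 = n ^ 2 / (2 * K ^ 2) / 2 := by
      rw [div_pow, div_div]
      congr 1
      ring
    rw [h3] at h2
    have h4 : 0 < m ^ 2 := by positivity
    nlinarith
  · have h1 : ((A - A).card : ℝ) * m ≤ 2048 * K ^ 8 * n ^ 2 := by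
      have h2 : ((A - A).card : ℝ) * (m / 2 * c ^ 2) =
          (((A - A).card : ℝ) * m) * (n ^ 2 / (2048 * K ^ 4)) := by
        rw [hcdef]
        field_simp
        ring
      have h3 : (K * n) ^ 4 = (2048 * K ^ 8 * n ^ 2) * (n ^ 2 / (2048 * K ^ 4)) := by
        field_simp
      rw [h2, h3] at hfin
      exact le_of_mul_le_mul_right hfin (by positivity)
    have h2 : n ^ 2 ≤ 2 * K ^ 2 * m ^ 2 := by
      rw [div_le_iff₀ (by positivity)] at hnm
      linarith
    have h3 : ((A - A).card : ℝ) * m ≤ (4096 * K ^ 10 * m) * m := by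
      calc ((A - A).card : ℝ) * m ≤ 2048 * K ^ 8 * n ^ 2 := h1
        _ ≤ 2048 * K ^ 8 * (2 * K ^ 2 * m ^ 2) := mul_le_mul_of_nonneg_left h2 (by positivity)
        _ = (4096 * K ^ 10 * m) * m := by ring
    have h4 : ((A - A).card : ℝ) ≤ 4096 * K ^ 10 * m := le_of_mul_le_mul_right h3 hm
    have h5 : (8192 : ℝ) ≤ K ^ 13 := by
      calc (8192 : ℝ) = 2 ^ 13 := by norm_num
        _ ≤ K ^ 13 := pow_le_pow_left₀ (by norm_num) hK 13
    have h6 : 0 ≤ K ^ 10 * (A.card : ℝ) := by positivity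
    calc ((A - A).card : ℝ) ≤ 4096 * K ^ 10 * m := h4
      _ ≤ 4096 * K ^ 10 * (4 / 3 * A.card) :=
          mul_le_mul_of_nonneg_left (by linarith) (by positivity)
      _ = (16384 / 3) * (K ^ 10 * A.card) := by ring
      _ ≤ 8192 * (K ^ 10 * A.card) := by nlinarith
      _ ≤ K ^ 13 * (K ^ 10 * A.card) := mul_le_mul_of_nonneg_right h5 h6
      _ = K ^ 23 * A.card := by ring

end BlkAR
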