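import Pool.Agent.Work.MP_763b10_co.AR.ChainIrr
import Pool.Agent.Work.MP_763b10_co.AR.Bdf

/-!
# MP_763b10_co, board modar, module ChainAll (S)

The same for all curves.

Proof. `F ≠ 0` is a unit times a product of at most `2d` irreducible factors (`factors_card`), each with `BD d` (`bd_dvd`). If `F` is a unit then `X = ∅`. Otherwise one factor vanishes on a
subset `X₁` of `X` with `|X| ≤ 2d |X₁|`; apply `chainIrr`.
-/

set_option autoImplicit false

namespace BlkAR

open Polynomial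

theorem chainAll (d : ℕ) : ∃ C : ℕ, ∀ (F : ℝ[X][X]) (X : Finset (ℤ × ℤ)), F ≠ 0 → BD d F →
    NC X → (∀ p ∈ X, F.evalEval (p.1 : ℝ) (p.2 : ℝ) = 0) →
    ∃ Y ⊆ X, Chain Y ∧ X.card ≤ C * (Y.card + 1) := by
  classical
  obtain ⟨C₀, hC₀⟩ := chainIrr d
  refine ⟨2 * d * C₀, fun F X hF hd hnc hX => ?_⟩
  have hass := UniqueFactorizationMonoid.factors_prod hF
  have hirr : ∀ G ∈ UniqueFactorizationMonoid.factors F, Irreducible G :=
    fun G hG => UniqueFactorizationMonoid.irreducible_of_factor G hG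
  obtain ⟨s, hs⟩ : ∃ s : Multiset ℝ[X][X], s = UniqueFactorizationMonoid.factors F := ⟨_, rfl⟩
  rw [← hs] at hass hirr
  have hcard : Multiset.card s ≤ 2 * d := factors_card s hirr (bd_dvd hF hass.dvd hd)
  have hzero : ∀ p ∈ X, ∃ G ∈ s, G.evalEval (p.1 : ℝ) (p.2 : ℝ) = 0 := by
    intro p hp
    obtain ⟨u, hu⟩ := hass
    have h1 : Polynomial.evalEvalRingHom (p.1 : ℝ) (p.2 : ℝ) F = 0 := hX p hp
    rw [← hu, map_mul, mul_eq_zero] at h1
    have h2 : Polynomial.evalEvalRingHom (p.1 : ℝ) (p.2 : ℝ) (u : ℝ[X][X]) ≠ 0 :=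
      (u.isUnit.map (Polynomial.evalEvalRingHom (p.1 : ℝ) (p.2 : ℝ))).ne_zero
    have h3 := h1.resolve_right h2
    rw [map_multiset_prod, Multiset.prod_eq_zero_iff, Multiset.mem_map] at h3
    obtain ⟨G, hG, h4⟩ := h3
    exact ⟨G, hG, h4⟩
  have hdG : ∀ G ∈ s, BD d G := fun G hG => bd_dvd hF ((Multiset.dvd_prod hG).trans hass.dvd) hd
  by_cases hne : s.toFinset.Nonempty
  · obtain ⟨G, hG, hmax⟩ := s.toFinset.exists_max_image
      (fun G : ℝ[X][X] => (X.filter (fun p => G.evalEval (p.1 : ℝ) (p.2 : ℝ) = 0)).card) hne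
    rw [Multiset.mem_toFinset] at hG
    have hsub : X ⊆ s.toFinset.biUnion
        (fun G => X.filter (fun p => G.evalEval (p.1 : ℝ) (p.2 : ℝ) = 0)) := by
      intro p hp
      obtain ⟨G', hG', h0⟩ := hzero p hp
      rw [Finset.mem_biUnion]
      exact ⟨G', Multiset.mem_toFinset.mpr hG', Finset.mem_filter.mpr ⟨hp, h0⟩⟩
    have h1 : X.card ≤ 2 * d *
        (X.filter (fun p => G.evalEval (p.1 : ℝ) (p.2 : ℝ) = 0)).card := by
      calc X.card ≤ _ := Finset.card_le_card hsub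
        _ ≤ s.toFinset.card * (X.filter (fun p => G.evalEval (p.1 : ℝ) (p.2 : ℝ) = 0)).card :=
          Finset.card_biUnion_le_card_mul _ _ _ hmax
        _ ≤ _ := Nat.mul_le_mul_right _ ((Multiset.toFinset_card_le s).trans hcard)
    obtain ⟨Y, hY, hch, h2⟩ := hC₀ G (X.filter (fun p => G.evalEval (p.1 : ℝ) (p.2 : ℝ) = 0))
      (hirr G hG) (hdG G hG)
      (fun p hp q hq r hr => hnc p (Finset.mem_of_mem_filter p hp) q (Finset.mem_of_mem_filter q hq)
        r (Finset.mem_of_mem_filter r hr))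
      (fun p hp => (Finset.mem_filter.mp hp).2)
    refine ⟨Y, hY.trans (Finset.filter_subset _ _), hch, h1.trans ?_⟩
    rw [mul_assoc (2 * d) C₀ (Y.card + 1)]
    exact Nat.mul_le_mul_left _ h2
  · have hX0 : X = ∅ := by
      rw [Finset.eq_empty_iff_forall_notMem]
      intro p hp
      obtain ⟨G, hG, -⟩ := hzero p hp
      exact hne ⟨G, Multiset.mem_toFinset.mpr hG⟩
    refine ⟨∅, Finset.empty_subset _, ⟨fun p hp => absurd hp (Finset.notMem_empty p),
      Or.inl fun p hp => absurd hp (Finset.notMem_empty p)⟩, ?_⟩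
    rw [hX0, Finset.card_empty]
    exact Nat.zero_le _

end BlkAR
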