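import Pool.Agent.Work.MP_763b10_co.AR.Diff

/-!
# MP_763b10_co, board modar, module Piece (M)

Integer points on a piece of a curve without inflection points form a convex chain.

Proof. `piece_chain`: by `diff` the second derivative of `g` on `I` is `-Hs F/(dY F)³`, continuous (as `g` is) and `≠ 0`, so of constant sign on the interval. If it is
positive, `g` is strictly convex on `I` (`strictConvexOn_of_deriv2_pos'` or `strictConvexOn_of_deriv2_pos`), and for `p, q, r ∈ Y` with `p.1 < q.1 < r.1` the point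
`(q.1, g q.1)` is strictly below the chord: the determinant is positive (`StrictConvexOn.slope_strict_mono_adjacent`); if negative, strictly concave. Equal abscissas give
equal points because `p.2 = g p.1`. `piece_flat`: if `Hs F (x, g x) = 0` on `I`, `g'' = 0`, so `g'` is constant on `I` and `g` is affine on `I`: three points of `Y` would be
collinear.
-/

set_option autoImplicit false

namespace BlkAR

open Polynomial Set

private theorem sign2 {F : ℝ[X][X]} {u v : ℝ} {g : ℝ → ℝ} (hg : ContinuousOn g (Ioo u v))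
    (h0 : ∀ x ∈ Ioo u v, F.evalEval x (g x) = 0)
    (h1 : ∀ x ∈ Ioo u v, (dY F).evalEval x (g x) ≠ 0)
    (h2 : ∀ x ∈ Ioo u v, (Hs F).evalEval x (g x) ≠ 0) :
    (∀ x ∈ Ioo u v, deriv^[2] g x < 0) ∨ (∀ x ∈ Ioo u v, 0 < deriv^[2] g x) := by
  have hd := diff hg h0 h1
  refine hasDerivWithinAt_forall_lt_or_forall_gt_of_forall_ne (f := deriv g) (f' := fun x => deriv^[2] g x)
    (convex_Ioo u v) ?_ ?_
  · intro x hx
    have h3 := (hd x hx).2
    have h4 : deriv^[2] g x = -((Hs F).evalEval x (g x) / (dY F).evalEval x (g x) ^ 3) := h3.deriv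
    rw [h4]
    exact h3.hasDerivWithinAt
  · intro x hx
    have h3 := (hd x hx).2
    have h4 : deriv^[2] g x = -((Hs F).evalEval x (g x) / (dY F).evalEval x (g x) ^ 3) := h3.deriv
    rw [h4]
    exact neg_ne_zero.2 (div_ne_zero (h2 x hx) (pow_ne_zero _ (h1 x hx)))

theorem piece_chain {F : ℝ[X][X]} {u v : ℝ} {g : ℝ → ℝ} (hg : ContinuousOn g (Ioo u v))
    (h0 : ∀ x ∈ Ioo u v, F.evalEval x (g x) = 0)
    (h1 : ∀ x ∈ Ioo u v, (dY F).evalEval x (g x) ≠ 0)
    (h2 : ∀ x ∈ Ioo u v, (Hs F).evalEval x (g x) ≠ 0) {Y : Finset (ℤ × ℤ)}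
    (hY : ∀ p ∈ Y, (p.1 : ℝ) ∈ Ioo u v ∧ (p.2 : ℝ) = g p.1) : Chain Y := by
  refine ⟨?_, ?_⟩
  · intro p hp q hq hpq
    refine Prod.ext hpq ?_
    have e1 := (hY p hp).2
    have e2 := (hY q hq).2
    rw [hpq, ← e2] at e1
    exact_mod_cast e1
  · rcases sign2 hg h0 h1 h2 with h | h
    · right
      intro p hp q hq r hr hpq hqr
      have hc := strictConcaveOn_of_deriv2_neg' (convex_Ioo u v) hg h
      have hpq' : (p.1 : ℝ) < q.1 := by exact_mod_cast hpq
      have hqr' : (q.1 : ℝ) < r.1 := by exact_mod_cast hqr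
      have h3 := hc.slope_anti_adjacent (hY p hp).1 (hY r hr).1 hpq' hqr'
      rw [← (hY p hp).2, ← (hY q hq).2, ← (hY r hr).2,
        div_lt_div_iff₀ (by linarith) (by linarith)] at h3
      have h4 : ((q.1 : ℝ) - p.1) * ((r.2 : ℝ) - p.2) - ((q.2 : ℝ) - p.2) * ((r.1 : ℝ) - p.1) < 0 := by
        nlinarith
      exact_mod_cast h4
    · left
      intro p hp q hq r hr hpq hqr
      have hc := strictConvexOn_of_deriv2_pos' (convex_Ioo u v) hg h
      have hpq' : (p.1 : ℝ) < q.1 := by exact_mod_cast hpq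
      have hqr' : (q.1 : ℝ) < r.1 := by exact_mod_cast hqr
      have h3 := hc.slope_strict_mono_adjacent (hY p hp).1 (hY r hr).1 hpq' hqr'
      rw [← (hY p hp).2, ← (hY q hq).2, ← (hY r hr).2,
        div_lt_div_iff₀ (by linarith) (by linarith)] at h3
      have h4 : 0 < ((q.1 : ℝ) - p.1) * ((r.2 : ℝ) - p.2) - ((q.2 : ℝ) - p.2) * ((r.1 : ℝ) - p.1) := by
        nlinarith
      exact_mod_cast h4

theorem piece_flat {F : ℝ[X][X]} {u v : ℝ} {g : ℝ → ℝ} (hg : ContinuousOn g (Ioo u v))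
    (h0 : ∀ x ∈ Ioo u v, F.evalEval x (g x) = 0)
    (h1 : ∀ x ∈ Ioo u v, (dY F).evalEval x (g x) ≠ 0)
    (h2 : ∀ x ∈ Ioo u v, (Hs F).evalEval x (g x) = 0) {Y : Finset (ℤ × ℤ)} (hN : NC Y)
    (hY : ∀ p ∈ Y, (p.1 : ℝ) ∈ Ioo u v ∧ (p.2 : ℝ) = g p.1) : Y.card ≤ 2 := by
  have hd := diff hg h0 h1
  by_contra hcon
  push Not at hcon
  obtain ⟨p, hp, q, hq, r, hr, hpq, hpr, hqr⟩ := Finset.two_lt_card.1 hcon
  have hk : ∀ x ∈ Ioo u v, ∀ y ∈ Ioo u v, deriv g x = deriv g y := by
    intro x hx y hy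
    refine isOpen_Ioo.is_const_of_deriv_eq_zero (isPreconnected_Ioo) ?_ ?_ hx hy
    · intro t ht
      exact (hd t ht).2.differentiableAt.differentiableWithinAt
    · intro t ht
      rw [(hd t ht).2.deriv, h2 t ht]
      simp
  have hp1 := (hY p hp).1
  obtain ⟨k, hkd⟩ : ∃ k, k = deriv g p.1 := ⟨_, rfl⟩
  have haff : ∀ x ∈ Ioo u v, ∀ y ∈ Ioo u v, g x - k * x = g y - k * y := by
    intro x hx y hy
    refine isOpen_Ioo.is_const_of_deriv_eq_zero (f := fun t => g t - k * t) (isPreconnected_Ioo) ?_ ?_ hx hy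
    · intro t ht
      have h3 : HasDerivAt (fun t => g t - k * t) (deriv g t - k) t := by
        have h4 := (hd t ht).1
        rw [← h4.deriv] at h4
        have h5 : HasDerivAt (fun t => k * t) k t := by
          simpa using (hasDerivAt_id t).const_mul k
        exact h4.sub h5
      exact h3.differentiableAt.differentiableWithinAt
    · intro t ht
      have h3 : HasDerivAt (fun t => g t - k * t) (deriv g t - k) t := by
        have h4 := (hd t ht).1
        rw [← h4.deriv] at h4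
        have h5 : HasDerivAt (fun t => k * t) k t := by
          simpa using (hasDerivAt_id t).const_mul k
        exact h4.sub h5
      rw [h3.deriv, hkd, hk t ht _ hp1, sub_self]
      rfl
  have e1 := haff _ hp1 _ (hY q hq).1
  have e2 := haff _ hp1 _ (hY r hr).1
  rw [← (hY p hp).2, ← (hY q hq).2] at e1
  rw [← (hY p hp).2, ← (hY r hr).2] at e2
  apply hN p hp q hq r hr hpq hpr hqr
  have h6 : ((q.1 : ℝ) - p.1) * ((r.2 : ℝ) - p.2) - ((q.2 : ℝ) - p.2) * ((r.1 : ℝ) - p.1) = 0 := by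
    have f1 : (q.2 : ℝ) = p.2 - k * p.1 + k * q.1 := by linarith
    have f2 : (r.2 : ℝ) = p.2 - k * p.1 + k * r.1 := by linarith
    rw [f1, f2]
    ring
  exact_mod_cast h6

end BlkAR
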