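import Pool.Agent.Work.MP_763b10_co.AR.Roots
import Pool.Agent.Work.MP_763b10_co.AR.Piece
import Pool.Agent.Work.MP_763b10_co.AR.Bez

/-!
# MP_763b10_co, board modar, module ChainIrr (M-L)

Points in general position on an irreducible curve of bounded degree contain a convex chain of positive proportion.

Proof. Every vertical line contains at most two points of `X` (`NC`). (1) `dY F = 0`: then `F = C f`, `f ≠ 0`, and the first coordinates are roots of `f`: `|X| ≤ 2d`; take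
`Y = ∅`. (2) `dY F ≠ 0`: `F` is irreducible and `dY F` has smaller `Y`-degree, so they are relatively prime; `elim`: `r₁ ≠ 0`, `deg ≤ 2d²`, such that `r₁(x) ≠ 0` implies: no common
zero over `x`. Let `a` be the leading coefficient of `F` (degree `≤ d`). `BD (3d) (Hs F)`, `BD (3d) F`. If `F ∤ Hs F`: `elim` gives `r₂ ≠ 0` of degree `≤ 18 d²` such that
`r₂(x) ≠ 0` implies `Hs F ≠ 0` on the zero set of `F` over `x`; if `F ∣ Hs F` put `r₂ = 1`: then `Hs F = 0` on the zero set. Let `B` be the finite set of roots of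
`r₁ a r₂`, together with two numbers `-M`, `M` with `|p.1| < M` for `p ∈ X`: `|B| ≤ 20 d² + d + 2`. Every `x ∉ B`, `|x| < M`, is in one interval `(u, v)` with `u < v` consecutive in `B`;
over it `roots` gives `k ≤ d` continuous functions. So `X` minus the points with first coordinate in `B` (at most `2|B|`) is a union of at most `|B| d` classes (interval, index);
let `Y` be the largest. In the first case `Y` is a chain (`piece_chain`), in the second every class has at most two points (`piece_flat`); then take `Y = ∅`. In all cases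
`|X| ≤ 2|B| + |B| d (|Y| + 2)`.
-/

set_option autoImplicit false

namespace BlkAR

open Polynomial

private theorem bd_mono {d e : ℕ} {F : ℝ[X][X]} (h : BD d F) (hde : d ≤ e) : BD e F :=
  ⟨h.1.trans hde, fun i => (h.2 i).trans hde⟩

private theorem bd_add {d : ℕ} {F G : ℝ[X][X]} (hF : BD d F) (hG : BD d G) : BD d (F + G) := by
  refine ⟨(natDegree_add_le _ _).trans (max_le hF.1 hG.1), fun i => ?_⟩
  rw [coeff_add]
  exact (natDegree_add_le _ _).trans (max_le (hF.2 i) (hG.2 i))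

private theorem bd_sub {d : ℕ} {F G : ℝ[X][X]} (hF : BD d F) (hG : BD d G) : BD d (F - G) := by
  refine ⟨(natDegree_sub_le _ _).trans (max_le hF.1 hG.1), fun i => ?_⟩
  rw [coeff_sub]
  exact (natDegree_sub_le _ _).trans (max_le (hF.2 i) (hG.2 i))

private theorem bd_deriv {d : ℕ} {F : ℝ[X][X]} (h : BD d F) : BD d (derivative F) := by
  constructor
  · exact (natDegree_derivative_le F).trans ((Nat.sub_le _ _).trans h.1)
  · intro i
    rw [coeff_derivative]
    refine natDegree_mul_le.trans ?_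
    have h1 : ((i : ℝ[X]) + 1).natDegree = 0 := by
      rw [← Nat.cast_succ]
      exact natDegree_natCast _
    rw [h1, add_zero]
    exact h.2 _

private theorem bd_dX {d : ℕ} {F : ℝ[X][X]} (h : BD d F) : BD d (dX F) :=
  bd_swap (bd_deriv (bd_swap h))

private theorem bd_dY {d : ℕ} {F : ℝ[X][X]} (h : BD d F) : BD d (dY F) := bd_deriv h

private theorem bd_Hs {d : ℕ} {F : ℝ[X][X]} (h : BD d F) : BD (3 * d) (Hs F) := by
  have e : Hs F = dX (dX F) * (dY F * dY F) - (dX (dY F) * (dX F * dY F) +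
      dX (dY F) * (dX F * dY F)) + dY (dY F) * (dX F * dX F) := by
    unfold Hs
    ring
  have h3 : d + (d + d) ≤ 3 * d := by omega
  rw [e]
  refine bd_add (bd_sub ?_ (bd_add ?_ ?_)) ?_
  · exact bd_mono (bd_mul (bd_dX (bd_dX h)) (bd_mul (bd_dY h) (bd_dY h))) h3
  · exact bd_mono (bd_mul (bd_dX (bd_dY h)) (bd_mul (bd_dX h) (bd_dY h))) h3
  · exact bd_mono (bd_mul (bd_dX (bd_dY h)) (bd_mul (bd_dX h) (bd_dY h))) h3
  · exact bd_mono (bd_mul (bd_dY (bd_dY h)) (bd_mul (bd_dX h) (bd_dX h))) h3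

/-- at most two points on a vertical line. -/
private theorem vert {X : Finset (ℤ × ℤ)} (hN : NC X) (B : Finset ℝ) :
    (X.filter (fun p => (p.1 : ℝ) ∈ B)).card ≤ 2 * B.card := by
  classical
  refine Finset.card_le_mul_card_image_of_maps_to (f := fun p : ℤ × ℤ => (p.1 : ℝ))
    (fun p hp => (Finset.mem_filter.1 hp).2) 2 ?_
  intro b _
  by_contra hcon
  push Not at hcon
  obtain ⟨p, hp, q, hq, r, hr, hpq, hpr, hqr⟩ := Finset.two_lt_card.1 hcon
  have key : ∀ p ∈ {a ∈ X.filter (fun p => (p.1 : ℝ) ∈ B) | (a.1 : ℝ) = b},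
      p ∈ X ∧ (p.1 : ℝ) = b := by
    intro p hp
    obtain ⟨h1, h2⟩ := Finset.mem_filter.1 hp
    exact ⟨(Finset.mem_filter.1 h1).1, h2⟩
  obtain ⟨p1, p2⟩ := key p hp
  obtain ⟨q1, q2⟩ := key q hq
  obtain ⟨r1, r2⟩ := key r hr
  have e1 : p.1 = q.1 := by exact_mod_cast p2.trans q2.symm
  have e2 : p.1 = r.1 := by exact_mod_cast p2.trans r2.symm
  apply hN p p1 q q1 r r1 hpq hpr hqr
  rw [← e2, ← e1]
  ring

/-- the counting of the classes. -/
private theorem cover (d : ℕ) (X : Finset (ℤ × ℤ)) (hN : NC X) (B : Finset ℝ)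
    (Qp : Finset (ℤ × ℤ) → Prop) (hlo : ∀ p ∈ X, ∃ b ∈ B, b < (p.1 : ℝ))
    (hS : ∀ u ∈ B, ∃ S : Finset (Finset (ℤ × ℤ)), S.card ≤ d ∧ (∀ Y ∈ S, Y ⊆ X ∧ Qp Y) ∧
      ∀ p ∈ X, u < (p.1 : ℝ) → (∀ b ∈ B, u < b → (p.1 : ℝ) < b) → ∃ Y ∈ S, p ∈ Y) :
    ∃ T : Finset (Finset (ℤ × ℤ)), (∀ Y ∈ T, Y ⊆ X ∧ Qp Y) ∧
      ∀ m, (∀ Y ∈ T, Y.card ≤ m) → X.card ≤ 2 * B.card + B.card * d * m := by
  classical
  choose! S hS1 hS2 hS3 using hS
  refine ⟨B.biUnion S, ?_, ?_⟩
  · intro Y hY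
    obtain ⟨u, hu, hY'⟩ := Finset.mem_biUnion.1 hY
    exact hS2 u hu Y hY'
  · intro m hm
    have hsub : X ⊆ X.filter (fun p => (p.1 : ℝ) ∈ B) ∪ (B.biUnion S).biUnion id := by
      intro p hp
      rw [Finset.mem_union]
      by_cases hpB : (p.1 : ℝ) ∈ B
      · exact Or.inl (Finset.mem_filter.2 ⟨hp, hpB⟩)
      · right
        obtain ⟨b, hb, hbp⟩ := hlo p hp
        have hne : (B.filter (fun b => b < (p.1 : ℝ))).Nonempty :=
          ⟨b, Finset.mem_filter.2 ⟨hb, hbp⟩⟩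
        obtain ⟨u, hu, hmax⟩ := Finset.exists_max_image _ id hne
        obtain ⟨huB, hup⟩ := Finset.mem_filter.1 hu
        obtain ⟨Y, hY, hpY⟩ := hS3 u huB p hp hup (by
          intro b' hb' hub'
          by_contra hcon
          push Not at hcon
          have h1 : b' < (p.1 : ℝ) := lt_of_le_of_ne hcon (fun h => hpB (h ▸ hb'))
          have h2 := hmax b' (Finset.mem_filter.2 ⟨hb', h1⟩)
          simp only [id] at h2
          linarith)
        rw [Finset.mem_biUnion]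
        exact ⟨Y, Finset.mem_biUnion.2 ⟨u, huB, hY⟩, hpY⟩
    have h1 : (B.biUnion S).card ≤ B.card * d := Finset.card_biUnion_le_card_mul _ _ _ hS1
    have h2 : ((B.biUnion S).biUnion id).card ≤ (B.biUnion S).card * m :=
      Finset.card_biUnion_le_card_mul _ _ _ hm
    calc X.card ≤ _ := Finset.card_le_card hsub
      _ ≤ (X.filter (fun p => (p.1 : ℝ) ∈ B)).card + ((B.biUnion S).biUnion id).card :=
          Finset.card_union_le _ _
      _ ≤ 2 * B.card + B.card * d * m :=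
          Nat.add_le_add (vert hN B) (h2.trans (Nat.mul_le_mul_right _ h1))

/-- the classes over one interval. -/
private theorem classes {d : ℕ} {F : ℝ[X][X]} (hd : F.natDegree ≤ d) {X : Finset (ℤ × ℤ)}
    (hX : ∀ p ∈ X, F.evalEval (p.1 : ℝ) (p.2 : ℝ) = 0) {B : Finset ℝ}
    (hB1 : ∀ x, x ∉ B → (F.leadingCoeff).eval x ≠ 0)
    (hB2 : ∀ x, x ∉ B → ∀ y, F.evalEval x y = 0 → (dY F).evalEval x y ≠ 0)
    (hhi : ∀ p ∈ X, ∃ b ∈ B, (p.1 : ℝ) < b) (Qp : Finset (ℤ × ℤ) → Prop)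
    (hQ : ∀ (u v : ℝ) (g : ℝ → ℝ), u < v → (∀ x ∈ Set.Ioo u v, x ∉ B) →
      ContinuousOn g (Set.Ioo u v) → (∀ x ∈ Set.Ioo u v, F.evalEval x (g x) = 0) →
      ∀ Y ⊆ X, (∀ p ∈ Y, (p.1 : ℝ) ∈ Set.Ioo u v ∧ (p.2 : ℝ) = g p.1) → Qp Y) (u : ℝ) :
    ∃ S : Finset (Finset (ℤ × ℤ)), S.card ≤ d ∧ (∀ Y ∈ S, Y ⊆ X ∧ Qp Y) ∧
      ∀ p ∈ X, u < (p.1 : ℝ) → (∀ b ∈ B, u < b → (p.1 : ℝ) < b) → ∃ Y ∈ S, p ∈ Y := by
  classical
  by_cases hne : (B.filter (fun b => u < b)).Nonempty
  · obtain ⟨v, hv, hmin⟩ := Finset.exists_min_image _ id hne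
    obtain ⟨hvB, huv⟩ := Finset.mem_filter.1 hv
    have hI : ∀ x ∈ Set.Ioo u v, x ∉ B := by
      intro x hx hxB
      have h1 := hmin x (Finset.mem_filter.2 ⟨hxB, hx.1⟩)
      simp only [id] at h1
      linarith [hx.2]
    obtain ⟨k, g, hk, hg, hroots⟩ := roots huv (fun x hx => hB1 x (hI x hx))
      (fun x hx => hB2 x (hI x hx))
    refine ⟨Finset.univ.image (fun i : Fin k => X.filter (fun p => (p.1 : ℝ) ∈ Set.Ioo u v ∧
      (p.2 : ℝ) = g i p.1)), ?_, ?_, ?_⟩
    · refine Finset.card_image_le.trans ?_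
      rw [Finset.card_univ, Fintype.card_fin]
      exact hk.trans hd
    · intro Y hY
      obtain ⟨i, -, rfl⟩ := Finset.mem_image.1 hY
      refine ⟨Finset.filter_subset _ _, ?_⟩
      exact hQ u v (g i) huv hI (hg i) (fun x hx => (hroots x hx _).2 ⟨i, rfl⟩) _
        (Finset.filter_subset _ _) (fun p hp => (Finset.mem_filter.1 hp).2)
    · intro p hp hup hpb
      have hpI : (p.1 : ℝ) ∈ Set.Ioo u v := ⟨hup, hpb v hvB huv⟩
      obtain ⟨i, hi⟩ := (hroots _ hpI _).1 (hX p hp)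
      exact ⟨_, Finset.mem_image.2 ⟨i, Finset.mem_univ _, rfl⟩,
        Finset.mem_filter.2 ⟨hp, hpI, hi.symm⟩⟩
  · refine ⟨∅, by simp, by simp, ?_⟩
    intro p hp hup _
    exfalso
    obtain ⟨b, hb, hpb⟩ := hhi p hp
    exact hne ⟨b, Finset.mem_filter.2 ⟨hb, hup.trans hpb⟩⟩

private theorem rel_zero {d : ℕ} {F G : ℝ[X][X]} (hF : BD d F) (hG : BD d G)
    (h : IsRelPrime F G) : ∃ r : ℝ[X], r ≠ 0 ∧ r.natDegree ≤ 2 * d ^ 2 ∧
      ∀ x y, r.eval x ≠ 0 → F.evalEval x y = 0 → G.evalEval x y ≠ 0 := by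
  obtain ⟨r, hr0, hrd, U, V, hUV⟩ := elim hF hG h
  refine ⟨r, hr0, hrd, fun x y hx h1 h2 => hx ?_⟩
  have h3 : (U * F + V * G).evalEval x y = r.eval x := by
    rw [hUV, evalEval_C]
  rw [evalEval_add, evalEval_mul, evalEval_mul, h1, h2, mul_zero, mul_zero, add_zero] at h3
  exact h3.symm

private theorem chain_empty : Chain (∅ : Finset (ℤ × ℤ)) :=
  ⟨fun p hp => absurd hp (Finset.notMem_empty p),
    Or.inl fun p hp => absurd hp (Finset.notMem_empty p)⟩

theorem chainIrr (d : ℕ) : ∃ C : ℕ, ∀ (F : ℝ[X][X]) (X : Finset (ℤ × ℤ)), Irreducible F → BD d F →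
    NC X → (∀ p ∈ X, F.evalEval (p.1 : ℝ) (p.2 : ℝ) = 0) →
    ∃ Y ⊆ X, Chain Y ∧ X.card ≤ C * (Y.card + 1) := by
  classical
  obtain ⟨N, hNdef⟩ : ∃ N : ℕ, N = 2 * d ^ 2 + d + 2 * (3 * d) ^ 2 + 2 := ⟨_, rfl⟩
  refine ⟨2 * N + 2 * (N * d), fun F X hF hBD hN hX => ?_⟩
  by_cases hdY : dY F = 0
  · -- vertical lines
    have hdeg : F.natDegree = 0 := derivative_eq_zero.1 hdY
    obtain ⟨f, hf⟩ : ∃ f : ℝ[X], F = C f := ⟨_, eq_C_of_natDegree_eq_zero hdeg⟩
    have hf0 : f ≠ 0 := by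
      rintro rfl
      exact hF.ne_zero (by rw [hf, C_0])
    have hfd : f.natDegree ≤ d := by
      have h1 := hBD.2 0
      rw [hf, coeff_C_zero] at h1
      exact h1
    refine ⟨∅, Finset.empty_subset _, chain_empty, ?_⟩
    have h1 : X.filter (fun p => (p.1 : ℝ) ∈ f.roots.toFinset) = X := by
      rw [Finset.filter_eq_self]
      intro p hp
      have h2 := hX p hp
      rw [hf, evalEval_C] at h2
      rw [Multiset.mem_toFinset, mem_roots hf0]
      exact h2
    have h2 := vert hN f.roots.toFinset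
    rw [h1] at h2
    have h3 : f.roots.toFinset.card ≤ d :=
      (Multiset.toFinset_card_le _).trans ((card_roots' f).trans hfd)
    rw [Finset.card_empty]
    calc X.card ≤ 2 * f.roots.toFinset.card := h2
      _ ≤ 2 * d := Nat.mul_le_mul_left 2 h3
      _ ≤ (2 * N + 2 * (N * d)) * (0 + 1) := by
          have h4 : d ≤ N := by
            rw [hNdef]
            omega
          nlinarith [Nat.zero_le (N * d)]
  · -- the relatively prime polynomials
    have hnd : ¬ F ∣ dY F := by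
      intro h
      have h1 := natDegree_le_of_dvd h hdY
      have h2 : F.natDegree ≠ 0 := by
        intro h3
        apply hdY
        unfold dY
        rw [eq_C_of_natDegree_eq_zero h3, derivative_C]
      have h3 := natDegree_derivative_lt h2
      unfold dY at h1
      omega
    obtain ⟨r₁, hr₁, hr₁d, hr₁z⟩ := rel_zero hBD (bd_dY hBD) (hF.isRelPrime_iff_not_dvd.2 hnd)
    have hlc : F.leadingCoeff ≠ 0 := leadingCoeff_ne_zero.2 hF.ne_zero
    have hlcd : F.leadingCoeff.natDegree ≤ d := hBD.2 _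
    -- the second polynomial
    obtain ⟨M, hM⟩ : ∃ M : ℝ, ∀ p ∈ X, |(p.1 : ℝ)| < M := by
      refine ⟨∑ p ∈ X, |(p.1 : ℝ)| + 1, fun p hp => ?_⟩
      have h1 : |(p.1 : ℝ)| ≤ ∑ p ∈ X, |(p.1 : ℝ)| :=
        Finset.single_le_sum (f := fun p : ℤ × ℤ => |(p.1 : ℝ)|) (fun _ _ => abs_nonneg _) hp
      linarith
    have main : ∀ (r₂ : ℝ[X]), r₂ ≠ 0 → r₂.natDegree ≤ 2 * (3 * d) ^ 2 →
        ∀ Qp : Finset (ℤ × ℤ) → Prop,
        (∀ (B : Finset ℝ) (u v : ℝ) (g : ℝ → ℝ), u < v → (∀ x ∈ Set.Ioo u v, r₂.eval x ≠ 0) →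
          (∀ x ∈ Set.Ioo u v, ∀ y, F.evalEval x y = 0 → (dY F).evalEval x y ≠ 0) →
          ContinuousOn g (Set.Ioo u v) → (∀ x ∈ Set.Ioo u v, F.evalEval x (g x) = 0) →
          ∀ Y ⊆ X, (∀ p ∈ Y, (p.1 : ℝ) ∈ Set.Ioo u v ∧ (p.2 : ℝ) = g p.1) → Qp Y) →
        ∃ T : Finset (Finset (ℤ × ℤ)), (∀ Y ∈ T, Y ⊆ X ∧ Qp Y) ∧
          ∀ m, (∀ Y ∈ T, Y.card ≤ m) → X.card ≤ 2 * N + N * d * m := by
      intro r₂ hr₂ hr₂d Qp hQp
      obtain ⟨B, hBdef⟩ : ∃ B : Finset ℝ, B = (r₁.roots.toFinset ∪ F.leadingCoeff.roots.toFinset) ∪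
        (r₂.roots.toFinset ∪ {-M, M}) := ⟨_, rfl⟩
      have hBcard : B.card ≤ N := by
        have e1 : r₁.roots.toFinset.card ≤ 2 * d ^ 2 :=
          (Multiset.toFinset_card_le _).trans ((card_roots' _).trans hr₁d)
        have e2 : F.leadingCoeff.roots.toFinset.card ≤ d :=
          (Multiset.toFinset_card_le _).trans ((card_roots' _).trans hlcd)
        have e3 : r₂.roots.toFinset.card ≤ 2 * (3 * d) ^ 2 :=
          (Multiset.toFinset_card_le _).trans ((card_roots' _).trans hr₂d)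
        have e4 : ({-M, M} : Finset ℝ).card ≤ 2 := Finset.card_le_two
        rw [hBdef, hNdef]
        refine (Finset.card_union_le _ _).trans ?_
        have e5 := Finset.card_union_le r₁.roots.toFinset F.leadingCoeff.roots.toFinset
        have e6 := Finset.card_union_le r₂.roots.toFinset ({-M, M} : Finset ℝ)
        omega
      have hB1 : ∀ x, x ∉ B → r₁.eval x ≠ 0 := by
        intro x hx h0
        apply hx
        rw [hBdef]
        exact Finset.mem_union_left _ (Finset.mem_union_left _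
          (Multiset.mem_toFinset.2 ((mem_roots hr₁).2 h0)))
      have hB2 : ∀ x, x ∉ B → F.leadingCoeff.eval x ≠ 0 := by
        intro x hx h0
        apply hx
        rw [hBdef]
        exact Finset.mem_union_left _ (Finset.mem_union_right _
          (Multiset.mem_toFinset.2 ((mem_roots hlc).2 h0)))
      have hB3 : ∀ x, x ∉ B → r₂.eval x ≠ 0 := by
        intro x hx h0
        apply hx
        rw [hBdef]
        exact Finset.mem_union_right _ (Finset.mem_union_left _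
          (Multiset.mem_toFinset.2 ((mem_roots hr₂).2 h0)))
      have hMB : M ∈ B := by
        rw [hBdef]
        exact Finset.mem_union_right _ (Finset.mem_union_right _ (by simp))
      have hMB' : -M ∈ B := by
        rw [hBdef]
        exact Finset.mem_union_right _ (Finset.mem_union_right _ (by simp))
      have hlo : ∀ p ∈ X, ∃ b ∈ B, b < (p.1 : ℝ) := fun p hp =>
        ⟨-M, hMB', (abs_lt.1 (hM p hp)).1⟩
      have hhi : ∀ p ∈ X, ∃ b ∈ B, (p.1 : ℝ) < b := fun p hp =>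
        ⟨M, hMB, (abs_lt.1 (hM p hp)).2⟩
      obtain ⟨T, hT1, hT2⟩ := cover d X hN B Qp hlo (fun u _ =>
        classes hBD.1 hX hB2 (fun x hx y => hr₁z x y (hB1 x hx)) hhi Qp
          (fun u v g huv hI hg h0 Y hY hYg => hQp B u v g huv (fun x hx => hB3 x (hI x hx))
            (fun x hx y => hr₁z x y (hB1 x (hI x hx))) hg h0 Y hY hYg) u)
      refine ⟨T, hT1, fun m hm => (hT2 m hm).trans ?_⟩
      exact Nat.add_le_add (Nat.mul_le_mul_left 2 hBcard)
        (Nat.mul_le_mul_right _ (Nat.mul_le_mul_right _ hBcard))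
    by_cases hHs : F ∣ Hs F
    · -- the flat case
      have hHs0 : ∀ x y, F.evalEval x y = 0 → (Hs F).evalEval x y = 0 := by
        intro x y h
        obtain ⟨H, hH⟩ := hHs
        rw [hH, evalEval_mul, h, zero_mul]
      obtain ⟨T, hT1, hT2⟩ := main 1 one_ne_zero (by simp) (fun Y => Y.card ≤ 2) (by
        intro _ u v g huv _ h1 hg h0 Y hY hYg
        refine piece_flat hg h0 (fun x hx => h1 x hx _ (h0 x hx))
          (fun x hx => hHs0 x _ (h0 x hx)) ?_ hYg
        intro p hp q hq r hr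
        exact hN p (hY hp) q (hY hq) r (hY hr))
      refine ⟨∅, Finset.empty_subset _, chain_empty, ?_⟩
      have h1 := hT2 2 (fun Y hY => (hT1 Y hY).2)
      rw [Finset.card_empty]
      linarith
    · obtain ⟨r₂, hr₂, hr₂d, hr₂z⟩ := rel_zero (bd_mono hBD (by omega)) (bd_Hs hBD)
        (hF.isRelPrime_iff_not_dvd.2 hHs)
      obtain ⟨T, hT1, hT2⟩ := main r₂ hr₂ hr₂d (fun Y => Chain Y) (by
        intro _ u v g huv hr h1 hg h0 Y hY hYg
        exact piece_chain hg h0 (fun x hx => h1 x hx _ (h0 x hx))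
          (fun x hx => hr₂z x _ (hr x hx) (h0 x hx)) hYg)
      rcases T.eq_empty_or_nonempty with hTe | hTn
      · refine ⟨∅, Finset.empty_subset _, chain_empty, ?_⟩
        have h1 := hT2 0 (by rw [hTe]; simp)
        rw [Finset.card_empty]
        rw [mul_zero, add_zero] at h1
        have h2 := Nat.zero_le (2 * (N * d))
        linarith
      · obtain ⟨Y, hY, hmax⟩ := Finset.exists_max_image T Finset.card hTn
        refine ⟨Y, (hT1 Y hY).1, (hT1 Y hY).2, ?_⟩
        have h1 := hT2 Y.card hmax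
        have h2 := Nat.zero_le (N * d)
        have h3 := Nat.zero_le (N * Y.card)
        have h4 := Nat.zero_le (N * d * Y.card)
        nlinarith

end BlkAR
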