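import Pool.Agent.Work.MP_763b10_co.AR.Defs

/-!
# MP_763b10_co, board modar, module Chern (M)

Sampling with replacement (a Chernoff bound for counting).

Proof. `μ = |s|/|A|`, `ξ(a) = 1` if `a ∈ s`, else `0`. For `|λ| ≤ 1`: `(1/|A|) ∑_{a ∈ A} exp(λ (ξ(a) - μ)) ≤ 1 + λ²` because
`exp u ≤ 1 + u + u²` for `|u| ≤ 1` (`Real.abs_exp_sub_one_sub_id_le`) and `|ξ - μ| ≤ 1`, `∑ (ξ - μ) = 0`. So (`Finset.prod_univ_sum` /
`Fintype.piFinset`) `∑_{a ∈ A^l} exp(λ ∑_i (ξ(a_i) - μ)) ≤ |A|^l (1 + λ²)^l ≤ |A|^l exp(l λ²)`. With `λ = ε/2` the number of `a`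
with `∑_i (ξ(a_i) - μ) > ε l` is at most `|A|^l exp(l λ² - λ ε l) = |A|^l exp(-ε² l/4)`; the same with `λ = -ε/2`.
(For `l = 0` the left side is at most `1 ≤ 2`.)
-/

set_option autoImplicit false

namespace BlkAR

open Finset

private theorem chern_coord {α : Type*} [DecidableEq α] (A s : Finset α) (hA : A.Nonempty)
    (hs : s ⊆ A) (lam : ℝ) (hlam : |lam| ≤ 1) :
    ∑ x ∈ A, Real.exp (lam * ((if x ∈ s then (1 : ℝ) else 0) - s.card / A.card)) ≤
      A.card * (1 + lam ^ 2) := by
  have hc : (0 : ℝ) < A.card := by exact_mod_cast hA.card_pos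
  obtain ⟨mu, hmu⟩ : ∃ mu : ℝ, mu = s.card / A.card := ⟨_, rfl⟩
  have hmu0 : 0 ≤ mu := by rw [hmu]; positivity
  have hmu1 : mu ≤ 1 := by
    rw [hmu, div_le_one hc]
    exact_mod_cast card_le_card hs
  rw [← hmu]
  have h1 : ∀ x ∈ A, Real.exp (lam * ((if x ∈ s then (1 : ℝ) else 0) - mu)) ≤
      1 + lam * ((if x ∈ s then (1 : ℝ) else 0) - mu) + lam ^ 2 := by
    intro x _
    obtain ⟨v, hv⟩ : ∃ v : ℝ, v = (if x ∈ s then (1 : ℝ) else 0) - mu := ⟨_, rfl⟩
    rw [← hv]
    have hv1 : |v| ≤ 1 := by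
      rw [hv, abs_le]
      split_ifs <;> constructor <;> linarith
    have h2 : |lam * v| ≤ 1 := by
      rw [abs_mul]
      exact mul_le_one₀ hlam (abs_nonneg _) hv1
    have h3 := Real.abs_exp_sub_one_sub_id_le h2
    have h4 := (abs_le.1 h3).2
    have h5 : (lam * v) ^ 2 ≤ lam ^ 2 := by
      rw [mul_pow]
      have h6 : v ^ 2 ≤ 1 := by
        rw [← sq_abs]
        exact pow_le_one₀ (abs_nonneg _) hv1
      nlinarith [sq_nonneg lam]
    linarith
  refine (sum_le_sum h1).trans (le_of_eq ?_)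
  rw [sum_add_distrib, sum_add_distrib, ← mul_sum, sum_sub_distrib]
  simp only [sum_const, nsmul_eq_mul, mul_one]
  have h2 : ∑ x ∈ A, (if x ∈ s then (1 : ℝ) else 0) = s.card := by
    rw [← sum_filter]
    rw [filter_mem_eq_inter, inter_eq_right.2 hs]
    simp
  have h3 : (A.card : ℝ) * mu = s.card := by
    rw [hmu]
    field_simp
  rw [h2, h3]
  ring

private theorem chern_one {α : Type*} [DecidableEq α] (A s : Finset α) (hA : A.Nonempty)
    (hs : s ⊆ A) (l : ℕ) (ε : ℝ) (h0 : 0 < ε) (h1 : ε ≤ 1) (t : ℝ) (ht : t = 1 ∨ t = -1) :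
    (((Fintype.piFinset fun _ : Fin l => A).filter fun a : Fin l → α =>
      ε * l < t * (((univ.filter fun i => a i ∈ s).card : ℝ) - l * (s.card / A.card))).card : ℝ) ≤
      Real.exp (-(ε ^ 2 * l / 4)) * (A.card : ℝ) ^ l := by
  classical
  have hc : (0 : ℝ) < A.card := by exact_mod_cast hA.card_pos
  have ht2 : t ^ 2 = 1 := by rcases ht with h | h <;> rw [h] <;> norm_num
  have hlam : |t * ε / 2| ≤ 1 := by
    rcases ht with h | h <;> rw [h, abs_le] <;> constructor <;> linarith
  have hX : ∀ a : Fin l → α, ((univ.filter fun i => a i ∈ s).card : ℝ) - l * (s.card / A.card) =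
      ∑ i, ((if a i ∈ s then (1 : ℝ) else 0) - s.card / A.card) := by
    intro a
    rw [sum_sub_distrib, sum_const, card_univ, Fintype.card_fin, nsmul_eq_mul, card_filter]
    push_cast
    rfl
  have hsum : ∑ a ∈ (Fintype.piFinset fun _ : Fin l => A),
      Real.exp (t * ε / 2 * (((univ.filter fun i => a i ∈ s).card : ℝ) -
        l * (s.card / A.card))) ≤ (A.card : ℝ) ^ l * Real.exp (ε ^ 2 * l / 4) := by
    have e1 : ∑ a ∈ (Fintype.piFinset fun _ : Fin l => A),
        Real.exp (t * ε / 2 * (((univ.filter fun i => a i ∈ s).card : ℝ) -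
          l * (s.card / A.card))) =
        ∑ a ∈ (Fintype.piFinset fun _ : Fin l => A), ∏ i,
          Real.exp (t * ε / 2 * ((if a i ∈ s then (1 : ℝ) else 0) - s.card / A.card)) := by
      apply sum_congr rfl
      intro a _
      rw [hX, mul_sum, Real.exp_sum]
    rw [e1]
    rw [← prod_univ_sum (fun _ : Fin l => A)
      (fun _ x => Real.exp (t * ε / 2 * ((if x ∈ s then (1 : ℝ) else 0) - s.card / A.card)))]
    rw [prod_const, card_univ, Fintype.card_fin]
    have e2 := chern_coord A s hA hs (t * ε / 2) hlam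
    have e3 : (∑ x ∈ A, Real.exp (t * ε / 2 * ((if x ∈ s then (1 : ℝ) else 0) -
        s.card / A.card))) ≤ A.card * Real.exp (ε ^ 2 / 4) := by
      refine e2.trans ?_
      have e4 : (t * ε / 2) ^ 2 = ε ^ 2 / 4 := by
        have : (t * ε / 2) ^ 2 = t ^ 2 * ε ^ 2 / 4 := by ring
        rw [this, ht2]
        ring
      rw [e4]
      have e5 := Real.add_one_le_exp (ε ^ 2 / 4)
      apply mul_le_mul_of_nonneg_left _ hc.le
      linarith
    refine (pow_le_pow_left₀ (sum_nonneg fun x _ => (Real.exp_pos _).le) e3 l).trans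
      (le_of_eq ?_)
    rw [mul_pow, ← Real.exp_nat_mul]
    congr 2
    ring
  have hcount : (((Fintype.piFinset fun _ : Fin l => A).filter fun a : Fin l → α =>
      ε * l < t * (((univ.filter fun i => a i ∈ s).card : ℝ) -
        l * (s.card / A.card))).card : ℝ) * Real.exp (ε ^ 2 * l / 2) ≤
      (A.card : ℝ) ^ l * Real.exp (ε ^ 2 * l / 4) := by
    refine le_trans ?_ hsum
    rw [← nsmul_eq_mul, ← sum_const]
    refine le_trans (sum_le_sum ?_) (sum_le_sum_of_subset_of_nonneg (filter_subset _ _) ?_)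
    · intro a ha
      have h2 := (mem_filter.1 ha).2
      apply Real.exp_le_exp.2
      have h3 : t * ε / 2 * (((univ.filter fun i => a i ∈ s).card : ℝ) -
          l * (s.card / A.card)) = ε / 2 * (t * (((univ.filter fun i => a i ∈ s).card : ℝ) -
          l * (s.card / A.card))) := by ring
      rw [h3]
      have h4 : ε / 2 * (ε * l) ≤ ε / 2 * (t * (((univ.filter fun i => a i ∈ s).card : ℝ) -
          l * (s.card / A.card))) := mul_le_mul_of_nonneg_left h2.le (by linarith)
      have h5 : ε / 2 * (ε * l) = ε ^ 2 * l / 2 := by ring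
      linarith
    · intro a _ _
      exact (Real.exp_pos _).le
  have h6 : Real.exp (-(ε ^ 2 * l / 4)) * (A.card : ℝ) ^ l =
      ((A.card : ℝ) ^ l * Real.exp (ε ^ 2 * l / 4)) * Real.exp (-(ε ^ 2 * l / 2)) := by
    have h7 : -(ε ^ 2 * (l : ℝ) / 4) = ε ^ 2 * l / 4 + -(ε ^ 2 * l / 2) := by ring
    rw [h7, Real.exp_add]
    ring
  rw [h6]
  rw [Real.exp_neg, ← div_eq_mul_inv, le_div_iff₀ (Real.exp_pos _)]
  exact hcount

theorem chern {α : Type*} [DecidableEq α] (A s : Finset α) (hA : A.Nonempty) (hs : s ⊆ A) (l : ℕ)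
    (ε : ℝ) (h0 : 0 < ε) (h1 : ε ≤ 1) :
    (((Fintype.piFinset fun _ : Fin l => A).filter fun a : Fin l → α =>
      ε * l < |((univ.filter fun i => a i ∈ s).card : ℝ) - l * (s.card / A.card)|).card : ℝ) ≤
      2 * Real.exp (-(ε ^ 2 * l / 4)) * (A.card : ℝ) ^ l := by
  classical
  have hp := chern_one A s hA hs l ε h0 h1 1 (Or.inl rfl)
  have hm := chern_one A s hA hs l ε h0 h1 (-1) (Or.inr rfl)
  have hsub : ((Fintype.piFinset fun _ : Fin l => A).filter fun a : Fin l → α =>
      ε * l < |((univ.filter fun i => a i ∈ s).card : ℝ) - l * (s.card / A.card)|) ⊆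
      ((Fintype.piFinset fun _ : Fin l => A).filter fun a : Fin l → α =>
        ε * l < 1 * (((univ.filter fun i => a i ∈ s).card : ℝ) - l * (s.card / A.card))) ∪
      ((Fintype.piFinset fun _ : Fin l => A).filter fun a : Fin l → α =>
        ε * l < (-1) * (((univ.filter fun i => a i ∈ s).card : ℝ) - l * (s.card / A.card))) := by
    intro a ha
    rw [mem_filter] at ha
    rw [mem_union, mem_filter, mem_filter]
    rcases lt_abs.1 ha.2 with h | h
    · left
      exact ⟨ha.1, by rw [one_mul]; exact h⟩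
    · right
      exact ⟨ha.1, by rw [neg_one_mul]; exact h⟩
  have h2 : (((Fintype.piFinset fun _ : Fin l => A).filter fun a : Fin l → α =>
      ε * l < |((univ.filter fun i => a i ∈ s).card : ℝ) - l * (s.card / A.card)|).card : ℝ) ≤
      (((Fintype.piFinset fun _ : Fin l => A).filter fun a : Fin l → α =>
        ε * l < 1 * (((univ.filter fun i => a i ∈ s).card : ℝ) -
          l * (s.card / A.card))).card : ℝ) +
      (((Fintype.piFinset fun _ : Fin l => A).filter fun a : Fin l → α =>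
        ε * l < (-1) * (((univ.filter fun i => a i ∈ s).card : ℝ) -
          l * (s.card / A.card))).card : ℝ) := by
    exact_mod_cast (card_le_card hsub).trans (card_union_le _ _)
  linarith

end BlkAR
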