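import Pool.Agent.Work.MP_763b10_co.AR.Defs

/-!
# MP_763b10_co, board modar, module Cls (S)

Points of `P` congruent to a rational point.

Proof. `0 ≤ K` (the condition of `Spr` with `m = 1`: `0 ≤ K (n + 1)`). `coprime_D`: if a prime `l` divides `m` and `D`, it divides
`D p.1 - a` and `D p.2 - b`, so `a` and `b`, against `Prim`. `cls`: if the set is empty, clear. Otherwise let `p₀` be an element; for every other element
`p`: `m ∣ D (p - p₀)`, so `m ∣ p - p₀` as `gcd(m, D) = 1`: the set is contained in the class of `p₀`.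
`rho_le`: `rho p q ≤ 2 W²` because it divides a nonzero integer of absolute value `≤ 2W²`.
-/

set_option autoImplicit false

namespace BlkAR

open Finset

private theorem prim_bez' {q : ℤ × ℤ × ℤ} (hq : Prim q) :
    ∃ u v w : ℤ, u * q.1 + v * q.2.1 + w * q.2.2 = 1 := by
  have h1 := Int.gcd_eq_gcd_ab q.1 q.2.1
  have h2 := Int.gcd_eq_gcd_ab (Int.gcd q.1 q.2.1) q.2.2
  rw [hq.2] at h2
  refine ⟨Int.gcdA q.1 q.2.1 * Int.gcdA (Int.gcd q.1 q.2.1) q.2.2,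
    Int.gcdB q.1 q.2.1 * Int.gcdA (Int.gcd q.1 q.2.1) q.2.2,
    Int.gcdB (Int.gcd q.1 q.2.1) q.2.2, ?_⟩
  push_cast at h2
  linear_combination -h2 - Int.gcdA (Int.gcd q.1 q.2.1) q.2.2 * h1

private theorem rho_dvd {p : ℤ × ℤ} {q : ℤ × ℤ × ℤ} {m : ℕ} (h : m ∣ rho p q) :
    (m : ℤ) ∣ q.2.2 * p.1 - q.1 ∧ (m : ℤ) ∣ q.2.2 * p.2 - q.2.1 := by
  have h1 : (m : ℤ) ∣ (rho p q : ℤ) := by exact_mod_cast h
  exact ⟨h1.trans (Int.gcd_dvd_left _ _), h1.trans (Int.gcd_dvd_right _ _)⟩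

theorem coprime_D {p : ℤ × ℤ} {q : ℤ × ℤ × ℤ} {m : ℕ} (hq : Prim q) (h : m ∣ rho p q) :
    IsCoprime (m : ℤ) q.2.2 := by
  obtain ⟨u, v, w, hb⟩ := prim_bez' hq
  obtain ⟨⟨s, hs⟩, ⟨t, ht⟩⟩ := rho_dvd h
  refine ⟨-(u * s + v * t), u * p.1 + v * p.2 + w, ?_⟩
  linear_combination hb + u * hs + v * ht

theorem spr_nonneg {K : ℝ} {P : Finset (ℤ × ℤ)} (h : Spr K P) : 0 ≤ K := by
  have h1 := h 1 le_rfl (0, 0)
  have h2 : (0 : ℝ) ≤ K * ((P.card : ℝ) / (1 : ℕ) + 1) := le_trans (Nat.cast_nonneg _) h1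
  have h3 : (0 : ℝ) < (P.card : ℝ) / (1 : ℕ) + 1 := by positivity
  by_contra hcon
  rw [not_le] at hcon
  have := mul_neg_of_neg_of_pos hcon h3
  linarith

theorem cls {K : ℝ} {P : Finset (ℤ × ℤ)} (h : Spr K P) {q : ℤ × ℤ × ℤ} (hq : Prim q) {m : ℕ}
    (hm : 1 ≤ m) : ((P.filter fun p => m ∣ rho p q).card : ℝ) ≤ K * ((P.card : ℝ) / m + 1) := by
  rcases (P.filter fun p => m ∣ rho p q).eq_empty_or_nonempty with h0 | ⟨p₀, hp₀⟩
  · rw [h0, Finset.card_empty, Nat.cast_zero]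
    exact mul_nonneg (spr_nonneg h) (by positivity)
  · rw [Finset.mem_filter] at hp₀
    have hc := coprime_D hq hp₀.2
    refine le_trans ?_ (h m hm p₀)
    have hsub : (P.filter fun p => m ∣ rho p q) ⊆
        P.filter (fun p => (m : ℤ) ∣ p.1 - p₀.1 ∧ (m : ℤ) ∣ p.2 - p₀.2) := by
      intro p hp
      rw [Finset.mem_filter] at hp ⊢
      obtain ⟨a1, a2⟩ := rho_dvd hp.2
      obtain ⟨b1, b2⟩ := rho_dvd hp₀.2
      refine ⟨hp.1, ?_, ?_⟩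
      · refine hc.dvd_of_dvd_mul_left ?_
        have e : q.2.2 * (p.1 - p₀.1) = (q.2.2 * p.1 - q.1) - (q.2.2 * p₀.1 - q.1) := by ring
        rw [e]
        exact dvd_sub a1 b1
      · refine hc.dvd_of_dvd_mul_left ?_
        have e : q.2.2 * (p.2 - p₀.2) = (q.2.2 * p.2 - q.2.1) - (q.2.2 * p₀.2 - q.2.1) := by ring
        rw [e]
        exact dvd_sub a2 b2
    exact_mod_cast Finset.card_le_card hsub

private theorem abs_lin {D p a W : ℝ} (hW : 1 ≤ W) (hD0 : 0 ≤ D) (hD : D ≤ W) (hp : |p| ≤ W)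
    (ha : |a| ≤ W) : |D * p - a| ≤ 2 * W ^ 2 := by
  have h1 : |D * p - a| ≤ |D * p| + |a| := abs_sub _ _
  have h2 : |D * p| ≤ W * W := by
    rw [abs_mul, abs_of_nonneg hD0]
    exact mul_le_mul hD hp (abs_nonneg _) (by linarith)
  nlinarith

private theorem gcd_le_abs {g : ℕ} {x : ℤ} (h : (g : ℤ) ∣ x) (hx : x ≠ 0) : (g : ℝ) ≤ |(x : ℝ)| := by
  have h1 : (g : ℤ) ≤ |x| := Int.le_of_dvd (abs_pos.2 hx) ((dvd_abs _ _).2 h)
  exact_mod_cast h1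

theorem rho_le {p : ℤ × ℤ} {q : ℤ × ℤ × ℤ} {W : ℝ} (hW : 1 ≤ W)
    (hp : |(p.1 : ℝ)| ≤ W ∧ |(p.2 : ℝ)| ≤ W)
    (hq : |(q.1 : ℝ)| ≤ W ∧ |(q.2.1 : ℝ)| ≤ W ∧ (q.2.2 : ℝ) ≤ W) (hq1 : 1 ≤ q.2.2)
    (h0 : rho p q ≠ 0) : (rho p q : ℝ) ≤ 2 * W ^ 2 := by
  have hD0 : (0 : ℝ) ≤ (q.2.2 : ℝ) := by exact_mod_cast (by omega : (0 : ℤ) ≤ q.2.2)
  obtain ⟨d1, d2⟩ := rho_dvd (dvd_refl (rho p q))
  by_cases hx : q.2.2 * p.1 - q.1 = 0
  · have hy : q.2.2 * p.2 - q.2.1 ≠ 0 := by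
      intro hy
      apply h0
      unfold rho
      rw [hx, hy]
      rfl
    have h1 := gcd_le_abs d2 hy
    have h2 := abs_lin hW hD0 hq.2.2 hp.2 hq.2.1
    push_cast at h1
    exact h1.trans h2
  · have h1 := gcd_le_abs d1 hx
    have h2 := abs_lin hW hD0 hq.2.2 hp.1 hq.1
    push_cast at h1
    exact h1.trans h2

end BlkAR
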