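import Pool.Agent.Work.MP_763b10_co.AR.Defs

/-!
# MP_763b10_co, board modar, module Uniq (S)

In a configuration a pair is determined by one of its points and the blocker; rational points in lowest terms are determined by
their values.

Proof. Let `x, y ∈ G`, `x.1 = y.1 = p`, `f x = f y = (a, b, D)`, `u = D p - (a, b) ≠ 0` (`out`), `u' = D x.2 - (a,b)`, `u'' = D y.2 - (a,b)`. By `Opp`
`σ' u = -ρ u'`, `σ'' u = -ρ u''` with `ρ = rho p q > 0`; so `ρ D (x.2 - p) = -(σ' + ρ) u` and `ρ D (y.2 - p) = -(σ'' + ρ) u` are parallel: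
`p, x.2, y.2` are collinear, `x.2 ≠ p`, `y.2 ≠ p`, so `x.2 = y.2` by `NC`. `uniq2` is symmetric. `qt_inj`: if `a/D = a'/D'`, `b/D = b'/D'`, then
`D' (a, b, D) = D (a', b', D')`; taking gcds `D' = D` (both positive, both triples primitive).
-/

set_option autoImplicit false

namespace BlkAR

open Finset

variable {P : Finset (ℤ × ℤ)} {R : Finset (ℤ × ℤ × ℤ)} {G : Finset ((ℤ × ℤ) × (ℤ × ℤ))}
  {f : (ℤ × ℤ) × (ℤ × ℤ) → ℤ × ℤ × ℤ} {W : ℝ}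

private theorem uniq_aux (h : Cfg P R G f W) {p p' p'' : ℤ × ℤ} {q : ℤ × ℤ × ℤ} (hp : p ∈ P)
    (hp' : p' ∈ P) (hp'' : p'' ∈ P) (hq : q ∈ R) (hne : p ≠ p') (hne' : p ≠ p'')
    (h1 : Opp p q p') (h2 : Opp p q p'') : p' = p'' := by
  by_contra hcon
  have hnc := h.nc p hp p' hp' p'' hp'' hne hne' hcon
  obtain ⟨a1, a2⟩ := h1
  obtain ⟨b1, b2⟩ := h2
  have hρ : (rho p q : ℤ) ≠ 0 := by exact_mod_cast h.out q hq p hp
  have hD : q.2.2 ≠ 0 := by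
    have := (h.prim q hq).1
    omega
  obtain ⟨ρ, hρe⟩ : ∃ ρ : ℤ, ρ = rho p q := ⟨_, rfl⟩
  obtain ⟨ρ', hρe'⟩ : ∃ ρ : ℤ, ρ = rho p' q := ⟨_, rfl⟩
  obtain ⟨ρ'', hρe''⟩ : ∃ ρ : ℤ, ρ = rho p'' q := ⟨_, rfl⟩
  rw [← hρe, ← hρe'] at a1 a2
  rw [← hρe, ← hρe''] at b1 b2
  rw [← hρe] at hρ
  have e1 : ρ * q.2.2 * (p'.1 - p.1) = -(ρ' + ρ) * (q.2.2 * p.1 - q.1) := by
    linear_combination a1
  have e2 : ρ * q.2.2 * (p'.2 - p.2) = -(ρ' + ρ) * (q.2.2 * p.2 - q.2.1) := by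
    linear_combination a2
  have e3 : ρ * q.2.2 * (p''.1 - p.1) = -(ρ'' + ρ) * (q.2.2 * p.1 - q.1) := by
    linear_combination b1
  have e4 : ρ * q.2.2 * (p''.2 - p.2) = -(ρ'' + ρ) * (q.2.2 * p.2 - q.2.1) := by
    linear_combination b2
  have e5 : (ρ * q.2.2) ^ 2 * ((p'.1 - p.1) * (p''.2 - p.2) - (p'.2 - p.2) * (p''.1 - p.1)) = 0 := by
    have e6 : (ρ * q.2.2) ^ 2 * ((p'.1 - p.1) * (p''.2 - p.2) - (p'.2 - p.2) * (p''.1 - p.1)) =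
        (ρ * q.2.2 * (p'.1 - p.1)) * (ρ * q.2.2 * (p''.2 - p.2)) -
          (ρ * q.2.2 * (p'.2 - p.2)) * (ρ * q.2.2 * (p''.1 - p.1)) := by ring
    rw [e6, e1, e2, e3, e4]
    ring
  rcases mul_eq_zero.1 e5 with h3 | h3
  · exact pow_ne_zero 2 (mul_ne_zero hρ hD) h3
  · exact hnc h3

private theorem opp_symm' {p p' : ℤ × ℤ} {q : ℤ × ℤ × ℤ} (h : Opp p q p') : Opp p' q p := by
  obtain ⟨h1, h2⟩ := h
  constructor
  · linear_combination h1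
  · linear_combination h2

theorem uniq1 (h : Cfg P R G f W) {x y : (ℤ × ℤ) × (ℤ × ℤ)} (hx : x ∈ G) (hy : y ∈ G)
    (h1 : x.1 = y.1) (h2 : f x = f y) : x = y := by
  refine Prod.ext h1 ?_
  have hxs := h.sub x hx
  have hys := h.sub y hy
  have hox := h.opp x hx
  have hoy := h.opp y hy
  rw [← h1, ← h2] at hoy
  rw [← h1] at hys
  exact uniq_aux h hxs.1 hxs.2.1 hys.2.1 (h.mem x hx) hxs.2.2 hys.2.2 hox hoy

theorem uniq2 (h : Cfg P R G f W) {x y : (ℤ × ℤ) × (ℤ × ℤ)} (hx : x ∈ G) (hy : y ∈ G)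
    (h1 : x.2 = y.2) (h2 : f x = f y) : x = y := by
  refine Prod.ext ?_ h1
  have hxs := h.sub x hx
  have hys := h.sub y hy
  have hox := h.opp x hx
  have hoy := h.opp y hy
  rw [← h1, ← h2] at hoy
  rw [← h1] at hys
  exact uniq_aux h hxs.2.1 hxs.1 hys.1 (h.mem x hx) (Ne.symm hxs.2.2) (Ne.symm hys.2.2)
    (opp_symm' hox) (opp_symm' hoy)

private theorem prim_bez {q : ℤ × ℤ × ℤ} (hq : Prim q) :
    ∃ u v w : ℤ, u * q.1 + v * q.2.1 + w * q.2.2 = 1 := by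
  have h1 := Int.gcd_eq_gcd_ab q.1 q.2.1
  have h2 := Int.gcd_eq_gcd_ab (Int.gcd q.1 q.2.1) q.2.2
  rw [hq.2] at h2
  refine ⟨Int.gcdA q.1 q.2.1 * Int.gcdA (Int.gcd q.1 q.2.1) q.2.2,
    Int.gcdB q.1 q.2.1 * Int.gcdA (Int.gcd q.1 q.2.1) q.2.2,
    Int.gcdB (Int.gcd q.1 q.2.1) q.2.2, ?_⟩
  push_cast at h2
  linear_combination -h2 - Int.gcdA (Int.gcd q.1 q.2.1) q.2.2 * h1

theorem qt_inj {q q' : ℤ × ℤ × ℤ} (hq : Prim q) (hq' : Prim q') (h : qt q = qt q') : q = q' := by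
  have hD : (0 : ℤ) < q.2.2 := by have := hq.1; omega
  have hD' : (0 : ℤ) < q'.2.2 := by have := hq'.1; omega
  have hDq : (q.2.2 : ℚ) ≠ 0 := by exact_mod_cast hD.ne'
  have hDq' : (q'.2.2 : ℚ) ≠ 0 := by exact_mod_cast hD'.ne'
  have h1 : (q.1 : ℚ) / q.2.2 = (q'.1 : ℚ) / q'.2.2 := congrArg Prod.fst h
  have h2 : (q.2.1 : ℚ) / q.2.2 = (q'.2.1 : ℚ) / q'.2.2 := congrArg Prod.snd h
  rw [div_eq_div_iff hDq hDq'] at h1 h2
  have e1 : q.1 * q'.2.2 = q'.1 * q.2.2 := by exact_mod_cast h1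
  have e2 : q.2.1 * q'.2.2 = q'.2.1 * q.2.2 := by exact_mod_cast h2
  obtain ⟨u, v, w, hb⟩ := prim_bez hq
  obtain ⟨u', v', w', hb'⟩ := prim_bez hq'
  have d1 : q.2.2 ∣ q'.2.2 := ⟨u * q'.1 + v * q'.2.1 + w * q'.2.2, by
    linear_combination (-q'.2.2) * hb + u * e1 + v * e2⟩
  have d2 : q'.2.2 ∣ q.2.2 := ⟨u' * q.1 + v' * q.2.1 + w' * q.2.2, by
    linear_combination (-q.2.2) * hb' - u' * e1 - v' * e2⟩
  have e3 : q.2.2 = q'.2.2 := Int.dvd_antisymm hD.le hD'.le d1 d2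
  rw [← e3] at e1 e2
  have e4 : q.1 = q'.1 := mul_right_cancel₀ hD.ne' e1
  have e5 : q.2.1 = q'.2.1 := mul_right_cancel₀ hD.ne' e2
  exact Prod.ext e4 (Prod.ext e5 e3)

end BlkAR
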