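import Pool.Agent.Work.MP_763b10_co.AR.Bez
import Pool.Agent.Work.MP_763b10_co.AR.Uniq

/-!
# MP_763b10_co, board modar, module Comp (M)

A component with many points.

Proof. `P'` is nonempty, so `G` is not a unit; let `s` be the finset of its irreducible factors up to associates (`normalizedFactors` /
`UniqueFactorizationMonoid.factors`, `toFinset` after choosing representatives), `|s| ≤ 2d` (`factors_card`); two different elements of `s` are relatively prime,
all have `BD d` (`bd_dvd`). Take `G₁ ∈ s` with the largest `#{p ∈ P' : ev G₁ (pt p) = 0} =: μ`. Let `Q₂ ⊆ R` be the set of the `q` at which two different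
elements of `s` vanish: at most `(2d)²/2 * 4d⁴ ≤ 8 d⁶` (`bez`, `qt_inj`), for them `|N q| ≤ |P'|`. For `q ∈ R \ Q₂` let `H` be the product of the irreducible
factors of `G` (with multiplicity) which do not vanish at `q`: `BD d H` (`H ∣ G`), `ev H (qt q) ≠ 0`. For `p ∈ N q ⊆ P'`: `ev G (pt p) = 0`, so `ev H (pt p) = 0` or
`p` is a zero of the (at most one, up to associates) factor vanishing at `q`; so `|N q| ≤ μ + δ`.
-/

set_option autoImplicit false

namespace BlkAR

open Finset Polynomial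

private theorem cp_one (x : ℚ × ℚ) : ev (1 : ℚ[X][X]) x = 1 := by
  unfold ev
  exact evalEval_one _ _

private theorem cp_prod (t : Multiset ℚ[X][X]) (x : ℚ × ℚ) :
    ev t.prod x = 0 ↔ ∃ F ∈ t, ev F x = 0 := by
  induction t using Multiset.induction_on with
  | empty =>
    rw [Multiset.prod_zero, cp_one]
    simp
  | cons F t ih =>
    rw [Multiset.prod_cons, ev_mul, mul_eq_zero, ih]
    simp only [Multiset.mem_cons, exists_eq_or_imp]

private theorem cp_unit {u : ℚ[X][X]} (hu : IsUnit u) (x : ℚ × ℚ) : ev u x ≠ 0 := by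
  obtain ⟨v, hv⟩ := hu.exists_right_inv
  intro h0
  have h1 := cp_one x
  rw [← hv, ev_mul, h0, zero_mul] at h1
  exact zero_ne_one h1

private theorem cp_assoc {F G : ℚ[X][X]} (h : Associated F G) (x : ℚ × ℚ) :
    ev F x = 0 ↔ ev G x = 0 := by
  obtain ⟨u, rfl⟩ := h
  rw [ev_mul, mul_eq_zero]
  constructor
  · exact Or.inl
  · rintro (h1 | h1)
    · exact h1
    · exact absurd h1 (cp_unit u.isUnit x)

open scoped Classical in
theorem comp {d : ℕ} {G : ℚ[X][X]} (hG : G ≠ 0) (hd : BD d G) {P' : Finset (ℤ × ℤ)}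
    (hP : P'.Nonempty) (h0 : ∀ p ∈ P', ev G (pt p) = 0) {R : Finset (ℤ × ℤ × ℤ)}
    (hq : ∀ q ∈ R, Prim q) (N : ℤ × ℤ × ℤ → Finset (ℤ × ℤ)) (hN : ∀ q ∈ R, N q ⊆ P') (δ : ℝ)
    (hδ : 0 ≤ δ) (hs : ∀ q ∈ R, ∀ H : ℚ[X][X], BD d H → ev H (qt q) ≠ 0 →
      (((N q).filter fun p => ev H (pt p) = 0).card : ℝ) ≤ δ) :
    ∃ G₁ : ℚ[X][X], Irreducible G₁ ∧ BD d G₁ ∧ (∑ q ∈ R, ((N q).card : ℝ)) ≤
      R.card * (((P'.filter fun p => ev G₁ (pt p) = 0).card : ℝ) + δ) + 16 * d ^ 6 * P'.card := by
  obtain ⟨t, ht⟩ : ∃ t : Multiset ℚ[X][X], t = UniqueFactorizationMonoid.factors G := ⟨_, rfl⟩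
  have htirr : ∀ F ∈ t, Irreducible F := by
    intro F hF
    rw [ht] at hF
    exact UniqueFactorizationMonoid.irreducible_of_factor F hF
  have htas : Associated t.prod G := by
    rw [ht]
    exact UniqueFactorizationMonoid.factors_prod hG
  have hBDdvd : ∀ F, F ∣ t.prod → BD d F := fun F hF => bd_dvd hG (hF.trans htas.dvd) hd
  obtain ⟨s, hs'⟩ : ∃ s : Finset ℚ[X][X], s = t.toFinset := ⟨_, rfl⟩
  have hmem : ∀ F, F ∈ s ↔ F ∈ t := by
    intro F
    rw [hs', Multiset.mem_toFinset]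
  have hBD : ∀ F ∈ s, BD d F := fun F hF => hBDdvd F (Multiset.dvd_prod ((hmem F).1 hF))
  have hscard : s.card ≤ 2 * d := by
    rw [hs']
    exact (Multiset.toFinset_card_le t).trans (factors_card t htirr (hBDdvd _ dvd_rfl))
  have hsne : s.Nonempty := by
    rw [Finset.nonempty_iff_ne_empty]
    intro h1
    obtain ⟨p, hp⟩ := hP
    have h2 := (cp_assoc htas (pt p)).2 (h0 p hp)
    rw [cp_prod] at h2
    obtain ⟨F, hF, -⟩ := h2
    rw [← hmem, h1] at hF
    exact absurd hF (Finset.notMem_empty F)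
  obtain ⟨G₁, hG₁s, hG₁⟩ := Finset.exists_max_image s
    (fun F => (P'.filter fun p => ev F (pt p) = 0).card) hsne
  refine ⟨G₁, htirr G₁ ((hmem _).1 hG₁s), hBD G₁ hG₁s, ?_⟩
  obtain ⟨μ, hμ⟩ : ∃ μ : ℝ, μ = ((P'.filter fun p => ev G₁ (pt p) = 0).card : ℝ) := ⟨_, rfl⟩
  rw [← hμ]
  have hμmax : ∀ F ∈ s, ((P'.filter fun p => ev F (pt p) = 0).card : ℝ) ≤ μ := by
    intro F hF
    rw [hμ]
    exact_mod_cast hG₁ F hF
  have hμ0 : 0 ≤ μ := by
    rw [hμ]
    exact Nat.cast_nonneg _
  -- the bad points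
  obtain ⟨bad, hbad⟩ : ∃ bad : ℤ × ℤ × ℤ → Prop, bad = fun q => ∃ F ∈ s, ∃ F' ∈ s,
      IsRelPrime F F' ∧ ev F (qt q) = 0 ∧ ev F' (qt q) = 0 := ⟨_, rfl⟩
  have hQ2 : (R.filter bad).card ≤ 16 * d ^ 6 := by
    have h1 : R.filter bad ⊆ (s ×ˢ s).biUnion fun y =>
        if IsRelPrime y.1 y.2 then R.filter fun q => ev y.1 (qt q) = 0 ∧ ev y.2 (qt q) = 0
          else ∅ := by
      intro q hq'
      rw [Finset.mem_filter, hbad] at hq'
      obtain ⟨hqR, F, hF, F', hF', hr, e1, e2⟩ := hq'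
      rw [Finset.mem_biUnion]
      refine ⟨(F, F'), Finset.mem_product.2 ⟨hF, hF'⟩, ?_⟩
      rw [if_pos hr, Finset.mem_filter]
      exact ⟨hqR, e1, e2⟩
    refine (Finset.card_le_card h1).trans (Finset.card_biUnion_le.trans ?_)
    have h2 : ∀ y ∈ s ×ˢ s, (if IsRelPrime y.1 y.2 then
        R.filter fun q => ev y.1 (qt q) = 0 ∧ ev y.2 (qt q) = 0 else ∅).card ≤ 4 * d ^ 4 := by
      intro y hy
      rw [Finset.mem_product] at hy
      split_ifs with hr
      · have h3 := bez (hBD _ hy.1) (hBD _ hy.2) hr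
          ((R.filter fun q => ev y.1 (qt q) = 0 ∧ ev y.2 (qt q) = 0).image qt) (by
          intro z hz
          obtain ⟨q, hq1, rfl⟩ := Finset.mem_image.1 hz
          exact (Finset.mem_filter.1 hq1).2)
        rw [Finset.card_image_of_injOn] at h3
        · exact h3
        · intro a ha b hb hab
          rw [Finset.mem_coe, Finset.mem_filter] at ha hb
          exact qt_inj (hq a ha.1) (hq b hb.1) hab
      · rw [Finset.card_empty]
        exact Nat.zero_le _
    refine (Finset.sum_le_card_nsmul _ _ _ h2).trans ?_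
    rw [Finset.card_product, smul_eq_mul]
    calc s.card * s.card * (4 * d ^ 4) ≤ (2 * d) * (2 * d) * (4 * d ^ 4) :=
          Nat.mul_le_mul_right _ (Nat.mul_le_mul hscard hscard)
      _ = 16 * d ^ 6 := by ring
  -- the bound for one point
  have hone : ∀ q ∈ R, ((N q).card : ℝ) ≤ (μ + δ) + (if bad q then (P'.card : ℝ) else 0) := by
    intro q hqR
    by_cases hb : bad q
    · rw [if_pos hb]
      have h1 : ((N q).card : ℝ) ≤ P'.card := by exact_mod_cast Finset.card_le_card (hN q hqR)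
      linarith
    · rw [if_neg hb, add_zero]
      obtain ⟨H, hH⟩ : ∃ H : ℚ[X][X], H = (t.filter fun F => ev F (qt q) ≠ 0).prod := ⟨_, rfl⟩
      have hHd : BD d H := by
        rw [hH]
        exact hBDdvd _ (Multiset.prod_dvd_prod_of_le (Multiset.filter_le _ _))
      have hHq : ev H (qt q) ≠ 0 := by
        rw [hH, Ne, cp_prod]
        rintro ⟨F, hF, h1⟩
        exact (Multiset.mem_filter.1 hF).2 h1
      have h1 := hs q hqR H hHd hHq
      have hex : ∀ p ∈ N q, ev H (pt p) ≠ 0 → ∃ F ∈ s, ev F (qt q) = 0 ∧ ev F (pt p) = 0 := by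
        intro p hp hHp
        have h2 := (cp_assoc htas (pt p)).2 (h0 p (hN q hqR hp))
        rw [cp_prod] at h2
        obtain ⟨F, hF, h3⟩ := h2
        refine ⟨F, (hmem F).2 hF, ?_, h3⟩
        by_contra h4
        apply hHp
        rw [hH, cp_prod]
        exact ⟨F, Multiset.mem_filter.2 ⟨hF, h4⟩, h3⟩
      have h2 : (((N q).filter fun p => ¬ ev H (pt p) = 0).card : ℝ) ≤ μ := by
        by_cases hF₀ : ∃ F ∈ s, ev F (qt q) = 0
        · obtain ⟨F₀, hF₀s, hF₀q⟩ := hF₀
          refine le_trans ?_ (hμmax F₀ hF₀s)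
          have h3 : ((N q).filter fun p => ¬ ev H (pt p) = 0) ⊆
              P'.filter fun p => ev F₀ (pt p) = 0 := by
            intro p hp
            rw [Finset.mem_filter] at hp
            obtain ⟨F, hF, e1, e2⟩ := hex p hp.1 hp.2
            rw [Finset.mem_filter]
            refine ⟨hN q hqR hp.1, ?_⟩
            have h4 : ¬ IsRelPrime F₀ F := by
              intro h5
              apply hb
              rw [hbad]
              exact ⟨F₀, hF₀s, F, hF, h5, hF₀q, e1⟩
            have i1 := htirr F₀ ((hmem _).1 hF₀s)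
            have i2 := htirr F ((hmem _).1 hF)
            rw [i1.isRelPrime_iff_not_dvd, not_not] at h4
            exact (cp_assoc (i1.associated_of_dvd i2 h4) (pt p)).2 e2
          exact_mod_cast Finset.card_le_card h3
        · have h3 : ((N q).filter fun p => ¬ ev H (pt p) = 0) = ∅ := by
            rw [Finset.filter_eq_empty_iff]
            intro p hp hHp
            obtain ⟨F, hF, e1, -⟩ := hex p hp hHp
            exact hF₀ ⟨F, hF, e1⟩
          rw [h3, Finset.card_empty, Nat.cast_zero]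
          exact hμ0
      have h3 := Finset.card_filter_add_card_filter_not (s := N q) (fun p => ev H (pt p) = 0)
      have h4 : ((N q).card : ℝ) = (((N q).filter fun p => ev H (pt p) = 0).card : ℝ) +
          (((N q).filter fun p => ¬ ev H (pt p) = 0).card : ℝ) := by
        exact_mod_cast h3.symm
      linarith
  refine (Finset.sum_le_sum hone).trans ?_
  rw [Finset.sum_add_distrib, Finset.sum_const, nsmul_eq_mul, ← Finset.sum_filter,
    Finset.sum_const, nsmul_eq_mul]
  have h5 : ((R.filter bad).card : ℝ) ≤ 16 * (d : ℝ) ^ 6 := by exact_mod_cast hQ2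
  have h6 := mul_le_mul_of_nonneg_right h5 (Nat.cast_nonneg (α := ℝ) P'.card)
  linarith

end BlkAR
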