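import Pool.Agent.Work.MP_763b10_co.AR.Defs

/-!
# MP_763b10_co, board modar, module Conf (M-L)

From a blocking set to an integer configuration.

Proof. `n = |P|`, `W = n^A`. For `n ≤ 1` take `R = G = ∅`. Let `n ≥ 2`. For all `p ≠ p'` in `P` choose `t(p,p') ∈ (0,1)` and
`q₀(p,p') = p + t (p' - p) ∈ Q`. For `q ∈ Q` let `E_q` be the set of ordered pairs with `q₀ = q`. `Q₁` = the `q ∈ Q` such that `E_q` contains two pairs
with different sets `{p, p'}`; for `q ∉ Q₁` `|E_q| ≤ 2`. So `G` = all ordered pairs `p ≠ p'` with `q₀(p,p') ∈ Q₁` has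
`|G| ≥ n² - n - 2|Q| ≥ n² - (2C+1) n`. Let `q ∈ Q₁`, `(p₁,p₁'), (p₂,p₂') ∈ E_q` with `{p₁,p₁'} ≠ {p₂,p₂'}`, `v_i = p_i' - p_i`. `Δ = det(v₁,v₂) ≠ 0`:
otherwise both lines through `q` coincide and contain three points of `P` (`NC`). `Δ q = Δ p₁ + det(p₂ - p₁, v₂) v₁` is an integer vector with
coordinates at most `24 W³`, `|Δ| ≤ 8 W²`. Changing the sign and dividing by the gcd gives the primitive triple `r(q) = (a,b,D)`, `q = (a/D, b/D)`;
`24 W³ ≤ n^(3A+5)` as `n ≥ 2`. `R = r(Q₁)`, `f = r ∘ q₀`, `|R| ≤ |Q|`. `out`: `q ∈ Q₁` is in an open segment between two points of `P`; if `D p = (a,b)`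
for some `p ∈ P`, `p` would be in this open segment, three collinear points. `opp`: `u = D p - (a,b) = -t D (p' - p)`,
`u' = D p' - (a,b) = (1-t) D (p' - p)`, so `(1-t) u = -t u'`: the integer vectors `u, u'` have opposite directions, `α u = -β u'` with positive integers
`α, β` (e.g. absolute values of a nonzero coordinate), so `α ρ = β σ` for the gcds `ρ, σ` of the coordinates and `σ u = -ρ u'`.
-/

set_option autoImplicit false

namespace BlkAR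

open Finset

/-- `q` is the point `p + t (p' - p)` -/
private def On (p p' : ℤ × ℤ) (t : ℝ) (q : ℝ × ℝ) : Prop :=
  q.1 = (p.1 : ℝ) + t * ((p'.1 : ℝ) - p.1) ∧ q.2 = (p.2 : ℝ) + t * ((p'.2 : ℝ) - p.2)

private theorem opp_aux (u1 u2 v1 v2 : ℤ) (α β : ℝ) (hα : 0 < α) (hβ : 0 < β)
    (h1 : α * (u1 : ℝ) = -(β * v1)) (h2 : α * (u2 : ℝ) = -(β * v2)) :
    (Int.gcd v1 v2 : ℤ) * u1 = -((Int.gcd u1 u2 : ℤ) * v1) := by
  have hcr : u1 * v2 = u2 * v1 := by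
    have h3 : α * ((u1 * v2 : ℤ) : ℝ) = α * ((u2 * v1 : ℤ) : ℝ) := by
      push_cast
      linear_combination (v2 : ℝ) * h1 - (v1 : ℝ) * h2
    exact_mod_cast mul_left_cancel₀ hα.ne' h3
  have h4 : u1.natAbs * Int.gcd v1 v2 = v1.natAbs * Int.gcd u1 u2 := by
    rw [← Int.gcd_mul_left, ← Int.gcd_mul_left, hcr, mul_comm u1 v1, mul_comm u2 v1]
  have h5 : ((u1.natAbs : ℤ)) * Int.gcd v1 v2 = (v1.natAbs : ℤ) * Int.gcd u1 u2 := by exact_mod_cast h4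
  rw [Int.natCast_natAbs, Int.natCast_natAbs] at h5
  rcases lt_trichotomy u1 0 with h | h | h
  · have h6 : (u1 : ℝ) < 0 := by exact_mod_cast h
    have h7 : 0 < (v1 : ℝ) := by
      by_contra hcon
      push Not at hcon
      nlinarith
    have h8 : 0 < v1 := by exact_mod_cast h7
    rw [abs_of_neg h, abs_of_pos h8] at h5
    linarith
  · have h7 : (v1 : ℝ) = 0 := by
      rw [h] at h1
      simp only [Int.cast_zero, mul_zero] at h1
      have : β * (v1 : ℝ) = 0 := by linarith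
      rcases mul_eq_zero.1 this with h8 | h8
      · exact absurd h8 hβ.ne'
      · exact h8
    have h8 : v1 = 0 := by exact_mod_cast h7
    rw [h, h8]
    ring
  · have h6 : 0 < (u1 : ℝ) := by exact_mod_cast h
    have h7 : (v1 : ℝ) < 0 := by
      by_contra hcon
      push Not at hcon
      nlinarith [mul_pos hα h6, mul_nonneg hβ.le hcon]
    have h8 : v1 < 0 := by exact_mod_cast h7
    rw [abs_of_pos h, abs_of_neg h8] at h5
    linarith

/-- collinear points -/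
private theorem nc_mem {P : Finset (ℤ × ℤ)} (hN : NC P) {p p' r : ℤ × ℤ} (hp : p ∈ P) (hp' : p' ∈ P)
    (hr : r ∈ P) (hne : p ≠ p')
    (h : (p'.1 - p.1) * (r.2 - p.2) - (p'.2 - p.2) * (r.1 - p.1) = 0) : r = p ∨ r = p' := by
  by_contra hcon
  push Not at hcon
  exact hN p hp p' hp' r hr hne (Ne.symm hcon.1) (Ne.symm hcon.2) h

private theorem det_ne {P : Finset (ℤ × ℤ)} (hN : NC P) {p p' r r' : ℤ × ℤ} (hp : p ∈ P) (hp' : p' ∈ P)
    (hr : r ∈ P) (hr' : r' ∈ P) (hne : p ≠ p') (hne' : r ≠ r') {t s : ℝ} {q : ℝ × ℝ} (hq : On p p' t q)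
    (hq' : On r r' s q) (h1 : (r, r') ≠ (p, p')) (h2 : (r, r') ≠ (p', p)) :
    (p'.1 - p.1) * (r'.2 - r.2) - (p'.2 - p.2) * (r'.1 - r.1) ≠ 0 := by
  intro hΔ
  have hΔR : ((p'.1 : ℝ) - p.1) * ((r'.2 : ℝ) - r.2) - ((p'.2 : ℝ) - p.2) * ((r'.1 : ℝ) - r.1) = 0 := by
    exact_mod_cast hΔ
  obtain ⟨a1, a2⟩ := hq
  obtain ⟨b1, b2⟩ := hq'
  have e1 : (p.1 : ℝ) + t * ((p'.1 : ℝ) - p.1) = (r.1 : ℝ) + s * ((r'.1 : ℝ) - r.1) := a1.symm.trans b1
  have e2 : (p.2 : ℝ) + t * ((p'.2 : ℝ) - p.2) = (r.2 : ℝ) + s * ((r'.2 : ℝ) - r.2) := a2.symm.trans b2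
  have c1 : ((p'.1 : ℝ) - p.1) * ((r.2 : ℝ) - p.2) - ((p'.2 : ℝ) - p.2) * ((r.1 : ℝ) - p.1) = 0 := by
    linear_combination ((p'.2 : ℝ) - p.2) * e1 - ((p'.1 : ℝ) - p.1) * e2 - s * hΔR
  have c2 : ((p'.1 : ℝ) - p.1) * ((r'.2 : ℝ) - p.2) - ((p'.2 : ℝ) - p.2) * ((r'.1 : ℝ) - p.1) = 0 := by
    linear_combination c1 + hΔR
  have d1 : (p'.1 - p.1) * (r.2 - p.2) - (p'.2 - p.2) * (r.1 - p.1) = 0 := by exact_mod_cast c1
  have d2 : (p'.1 - p.1) * (r'.2 - p.2) - (p'.2 - p.2) * (r'.1 - p.1) = 0 := by exact_mod_cast c2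
  rcases nc_mem hN hp hp' hr hne d1 with f1 | f1 <;> rcases nc_mem hN hp hp' hr' hne d2 with f2 | f2
  · exact hne' (f1.trans f2.symm)
  · exact h1 (by rw [f1, f2])
  · exact h2 (by rw [f1, f2])
  · exact hne' (f1.trans f2.symm)

private theorem prim_ex {q : ℝ × ℝ} {N1 N2 Δ : ℤ} (hΔ : Δ ≠ 0) (h1 : (N1 : ℝ) = Δ * q.1) (h2 : (N2 : ℝ) = Δ * q.2) :
    ∃ r : ℤ × ℤ × ℤ, Prim r ∧ (r.1 : ℝ) = r.2.2 * q.1 ∧ (r.2.1 : ℝ) = r.2.2 * q.2 ∧
      |(r.1 : ℝ)| ≤ |(N1 : ℝ)| ∧ |(r.2.1 : ℝ)| ≤ |(N2 : ℝ)| ∧ (r.2.2 : ℝ) ≤ |(Δ : ℝ)| := by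
  classical
  have hex : ∃ D : ℕ, 0 < D ∧ ∃ a b : ℤ, (a : ℝ) = D * q.1 ∧ (b : ℝ) = D * q.2 := by
    refine ⟨Δ.natAbs, Int.natAbs_pos.2 hΔ, ?_⟩
    have h3 : ((Δ.natAbs : ℕ) : ℝ) = |(Δ : ℝ)| := by
      rw [Nat.cast_natAbs, Int.cast_abs]
    rcases lt_or_gt_of_ne hΔ with h | h
    · refine ⟨-N1, -N2, ?_, ?_⟩ <;>
      · rw [h3, abs_of_neg (by exact_mod_cast h)]
        push_cast
        linarith
    · refine ⟨N1, N2, ?_, ?_⟩ <;>
      · rw [h3, abs_of_pos (by exact_mod_cast h)]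
        linarith
  obtain ⟨hD0, a, b, ha, hb⟩ := Nat.find_spec hex
  have hmin := fun m (hm : m < Nat.find hex) => Nat.find_min hex hm
  have hle : ((Nat.find hex : ℕ) : ℝ) ≤ |(Δ : ℝ)| := by
    have h3 : ((Δ.natAbs : ℕ) : ℝ) = |(Δ : ℝ)| := by
      rw [Nat.cast_natAbs, Int.cast_abs]
    rw [← h3]
    have h4 : Nat.find hex ≤ Δ.natAbs := by
      refine Nat.find_min' hex ⟨Int.natAbs_pos.2 hΔ, ?_⟩
      rcases lt_or_gt_of_ne hΔ with h | h
      · refine ⟨-N1, -N2, ?_, ?_⟩ <;>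
        · rw [h3, abs_of_neg (by exact_mod_cast h)]
          push_cast
          linarith
      · refine ⟨N1, N2, ?_, ?_⟩ <;>
        · rw [h3, abs_of_pos (by exact_mod_cast h)]
          linarith
    exact_mod_cast h4
  generalize Nat.find hex = D at hD0 ha hb hmin hle
  have hDR : (0 : ℝ) < D := by exact_mod_cast hD0
  have hD1 : (1 : ℤ) ≤ (D : ℤ) := by exact_mod_cast hD0
  refine ⟨(a, b, (D : ℤ)), ⟨hD1, ?_⟩, ?_, ?_, ?_, ?_, ?_⟩
  · -- primitivity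
    obtain ⟨e, he⟩ : ∃ e : ℕ, e = Int.gcd (Int.gcd a b) (D : ℤ) := ⟨_, rfl⟩
    change Int.gcd (Int.gcd a b) (D : ℤ) = 1
    rw [← he]
    have he1 : (e : ℤ) ∣ (Int.gcd a b : ℤ) := by
      rw [he]
      exact Int.gcd_dvd_left _ _
    have he2 : (e : ℤ) ∣ (D : ℤ) := by
      rw [he]
      exact Int.gcd_dvd_right _ _
    have he3 : (e : ℤ) ∣ a := he1.trans (Int.gcd_dvd_left _ _)
    have he4 : (e : ℤ) ∣ b := he1.trans (Int.gcd_dvd_right _ _)
    obtain ⟨a', ha'⟩ := he3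
    obtain ⟨b', hb'⟩ := he4
    obtain ⟨D', hD'⟩ := Int.natCast_dvd_natCast.1 he2
    have he0 : 0 < e := by
      rcases Nat.eq_zero_or_pos e with h | h
      · rw [h, zero_mul] at hD'
        omega
      · exact h
    have hD'0 : 0 < D' := by
      rcases Nat.eq_zero_or_pos D' with h | h
      · rw [h, mul_zero] at hD'
        omega
      · exact h
    have heR : (e : ℝ) ≠ 0 := by exact_mod_cast he0.ne'
    by_contra hne
    have hlt : D' < D := by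
      have : 2 ≤ e := by omega
      rw [hD']
      nlinarith
    apply hmin D' hlt
    refine ⟨hD'0, a', b', ?_, ?_⟩
    · apply mul_left_cancel₀ heR
      have h5 : (a : ℝ) = e * a' := by exact_mod_cast ha'
      have h6 : (D : ℝ) = e * D' := by exact_mod_cast hD'
      rw [← h5, ha, h6]
      ring
    · apply mul_left_cancel₀ heR
      have h5 : (b : ℝ) = e * b' := by exact_mod_cast hb'
      have h6 : (D : ℝ) = e * D' := by exact_mod_cast hD'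
      rw [← h5, hb, h6]
      ring
  · push_cast
    exact ha
  · push_cast
    exact hb
  · change |(a : ℝ)| ≤ |(N1 : ℝ)|
    rw [ha, h1, abs_mul, abs_mul, abs_of_pos hDR]
    exact mul_le_mul_of_nonneg_right hle (abs_nonneg _)
  · change |(b : ℝ)| ≤ |(N2 : ℝ)|
    rw [hb, h2, abs_mul, abs_mul, abs_of_pos hDR]
    exact mul_le_mul_of_nonneg_right hle (abs_nonneg _)
  · push_cast
    exact hle

private theorem abs_sub_le2 {a b W : ℝ} (ha : |a| ≤ W) (hb : |b| ≤ W) : |a - b| ≤ 2 * W := by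
  rw [abs_le] at *
  constructor <;> linarith [ha.1, ha.2, hb.1, hb.2]

private theorem det_le {a b c d W : ℝ} (ha : |a| ≤ 2 * W) (hb : |b| ≤ 2 * W) (hc : |c| ≤ 2 * W) (hd : |d| ≤ 2 * W) :
    |a * b - c * d| ≤ 8 * W ^ 2 := by
  have hW : 0 ≤ 2 * W := (abs_nonneg a).trans ha
  have h1 : |a * b| ≤ 4 * W ^ 2 := by
    rw [abs_mul]
    calc |a| * |b| ≤ (2 * W) * (2 * W) := mul_le_mul ha hb (abs_nonneg _) hW
      _ = 4 * W ^ 2 := by ring
  have h2 : |c * d| ≤ 4 * W ^ 2 := by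
    rw [abs_mul]
    calc |c| * |d| ≤ (2 * W) * (2 * W) := mul_le_mul hc hd (abs_nonneg _) hW
      _ = 4 * W ^ 2 := by ring
  rw [abs_le] at *
  constructor <;> linarith [h1.1, h1.2, h2.1, h2.2]

private theorem triple {P : Finset (ℤ × ℤ)} (hN : NC P) {W : ℝ} (hP : ∀ p ∈ P, |(p.1 : ℝ)| ≤ W ∧ |(p.2 : ℝ)| ≤ W)
    {p p' r r' : ℤ × ℤ} (hp : p ∈ P) (hp' : p' ∈ P)
    (hr : r ∈ P) (hr' : r' ∈ P) (hne : p ≠ p') (hne' : r ≠ r') {t s : ℝ} {q : ℝ × ℝ} (hq : On p p' t q)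
    (hq' : On r r' s q) (h1 : (r, r') ≠ (p, p')) (h2 : (r, r') ≠ (p', p)) :
    ∃ z : ℤ × ℤ × ℤ, Prim z ∧ (z.1 : ℝ) = z.2.2 * q.1 ∧ (z.2.1 : ℝ) = z.2.2 * q.2 ∧
      |(z.1 : ℝ)| ≤ 24 * W ^ 3 ∧ |(z.2.1 : ℝ)| ≤ 24 * W ^ 3 ∧ (z.2.2 : ℝ) ≤ 8 * W ^ 2 := by
  have hW : 0 ≤ W := (abs_nonneg _).trans (hP p hp).1
  have hΔ := det_ne hN hp hp' hr hr' hne hne' hq hq' h1 h2
  obtain ⟨a1, a2⟩ := hq
  obtain ⟨b1, b2⟩ := hq'
  obtain ⟨Δ, hΔd⟩ : ∃ Δ : ℤ, Δ = (p'.1 - p.1) * (r'.2 - r.2) - (p'.2 - p.2) * (r'.1 - r.1) := ⟨_, rfl⟩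
  obtain ⟨δ, hδd⟩ : ∃ δ : ℤ, δ = (r.1 - p.1) * (r'.2 - r.2) - (r.2 - p.2) * (r'.1 - r.1) := ⟨_, rfl⟩
  rw [← hΔd] at hΔ
  have hΔR : (Δ : ℝ) = ((p'.1 : ℝ) - p.1) * ((r'.2 : ℝ) - r.2) - ((p'.2 : ℝ) - p.2) * ((r'.1 : ℝ) - r.1) := by
    rw [hΔd]
    push_cast
    ring
  have hδR : (δ : ℝ) = ((r.1 : ℝ) - p.1) * ((r'.2 : ℝ) - r.2) - ((r.2 : ℝ) - p.2) * ((r'.1 : ℝ) - r.1) := by
    rw [hδd]
    push_cast
    ring
  have hΔb : |(Δ : ℝ)| ≤ 8 * W ^ 2 := by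
    rw [hΔR]
    exact det_le (abs_sub_le2 (hP p' hp').1 (hP p hp).1) (abs_sub_le2 (hP r' hr').2 (hP r hr).2)
      (abs_sub_le2 (hP p' hp').2 (hP p hp).2) (abs_sub_le2 (hP r' hr').1 (hP r hr).1)
  have hδb : |(δ : ℝ)| ≤ 8 * W ^ 2 := by
    rw [hδR]
    exact det_le (abs_sub_le2 (hP r hr).1 (hP p hp).1) (abs_sub_le2 (hP r' hr').2 (hP r hr).2)
      (abs_sub_le2 (hP r hr).2 (hP p hp).2) (abs_sub_le2 (hP r' hr').1 (hP r hr).1)
  have ht : t * (Δ : ℝ) = δ := by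
    rw [hΔR, hδR]
    have e1 : (p.1 : ℝ) + t * ((p'.1 : ℝ) - p.1) = (r.1 : ℝ) + s * ((r'.1 : ℝ) - r.1) := a1.symm.trans b1
    have e2 : (p.2 : ℝ) + t * ((p'.2 : ℝ) - p.2) = (r.2 : ℝ) + s * ((r'.2 : ℝ) - r.2) := a2.symm.trans b2
    linear_combination ((r'.2 : ℝ) - r.2) * e1 - ((r'.1 : ℝ) - r.1) * e2
  have hN1 : ((Δ * p.1 + δ * (p'.1 - p.1) : ℤ) : ℝ) = Δ * q.1 := by
    push_cast
    rw [a1, ← ht]
    ring
  have hN2 : ((Δ * p.2 + δ * (p'.2 - p.2) : ℤ) : ℝ) = Δ * q.2 := by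
    push_cast
    rw [a2, ← ht]
    ring
  have hb : ∀ a b : ℝ, |a| ≤ W → |b| ≤ W → |Δ * a + δ * (b - a)| ≤ 24 * W ^ 3 := by
    intro a b ha hb
    have c1 : |(Δ : ℝ) * a| ≤ 8 * W ^ 2 * W := by
      rw [abs_mul]
      exact mul_le_mul hΔb ha (abs_nonneg _) (by positivity)
    have c2 : |(δ : ℝ) * (b - a)| ≤ 8 * W ^ 2 * (2 * W) := by
      rw [abs_mul]
      exact mul_le_mul hδb (abs_sub_le2 hb ha) (abs_nonneg _) (by positivity)
    refine (abs_add_le _ _).trans ((add_le_add c1 c2).trans (le_of_eq ?_))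
    ring
  obtain ⟨z, z1, z2, z3, z4, z5, z6⟩ := prim_ex hΔ hN1 hN2
  refine ⟨z, z1, z2, z3, z4.trans ?_, z5.trans ?_, z6.trans hΔb⟩
  · push_cast
    exact hb _ _ (hP p hp).1 (hP p' hp').1
  · push_cast
    exact hb _ _ (hP p hp).2 (hP p' hp').2

theorem conf (A C : ℕ) (P : Finset (ℤ × ℤ)) (Q : Finset (ℝ × ℝ)) (hN : NC P)
    (hP : ∀ p ∈ P, |(p.1 : ℝ)| ≤ (P.card : ℝ) ^ A ∧ |(p.2 : ℝ)| ≤ (P.card : ℝ) ^ A)
    (hB : Blocks P Q) (hQ : (Q.card : ℝ) ≤ C * P.card) :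
    ∃ (R : Finset (ℤ × ℤ × ℤ)) (G : Finset ((ℤ × ℤ) × (ℤ × ℤ)))
      (f : (ℤ × ℤ) × (ℤ × ℤ) → ℤ × ℤ × ℤ), Cfg P R G f ((P.card : ℝ) ^ (3 * A + 5)) ∧
      (R.card : ℝ) ≤ C * P.card ∧ (P.card : ℝ) ^ 2 - (2 * C + 1) * P.card ≤ G.card := by
  classical
  obtain ⟨n, hn⟩ : ∃ n : ℕ, n = P.card := ⟨_, rfl⟩
  rw [← hn] at hP hQ ⊢
  have hWle : ∀ p ∈ P, |(p.1 : ℝ)| ≤ (n : ℝ) ^ (3 * A + 5) ∧ |(p.2 : ℝ)| ≤ (n : ℝ) ^ (3 * A + 5) := by
    intro p hp
    have h1 : 1 ≤ n := by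
      rw [hn]
      exact Finset.card_pos.2 ⟨p, hp⟩
    have h2 : (n : ℝ) ^ A ≤ (n : ℝ) ^ (3 * A + 5) :=
      pow_le_pow_right₀ (by exact_mod_cast h1) (by omega)
    exact ⟨(hP p hp).1.trans h2, (hP p hp).2.trans h2⟩
  rcases Nat.lt_or_ge n 2 with hn2 | hn2
  · refine ⟨∅, ∅, fun _ => 0, ⟨hN, ?_, ?_, ?_, ?_, ?_, hWle, ?_⟩, ?_, ?_⟩
    · intro x hx
      exact absurd hx (Finset.notMem_empty _)
    · intro x hx
      exact absurd hx (Finset.notMem_empty _)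
    · intro x hx
      exact absurd hx (Finset.notMem_empty _)
    · intro x hx
      exact absurd hx (Finset.notMem_empty _)
    · intro x hx
      exact absurd hx (Finset.notMem_empty _)
    · intro x hx
      exact absurd hx (Finset.notMem_empty _)
    · rw [Finset.card_empty, Nat.cast_zero]
      positivity
    · rw [Finset.card_empty, Nat.cast_zero]
      have h0 : (0 : ℝ) ≤ C := Nat.cast_nonneg C
      have hn0 : (0 : ℝ) ≤ n := Nat.cast_nonneg n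
      have h1 : (n : ℝ) ≤ 1 := by
        have : n ≤ 1 := by omega
        exact_mod_cast this
      nlinarith [mul_nonneg h0 hn0]
  · -- the blocking points
    have hch : ∀ x : (ℤ × ℤ) × (ℤ × ℤ), ∃ q : ℝ × ℝ, x ∈ P.offDiag →
        q ∈ Q ∧ ∃ t : ℝ, 0 < t ∧ t < 1 ∧ On x.1 x.2 t q := by
      intro x
      by_cases hx : x ∈ P.offDiag
      · rw [Finset.mem_offDiag] at hx
        obtain ⟨t, ht0, ht1, htQ⟩ := hB x.1 hx.1 x.2 hx.2.1 hx.2.2
        exact ⟨_, fun _ => ⟨htQ, t, ht0, ht1, rfl, rfl⟩⟩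
      · exact ⟨0, fun h => absurd h hx⟩
    choose q₀ hq₀ using hch
    obtain ⟨Q₁, hQ₁⟩ : ∃ Q₁ : Finset (ℝ × ℝ), Q₁ = Q.filter fun q => ∃ x ∈ P.offDiag, ∃ y ∈ P.offDiag,
        q₀ x = q ∧ q₀ y = q ∧ y ≠ x ∧ y ≠ x.swap := ⟨_, rfl⟩
    have hr : ∀ q : ℝ × ℝ, ∃ z : ℤ × ℤ × ℤ, q ∈ Q₁ → Prim z ∧ (z.1 : ℝ) = z.2.2 * q.1 ∧
        (z.2.1 : ℝ) = z.2.2 * q.2 ∧ |(z.1 : ℝ)| ≤ 24 * ((n : ℝ) ^ A) ^ 3 ∧
        |(z.2.1 : ℝ)| ≤ 24 * ((n : ℝ) ^ A) ^ 3 ∧ (z.2.2 : ℝ) ≤ 8 * ((n : ℝ) ^ A) ^ 2 := by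
      intro q
      by_cases hq : q ∈ Q₁
      · have hq' := hq
        rw [hQ₁, Finset.mem_filter] at hq'
        obtain ⟨_, x, hx, y, hy, hxq, hyq, hyx, hys⟩ := hq'
        obtain ⟨_, t, _, _, hton⟩ := hq₀ x hx
        obtain ⟨_, s, _, _, hson⟩ := hq₀ y hy
        rw [hxq] at hton
        rw [hyq] at hson
        rw [Finset.mem_offDiag] at hx hy
        obtain ⟨z, hz⟩ := triple hN hP hx.1 hx.2.1 hy.1 hy.2.1 hx.2.2 hy.2.2 hton hson hyx hys
        exact ⟨z, fun _ => hz⟩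
      · exact ⟨0, fun h => absurd h hq⟩
    choose r hr using hr
    have hn1 : (1 : ℝ) ≤ n := by
      have : 1 ≤ n := by omega
      exact_mod_cast this
    have hn5 : (32 : ℝ) ≤ (n : ℝ) ^ 5 := by
      have h2 : (2 : ℝ) ≤ n := by exact_mod_cast hn2
      calc (32 : ℝ) = 2 ^ 5 := by norm_num
        _ ≤ (n : ℝ) ^ 5 := pow_le_pow_left₀ (by norm_num) h2 5
    have hWW : (n : ℝ) ^ (3 * A + 5) = ((n : ℝ) ^ A) ^ 3 * (n : ℝ) ^ 5 := by
      rw [pow_add, mul_comm 3 A, pow_mul]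
    have hA1 : 1 ≤ (n : ℝ) ^ A := one_le_pow₀ hn1
    have hW24 : 24 * ((n : ℝ) ^ A) ^ 3 ≤ (n : ℝ) ^ (3 * A + 5) := by
      rw [hWW]
      have : 0 ≤ ((n : ℝ) ^ A) ^ 3 := by positivity
      nlinarith
    have hW8 : 8 * ((n : ℝ) ^ A) ^ 2 ≤ (n : ℝ) ^ (3 * A + 5) := by
      refine le_trans ?_ hW24
      have : ((n : ℝ) ^ A) ^ 2 ≤ ((n : ℝ) ^ A) ^ 3 := pow_le_pow_right₀ hA1 (by norm_num)
      have h3 : 0 ≤ ((n : ℝ) ^ A) ^ 3 := by positivity
      linarith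
    refine ⟨Q₁.image r, P.offDiag.filter fun x => q₀ x ∈ Q₁, fun x => r (q₀ x),
      ⟨hN, ?_, ?_, ?_, ?_, ?_, hWle, ?_⟩, ?_, ?_⟩
    · intro x hx
      rw [Finset.mem_filter, Finset.mem_offDiag] at hx
      exact hx.1
    · intro x hx
      exact Finset.mem_image_of_mem r (Finset.mem_filter.1 hx).2
    · intro z hz
      obtain ⟨q, hq, rfl⟩ := Finset.mem_image.1 hz
      exact (hr q hq).1
    · -- out
      intro z hz p hp
      obtain ⟨q, hq, rfl⟩ := Finset.mem_image.1 hz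
      obtain ⟨hz1, hz2, hz3, -⟩ := hr q hq
      intro h0
      unfold rho at h0
      rw [Int.gcd_eq_zero_iff] at h0
      have hD : (0 : ℝ) < (r q).2.2 := by
        have := hz1.1
        exact_mod_cast (by omega : 0 < (r q).2.2)
      have e1 : (p.1 : ℝ) = q.1 := by
        have h1 : ((r q).2.2 : ℝ) * p.1 - (r q).1 = 0 := by exact_mod_cast h0.1
        apply mul_left_cancel₀ hD.ne'
        linarith
      have e2 : (p.2 : ℝ) = q.2 := by
        have h1 : ((r q).2.2 : ℝ) * p.2 - (r q).2.1 = 0 := by exact_mod_cast h0.2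
        apply mul_left_cancel₀ hD.ne'
        linarith
      have hq' := hq
      rw [hQ₁, Finset.mem_filter] at hq'
      obtain ⟨_, x, hx, y, hy, hxq, -, -, -⟩ := hq'
      obtain ⟨_, t, ht0, ht1, hton⟩ := hq₀ x hx
      rw [hxq] at hton
      rw [Finset.mem_offDiag] at hx
      obtain ⟨c1, c2⟩ := hton
      rw [← e1] at c1
      rw [← e2] at c2
      have d1 : ((x.2.1 : ℝ) - x.1.1) * ((p.2 : ℝ) - x.1.2) - ((x.2.2 : ℝ) - x.1.2) * ((p.1 : ℝ) - x.1.1) = 0 := by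
        rw [c1, c2]
        ring
      have d2 : (x.2.1 - x.1.1) * (p.2 - x.1.2) - (x.2.2 - x.1.2) * (p.1 - x.1.1) = 0 := by exact_mod_cast d1
      have hne : (x.2.1 : ℝ) - x.1.1 ≠ 0 ∨ (x.2.2 : ℝ) - x.1.2 ≠ 0 := by
        by_contra hcon
        push Not at hcon
        apply hx.2.2
        refine Prod.ext ?_ ?_
        · have : (x.2.1 : ℝ) = x.1.1 := by linarith [hcon.1]
          exact_mod_cast this.symm
        · have : (x.2.2 : ℝ) = x.1.2 := by linarith [hcon.2]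
          exact_mod_cast this.symm
      rcases nc_mem hN hx.1 hx.2.1 hp hx.2.2 d2 with h | h
      · rw [h] at c1 c2
        rcases hne with h5 | h5
        · have : t * ((x.2.1 : ℝ) - x.1.1) = 0 := by linarith
          rcases mul_eq_zero.1 this with h6 | h6
          · exact ht0.ne' h6
          · exact h5 h6
        · have : t * ((x.2.2 : ℝ) - x.1.2) = 0 := by linarith
          rcases mul_eq_zero.1 this with h6 | h6
          · exact ht0.ne' h6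
          · exact h5 h6
      · rw [h] at c1 c2
        rcases hne with h5 | h5
        · have : (1 - t) * ((x.2.1 : ℝ) - x.1.1) = 0 := by linarith
          rcases mul_eq_zero.1 this with h6 | h6
          · linarith
          · exact h5 h6
        · have : (1 - t) * ((x.2.2 : ℝ) - x.1.2) = 0 := by linarith
          rcases mul_eq_zero.1 this with h6 | h6
          · linarith
          · exact h5 h6
    · -- opp
      intro x hx
      rw [Finset.mem_filter] at hx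
      obtain ⟨_, t, ht0, ht1, c1, c2⟩ := hq₀ x hx.1
      obtain ⟨hz1, hz2, hz3, -⟩ := hr (q₀ x) hx.2
      generalize r (q₀ x) = z at hz1 hz2 hz3
      have g1 : (1 - t) * ((z.2.2 * x.1.1 - z.1 : ℤ) : ℝ) = -(t * ((z.2.2 * x.2.1 - z.1 : ℤ) : ℝ)) := by
        push_cast
        rw [hz2, c1]
        ring
      have g2 : (1 - t) * ((z.2.2 * x.1.2 - z.2.1 : ℤ) : ℝ) = -(t * ((z.2.2 * x.2.2 - z.2.1 : ℤ) : ℝ)) := by
        push_cast
        rw [hz3, c2]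
        ring
      refine ⟨opp_aux _ _ _ _ _ _ (by linarith) ht0 g1 g2, ?_⟩
      have := opp_aux _ _ _ _ _ _ (by linarith) ht0 g2 g1
      rw [Int.gcd_comm (z.2.2 * x.2.2 - z.2.1), Int.gcd_comm (z.2.2 * x.1.2 - z.2.1)] at this
      exact this
    · -- heights
      intro z hz
      obtain ⟨q, hq, rfl⟩ := Finset.mem_image.1 hz
      obtain ⟨-, -, -, k1, k2, k3⟩ := hr q hq
      exact ⟨k1.trans hW24, k2.trans hW24, k3.trans hW8⟩
    · refine le_trans ?_ hQ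
      have h1 : (Q₁.image r).card ≤ Q.card := by
        refine Finset.card_image_le.trans ?_
        rw [hQ₁]
        exact Finset.card_filter_le _ _
      exact_mod_cast h1
    · -- counting
      have h1 : (P.offDiag.filter fun x => q₀ x ∈ Q₁).card + (P.offDiag.filter fun x => ¬ q₀ x ∈ Q₁).card =
          P.offDiag.card := Finset.card_filter_add_card_filter_not _
      have h2 : (P.offDiag.filter fun x => ¬ q₀ x ∈ Q₁).card ≤ 2 * Q.card := by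
        refine Finset.card_le_mul_card_image_of_maps_to (f := q₀)
          (s := P.offDiag.filter fun x => ¬ q₀ x ∈ Q₁) (t := Q) ?_ 2 ?_
        · intro x hx
          exact (hq₀ x (Finset.mem_filter.1 hx).1).1
        · intro q hq
          rcases Finset.eq_empty_or_nonempty ((P.offDiag.filter fun x => ¬ q₀ x ∈ Q₁).filter
            fun x => q₀ x = q) with h4 | ⟨x, hx⟩
          · rw [h4]
            simp
          · have h5 : (P.offDiag.filter fun x => ¬ q₀ x ∈ Q₁).filter (fun x => q₀ x = q) ⊆ {x, x.swap} := by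
              intro y hy
              rw [Finset.mem_filter, Finset.mem_filter] at hx hy
              by_contra hcon
              rw [Finset.mem_insert, Finset.mem_singleton, not_or] at hcon
              apply hx.1.2
              rw [hQ₁, Finset.mem_filter, hx.2]
              exact ⟨hq, x, hx.1.1, y, hy.1.1, hx.2, hy.2, hcon.1, hcon.2⟩
            exact (Finset.card_le_card h5).trans Finset.card_le_two
      have h6 : P.offDiag.card = n * n - n := by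
        rw [Finset.offDiag_card, ← hn]
      have h7 : n ≤ n * n := Nat.le_mul_self n
      have h8 : n * n ≤ (P.offDiag.filter fun x => q₀ x ∈ Q₁).card + 2 * Q.card + n := by omega
      have h9 : (n : ℝ) * n ≤ ((P.offDiag.filter fun x => q₀ x ∈ Q₁).card : ℝ) + 2 * Q.card + n := by
        exact_mod_cast h8
      nlinarith

end BlkAR
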