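import Pool.Agent.Work.MP_763b10_co.AR.Defs

/-!
# MP_763b10_co, board modar, module Conv (M)

Convex chains need `n log n` blockers.

Proof. Let `p_1, .., p_m` be the points of `Y` by increasing abscissa. For `i < j` choose `q(i,j) ∈ Q` in the open segment `p_i p_j`. For `q ∈ Q` let `C_q` be the set of the pairs
`(i,j)`, `i < j`, with `q(i,j) = q`, `r = |C_q|`. Claim: `j - i ≥ r` for all `(i,j) ∈ C_q`. Two different pairs `(i,j), (i',j')` of `C_q` interleave: `i < i' < j < j'` or
`i' < i < j' < j`. (If `i = i'`, then `q` is on two different lines through `p_i`, so `q = p_i`, no; the same for `j = j'`, and `j = i'` (the segments are over disjoint open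
intervals of abscissas); if `j ≤ i'` the abscissas are disjoint; if `i < i' < j' < j`, then `p_{i'}` and `p_{j'}` are strictly on one side of the line `p_i p_j` (orientation) and `q`, strictly
between them, too, but `q` is on this line.) So each other pair of `C_q` has exactly one end `l` with `i < l < j`, and these `r - 1` ends are different (two pairs with the same `i'` or the same
`j'` are excluded as above, and `i' = j''` for two pairs `(i',j')`, `(i'',j'')` is excluded by interleaving of these two): `j - i - 1 ≥ r - 1`. Hence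
`∑_{(i,j) ∈ C_q} 1/(j-i) ≤ 1` and `|Q| ≥ ∑_{i<j} 1/(j-i) = ∑_{δ=1}^{m-1} (m-δ)/δ ≥ m log m - m` (`Real.log_add_one_le_harmonic` or
`log m ≤ ∑_{δ<m} 1/δ`, for `m ≥ 1`).
-/

set_option autoImplicit false

namespace BlkAR

open Finset

private def On (p p' : ℤ × ℤ) (t : ℝ) (q : ℝ × ℝ) : Prop :=
  q.1 = (p.1 : ℝ) + t * ((p'.1 : ℝ) - p.1) ∧ q.2 = (p.2 : ℝ) + t * ((p'.2 : ℝ) - p.2)

private def OnS (p p' : ℤ × ℤ) (q : ℝ × ℝ) : Prop := ∃ t : ℝ, 0 < t ∧ t < 1 ∧ On p p' t q

private noncomputable def D3 (p q r : ℤ × ℤ) : ℝ :=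
  ((q.1 : ℝ) - p.1) * ((r.2 : ℝ) - p.2) - ((q.2 : ℝ) - p.2) * ((r.1 : ℝ) - p.1)

private theorem D3_sign {Y : Finset (ℤ × ℤ)} (hY : Chain Y) :
    (∀ p ∈ Y, ∀ q ∈ Y, ∀ r ∈ Y, p.1 < q.1 → q.1 < r.1 → 0 < D3 p q r) ∨
    (∀ p ∈ Y, ∀ q ∈ Y, ∀ r ∈ Y, p.1 < q.1 → q.1 < r.1 → D3 p q r < 0) := by
  rcases hY.2 with h | h
  · left
    intro p hp q hq r hr h1 h2
    have := h p hp q hq r hr h1 h2
    unfold D3
    exact_mod_cast this
  · right
    intro p hp q hq r hr h1 h2
    have := h p hp q hq r hr h1 h2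
    unfold D3
    exact_mod_cast this

private theorem D3_ne {Y : Finset (ℤ × ℤ)} (hY : Chain Y) {p q r : ℤ × ℤ} (hp : p ∈ Y) (hq : q ∈ Y) (hr : r ∈ Y)
    (h1 : p.1 < q.1) (h2 : q.1 < r.1) : D3 p q r ≠ 0 := by
  rcases D3_sign hY with h | h
  · exact (h p hp q hq r hr h1 h2).ne'
  · exact (h p hp q hq r hr h1 h2).ne

private theorem onS_lt {p p' : ℤ × ℤ} {q : ℝ × ℝ} (h : OnS p p' q) (hlt : p.1 < p'.1) :
    (p.1 : ℝ) < q.1 ∧ q.1 < p'.1 := by
  obtain ⟨t, ht0, ht1, h1, -⟩ := h
  have h2 : (p.1 : ℝ) < p'.1 := by exact_mod_cast hlt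
  rw [h1]
  constructor
  · nlinarith
  · nlinarith

private theorem L1 {Y : Finset (ℤ × ℤ)} (hY : Chain Y) {p r s : ℤ × ℤ} (hp : p ∈ Y) (hr : r ∈ Y) (hs : s ∈ Y)
    (h1 : p.1 < r.1) (h2 : p.1 < s.1) {q : ℝ × ℝ} (hq : OnS p r q) (hq' : OnS p s q) : r = s := by
  obtain ⟨t, ht0, _, a1, a2⟩ := hq
  obtain ⟨t', ht0', _, b1, b2⟩ := hq'
  have e1 : t * ((r.1 : ℝ) - p.1) = t' * ((s.1 : ℝ) - p.1) := by linarith
  have e2 : t * ((r.2 : ℝ) - p.2) = t' * ((s.2 : ℝ) - p.2) := by linarith
  have h3 : t * t' * D3 p r s = 0 := by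
    unfold D3
    linear_combination (t' * ((s.2 : ℝ) - p.2)) * e1 - (t' * ((s.1 : ℝ) - p.1)) * e2
  have h3' : t * t' * D3 p s r = 0 := by
    unfold D3
    linear_combination (-(t' * ((s.2 : ℝ) - p.2))) * e1 + (t' * ((s.1 : ℝ) - p.1)) * e2
  have htt : t * t' ≠ 0 := (mul_pos ht0 ht0').ne'
  rcases lt_trichotomy r.1 s.1 with h | h | h
  · exact absurd ((mul_eq_zero.1 h3).resolve_left htt) (D3_ne hY hp hr hs h1 h)
  · exact hY.1 r hr s hs h
  · exact absurd ((mul_eq_zero.1 h3').resolve_left htt) (D3_ne hY hp hs hr h2 h)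

private theorem L2 {Y : Finset (ℤ × ℤ)} (hY : Chain Y) {p r p' r' : ℤ × ℤ} (hp : p ∈ Y) (hr : r ∈ Y)
    (hp' : p' ∈ Y) (hr' : r' ∈ Y) (h1 : p.1 < r.1) (h2 : p'.1 < r'.1) {q : ℝ × ℝ} (hq : OnS p r q)
    (hq' : OnS p' r' q) (hlt : p.1 < p'.1) : r.1 < r'.1 := by
  by_contra hcon
  push Not at hcon
  have hb := onS_lt hq h1
  have hb' := onS_lt hq' h2
  have hpr : p'.1 < r.1 := by
    have : (p'.1 : ℝ) < r.1 := hb'.1.trans hb.2
    exact_mod_cast this
  obtain ⟨t, ht0, ht1, a1, a2⟩ := hq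
  obtain ⟨t', ht0', ht1', b1, b2⟩ := hq'
  have e1 : (p.1 : ℝ) + t * ((r.1 : ℝ) - p.1) = (p'.1 : ℝ) + t' * ((r'.1 : ℝ) - p'.1) := a1.symm.trans b1
  have e2 : (p.2 : ℝ) + t * ((r.2 : ℝ) - p.2) = (p'.2 : ℝ) + t' * ((r'.2 : ℝ) - p'.2) := a2.symm.trans b2
  -- the affine function of the line `p r` at the two points
  have h3 : (1 - t') * D3 p p' r + t' * D3 p r' r = 0 := by
    unfold D3
    linear_combination (-((r.2 : ℝ) - p.2)) * e1 + ((r.1 : ℝ) - p.1) * e2
  rcases hcon.lt_or_eq with h | h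
  · rcases D3_sign hY with hs | hs
    · have k1 := hs p hp p' hp' r hr hlt hpr
      have k2 := hs p hp r' hr' r hr (hlt.trans h2) h
      nlinarith [mul_pos (by linarith : 0 < 1 - t') k1, mul_pos ht0' k2]
    · have k1 := hs p hp p' hp' r hr hlt hpr
      have k2 := hs p hp r' hr' r hr (hlt.trans h2) h
      nlinarith [mul_neg_of_pos_of_neg (by linarith : 0 < 1 - t') k1, mul_neg_of_pos_of_neg ht0' k2]
  · have h4 : r' = r := hY.1 r' hr' r hr h
    rw [h4] at h3
    have h5 : D3 p r r = 0 := by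
      unfold D3
      ring
    rw [h5, mul_zero, add_zero] at h3
    exact D3_ne hY hp hp' hr hlt hpr ((mul_eq_zero.1 h3).resolve_left (by linarith))

private theorem log_low (m : ℕ) : (m : ℝ) * Real.log m - m ≤ ∑ j ∈ Finset.range m, Real.log ((j : ℝ) + 1) := by
  induction m with
  | zero => simp
  | succ m ih =>
    rw [Finset.sum_range_succ]
    rcases Nat.eq_zero_or_pos m with h | h
    · rw [h]
      simp
    · have hm : (0 : ℝ) < m := by exact_mod_cast h
      have h1 : Real.log ((m : ℝ) + 1) - Real.log m ≤ 1 / m := by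
        rw [← Real.log_div (by positivity) hm.ne']
        have h2 : ((m : ℝ) + 1) / m = 1 + 1 / m := by
          field_simp
        rw [h2]
        have h3 := Real.log_le_sub_one_of_pos (show (0 : ℝ) < 1 + 1 / m by positivity)
        linarith
      have h4 : (m : ℝ) * (Real.log ((m : ℝ) + 1) - Real.log m) ≤ 1 := by
        have := mul_le_mul_of_nonneg_left h1 hm.le
        rw [mul_one_div_cancel hm.ne'] at this
        exact this
      push_cast
      linarith

private theorem harm (j : ℕ) : Real.log ((j : ℝ) + 1) ≤ ∑ i ∈ Finset.range j, 1 / ((j : ℝ) - i) := by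
  have h1 := log_add_one_le_harmonic j
  have h2 : ((harmonic j : ℚ) : ℝ) = ∑ i ∈ Finset.range j, 1 / ((j : ℝ) - i) := by
    rw [harmonic]
    push_cast
    rw [← Finset.sum_range_reflect]
    refine Finset.sum_congr rfl fun i hi => ?_
    have h3 := Finset.mem_range.1 hi
    have h4 : ((j - 1 - i : ℕ) : ℝ) = (j : ℝ) - 1 - i := by
      rw [Nat.cast_sub (by omega), Nat.cast_sub (by omega), Nat.cast_one]
    rw [h4, one_div]
    congr 1
    ring
  rw [← h2]
  exact_mod_cast h1

private theorem comb (m : ℕ) (Q : Finset (ℝ × ℝ)) (a : Fin m → ℝ) (ha : StrictMono a) (q : Fin m → Fin m → ℝ × ℝ)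
    (hq : ∀ i j, i < j → q i j ∈ Q) (h1 : ∀ i j, i < j → a i < (q i j).1 ∧ (q i j).1 < a j)
    (h2 : ∀ i j j', i < j → i < j' → q i j = q i j' → j = j')
    (h3 : ∀ i j i' j', i < j → i' < j' → q i j = q i' j' → i < i' → j < j') :
    (m : ℝ) * Real.log m - m ≤ Q.card := by
  classical
  obtain ⟨S, hS⟩ : ∃ S : Finset (Fin m × Fin m), S = Finset.univ.filter fun x => x.1 < x.2 := ⟨_, rfl⟩
  have hup : ∑ x ∈ S, 1 / ((x.2 : ℝ) - (x.1 : ℝ)) ≤ Q.card := by
    rw [← Finset.sum_fiberwise_of_maps_to (s := S) (t := Q) (g := fun x => q x.1 x.2) (by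
      intro x hx
      rw [hS, Finset.mem_filter] at hx
      exact hq _ _ hx.2)]
    rw [Finset.card_eq_sum_ones, Nat.cast_sum]
    refine Finset.sum_le_sum fun z hz => ?_
    rw [Nat.cast_one]
    obtain ⟨Cq, hCq⟩ : ∃ Cq : Finset (Fin m × Fin m), Cq = S.filter fun x => q x.1 x.2 = z := ⟨_, rfl⟩
    rw [← hCq]
    have hC : ∀ x ∈ Cq, x.1 < x.2 ∧ q x.1 x.2 = z := by
      intro x hx
      rw [hCq, Finset.mem_filter, hS, Finset.mem_filter] at hx
      exact ⟨hx.1.2, hx.2⟩
    have hCl : ∀ x ∈ Cq, a x.1 < z.1 ∧ z.1 < a x.2 := by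
      intro x hx
      have := h1 _ _ (hC x hx).1
      rw [(hC x hx).2] at this
      exact this
    have hcard : ∀ x ∈ Cq, (Cq.card : ℝ) ≤ (x.2 : ℝ) - (x.1 : ℝ) := by
      intro x hx
      have h5 : Cq.card ≤ (Finset.Ico x.1 x.2).card := by
        refine Finset.card_le_card_of_injOn (fun y => if x.1 ≤ y.1 then y.1 else y.2) ?_ ?_
        · intro y hy
          rw [Finset.mem_coe] at hy
          rw [Finset.mem_coe, Finset.mem_Ico]
          simp only
          split_ifs with h
          · refine ⟨h, ?_⟩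
            exact ha.lt_iff_lt.1 ((hCl y hy).1.trans (hCl x hx).2)
          · push Not at h
            refine ⟨(ha.lt_iff_lt.1 ((hCl x hx).1.trans (hCl y hy).2)).le, ?_⟩
            exact h3 _ _ _ _ (hC y hy).1 (hC x hx).1 ((hC y hy).2.trans (hC x hx).2.symm) h
        · intro y hy y' hy' h
          rw [Finset.mem_coe] at hy hy'
          simp only at h
          split_ifs at h with g1 g2 g2
          · refine Prod.ext h ?_
            have k1 := (hC y hy).2.trans (hC y' hy').2.symm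
            rw [h] at k1
            have k2 := (hC y hy).1
            rw [h] at k2
            exact h2 _ _ _ k2 (hC y' hy').1 k1
          · exfalso
            have k1 := (hCl y hy).1.trans (hCl y' hy').2
            rw [h] at k1
            exact lt_irrefl _ k1
          · exfalso
            have k1 := (hCl y' hy').1.trans (hCl y hy).2
            rw [h] at k1
            exact lt_irrefl _ k1
          · refine Prod.ext ?_ h
            rcases lt_trichotomy y.1 y'.1 with k | k | k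
            · have := h3 _ _ _ _ (hC y hy).1 (hC y' hy').1 ((hC y hy).2.trans (hC y' hy').2.symm) k
              rw [h] at this
              exact absurd this (lt_irrefl _)
            · exact k
            · have := h3 _ _ _ _ (hC y' hy').1 (hC y hy).1 ((hC y' hy').2.trans (hC y hy).2.symm) k
              rw [h] at this
              exact absurd this (lt_irrefl _)
      rw [Fin.card_Ico] at h5
      have h6 : (x.1 : ℕ) ≤ x.2 := (hC x hx).1.le
      have h7 : Cq.card + (x.1 : ℕ) ≤ x.2 := by omega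
      have h8 : (Cq.card : ℝ) + (x.1 : ℝ) ≤ (x.2 : ℝ) := by exact_mod_cast h7
      linarith
    rcases Finset.eq_empty_or_nonempty Cq with h0 | h0
    · rw [h0]
      simp
    · have hc0 : (0 : ℝ) < Cq.card := by exact_mod_cast h0.card_pos
      have h9 : ∀ x ∈ Cq, 1 / ((x.2 : ℝ) - (x.1 : ℝ)) ≤ 1 / Cq.card := fun x hx =>
        one_div_le_one_div_of_le hc0 (hcard x hx)
      refine (Finset.sum_le_card_nsmul _ _ _ h9).trans (le_of_eq ?_)
      rw [nsmul_eq_mul]
      field_simp
  refine le_trans ?_ hup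
  refine (log_low m).trans ?_
  have hlow : ∑ x ∈ S, 1 / ((x.2 : ℝ) - (x.1 : ℝ)) = ∑ j ∈ Finset.range m, ∑ i ∈ Finset.range m,
      if i < j then 1 / ((j : ℝ) - i) else 0 := by
    rw [hS, Finset.sum_filter, ← Finset.univ_product_univ, Finset.sum_product_right]
    rw [← Fin.sum_univ_eq_sum_range (fun j => ∑ i ∈ Finset.range m, if i < j then 1 / ((j : ℝ) - i) else 0)]
    refine Finset.sum_congr rfl fun j _ => ?_
    rw [← Fin.sum_univ_eq_sum_range (fun i => if i < (j : ℕ) then 1 / (((j : ℕ) : ℝ) - i) else 0)]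
    rfl
  rw [hlow]
  refine Finset.sum_le_sum fun j hj => ?_
  refine (harm j).trans ?_
  rw [← Finset.sum_filter]
  refine le_of_eq (Finset.sum_congr ?_ fun _ _ => rfl)
  ext i
  rw [Finset.mem_filter, Finset.mem_range, Finset.mem_range]
  have := Finset.mem_range.1 hj
  omega

theorem conv {Y : Finset (ℤ × ℤ)} (hY : Chain Y) {Q : Finset (ℝ × ℝ)} (hQ : Blocks Y Q) :
    (Y.card : ℝ) * Real.log Y.card - Y.card ≤ Q.card := by
  classical
  have hcard : (Y.image Prod.fst).card = Y.card := by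
    refine Finset.card_image_of_injOn fun p hp q hq h => ?_
    exact hY.1 p hp q hq h
  obtain ⟨m, hm⟩ : ∃ m : ℕ, m = Y.card := ⟨_, rfl⟩
  rw [← hm]
  rw [← hm] at hcard
  obtain ⟨e, he⟩ : ∃ e : Fin m ↪o ℤ, e = (Y.image Prod.fst).orderEmbOfFin hcard := ⟨_, rfl⟩
  have hch : ∀ i : Fin m, ∃ p ∈ Y, p.1 = e i := by
    intro i
    have h1 := (Y.image Prod.fst).orderEmbOfFin_mem hcard i
    rw [← he] at h1
    exact Finset.mem_image.1 h1
  choose P hP hPe using hch
  have hlt : ∀ i j : Fin m, i < j → (P i).1 < (P j).1 := by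
    intro i j hij
    rw [hPe, hPe]
    exact e.strictMono hij
  have hq : ∀ i j : Fin m, ∃ q : ℝ × ℝ, i < j → q ∈ Q ∧ OnS (P i) (P j) q := by
    intro i j
    by_cases hij : i < j
    · have hne : P i ≠ P j := by
        intro h
        have := hlt i j hij
        rw [h] at this
        exact lt_irrefl _ this
      obtain ⟨t, ht0, ht1, htQ⟩ := hQ (P i) (hP i) (P j) (hP j) hne
      exact ⟨_, fun _ => ⟨htQ, t, ht0, ht1, rfl, rfl⟩⟩
    · exact ⟨0, fun h => absurd h hij⟩
  choose q hq using hq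
  refine comb m Q (fun i => ((P i).1 : ℝ)) ?_ q (fun i j h => (hq i j h).1) ?_ ?_ ?_
  · intro i j hij
    have := hlt i j hij
    simp only
    exact_mod_cast this
  · intro i j hij
    exact onS_lt (hq i j hij).2 (hlt i j hij)
  · intro i j j' h h' hqq
    have h1 := (hq i j h).2
    have h2 := (hq i j' h').2
    rw [← hqq] at h2
    have h3 := L1 hY (hP i) (hP j) (hP j') (hlt i j h) (hlt i j' h') h1 h2
    rcases lt_trichotomy j j' with k | k | k
    · have := hlt j j' k
      rw [h3] at this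
      exact absurd this (lt_irrefl _)
    · exact k
    · have := hlt j' j k
      rw [h3] at this
      exact absurd this (lt_irrefl _)
  · intro i j i' j' h h' hqq hii
    have h1 := (hq i j h).2
    have h2 := (hq i' j' h').2
    rw [← hqq] at h2
    have h3 := L2 hY (hP i) (hP j) (hP i') (hP j') (hlt i j h) (hlt i' j' h') h1 h2 (hlt i i' hii)
    rw [hPe, hPe] at h3
    exact e.lt_iff_lt.1 h3

end BlkAR
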