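import Pool.Agent.Work.MP_763b10_co.AR.CsDefs
import Pool.Agent.Work.MP_763b10_co.AR.Chern

/-!
# MP_763b10_co, board modar, module Cs (M-L)

The Croot-Sisask almost periodicity lemma.

Proof. `S = A - A`, `ε = 1/(32 k)`. For `a = (a_1, .., a_l) ∈ A^l` let `g_a(x) = #{i : x - a_i ∈ S}/l`, and call `x` bad for `a` if
`|g_a(x) - fS A x| > ε`. For a given `x` apply `chern` to `s = {a ∈ A : x - a ∈ S}`: `x` is bad for at most `2 exp(-ε² l/4) |A|^l`
tuples. If `x` is bad for some `a` then `x ∈ A + S` (otherwise both numbers are `0`). `|A + S| = |2A - A| ≤ K³ |A|`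
(`Finset.pluennecke_ruzsa_inequality_nsmul_sub_nsmul_sub` with `m = 2`, `n = 1`). So `∑_a #bad(a) ≤ 2 exp(-ε² l/4) K³ |A|^(l+1)` and at
least half of the tuples are good: `#bad(a) ≤ β := 4 exp(-ε² l/4) K³ |A|`. Let `L` be the set of good tuples, `|L| ≥ |A|^l/2`.
The map `L × A → S^l`, `(a, u) ↦ (a_i - u)_i` has a fibre of size `≥ |L| |A| / |S|^l ≥ |A|/(2 K^l)` (`|S| ≤ K |A|`): some `z` and
`T = {u ∈ A : z + u ∈ L}` (for a given `z` the pair is determined by `u`), `|T| ≥ |A|/(2K^l)`. For `u ∈ T`: `g_{z+u}(x) = g_z(x - u)`, so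
`#{x : |g_z(x) - f(x + u)| > ε} ≤ β`. For `u, v ∈ T` and `t = u - v`: `#{x : |f(x + t) - f(x)| > 2ε} ≤ 2β`. By telescoping
(induction on the number of summands) for `t = ∑_{i<k} (u_i - v_i)`: `#{x : |f(x + t) - f(x)| > 2kε} ≤ 2kβ`; here `2kε = 1/16`.
As `0 ≤ f ≤ 1`, for all `y`: `|FS A (y + t) - FS A y| ≤ 1/16 + 2kβ/|A| = 1/16 + 8 k exp(-ε² l/4) K³ ≤ 1/16 + 1/16`, because
`ε² l/4 = l/(4096 k²) ≥ log(128 k K³)`.
(The sets of all `x ∈ G` with a property are finite because `f` and `g_a` vanish outside finite sets; it is convenient to write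
`{x ∈ B : ..}` with a large finite `B`, or to bound `∑_{x ∈ A} |f(x+y+t) - f(x+y)|` directly.)
-/

set_option autoImplicit false

namespace BlkAR

open Finset
open scoped Pointwise

private noncomputable def gS {G : Type*} [AddCommGroup G] [DecidableEq G] (A : Finset G) {l : ℕ}
    (a : Fin l → G) (x : G) : ℝ := ((univ.filter fun i => x - a i ∈ A - A).card : ℝ) / l

private theorem fS_nonneg {G : Type*} [AddCommGroup G] [DecidableEq G] (A : Finset G) (x : G) :
    0 ≤ fS A x := by
  unfold fS
  positivity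

private theorem fS_le {G : Type*} [AddCommGroup G] [DecidableEq G] (A : Finset G) (x : G) :
    fS A x ≤ 1 := by
  unfold fS
  apply div_le_one_of_le₀ _ (Nat.cast_nonneg _)
  exact_mod_cast Finset.card_filter_le _ _

private theorem fS_out {G : Type*} [AddCommGroup G] [DecidableEq G] (A : Finset G) (x : G)
    (hx : x ∉ A + (A - A)) : fS A x = 0 := by
  unfold fS
  rw [Finset.filter_eq_empty_iff.2, Finset.card_empty, Nat.cast_zero, zero_div]
  intro a ha h
  apply hx
  have := Finset.add_mem_add ha h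
  rwa [add_sub_cancel] at this

private theorem gS_out {G : Type*} [AddCommGroup G] [DecidableEq G] (A : Finset G) {l : ℕ}
    (a : Fin l → G) (ha : ∀ i, a i ∈ A) (x : G)
    (hx : x ∉ A + (A - A)) : gS A a x = 0 := by
  unfold gS
  rw [Finset.filter_eq_empty_iff.2, Finset.card_empty, Nat.cast_zero, zero_div]
  intro i _ h
  apply hx
  have := Finset.add_mem_add (ha i) h
  rwa [add_sub_cancel] at this

open Classical in
private noncomputable def bad {G : Type*} [AddCommGroup G] [DecidableEq G] (A : Finset G) {l : ℕ} (ε : ℝ)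
    (a : Fin l → G) : Finset G := (A + (A - A)).filter fun x => ε < |gS A a x - fS A x|

private theorem not_bad {G : Type*} [AddCommGroup G] [DecidableEq G] (A : Finset G) {l : ℕ} {ε : ℝ}
    (hε : 0 ≤ ε) (a : Fin l → G) (ha : ∀ i, a i ∈ A) (x : G) (hx : x ∉ bad A ε a) :
    |gS A a x - fS A x| ≤ ε := by
  classical
  by_cases h : x ∈ A + (A - A)
  · by_contra hcon
    push Not at hcon
    apply hx
    unfold bad
    rw [Finset.mem_filter]
    exact ⟨h, hcon⟩
  · rw [fS_out A x h, gS_out A a ha x h]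
    simpa using hε

private theorem card3 {G : Type*} [AddCommGroup G] [DecidableEq G] (A : Finset G) (hA : A.Nonempty) (K : ℝ)
    (hK : ((A - A).card : ℝ) ≤ K * A.card) : ((A + (A - A)).card : ℝ) ≤ K ^ 3 * A.card := by
  have h1 := Finset.pluennecke_ruzsa_inequality_nsmul_sub_nsmul_sub hA A 2 1
  have h2 : 2 • A - 1 • A = A + (A - A) := by
    rw [two_nsmul, one_nsmul, add_sub_assoc]
  rw [h2] at h1
  have h3 : ((A + (A - A)).card : ℝ) ≤ (((A - A).card : ℝ) / A.card) ^ 3 * A.card := by
    have h4 := (NNRat.cast_le (K := ℝ)).2 h1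
    push_cast at h4
    exact h4
  refine h3.trans ?_
  have hA0 : (0 : ℝ) < A.card := by exact_mod_cast hA.card_pos
  apply mul_le_mul_of_nonneg_right _ hA0.le
  apply pow_le_pow_left₀ (by positivity)
  rw [div_le_iff₀ hA0]
  exact hK

private theorem sum_bad {G : Type*} [AddCommGroup G] [DecidableEq G] (A : Finset G) (hA : A.Nonempty) (K : ℝ)
    (hK : ((A - A).card : ℝ) ≤ K * A.card) (l : ℕ) (hl : 0 < l) (ε : ℝ) (h0 : 0 < ε) (h1 : ε ≤ 1) :
    ∑ a ∈ Fintype.piFinset fun _ : Fin l => A, ((bad A ε a).card : ℝ) ≤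
      K ^ 3 * A.card * (2 * Real.exp (-(ε ^ 2 * l / 4)) * (A.card : ℝ) ^ l) := by
  classical
  have hl0 : (0 : ℝ) < l := by exact_mod_cast hl
  have h2 : ∑ a ∈ Fintype.piFinset fun _ : Fin l => A, ((bad A ε a).card : ℝ) =
      ∑ x ∈ A + (A - A), (((Fintype.piFinset fun _ : Fin l => A).filter
        fun a => ε < |gS A a x - fS A x|).card : ℝ) := by
    unfold bad
    simp_rw [Finset.card_filter]
    push_cast
    rw [Finset.sum_comm]
  rw [h2]
  have h3 : ∀ x ∈ A + (A - A), (((Fintype.piFinset fun _ : Fin l => A).filter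
        fun a => ε < |gS A a x - fS A x|).card : ℝ) ≤ 2 * Real.exp (-(ε ^ 2 * l / 4)) * (A.card : ℝ) ^ l := by
    intro x _
    have h4 := chern A (A.filter fun a => x - a ∈ A - A) hA (Finset.filter_subset _ _) l ε h0 h1
    refine le_trans ?_ h4
    have h5 : (Fintype.piFinset fun _ : Fin l => A).filter (fun a => ε < |gS A a x - fS A x|) ⊆
        (Fintype.piFinset fun _ : Fin l => A).filter (fun a : Fin l → G =>
          ε * l < |((univ.filter fun i => a i ∈ A.filter fun a => x - a ∈ A - A).card : ℝ) -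
          l * ((A.filter fun a => x - a ∈ A - A).card / A.card)|) := by
      intro a ha
      rw [Finset.mem_filter] at ha ⊢
      refine ⟨ha.1, ?_⟩
      have h6 : (univ.filter fun i => a i ∈ A.filter fun a => x - a ∈ A - A) =
          univ.filter fun i => x - a i ∈ A - A := by
        ext i
        simp only [Finset.mem_filter, Finset.mem_univ, true_and]
        exact ⟨fun h => h.2, fun h => ⟨Fintype.mem_piFinset.1 ha.1 i, h⟩⟩
      rw [h6]
      have h7 : ((univ.filter fun i => x - a i ∈ A - A).card : ℝ) -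
          l * ((A.filter fun a => x - a ∈ A - A).card / A.card) = l * (gS A a x - fS A x) := by
        unfold gS fS
        field_simp
      rw [h7, abs_mul, abs_of_pos hl0, mul_comm]
      exact mul_lt_mul_of_pos_left ha.2 hl0
    exact_mod_cast Finset.card_le_card h5
  refine (Finset.sum_le_sum h3).trans ?_
  rw [Finset.sum_const, nsmul_eq_mul]
  exact mul_le_mul_of_nonneg_right (card3 A hA K hK) (by positivity)

/-- almost period: `|f (x + t) - f x| ≤ m` outside of a set of at most `c` points -/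
private def AP {G : Type*} [AddCommGroup G] [DecidableEq G] (f : G → ℝ) (t : G) (c m : ℝ) : Prop :=
  ∃ E : Finset G, (E.card : ℝ) ≤ c ∧ ∀ x, x ∉ E → |f (x + t) - f x| ≤ m

private theorem AP_add {G : Type*} [AddCommGroup G] [DecidableEq G] {f : G → ℝ} {t t' : G} {c m c' m' : ℝ}
    (h : AP f t c m) (h' : AP f t' c' m') : AP f (t + t') (c + c') (m + m') := by
  obtain ⟨E, hE, h1⟩ := h
  obtain ⟨E', hE', h1'⟩ := h'
  refine ⟨E' ∪ E.image (fun x => x - t'), ?_, ?_⟩
  · have h2 : ((E' ∪ E.image (fun x => x - t')).card : ℝ) ≤ (E'.card : ℝ) + E.card := by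
      have := (Finset.card_union_le E' (E.image (fun x => x - t'))).trans
        (Nat.add_le_add_left Finset.card_image_le _)
      exact_mod_cast this
    linarith
  · intro x hx
    rw [Finset.mem_union, not_or] at hx
    have h3 : x + t' ∉ E := by
      intro h4
      exact hx.2 (Finset.mem_image.2 ⟨x + t', h4, by abel⟩)
    have h5 := h1 _ h3
    have h6 := h1' _ hx.1
    have h7 : f (x + (t + t')) - f x = (f (x + t' + t) - f (x + t')) + (f (x + t') - f x) := by
      rw [show x + (t + t') = x + t' + t by abel]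
      ring
    rw [h7]
    exact (abs_add_le _ _).trans (add_le_add h5 h6)

private theorem AP_sum {G : Type*} [AddCommGroup G] [DecidableEq G] {f : G → ℝ} {c m : ℝ} (k : ℕ) (t : Fin k → G)
    (h : ∀ i, AP f (t i) c m) : AP f (∑ i, t i) (k * c) (k * m) := by
  induction k with
  | zero =>
    refine ⟨∅, by simp, fun x _ => by simp⟩
  | succ k ih =>
    rw [Fin.sum_univ_castSucc]
    have := AP_add (ih (fun i => t i.castSucc) fun i => h _) (h (Fin.last k))
    have e1 : (k : ℝ) * c + c = ((k + 1 : ℕ) : ℝ) * c := by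
      push_cast
      ring
    have e2 : (k : ℝ) * m + m = ((k + 1 : ℕ) : ℝ) * m := by
      push_cast
      ring
    rw [e1, e2] at this
    exact this

private theorem AP_FS {G : Type*} [AddCommGroup G] [DecidableEq G] (A : Finset G) (hA : A.Nonempty) {t : G}
    {c m : ℝ} (hm : 0 ≤ m) (h : AP (fS A) t c m) (y : G) : |FS A (y + t) - FS A y| ≤ m + c / A.card := by
  classical
  obtain ⟨E, hE, h1⟩ := h
  have hA0 : (0 : ℝ) < A.card := by exact_mod_cast hA.card_pos
  have h2 : FS A (y + t) - FS A y = (∑ x ∈ A, (fS A (x + y + t) - fS A (x + y))) / A.card := by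
    unfold FS
    rw [Finset.sum_sub_distrib, sub_div]
    simp_rw [add_assoc]
  rw [h2, abs_div, abs_of_pos hA0, div_le_iff₀ hA0]
  refine (Finset.abs_sum_le_sum_abs _ _).trans ?_
  have h3 : ∀ x ∈ A, |fS A (x + y + t) - fS A (x + y)| ≤ m + if x + y ∈ E then 1 else 0 := by
    intro x _
    split_ifs with h4
    · have a1 := fS_nonneg A (x + y + t)
      have a2 := fS_le A (x + y + t)
      have a3 := fS_nonneg A (x + y)
      have a4 := fS_le A (x + y)
      rw [abs_le]
      constructor <;> linarith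
    · rw [add_zero]
      exact h1 _ h4
  refine (Finset.sum_le_sum h3).trans ?_
  rw [Finset.sum_add_distrib, Finset.sum_const, nsmul_eq_mul, ← Finset.sum_filter, Finset.sum_const, nsmul_eq_mul,
    mul_one]
  have h5 : ((A.filter fun x => x + y ∈ E).card : ℝ) ≤ E.card := by
    have : (A.filter fun x => x + y ∈ E).card ≤ E.card := by
      refine Finset.card_le_card_of_injOn (fun x => x + y) ?_ ?_
      · intro x hx
        exact (Finset.mem_filter.1 hx).2
      · intro x _ x' _ h6
        exact add_right_cancel h6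
    exact_mod_cast this
  have h6 : (m + c / A.card) * A.card = A.card * m + c := by
    field_simp
  rw [h6]
  linarith

theorem cs {G : Type*} [AddCommGroup G] [DecidableEq G] (A : Finset G) (hA : A.Nonempty) (K : ℝ)
    (hK : ((A - A).card : ℝ) ≤ K * A.card) (k l : ℕ) (hk : 1 ≤ k)
    (hl : 4096 * (k : ℝ) ^ 2 * Real.log (128 * k * K ^ 3) ≤ l) :
    ∃ T ⊆ A, (A.card : ℝ) / (2 * K ^ l) ≤ T.card ∧ ∀ (y : G) (u v : Fin k → G),
      (∀ i, u i ∈ T) → (∀ i, v i ∈ T) → |FS A (y + ∑ i, (u i - v i)) - FS A y| ≤ 1 / 8 := by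
  classical
  have hA0 : (0 : ℝ) < A.card := by exact_mod_cast hA.card_pos
  have hk0 : (1 : ℝ) ≤ k := by exact_mod_cast hk
  have hK1 : 1 ≤ K := by
    have h1 : A.card ≤ (A - A).card := Finset.card_le_card_sub_right hA
    have h2 : (A.card : ℝ) ≤ (A - A).card := by exact_mod_cast h1
    have h3 : (A.card : ℝ) ≤ K * A.card := h2.trans hK
    by_contra hcon
    push Not at hcon
    nlinarith
  have hK3 : (1 : ℝ) ≤ K ^ 3 := one_le_pow₀ hK1
  have hX : (128 : ℝ) ≤ 128 * k * K ^ 3 := by nlinarith
  have hlog : 0 < Real.log (128 * k * K ^ 3) := Real.log_pos (by linarith)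
  have hl0 : (0 : ℝ) < l := lt_of_lt_of_le (by positivity) hl
  have hln : 0 < l := by exact_mod_cast hl0
  obtain ⟨ε, hε⟩ : ∃ ε : ℝ, ε = 1 / (32 * k) := ⟨_, rfl⟩
  have hε0 : 0 < ε := by
    rw [hε]
    positivity
  have hε1 : ε ≤ 1 := by
    rw [hε, div_le_one (by positivity)]
    linarith
  obtain ⟨β, hβ⟩ : ∃ β : ℝ, β = 4 * Real.exp (-(ε ^ 2 * l / 4)) * K ^ 3 * A.card := ⟨_, rfl⟩
  have hβ0 : 0 < β := by
    rw [hβ]
    positivity
  -- good tuples
  obtain ⟨Pl, hPl⟩ : ∃ Pl : Finset (Fin l → G), Pl = Fintype.piFinset fun _ : Fin l => A := ⟨_, rfl⟩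
  have hPlc : (Pl.card : ℝ) = (A.card : ℝ) ^ l := by
    rw [hPl, Fintype.card_piFinset_const]
    push_cast
    rfl
  have hsb := sum_bad A hA K hK l hln ε hε0 hε1
  rw [← hPl] at hsb
  obtain ⟨L, hL⟩ : ∃ L : Finset (Fin l → G), L = Pl.filter fun a => ((bad A ε a).card : ℝ) ≤ β := ⟨_, rfl⟩
  have hLc : (A.card : ℝ) ^ l / 2 ≤ L.card := by
    have h1 : β * ((Pl.filter fun a => ¬ ((bad A ε a).card : ℝ) ≤ β).card : ℝ) ≤
        K ^ 3 * A.card * (2 * Real.exp (-(ε ^ 2 * l / 4)) * (A.card : ℝ) ^ l) := by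
      refine le_trans ?_ hsb
      refine le_trans ?_ (Finset.sum_le_sum_of_subset_of_nonneg (Finset.filter_subset
        (fun a => ¬ ((bad A ε a).card : ℝ) ≤ β) Pl) fun _ _ _ => Nat.cast_nonneg _)
      rw [mul_comm, ← nsmul_eq_mul]
      refine Finset.card_nsmul_le_sum _ _ _ fun a ha => ?_
      have := (Finset.mem_filter.1 ha).2
      push Not at this
      exact this.le
    have h2 : K ^ 3 * A.card * (2 * Real.exp (-(ε ^ 2 * l / 4)) * (A.card : ℝ) ^ l) =
        β * ((A.card : ℝ) ^ l / 2) := by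
      rw [hβ]
      ring
    rw [h2] at h1
    have h3 := le_of_mul_le_mul_left h1 hβ0
    have h4 : (L.card : ℝ) + ((Pl.filter fun a => ¬ ((bad A ε a).card : ℝ) ≤ β).card : ℝ) = Pl.card := by
      rw [hL]
      exact_mod_cast Finset.card_filter_add_card_filter_not _
    rw [hPlc] at h4
    linarith
  -- pigeonhole
  have hSne : (A - A).Nonempty := hA.sub hA
  obtain ⟨z, hz, hzc⟩ := Finset.exists_le_card_fiber_of_nsmul_le_card_of_maps_to
    (s := L ×ˢ A) (t := Fintype.piFinset fun _ : Fin l => A - A)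
    (f := fun p : (Fin l → G) × G => fun i => p.1 i - p.2) (b := (A.card : ℝ) / (2 * K ^ l)) (by
      intro p hp
      rw [Finset.mem_product, hL, Finset.mem_filter, hPl] at hp
      rw [Fintype.mem_piFinset]
      intro i
      exact Finset.sub_mem_sub (Fintype.mem_piFinset.1 hp.1.1 i) hp.2)
    (Fintype.piFinset_nonempty.2 fun _ => hSne) (by
      rw [Fintype.card_piFinset_const, nsmul_eq_mul, Finset.card_product]
      push_cast
      have h1 : ((A - A).card : ℝ) ^ l ≤ K ^ l * (A.card : ℝ) ^ l := by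
        rw [← mul_pow]
        exact pow_le_pow_left₀ (Nat.cast_nonneg _) hK l
      have hKl : 0 < K ^ l := by positivity
      calc ((A - A).card : ℝ) ^ l * ((A.card : ℝ) / (2 * K ^ l)) ≤
          (K ^ l * (A.card : ℝ) ^ l) * ((A.card : ℝ) / (2 * K ^ l)) :=
            mul_le_mul_of_nonneg_right h1 (by positivity)
        _ = (A.card : ℝ) ^ l / 2 * A.card := by
            field_simp
        _ ≤ (L.card : ℝ) * A.card := mul_le_mul_of_nonneg_right hLc hA0.le)
  refine ⟨A.filter fun u => (fun i => z i + u) ∈ L, Finset.filter_subset _ _, ?_, ?_⟩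
  · refine hzc.trans ?_
    have : ((L ×ˢ A).filter fun p => (fun i => p.1 i - p.2) = z).card ≤
        (A.filter fun u => (fun i => z i + u) ∈ L).card := by
      refine Finset.card_le_card_of_injOn (fun p => p.2) ?_ ?_
      · intro p hp
        rw [Finset.mem_coe, Finset.mem_filter, Finset.mem_product] at hp
        rw [Finset.mem_coe, Finset.mem_filter]
        refine ⟨hp.1.2, ?_⟩
        have : (fun i => z i + p.2) = p.1 := by
          funext i
          rw [← hp.2]
          exact sub_add_cancel _ _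
        rw [this]
        exact hp.1.1
      · intro p hp p' hp' h
        rw [Finset.mem_coe, Finset.mem_filter] at hp hp'
        have h1 : p.2 = p'.2 := h
        refine Prod.ext ?_ h1
        funext i
        have h2 : p.1 i - p.2 = p'.1 i - p'.2 := congrFun (hp.2.trans hp'.2.symm) i
        rw [h1] at h2
        exact sub_left_injective h2
    exact_mod_cast this
  · intro y u v hu hv
    -- approximation of `f (x + u)` by `g_z x`
    have happ : ∀ u, u ∈ A.filter (fun u => (fun i => z i + u) ∈ L) →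
        ∃ E : Finset G, (E.card : ℝ) ≤ β ∧ ∀ x, x ∉ E → |gS A z x - fS A (x + u)| ≤ ε := by
      intro u hu
      rw [Finset.mem_filter, hL, Finset.mem_filter, hPl, Fintype.mem_piFinset] at hu
      refine ⟨(bad A ε (fun i => z i + u)).image (fun x => x - u), ?_, ?_⟩
      · refine le_trans ?_ hu.2.2
        exact_mod_cast Finset.card_image_le
      · intro x hx
        have h1 : x + u ∉ bad A ε (fun i => z i + u) := by
          intro h2
          exact hx (Finset.mem_image.2 ⟨x + u, h2, by abel⟩)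
        have h3 := not_bad A hε0.le _ hu.2.1 _ h1
        have h4 : gS A (fun i => z i + u) (x + u) = gS A z x := by
          unfold gS
          congr 3
          ext i
          simp only [Finset.mem_filter, Finset.mem_univ, true_and]
          rw [show x + u - (z i + u) = x - z i by abel]
        rw [h4] at h3
        exact h3
    have hAP : ∀ i, AP (fS A) (u i - v i) (2 * β) (2 * ε) := by
      intro i
      obtain ⟨E, hE, h1⟩ := happ _ (hu i)
      obtain ⟨E', hE', h1'⟩ := happ _ (hv i)
      refine ⟨(E ∪ E').image (fun x => x + v i), ?_, ?_⟩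
      · have h2 : (((E ∪ E').image (fun x => x + v i)).card : ℝ) ≤ (E.card : ℝ) + E'.card := by
          exact_mod_cast Finset.card_image_le.trans (Finset.card_union_le E E')
        linarith
      · intro x hx
        have h3 : x - v i ∉ E ∪ E' := by
          intro h4
          exact hx (Finset.mem_image.2 ⟨x - v i, h4, by abel⟩)
        rw [Finset.mem_union, not_or] at h3
        have h5 := h1 _ h3.1
        have h6 := h1' _ h3.2
        rw [show x - v i + u i = x + (u i - v i) by abel] at h5
        rw [sub_add_cancel] at h6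
        rw [abs_le] at h5 h6 ⊢
        constructor <;> linarith [h5.1, h5.2, h6.1, h6.2]
    have h7 := AP_FS A hA (by positivity) (AP_sum k (fun i => u i - v i) hAP) y
    refine h7.trans ?_
    have h8 : (k : ℝ) * (2 * ε) = 1 / 16 := by
      rw [hε]
      field_simp
      norm_num
    have h9 : Real.exp (-(ε ^ 2 * l / 4)) ≤ 1 / (128 * k * K ^ 3) := by
      have h10 : Real.log (128 * k * K ^ 3) ≤ ε ^ 2 * l / 4 := by
        rw [hε]
        have h11 : (1 / (32 * (k : ℝ))) ^ 2 * l / 4 = l / (4096 * (k : ℝ) ^ 2) := by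
          field_simp
          norm_num
        rw [h11, le_div_iff₀ (by positivity)]
        linarith
      have h12 : (1 : ℝ) / (128 * k * K ^ 3) = Real.exp (-Real.log (128 * k * K ^ 3)) := by
        rw [Real.exp_neg, Real.exp_log (by linarith), one_div]
      rw [h12]
      exact Real.exp_le_exp.2 (by linarith)
    have h13 : (k : ℝ) * (2 * β) / A.card ≤ 1 / 16 := by
      rw [hβ, div_le_iff₀ hA0]
      have h14 : (k : ℝ) * (2 * (4 * Real.exp (-(ε ^ 2 * l / 4)) * K ^ 3 * A.card)) =
          Real.exp (-(ε ^ 2 * l / 4)) * (8 * k * K ^ 3 * A.card) := by ring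
      rw [h14]
      refine (mul_le_mul_of_nonneg_right h9 (by positivity)).trans (le_of_eq ?_)
      field_simp
      norm_num
    rw [h8]
    linarith

end BlkAR
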