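import Pool.Agent.Work.MP_763b10_co.AR.Defs

/-!
# MP_763b10_co, board modar: definitions for the Croot-Sisask block (FIXED)

`fS A x = #{a ∈ A : x - a ∈ A - A} / |A|`; `FS A y` is the average of `fS A (x + y)` over `x ∈ A`. One has `FS A 0 = 1`, and
`FS A y > 0` implies `y ∈ (A + A) - (A + A)`.
-/

set_option autoImplicit false

namespace BlkAR

open Finset
open scoped Pointwise

noncomputable def fS {G : Type*} [AddCommGroup G] [DecidableEq G] (A : Finset G) (x : G) : ℝ :=
  ((A.filter fun a => x - a ∈ A - A).card : ℝ) / A.card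

noncomputable def FS {G : Type*} [AddCommGroup G] [DecidableEq G] (A : Finset G) (y : G) : ℝ :=
  (∑ x ∈ A, fS A (x + y)) / A.card

end BlkAR
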