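import Pool.Agent.Work.MP_763b10_co.AR.ChainAll
import Pool.Agent.Work.MP_763b10_co.AR.Conv

/-!
# MP_763b10_co, board modar, module CurveBlk (S)

Points in general position on a curve of bounded degree need superlinearly many blockers.

Proof. Map `F` to `ℝ[X][X]` (nonzero, `BD d`), apply `chainAll`: `Y ⊆ X`, `|X| ≤ C (|Y| + 1)`. If `|X|` is large, `|Y| ≥ |X|/(2C)`; `Blocks Y Q`; `conv`:
`|Q| ≥ |Y| (log |Y| - 1) ≥ B |X|` as soon as `log |Y| - 1 ≥ 2 C B`, i.e. for `|X| ≥ N`.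
-/

set_option autoImplicit false

namespace BlkAR

open Polynomial

theorem curveBlk (d : ℕ) (B : ℝ) : ∃ N : ℕ, ∀ (F : ℤ[X][X]) (X : Finset (ℤ × ℤ))
    (Q : Finset (ℝ × ℝ)), F ≠ 0 → BD d F → NC X → (∀ p ∈ X, F.evalEval p.1 p.2 = 0) →
    Blocks X Q → N ≤ X.card → B * X.card ≤ Q.card := by
  obtain ⟨C0, hC0⟩ := chainAll d
  obtain ⟨C, hC⟩ : ∃ C : ℝ, C = (C0 : ℝ) + 1 := ⟨_, rfl⟩
  have hC1 : 1 ≤ C := by
    have h1 : (0 : ℝ) ≤ C0 := by positivity
    linarith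
  obtain ⟨m0, hm0⟩ : ∃ m0 : ℕ, m0 = ⌈Real.exp (2 * C * |B| + 1)⌉₊ := ⟨_, rfl⟩
  have hm0e : Real.exp (2 * C * |B| + 1) ≤ m0 := by
    rw [hm0]
    exact Nat.le_ceil _
  have hm0p : (1 : ℝ) ≤ m0 := by
    have h1 : (1 : ℝ) ≤ Real.exp (2 * C * |B| + 1) := by
      apply Real.one_le_exp
      have := abs_nonneg B
      positivity
    linarith
  refine ⟨(C0 + 1) * (m0 + 1), fun F X Q hF0 hF hN hX hQ hcard => ?_⟩
  obtain ⟨G, hG⟩ : ∃ G : ℝ[X][X], G = F.map (mapRingHom (Int.castRingHom ℝ)) := ⟨_, rfl⟩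
  have hinj : Function.Injective (mapRingHom (Int.castRingHom ℝ)) := by
    rw [coe_mapRingHom]
    exact map_injective _ Int.cast_injective
  have hG0 : G ≠ 0 := by
    rw [hG]
    exact (Polynomial.map_ne_zero_iff hinj).2 hF0
  have hGd : BD d G := by
    rw [hG]
    constructor
    · exact natDegree_map_le.trans hF.1
    · intro i
      rw [coeff_map]
      exact natDegree_map_le.trans (hF.2 i)
  have hGe : ∀ p ∈ X, G.evalEval (p.1 : ℝ) (p.2 : ℝ) = 0 := by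
    intro p hp
    have h1 := map_mapRingHom_evalEval (f := Int.castRingHom ℝ) (p := F) p.1 p.2
    rw [hX p hp, map_zero] at h1
    rw [hG]
    exact h1
  obtain ⟨Y, hYX, hY, hXY⟩ := hC0 G X hG0 hGd hN hGe
  have hblk : Blocks Y Q := fun p hp p' hp' hne => hQ p (hYX hp) p' (hYX hp') hne
  have hconv := conv hY hblk
  have h1 : (C0 + 1) * (m0 + 1) ≤ (C0 + 1) * (Y.card + 1) :=
    hcard.trans (hXY.trans (Nat.mul_le_mul_right _ (Nat.le_succ _)))
  have h2 : m0 ≤ Y.card := by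
    have h3 := Nat.le_of_mul_le_mul_left h1 (Nat.succ_pos _)
    omega
  have h3 : (m0 : ℝ) ≤ Y.card := by exact_mod_cast h2
  have hlog : 2 * C * |B| + 1 ≤ Real.log Y.card := by
    rw [Real.le_log_iff_exp_le (by linarith)]
    linarith
  have hYp : (1 : ℝ) ≤ Y.card := by linarith
  have hXr : (X.card : ℝ) ≤ 2 * C * Y.card := by
    have h4 : (X.card : ℝ) ≤ (C0 : ℝ) * ((Y.card : ℝ) + 1) := by exact_mod_cast hXY
    have h5 : (0 : ℝ) ≤ C0 := by positivity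
    nlinarith
  have h6 : B * X.card ≤ |B| * X.card :=
    mul_le_mul_of_nonneg_right (le_abs_self B) (by positivity)
  have h7 : |B| * X.card ≤ |B| * (2 * C * Y.card) :=
    mul_le_mul_of_nonneg_left hXr (abs_nonneg B)
  have h8 : (Y.card : ℝ) * (2 * C * |B| + 1) ≤ (Y.card : ℝ) * Real.log Y.card :=
    mul_le_mul_of_nonneg_left hlog (by linarith)
  linarith

end BlkAR
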