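import Pool.Agent.Work.MP_763b10_co.AR.Defs

/-!
# MP_763b10_co, board modar: definitions for the real-analytic block (FIXED)

`dY`, `dX`: partial derivatives; `Hs F`: if `F(x, g(x)) = 0`, then `g'' = - Hs F / (dY F)³`.
-/

set_option autoImplicit false

namespace BlkAR

open Polynomial

noncomputable def dY (F : ℝ[X][X]) : ℝ[X][X] := derivative F

noncomputable def dX (F : ℝ[X][X]) : ℝ[X][X] := Bivariate.swap (derivative (Bivariate.swap F))

noncomputable def Hs (F : ℝ[X][X]) : ℝ[X][X] :=
  dX (dX F) * dY F ^ 2 - 2 * dX (dY F) * dX F * dY F + dY (dY F) * dX F ^ 2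

end BlkAR
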