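import Mathlib

/-!
# MP_763b10_co, board modar: definitions (FIXED)

Points `p : ℤ × ℤ`; rational points `q = (a, b, D) : ℤ × ℤ × ℤ` in lowest terms (`Prim q`), standing for
`(a/D, b/D)`. `rho p q` is the gcd of the two coordinates of `D p - (a, b)`: if `m ∣ rho p q` then
`p ≡ q mod m` (and `D` is invertible modulo `m`).
-/

set_option autoImplicit false

namespace BlkAR

open Polynomial

/-- No three points collinear. -/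
def NC (P : Finset (ℤ × ℤ)) : Prop :=
  ∀ p ∈ P, ∀ q ∈ P, ∀ r ∈ P, p ≠ q → p ≠ r → q ≠ r →
    (q.1 - p.1) * (r.2 - p.2) - (q.2 - p.2) * (r.1 - p.1) ≠ 0

/-- `(a, b, D)` is in lowest terms. -/
def Prim (q : ℤ × ℤ × ℤ) : Prop := 1 ≤ q.2.2 ∧ Int.gcd (Int.gcd q.1 q.2.1) q.2.2 = 1

/-- gcd of the coordinates of `D p - (a, b)`. -/
def rho (p : ℤ × ℤ) (q : ℤ × ℤ × ℤ) : ℕ :=
  Int.gcd (q.2.2 * p.1 - q.1) (q.2.2 * p.2 - q.2.1)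

/-- `q` is on the segment from `p` to `p'`: the vectors `D p - (a, b)` and `D p' - (a, b)` have
opposite directions. -/
def Opp (p : ℤ × ℤ) (q : ℤ × ℤ × ℤ) (p' : ℤ × ℤ) : Prop :=
  (rho p' q : ℤ) * (q.2.2 * p.1 - q.1) = -((rho p q : ℤ) * (q.2.2 * p'.1 - q.1)) ∧
  (rho p' q : ℤ) * (q.2.2 * p.2 - q.2.1) = -((rho p q : ℤ) * (q.2.2 * p'.2 - q.2.1))

/-- The product of the prime powers `≥ Z` exactly dividing `ρ`. -/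
noncomputable def big (Z ρ : ℕ) : ℕ :=
  ∏ l ∈ ρ.primeFactors.filter (fun l => Z ≤ l ^ ρ.factorization l), l ^ ρ.factorization l

/-- The product of the prime powers `< Z` exactly dividing `ρ`. -/
noncomputable def sml (Z ρ : ℕ) : ℕ :=
  ∏ l ∈ ρ.primeFactors.filter (fun l => l ^ ρ.factorization l < Z), l ^ ρ.factorization l

/-- Minimal prime powers `≥ Z`. -/
def PM (Z m : ℕ) : Prop := ∃ l j : ℕ, l.Prime ∧ m = l ^ (j + 1) ∧ Z ≤ m ∧ l ^ j < Z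

/-- Well distributed in residue classes. -/
def Spr (K : ℝ) (P : Finset (ℤ × ℤ)) : Prop :=
  ∀ m : ℕ, 1 ≤ m → ∀ c : ℤ × ℤ,
    ((P.filter (fun p => (m : ℤ) ∣ p.1 - c.1 ∧ (m : ℤ) ∣ p.2 - c.2)).card : ℝ) ≤
      K * ((P.card : ℝ) / m + 1)

/-- A set `P` of integer points, a set `R` of rational points, and ordered pairs `x ∈ G` of points
of `P`, blocked by the point `f x` of `R`. -/
structure Cfg (P : Finset (ℤ × ℤ)) (R : Finset (ℤ × ℤ × ℤ)) (G : Finset ((ℤ × ℤ) × (ℤ × ℤ)))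
    (f : (ℤ × ℤ) × (ℤ × ℤ) → ℤ × ℤ × ℤ) (W : ℝ) : Prop where
  nc : NC P
  sub : ∀ x ∈ G, x.1 ∈ P ∧ x.2 ∈ P ∧ x.1 ≠ x.2
  mem : ∀ x ∈ G, f x ∈ R
  prim : ∀ q ∈ R, Prim q
  out : ∀ q ∈ R, ∀ p ∈ P, rho p q ≠ 0
  opp : ∀ x ∈ G, Opp x.1 (f x) x.2
  htP : ∀ p ∈ P, |(p.1 : ℝ)| ≤ W ∧ |(p.2 : ℝ)| ≤ W
  htR : ∀ q ∈ R, |(q.1 : ℝ)| ≤ W ∧ |(q.2.1 : ℝ)| ≤ W ∧ (q.2.2 : ℝ) ≤ W

/-- `K(n) = exp ((log n)^(1/20))`. -/
noncomputable def KK (n : ℕ) : ℝ := Real.exp ((Real.log n) ^ (1 / 20 : ℝ))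

/-- `Z(n) = ⌈exp (2 (log n)^(1/20))⌉`. -/
noncomputable def ZZ (n : ℕ) : ℕ := ⌈Real.exp (2 * (Real.log n) ^ (1 / 20 : ℝ))⌉₊

/-- `⌈(log n)^(1/10)⌉`. -/
noncomputable def RR (n : ℕ) : ℕ := ⌈(Real.log n) ^ (1 / 10 : ℝ)⌉₊

/-- `S(n) = Z(n)^R(n)`. -/
noncomputable def SS (n : ℕ) : ℕ := ZZ n ^ RR n

/-- The situation of the main theorem. -/
structure Sit (C A : ℕ) (P : Finset (ℤ × ℤ)) (R : Finset (ℤ × ℤ × ℤ))
    (G : Finset ((ℤ × ℤ) × (ℤ × ℤ))) (f : (ℤ × ℤ) × (ℤ × ℤ) → ℤ × ℤ × ℤ) : Prop where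
  cfg : Cfg P R G f ((P.card : ℝ) ^ A)
  spr : Spr (KK P.card) P
  cardR : (R.card : ℝ) ≤ C * P.card
  cardG : (P.card : ℝ) ^ 2 - C * P.card ≤ G.card

/-- Both partial degrees are at most `d`. -/
def BD {K : Type*} [Semiring K] (d : ℕ) (F : K[X][X]) : Prop :=
  F.natDegree ≤ d ∧ ∀ i, (F.coeff i).natDegree ≤ d

/-- The rational point of a triple. -/
def qt (q : ℤ × ℤ × ℤ) : ℚ × ℚ := ((q.1 : ℚ) / q.2.2, (q.2.1 : ℚ) / q.2.2)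

/-- The rational point of an integer point. -/
def pt (p : ℤ × ℤ) : ℚ × ℚ := ((p.1 : ℚ), (p.2 : ℚ))

/-- Value of `F (X, Y)` at a point of the plane. -/
noncomputable def ev {K : Type*} [CommSemiring K] (F : K[X][X]) (x : K × K) : K :=
  F.evalEval x.1 x.2

/-- The bihomogenized value `D^(2d) F (a/D, b/D)`. -/
noncomputable def hm (d : ℕ) (F : ℤ[X][X]) (q : ℤ × ℤ × ℤ) : ℤ :=
  ∑ j ∈ Finset.range (d + 1), ∑ i ∈ Finset.range (d + 1),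
    (F.coeff j).coeff i * (q.1 ^ i * q.2.2 ^ (d - i)) * (q.2.1 ^ j * q.2.2 ^ (d - j))

/-- The rational polynomial of an integer polynomial. -/
noncomputable def toQ (F : ℤ[X][X]) : ℚ[X][X] :=
  F.map (Polynomial.mapRingHom (Int.castRingHom ℚ))

/-- A convex chain: different abscissas, all triples have the same orientation. -/
def Chain (Y : Finset (ℤ × ℤ)) : Prop :=
  (∀ p ∈ Y, ∀ q ∈ Y, p.1 = q.1 → p = q) ∧
  ((∀ p ∈ Y, ∀ q ∈ Y, ∀ r ∈ Y, p.1 < q.1 → q.1 < r.1 →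
      0 < (q.1 - p.1) * (r.2 - p.2) - (q.2 - p.2) * (r.1 - p.1)) ∨
   (∀ p ∈ Y, ∀ q ∈ Y, ∀ r ∈ Y, p.1 < q.1 → q.1 < r.1 →
      (q.1 - p.1) * (r.2 - p.2) - (q.2 - p.2) * (r.1 - p.1) < 0))

/-- `Q` meets all open segments between two points of `P`. -/
def Blocks (P : Finset (ℤ × ℤ)) (Q : Finset (ℝ × ℝ)) : Prop :=
  ∀ p ∈ P, ∀ p' ∈ P, p ≠ p' → ∃ t : ℝ, 0 < t ∧ t < 1 ∧
    (((p.1 : ℝ) + t * ((p'.1 : ℝ) - p.1), (p.2 : ℝ) + t * ((p'.2 : ℝ) - p.2)) : ℝ × ℝ) ∈ Q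

end BlkAR
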