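import Pool.Agent.Work.MP_763b10_co.AR.DDefs

/-!
# MP_763b10_co, board modar, module Diff (M)

First and second derivative of an implicit function.

Proof. `(x, y) ↦ F.evalEval x y` has strict derivative `(h, k) ↦ (dX F)(x,y) h + (dY F)(x,y) k` (induction on `F`, or the two variables separately: `F.evalEval x y` is a
polynomial in `x`, `y`). Let `g` be continuous on `I = (u,v)`, `F(x, g x) = 0`, `(dY F)(x, g x) ≠ 0`. For `x → x₀`: `0 = F(x, g x) - F(x₀, g x₀) =
(dX F)(x - x₀) + (dY F)(g x - g x₀) + o(|x - x₀| + |g x - g x₀|)` and `g x → g x₀`, which gives `g'(x₀) = -(dX F)/(dY F)` (or use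
`HasStrictFDerivAt.implicitFunction` and uniqueness near the point; or `HasStrictDerivAt` of an inverse). So `deriv g = -(dX F)(x, g x)/(dY F)(x, g x)` on `I` (open), and
differentiating again with `g' = -F_X/F_Y`: `g'' = -(F_XX F_Y² - 2 F_XY F_X F_Y + F_YY F_X²)/F_Y³` (`dX (dY F) = dY (dX F)`).
-/

set_option autoImplicit false

namespace BlkAR

open Polynomial Set

private theorem dY_add (F G : ℝ[X][X]) : dY (F + G) = dY F + dY G := by
  unfold dY
  rw [derivative_add]

private theorem dX_add (F G : ℝ[X][X]) : dX (F + G) = dX F + dX G := by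
  unfold dX
  rw [map_add, derivative_add, map_add]

private theorem dY_mon (n m : ℕ) (c : ℝ) : dY (monomial n (monomial m c)) = monomial (n - 1) (monomial m (c * n)) := by
  unfold dY
  rw [derivative_monomial]
  congr 1
  rw [← C_eq_natCast, monomial_mul_C]

private theorem dX_mon (n m : ℕ) (c : ℝ) : dX (monomial n (monomial m c)) = monomial n (monomial (m - 1) (c * m)) := by
  unfold dX
  rw [Bivariate.swap_monomial_monomial, derivative_monomial, ← C_eq_natCast, monomial_mul_C,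
    Bivariate.swap_monomial_monomial]

private theorem ind {M : ℝ[X][X] → Prop} (hadd : ∀ F G, M F → M G → M (F + G))
    (hmon : ∀ n m c, M (monomial n (monomial m c))) (F : ℝ[X][X]) : M F := by
  induction F using Polynomial.induction_on' with
  | add F G hF hG => exact hadd F G hF hG
  | monomial n a =>
    induction a using Polynomial.induction_on' with
    | add a b ha hb =>
      rw [map_add]
      exact hadd _ _ ha hb
    | monomial m c => exact hmon n m c

private theorem dXY (F : ℝ[X][X]) : dX (dY F) = dY (dX F) := by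
  refine ind (M := fun F => dX (dY F) = dY (dX F)) ?_ ?_ F
  · intro F G hF hG
    rw [dY_add, dX_add, dX_add, dY_add, hF, hG]
  · intro n m c
    rw [dY_mon, dX_mon, dX_mon, dY_mon]
    congr 2
    ring

private theorem ev_mon (n m : ℕ) (c x y : ℝ) :
    (monomial n (monomial m c) : ℝ[X][X]).evalEval x y = c * x ^ m * y ^ n := by
  simp [evalEval, eval_monomial, eval_mul, eval_pow, eval_C]

private theorem hasF (F : ℝ[X][X]) (x y : ℝ) : HasFDerivAt (fun z : ℝ × ℝ => F.evalEval z.1 z.2)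
    ((dX F).evalEval x y • ContinuousLinearMap.fst ℝ ℝ ℝ +
      (dY F).evalEval x y • ContinuousLinearMap.snd ℝ ℝ ℝ) (x, y) := by
  refine ind (M := fun F => HasFDerivAt (fun z : ℝ × ℝ => F.evalEval z.1 z.2)
    ((dX F).evalEval x y • ContinuousLinearMap.fst ℝ ℝ ℝ +
      (dY F).evalEval x y • ContinuousLinearMap.snd ℝ ℝ ℝ) (x, y)) ?_ ?_ F
  · intro F G hF hG
    have h := hF.add hG
    rw [dX_add, dY_add, evalEval_add, evalEval_add]
    have e1 : (fun z : ℝ × ℝ => (F + G).evalEval z.1 z.2) =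
        (fun z : ℝ × ℝ => F.evalEval z.1 z.2) + (fun z : ℝ × ℝ => G.evalEval z.1 z.2) := by
      funext z
      rw [evalEval_add]
      rfl
    rw [e1]
    refine h.congr_fderiv (ContinuousLinearMap.ext fun z => ?_)
    simp
    ring
  · intro n m c
    have e1 : (fun z : ℝ × ℝ => (monomial n (monomial m c) : ℝ[X][X]).evalEval z.1 z.2) =
        fun z : ℝ × ℝ => (c * z.1 ^ m) * z.2 ^ n := by
      funext z
      rw [ev_mon]
    rw [e1, dX_mon, dY_mon, ev_mon, ev_mon]
    have h1 : HasDerivAt (fun t : ℝ => c * t ^ m) (c * (m * x ^ (m - 1))) x :=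
      (hasDerivAt_pow m x).const_mul c
    have h2 : HasDerivAt (fun t : ℝ => t ^ n) (n * y ^ (n - 1)) y := hasDerivAt_pow n y
    have h3 : HasFDerivAt (fun z : ℝ × ℝ => c * z.1 ^ m)
        ((c * (m * x ^ (m - 1))) • ContinuousLinearMap.fst ℝ ℝ ℝ) (x, y) :=
      HasDerivAt.comp_hasFDerivAt (x, y) (f := fun z : ℝ × ℝ => z.1) h1 hasFDerivAt_fst
    have h4 : HasFDerivAt (fun z : ℝ × ℝ => z.2 ^ n)
        ((n * y ^ (n - 1)) • ContinuousLinearMap.snd ℝ ℝ ℝ) (x, y) :=
      HasDerivAt.comp_hasFDerivAt (x, y) (f := fun z : ℝ × ℝ => z.2) h2 hasFDerivAt_snd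
    refine (h3.mul h4).congr_fderiv (ContinuousLinearMap.ext fun z => ?_)
    simp
    ring

private theorem hasD {H : ℝ[X][X]} {g : ℝ → ℝ} {x g' : ℝ} (hg : HasDerivAt g g' x) :
    HasDerivAt (fun t => H.evalEval t (g t)) ((dX H).evalEval x (g x) + (dY H).evalEval x (g x) * g') x := by
  have h1 : HasDerivAt (fun t : ℝ => (t, g t)) (1, g') x := (hasDerivAt_id x).prodMk hg
  have h2 := (hasF H x (g x)).comp_hasDerivAt x h1
  have e1 : ((dX H).evalEval x (g x) • ContinuousLinearMap.fst ℝ ℝ ℝ +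
      (dY H).evalEval x (g x) • ContinuousLinearMap.snd ℝ ℝ ℝ) (1, g') =
      (dX H).evalEval x (g x) + (dY H).evalEval x (g x) * g' := by
    simp
  rw [e1] at h2
  exact h2

private theorem first {F : ℝ[X][X]} {g : ℝ → ℝ} {x : ℝ} (hg : ContinuousAt g x)
    (h0 : ∀ᶠ t in nhds x, F.evalEval t (g t) = 0) (h1 : (dY F).evalEval x (g x) ≠ 0) :
    HasDerivAt g (-((dX F).evalEval x (g x) / (dY F).evalEval x (g x))) x := by
  obtain ⟨a, ha⟩ : ∃ a, a = (dX F).evalEval x (g x) := ⟨_, rfl⟩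
  obtain ⟨b, hb⟩ : ∃ b, b = (dY F).evalEval x (g x) := ⟨_, rfl⟩
  have hF := hasF F x (g x)
  rw [← ha, ← hb] at hF ⊢
  rw [← hb] at h1
  rw [hasFDerivAt_iff_isLittleO] at hF
  have hG : Filter.Tendsto (fun t => (t, g t)) (nhds x) (nhds (x, g x)) :=
    (continuousAt_id.prodMk hg)
  have h2 := hF.comp_tendsto hG
  rw [hasDerivAt_iff_isLittleO, Asymptotics.isLittleO_iff]
  rw [Asymptotics.isLittleO_iff] at h2
  intro c hc
  have hb0 : 0 < |b| := abs_pos.2 h1
  obtain ⟨m, hm⟩ : ∃ m : ℝ, m = 1 + |a / b| := ⟨_, rfl⟩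
  have hm1 : 1 ≤ m := by
    rw [hm]
    linarith [abs_nonneg (a / b)]
  have hc' : 0 < min (|b| / 2) (c * |b| / (2 * m)) := by positivity
  filter_upwards [h2 hc', h0] with t ht h0t
  have hx0 : F.evalEval x (g x) = 0 := h0.self_of_nhds
  simp only [Function.comp_apply] at ht
  rw [h0t, hx0] at ht
  obtain ⟨v, hv⟩ : ∃ v, v = t - x := ⟨_, rfl⟩
  obtain ⟨w, hw⟩ : ∃ w, w = g t - g x := ⟨_, rfl⟩
  have e1 : (a • ContinuousLinearMap.fst ℝ ℝ ℝ + b • ContinuousLinearMap.snd ℝ ℝ ℝ)
      ((t, g t) - (x, g x)) = a * v + b * w := by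
    rw [hv, hw]
    simp
  rw [e1, zero_sub, neg_zero, zero_sub, norm_neg, Real.norm_eq_abs] at ht
  have e2 : ‖((t, g t) - (x, g x) : ℝ × ℝ)‖ ≤ |v| + |w| := by
    rw [Prod.mk_sub_mk, ← hv, ← hw, Prod.norm_mk]
    exact max_le (by rw [Real.norm_eq_abs]; linarith [abs_nonneg w])
      (by rw [Real.norm_eq_abs]; linarith [abs_nonneg v])
  obtain ⟨u, hu⟩ : ∃ u, u = w + a / b * v := ⟨_, rfl⟩
  have e3 : a * v + b * w = b * u := by
    rw [hu]
    field_simp
    ring
  rw [e3, abs_mul] at ht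
  have e4 : |w| ≤ |u| + |a / b| * |v| := by
    have : w = u - a / b * v := by
      rw [hu]
      ring
    rw [this, ← abs_mul]
    exact abs_sub _ _
  have e5 : g t - g x - (t - x) • (-(a / b)) = u := by
    rw [hu, ← hv, ← hw, smul_eq_mul]
    ring
  have e5' : ‖g t - g x - (t - x) • (-(a / b))‖ = |u| := by
    rw [e5, Real.norm_eq_abs]
  rw [e5', Real.norm_eq_abs, ← hv]
  have e6 : |b| * |u| ≤ min (|b| / 2) (c * |b| / (2 * m)) * (m * |v| + |u|) := by
    refine ht.trans (mul_le_mul_of_nonneg_left ?_ hc'.le)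
    refine e2.trans ?_
    rw [hm]
    nlinarith
  have e7 : min (|b| / 2) (c * |b| / (2 * m)) * (m * |v| + |u|) ≤ c * |b| / 2 * |v| + |b| / 2 * |u| := by
    rw [mul_add]
    have i1 : min (|b| / 2) (c * |b| / (2 * m)) * (m * |v|) ≤ c * |b| / (2 * m) * (m * |v|) :=
      mul_le_mul_of_nonneg_right (min_le_right _ _) (by positivity)
    have i2 : min (|b| / 2) (c * |b| / (2 * m)) * |u| ≤ |b| / 2 * |u| :=
      mul_le_mul_of_nonneg_right (min_le_left _ _) (abs_nonneg _)
    have i3 : c * |b| / (2 * m) * (m * |v|) = c * |b| / 2 * |v| := by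
      field_simp
    linarith
  have e8 : |b| * |u| ≤ |b| * (c * |v|) := by linarith
  exact le_of_mul_le_mul_left e8 hb0

theorem diff {F : ℝ[X][X]} {u v : ℝ} {g : ℝ → ℝ} (hg : ContinuousOn g (Ioo u v))
    (h0 : ∀ x ∈ Ioo u v, F.evalEval x (g x) = 0)
    (h1 : ∀ x ∈ Ioo u v, (dY F).evalEval x (g x) ≠ 0) :
    ∀ x ∈ Ioo u v, HasDerivAt g (-((dX F).evalEval x (g x) / (dY F).evalEval x (g x))) x ∧
      HasDerivAt (deriv g) (-((Hs F).evalEval x (g x) / (dY F).evalEval x (g x) ^ 3)) x := by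
  have hI : ∀ x ∈ Ioo u v, ∀ᶠ t in nhds x, t ∈ Ioo u v := fun x hx => isOpen_Ioo.mem_nhds hx
  have hd : ∀ x ∈ Ioo u v, HasDerivAt g (-((dX F).evalEval x (g x) / (dY F).evalEval x (g x))) x := by
    intro x hx
    refine first (hg.continuousAt (isOpen_Ioo.mem_nhds hx)) ?_ (h1 x hx)
    filter_upwards [hI x hx] with t ht
    exact h0 t ht
  intro x hx
  refine ⟨hd x hx, ?_⟩
  have h2 : deriv g =ᶠ[nhds x] fun t => -((dX F).evalEval t (g t) / (dY F).evalEval t (g t)) := by
    filter_upwards [hI x hx] with t ht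
    exact (hd t ht).deriv
  refine HasDerivAt.congr_of_eventuallyEq ?_ h2
  have h3 := ((hasD (H := dX F) (hd x hx)).div (hasD (H := dY F) (hd x hx)) (h1 x hx)).neg
  refine h3.congr_deriv ?_
  have hb := h1 x hx
  unfold Hs
  rw [evalEval_add, evalEval_sub, evalEval_mul, evalEval_mul, evalEval_mul, evalEval_mul, evalEval_mul,
    evalEval_pow, evalEval_pow, dXY]
  have e2 : (2 : ℝ[X][X]).evalEval x (g x) = 2 := by
    have := evalEval_natCast x (g x) 2
    exact_mod_cast this
  rw [e2]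
  generalize (dX F).evalEval x (g x) = A at *
  generalize (dY F).evalEval x (g x) = B at *
  generalize (dX (dX F)).evalEval x (g x) = AA at *
  generalize (dY (dX F)).evalEval x (g x) = AB at *
  generalize (dY (dY F)).evalEval x (g x) = BB at *
  field_simp
  ring

end BlkAR
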