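import Pool.Agent.Work.MP_763b10_co.AR.Bdf

/-!
# MP_763b10_co, board modar, module Elim (M)

Elimination with a degree bound (dimension count instead of resultants).

Proof. If `F = 0` (or `G = 0`) the other one is a unit: `r = 1`. Let `m`, `n` be the `Y`-degrees of `F`, `G`. If `m = n = 0`: `F = C f`, `G = C g`, `f, g` are
relatively prime in `K[X]`, Bezout gives `r = 1`. Let `m + n ≥ 1`, `e = (m + n - 1) d`. The `K`-space of pairs `(U, V)` with `deg_Y U < n`, `deg_Y V < m`,
`X`-degrees `≤ e` has dimension `(m + n)(e + 1)`. The condition that all coefficients of `Y^j`, `1 ≤ j ≤ m + n - 1`, of `U F + V G` vanish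
(each is a polynomial in `X` of degree `≤ e + d`) is given by `(m + n - 1)(e + d + 1) = (m + n)(e + 1) - 1` linear equations: there is a nonzero
solution (`LinearMap.exists_ne_zero_of_lt..`, e.g. `exists_ne_zero_of finrank` / `Matrix.exists_mulVec_eq_zero_iff`-like lemmas), `U F + V G = C r`,
`deg r ≤ e + d = (m + n) d ≤ 2 d²`. `r ≠ 0`: otherwise `U F = -V G`, `F ∣ V G`, so `F ∣ V` (relatively prime, `K[X][Y]` is a UFD /
`IsRelPrime.dvd_of_dvd_mul_right`), and `deg_Y V < m` gives `V = 0`, then `U = 0`.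
-/

set_option autoImplicit false

namespace BlkAR

open Finset Polynomial

private theorem el_det {K : Type*} [Field K] {N d : ℕ} (A : Matrix (Fin N) (Fin N) K[X])
    (h : ∀ i j, (A i j).natDegree ≤ d) : A.det.natDegree ≤ N * d := by
  rw [Matrix.det_apply]
  refine natDegree_sum_le_of_forall_le _ _ fun σ _ => ?_
  have h1 : (∏ i, A (σ i) i).natDegree ≤ N * d := by
    refine (natDegree_prod_le _ _).trans ?_
    refine (Finset.sum_le_card_nsmul _ _ d fun i _ => h _ _).trans (le_of_eq ?_)
    rw [Finset.card_univ, Fintype.card_fin, smul_eq_mul]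
  rcases Int.units_eq_one_or (Equiv.Perm.sign σ) with h2 | h2
  · rw [h2, one_smul]
    exact h1
  · rw [h2, Units.neg_smul, one_smul, natDegree_neg]
    exact h1

private theorem el_ne {K : Type*} [Field K] {F G : K[X][X]} (hF : F ≠ 0) (h : IsRelPrime F G) :
    F.resultant G ≠ 0 := by
  intro h0
  have h0' : (F.sylvester G F.natDegree G.natDegree).det = 0 := h0
  obtain ⟨v, hv, hv0⟩ := Matrix.exists_mulVec_eq_zero_iff.2 h0'
  have hM := toMatrix_sylvesterMap' F G le_rfl le_rfl
  rw [← hM] at hv0
  obtain ⟨b₁, hb₁⟩ : ∃ b : Module.Basis (Fin (F.natDegree + G.natDegree)) K[X]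
      (degreeLT K[X] F.natDegree × degreeLT K[X] G.natDegree),
      b = ((degreeLT.basis K[X] F.natDegree).prod
        (degreeLT.basis K[X] G.natDegree)).reindex finSumFinEquiv := ⟨_, rfl⟩
  rw [← hb₁] at hv0
  obtain ⟨x, hx⟩ : ∃ x, b₁.equivFun x = v := ⟨b₁.equivFun.symm v, LinearEquiv.apply_symm_apply _ _⟩
  have hx0 : x ≠ 0 := by
    rintro rfl
    apply hv
    rw [← hx, map_zero]
  have h1 : sylvesterMap F G le_rfl le_rfl x = 0 := by
    have h2 := LinearMap.toMatrix_mulVec_repr b₁ (degreeLT.basis K[X] (F.natDegree + G.natDegree))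
      (sylvesterMap F G le_rfl le_rfl) x
    have h3 : (b₁.repr x : Fin (F.natDegree + G.natDegree) → K[X]) = v := hx
    rw [h3, hv0] at h2
    have h4 : (degreeLT.basis K[X] (F.natDegree + G.natDegree)).repr
        (sylvesterMap F G le_rfl le_rfl x) = 0 := by
      ext i
      rw [← h2]
      rfl
    exact (LinearEquiv.map_eq_zero_iff _).1 h4
  have h2 : F * (x.2 : K[X][X]) + G * (x.1 : K[X][X]) = 0 := congrArg Subtype.val h1
  have h3 : F ∣ G * (x.1 : K[X][X]) := by
    refine ⟨-(x.2 : K[X][X]), ?_⟩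
    linear_combination h2
  have h4 : F ∣ (x.1 : K[X][X]) := h.dvd_of_dvd_mul_left h3
  have h5 : (x.1 : K[X][X]) = 0 := by
    refine eq_zero_of_dvd_of_degree_lt h4 ?_
    refine lt_of_lt_of_le (mem_degreeLT.1 x.1.2) ?_
    rw [degree_eq_natDegree hF]
  rw [h5, mul_zero, add_zero] at h2
  have h6 : (x.2 : K[X][X]) = 0 := (mul_eq_zero.1 h2).resolve_left hF
  exact hx0 (Prod.ext (Subtype.ext h5) (Subtype.ext h6))

theorem elim {K : Type*} [Field K] {d : ℕ} {F G : K[X][X]} (hF : BD d F) (hG : BD d G)
    (h : IsRelPrime F G) : ∃ r : K[X], r ≠ 0 ∧ r.natDegree ≤ 2 * d ^ 2 ∧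
      ∃ U V : K[X][X], U * F + V * G = C r := by
  by_cases hmn : F.natDegree ≠ 0 ∨ G.natDegree ≠ 0
  · have hF0 : F ≠ 0 := by
      rintro rfl
      rcases hmn with h1 | h1
      · exact h1 natDegree_zero
      · have h2 : IsUnit G := h (dvd_zero G) dvd_rfl
        obtain ⟨c, -, hc⟩ := isUnit_iff.1 h2
        exact h1 (by rw [← hc, natDegree_C])
    refine ⟨F.resultant G, el_ne hF0 h, ?_, ?_⟩
    · have h1 : (F.sylvester G F.natDegree G.natDegree).det.natDegree ≤
          (F.natDegree + G.natDegree) * d := by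
        refine el_det _ fun i j => ?_
        unfold sylvester
        rw [Matrix.of_apply]
        induction j using Fin.addCases with
        | left j =>
          rw [Fin.addCases_left]
          split_ifs
          · exact hG.2 _
          · rw [natDegree_zero]
            exact Nat.zero_le d
        | right j =>
          rw [Fin.addCases_right]
          split_ifs
          · exact hF.2 _
          · rw [natDegree_zero]
            exact Nat.zero_le d
      refine h1.trans ?_
      have h2 := hF.1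
      have h3 := hG.1
      calc (F.natDegree + G.natDegree) * d ≤ (d + d) * d := Nat.mul_le_mul_right d (by omega)
        _ = 2 * d ^ 2 := by ring
    · obtain ⟨p, q, -, -, hpq⟩ := exists_mul_add_mul_eq_C_resultant F G le_rfl le_rfl hmn
      refine ⟨p, q, ?_⟩
      rw [mul_comm p, mul_comm q]
      exact hpq
  · rw [not_or, not_not, not_not] at hmn
    obtain ⟨h1, h2⟩ := hmn
    rw [eq_C_of_natDegree_eq_zero h1, eq_C_of_natDegree_eq_zero h2] at h ⊢
    generalize F.coeff 0 = f at h ⊢
    generalize G.coeff 0 = g at h ⊢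
    have h3 : IsRelPrime f g := by
      intro c hcf hcg
      have h4 : IsUnit (C c : K[X][X]) := h (map_dvd C hcf) (map_dvd C hcg)
      exact isUnit_C.1 h4
    obtain ⟨u, v, huv⟩ := h3.isCoprime
    refine ⟨1, one_ne_zero, by rw [natDegree_one]; exact Nat.zero_le _, C u, C v, ?_⟩
    rw [← C_mul, ← C_mul, ← C_add, huv]

end BlkAR
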