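import Pool.Agent.Work.MP_763b10_co.AR.Pmf
import Pool.Agent.Work.MP_763b10_co.AR.Cls
import Pool.Agent.Work.MP_763b10_co.AR.Uniq

/-!
# MP_763b10_co, board modar, module Heavy (M)

Few points of `P` are in a residue class (modulo a minimal prime power) which is heavy for `R`.

Proof. For a heavy `p` choose `m_p` (PM) with `|R_p| > κ |R| ≥ 2`, `R_p = {q ∈ R : m_p ∣ rho p q}`. `H` = the set of pairs `(m_p, R_p)`. If `m_p = m_{p'} = m`
and `q ∈ R_p ∩ R_{p'}` then `D (p - p') ≡ 0`, so `p ≡ p' mod m` (`coprime_D`) and `R_p = R_{p'}`: for a given `m` different `R'` are disjoint. If `q ≠ q'` are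
in `R_p`: `m_p ∣ D' a - D a'` and `m_p ∣ D' b - D b'` (both are `≡ D D' p - D D' p`), and these two integers are not both `0` (`qt_inj`), of absolute value
`≤ 2W²`. By `pm_card` for given `q ≠ q'` the number of minimal prime powers `m` dividing both is at most `log₂(2W²) ≤ 1 + 3 log W =: B`. Double counting
`∑_{(m,R') ∈ H} |R'| (|R'| - 1) ≤ B |R|²`, each term is `≥ κ²|R|²/2`, so `|H| ≤ 2B/κ²`. The heavy `p` with a given `(m, R')` satisfy `m ∣ rho p q₀`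
(`q₀ ∈ R'`): at most `K (n/m + 1) ≤ K (n/Z + 1)` (`cls`).
-/

set_option autoImplicit false

namespace BlkAR

open Finset

private theorem rho_dvd' {p : ℤ × ℤ} {q : ℤ × ℤ × ℤ} {m : ℕ} (h : m ∣ rho p q) :
    (m : ℤ) ∣ q.2.2 * p.1 - q.1 ∧ (m : ℤ) ∣ q.2.2 * p.2 - q.2.1 := by
  have h1 : (m : ℤ) ∣ (rho p q : ℤ) := by exact_mod_cast h
  exact ⟨h1.trans (Int.gcd_dvd_left _ _), h1.trans (Int.gcd_dvd_right _ _)⟩

private theorem dvd_rho' {p : ℤ × ℤ} {q : ℤ × ℤ × ℤ} {m : ℕ}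
    (h1 : (m : ℤ) ∣ q.2.2 * p.1 - q.1) (h2 : (m : ℤ) ∣ q.2.2 * p.2 - q.2.1) : m ∣ rho p q := by
  have h3 : (m : ℤ) ∣ (rho p q : ℤ) := by
    unfold rho
    exact Int.dvd_coe_gcd h1 h2
  exact_mod_cast h3

/-- if `m` divides `rho p q` and `rho p' q` then `p` and `p'` are congruent, and `m` divides the same
numbers `rho p q''`, `rho p' q''` -/
private theorem same {p p' : ℤ × ℤ} {q : ℤ × ℤ × ℤ} {m : ℕ} (hq : Prim q) (h : m ∣ rho p q)
    (h' : m ∣ rho p' q) (q' : ℤ × ℤ × ℤ) (h2 : m ∣ rho p q') : m ∣ rho p' q' := by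
  have hc := coprime_D hq h
  obtain ⟨a1, a2⟩ := rho_dvd' h
  obtain ⟨b1, b2⟩ := rho_dvd' h'
  obtain ⟨c1, c2⟩ := rho_dvd' h2
  have d1 : (m : ℤ) ∣ p.1 - p'.1 := by
    refine hc.dvd_of_dvd_mul_left ?_
    have e : q.2.2 * (p.1 - p'.1) = (q.2.2 * p.1 - q.1) - (q.2.2 * p'.1 - q.1) := by ring
    rw [e]
    exact dvd_sub a1 b1
  have d2 : (m : ℤ) ∣ p.2 - p'.2 := by
    refine hc.dvd_of_dvd_mul_left ?_
    have e : q.2.2 * (p.2 - p'.2) = (q.2.2 * p.2 - q.2.1) - (q.2.2 * p'.2 - q.2.1) := by ring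
    rw [e]
    exact dvd_sub a2 b2
  apply dvd_rho'
  · have e : q'.2.2 * p'.1 - q'.1 = (q'.2.2 * p.1 - q'.1) - q'.2.2 * (p.1 - p'.1) := by ring
    rw [e]
    exact dvd_sub c1 (Dvd.dvd.mul_left d1 _)
  · have e : q'.2.2 * p'.2 - q'.2.1 = (q'.2.2 * p.2 - q'.2.1) - q'.2.2 * (p.2 - p'.2) := by ring
    rw [e]
    exact dvd_sub c2 (Dvd.dvd.mul_left d2 _)

private theorem cross {p : ℤ × ℤ} {q q' : ℤ × ℤ × ℤ} {m : ℕ} (h : m ∣ rho p q)
    (h' : m ∣ rho p q') : (m : ℤ) ∣ q'.2.2 * q.1 - q.2.2 * q'.1 ∧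
      (m : ℤ) ∣ q'.2.2 * q.2.1 - q.2.2 * q'.2.1 := by
  obtain ⟨a1, a2⟩ := rho_dvd' h
  obtain ⟨b1, b2⟩ := rho_dvd' h'
  constructor
  · have e : q'.2.2 * q.1 - q.2.2 * q'.1 =
        q.2.2 * (q'.2.2 * p.1 - q'.1) - q'.2.2 * (q.2.2 * p.1 - q.1) := by ring
    rw [e]
    exact dvd_sub (Dvd.dvd.mul_left b1 _) (Dvd.dvd.mul_left a1 _)
  · have e : q'.2.2 * q.2.1 - q.2.2 * q'.2.1 =
        q.2.2 * (q'.2.2 * p.2 - q'.2.1) - q'.2.2 * (q.2.2 * p.2 - q.2.1) := by ring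
    rw [e]
    exact dvd_sub (Dvd.dvd.mul_left b2 _) (Dvd.dvd.mul_left a2 _)

private theorem cross_le {D D' a a' W : ℝ} (hW : 1 ≤ W) (hD0 : 0 ≤ D) (hD : D ≤ W)
    (hD0' : 0 ≤ D') (hD' : D' ≤ W) (ha : |a| ≤ W) (ha' : |a'| ≤ W) :
    |D' * a - D * a'| ≤ 2 * W ^ 2 := by
  have h1 : |D' * a - D * a'| ≤ |D' * a| + |D * a'| := abs_sub _ _
  have h2 : |D' * a| ≤ W * W := by
    rw [abs_mul, abs_of_nonneg hD0']
    exact mul_le_mul hD' ha (abs_nonneg _) (by linarith)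
  have h3 : |D * a'| ≤ W * W := by
    rw [abs_mul, abs_of_nonneg hD0]
    exact mul_le_mul hD ha' (abs_nonneg _) (by linarith)
  nlinarith

/-- the number of minimal prime powers dividing both cross terms -/
private theorem cnt {W : ℝ} {Z : ℕ} (hW : 1 ≤ W) (hZ : 2 ≤ Z) {q q' : ℤ × ℤ × ℤ}
    (hq : Prim q) (hq' : Prim q') (hne : q ≠ q')
    (hR : |(q.1 : ℝ)| ≤ W ∧ |(q.2.1 : ℝ)| ≤ W ∧ (q.2.2 : ℝ) ≤ W)
    (hR' : |(q'.1 : ℝ)| ≤ W ∧ |(q'.2.1 : ℝ)| ≤ W ∧ (q'.2.2 : ℝ) ≤ W) (M : Finset ℕ)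
    (hM : ∀ m ∈ M, PM Z m ∧ (m : ℤ) ∣ q'.2.2 * q.1 - q.2.2 * q'.1 ∧
      (m : ℤ) ∣ q'.2.2 * q.2.1 - q.2.2 * q'.2.1) : (M.card : ℝ) ≤ 1 + 3 * Real.log W := by
  have hD0 : (0 : ℝ) ≤ (q.2.2 : ℝ) := by
    have := hq.1
    exact_mod_cast (by omega : (0 : ℤ) ≤ q.2.2)
  have hD0' : (0 : ℝ) ≤ (q'.2.2 : ℝ) := by
    have := hq'.1
    exact_mod_cast (by omega : (0 : ℤ) ≤ q'.2.2)
  have key : ∃ N : ℕ, N ≠ 0 ∧ (N : ℝ) ≤ 2 * W ^ 2 ∧ ∀ m ∈ M, m ∣ N := by
    by_cases hx : q'.2.2 * q.1 - q.2.2 * q'.1 = 0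
    · have hy : q'.2.2 * q.2.1 - q.2.2 * q'.2.1 ≠ 0 := by
        intro hy
        apply hne
        apply qt_inj hq hq'
        have hDq : (q.2.2 : ℚ) ≠ 0 := by
          have := hq.1
          exact_mod_cast (by omega : q.2.2 ≠ 0)
        have hDq' : (q'.2.2 : ℚ) ≠ 0 := by
          have := hq'.1
          exact_mod_cast (by omega : q'.2.2 ≠ 0)
        unfold qt
        refine Prod.ext ?_ ?_
        · show (q.1 : ℚ) / q.2.2 = (q'.1 : ℚ) / q'.2.2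
          rw [div_eq_div_iff hDq hDq']
          have : q.1 * q'.2.2 = q'.1 * q.2.2 := by linear_combination hx
          exact_mod_cast this
        · show (q.2.1 : ℚ) / q.2.2 = (q'.2.1 : ℚ) / q'.2.2
          rw [div_eq_div_iff hDq hDq']
          have : q.2.1 * q'.2.2 = q'.2.1 * q.2.2 := by linear_combination hy
          exact_mod_cast this
      refine ⟨(q'.2.2 * q.2.1 - q.2.2 * q'.2.1).natAbs, Int.natAbs_ne_zero.mpr hy, ?_, ?_⟩
      · rw [Nat.cast_natAbs]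
        push_cast
        exact cross_le hW hD0 hR.2.2 hD0' hR'.2.2 hR.2.1 hR'.2.1
      · intro m hm
        exact Int.natCast_dvd.mp (hM m hm).2.2
    · refine ⟨(q'.2.2 * q.1 - q.2.2 * q'.1).natAbs, Int.natAbs_ne_zero.mpr hx, ?_, ?_⟩
      · rw [Nat.cast_natAbs]
        push_cast
        exact cross_le hW hD0 hR.2.2 hD0' hR'.2.2 hR.1 hR'.1
      · intro m hm
        exact Int.natCast_dvd.mp (hM m hm).2.1
  obtain ⟨N, hN0, hN, hdv⟩ := key
  have h1 : 2 ^ M.card ≤ N := pm_card hZ hN0 M fun m hm => ⟨(hM m hm).1, hdv m hm⟩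
  have h2 : (2 : ℝ) ^ M.card ≤ 2 * W ^ 2 := le_trans (by exact_mod_cast h1) hN
  have h3 : (M.card : ℝ) * Real.log 2 ≤ Real.log 2 + 2 * Real.log W := by
    have h4 := Real.log_le_log (by positivity) h2
    rw [Real.log_pow, Real.log_mul (by norm_num) (by positivity), Real.log_pow] at h4
    push_cast at h4
    exact h4
  have hl2 : (0.6931471803 : ℝ) < Real.log 2 := Real.log_two_gt_d9
  have hlW : 0 ≤ Real.log W := Real.log_nonneg hW
  by_contra hcon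
  rw [not_le] at hcon
  have h5 : (1 + 3 * Real.log W) * Real.log 2 < (M.card : ℝ) * Real.log 2 :=
    mul_lt_mul_of_pos_right hcon (by linarith)
  nlinarith

open scoped Classical in
theorem heavy {K W κ : ℝ} {P : Finset (ℤ × ℤ)} {R : Finset (ℤ × ℤ × ℤ)} {Z : ℕ} (h : Spr K P)
    (hW : 1 ≤ W) (hq : ∀ q ∈ R, Prim q)
    (hR : ∀ q ∈ R, |(q.1 : ℝ)| ≤ W ∧ |(q.2.1 : ℝ)| ≤ W ∧ (q.2.2 : ℝ) ≤ W) (hZ : 2 ≤ Z)
    (hκ : 0 < κ) (hκR : 2 ≤ κ * R.card) :
    ((P.filter fun p => ∃ m, PM Z m ∧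
      κ * R.card < ((R.filter fun q => m ∣ rho p q).card : ℝ)).card : ℝ) ≤
      2 * (1 + 3 * Real.log W) / κ ^ 2 * (K * ((P.card : ℝ) / Z + 1)) := by
  obtain ⟨Hv, hHv⟩ : ∃ Hv : Finset (ℤ × ℤ), Hv = P.filter fun p => ∃ m, PM Z m ∧
      κ * R.card < ((R.filter fun q => m ∣ rho p q).card : ℝ) := ⟨_, rfl⟩
  rw [← hHv]
  have hch : ∀ p, ∃ m, p ∈ Hv → PM Z m ∧
      κ * R.card < ((R.filter fun q => m ∣ rho p q).card : ℝ) := by
    intro p
    by_cases hp : p ∈ Hv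
    · have hp' := hp
      rw [hHv, Finset.mem_filter] at hp'
      obtain ⟨m, hm⟩ := hp'.2
      exact ⟨m, fun _ => hm⟩
    · exact ⟨0, fun h => absurd h hp⟩
  choose m hm using hch
  obtain ⟨g, hg⟩ : ∃ g : ℤ × ℤ → ℕ × Finset (ℤ × ℤ × ℤ),
    g = fun p => (m p, R.filter fun q => m p ∣ rho p q) := ⟨_, rfl⟩
  obtain ⟨Hs, hHs⟩ : ∃ Hs : Finset (ℕ × Finset (ℤ × ℤ × ℤ)), Hs = Hv.image g := ⟨_, rfl⟩
  have hPv : ∀ p ∈ Hv, p ∈ P := by
    intro p hp
    rw [hHv, Finset.mem_filter] at hp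
    exact hp.1
  -- facts on the elements of Hs
  have hHs1 : ∀ b ∈ Hs, ∃ p ∈ Hv, b = (m p, R.filter fun q => m p ∣ rho p q) := by
    intro b hb
    rw [hHs, Finset.mem_image] at hb
    obtain ⟨p, hp, rfl⟩ := hb
    exact ⟨p, hp, by rw [hg]⟩
  have hB : ∀ b ∈ Hs, ((Hv.filter fun p => g p = b).card : ℝ) ≤ K * ((P.card : ℝ) / Z + 1) := by
    intro b hb
    obtain ⟨p, hp, hbe⟩ := hHs1 b hb
    obtain ⟨hpm, hpk⟩ := hm p hp
    have hne : (R.filter fun q => m p ∣ rho p q).Nonempty := by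
      rw [← Finset.card_pos]
      have h1 : (0 : ℝ) < ((R.filter fun q => m p ∣ rho p q).card : ℝ) := by linarith
      exact_mod_cast h1
    obtain ⟨q, hqf⟩ := hne
    have hqR : q ∈ R := (Finset.mem_filter.mp hqf).1
    have hmZ : Z ≤ m p := by
      obtain ⟨l, j, _, _, h3, _⟩ := hpm
      exact h3
    have hm1 : 1 ≤ m p := by omega
    have hsub : (Hv.filter fun p => g p = b) ⊆ P.filter fun p' => m p ∣ rho p' q := by
      intro p' hp'
      rw [Finset.mem_filter] at hp' ⊢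
      refine ⟨hPv p' hp'.1, ?_⟩
      have h2 : g p' = b := hp'.2
      rw [hbe, hg] at h2
      have h3 : m p' = m p := congrArg Prod.fst h2
      have h4 : (R.filter fun q => m p' ∣ rho p' q) = R.filter fun q => m p ∣ rho p q :=
        congrArg Prod.snd h2
      rw [← h4, Finset.mem_filter, h3] at hqf
      exact hqf.2
    have h5 : ((Hv.filter fun p => g p = b).card : ℝ) ≤
        ((P.filter fun p' => m p ∣ rho p' q).card : ℝ) := by
      exact_mod_cast Finset.card_le_card hsub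
    refine h5.trans ((cls h (hq q hqR) hm1).trans ?_)
    refine mul_le_mul_of_nonneg_left ?_ (spr_nonneg h)
    have hZ0 : (0 : ℝ) < Z := by exact_mod_cast (by omega : 0 < Z)
    have hZm : (Z : ℝ) ≤ m p := by exact_mod_cast hmZ
    have h6 : (P.card : ℝ) / m p ≤ (P.card : ℝ) / Z :=
      div_le_div_of_nonneg_left (Nat.cast_nonneg _) hZ0 hZm
    linarith
  -- the double counting
  have hA : ∀ x ∈ R.offDiag, ((Hs.filter fun b => x ∈ b.2.offDiag).card : ℝ) ≤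
      1 + 3 * Real.log W := by
    intro x hx
    rw [Finset.mem_offDiag] at hx
    obtain ⟨hx1, hx2, hx3⟩ := hx
    have hinj : Set.InjOn Prod.fst (Hs.filter fun b => x ∈ b.2.offDiag : Set
        (ℕ × Finset (ℤ × ℤ × ℤ))) := by
      intro b hb c hc hbc
      rw [Finset.mem_coe, Finset.mem_filter, Finset.mem_offDiag] at hb hc
      obtain ⟨p, hp, hbe⟩ := hHs1 b hb.1
      obtain ⟨p', hp', hce⟩ := hHs1 c hc.1
      have hb1 := hb.2.1
      have hc1 := hc.2.1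
      rw [hbe, hce] at hbc
      have hmm : m p = m p' := hbc
      rw [hbe] at hb1
      rw [hce] at hc1
      have hb2 : m p ∣ rho p x.1 := (Finset.mem_filter.mp hb1).2
      have hc2 : m p' ∣ rho p' x.1 := (Finset.mem_filter.mp hc1).2
      rw [hbe, hce, ← hmm]
      rw [← hmm] at hc2
      congr 1
      ext q
      rw [Finset.mem_filter, Finset.mem_filter]
      constructor
      · rintro ⟨a1, a2⟩
        exact ⟨a1, same (hq _ hx1) hb2 hc2 q a2⟩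
      · rintro ⟨a1, a2⟩
        exact ⟨a1, same (hq _ hx1) hc2 hb2 q a2⟩
    rw [← Finset.card_image_of_injOn hinj]
    refine cnt hW hZ (hq _ hx1) (hq _ hx2) hx3 (hR _ hx1) (hR _ hx2) _ ?_
    intro m' hm'
    rw [Finset.mem_image] at hm'
    obtain ⟨b, hb, rfl⟩ := hm'
    rw [Finset.mem_filter, Finset.mem_offDiag] at hb
    obtain ⟨p, hp, hbe⟩ := hHs1 b hb.1
    have hb1 := hb.2.1
    have hb2 := hb.2.2.1
    rw [hbe] at hb1 hb2 ⊢
    have c1 : m p ∣ rho p x.1 := (Finset.mem_filter.mp hb1).2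
    have c2 : m p ∣ rho p x.2 := (Finset.mem_filter.mp hb2).2
    exact ⟨(hm p hp).1, cross c1 c2⟩
  have hdc : ∑ b ∈ Hs, (b.2.offDiag.card : ℝ) =
      ∑ x ∈ R.offDiag, ((Hs.filter fun b => x ∈ b.2.offDiag).card : ℝ) := by
    have h1 := Finset.sum_card_bipartiteAbove_eq_sum_card_bipartiteBelow
      (s := Hs) (t := R.offDiag) (fun b x => x ∈ b.2.offDiag)
    have h2 : ∀ b ∈ Hs, Finset.bipartiteAbove (fun (b : ℕ × Finset (ℤ × ℤ × ℤ))
        (x : (ℤ × ℤ × ℤ) × (ℤ × ℤ × ℤ)) => x ∈ b.2.offDiag) R.offDiag b = b.2.offDiag := by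
      intro b hb
      obtain ⟨p, hp, hbe⟩ := hHs1 b hb
      have hsub : b.2 ⊆ R := by
        rw [hbe]
        exact Finset.filter_subset _ _
      ext x
      unfold Finset.bipartiteAbove
      rw [Finset.mem_filter]
      constructor
      · intro h3
        exact h3.2
      · intro h3
        refine ⟨?_, h3⟩
        rw [Finset.mem_offDiag] at h3 ⊢
        exact ⟨hsub h3.1, hsub h3.2.1, h3.2.2⟩
    rw [Finset.sum_congr rfl (fun b hb => by rw [h2 b hb])] at h1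
    unfold Finset.bipartiteBelow at h1
    exact_mod_cast h1
  have hRpos : (0 : ℝ) < R.card := by
    by_contra hcon
    have : (R.card : ℝ) = 0 := le_antisymm (not_lt.mp hcon) (Nat.cast_nonneg _)
    rw [this, mul_zero] at hκR
    linarith
  have hlow : ∀ b ∈ Hs, κ ^ 2 * (R.card : ℝ) ^ 2 / 2 ≤ (b.2.offDiag.card : ℝ) := by
    intro b hb
    obtain ⟨p, hp, hbe⟩ := hHs1 b hb
    have h1 := (hm p hp).2
    have h2 : κ * R.card < (b.2.card : ℝ) := by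
      rw [hbe]
      exact h1
    rw [Finset.offDiag_card, Nat.cast_sub (Nat.le_mul_self _)]
    push_cast
    have h3 : κ ^ 2 * (R.card : ℝ) ^ 2 = (κ * R.card) ^ 2 := by ring
    rw [h3]
    nlinarith
  have hup : ∑ x ∈ R.offDiag, ((Hs.filter fun b => x ∈ b.2.offDiag).card : ℝ) ≤
      (R.card : ℝ) ^ 2 * (1 + 3 * Real.log W) := by
    have hlW : 0 ≤ Real.log W := Real.log_nonneg hW
    have h1 : ((R.offDiag).card : ℝ) ≤ (R.card : ℝ) ^ 2 := by
      rw [Finset.offDiag_card]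
      have h2 : ((R.card * R.card - R.card : ℕ) : ℝ) ≤ ((R.card * R.card : ℕ) : ℝ) := by
        exact_mod_cast Nat.sub_le _ _
      push_cast at h2
      rw [sq]
      exact h2
    calc ∑ x ∈ R.offDiag, ((Hs.filter fun b => x ∈ b.2.offDiag).card : ℝ) ≤
        ∑ x ∈ R.offDiag, (1 + 3 * Real.log W) := Finset.sum_le_sum hA
      _ = (R.offDiag.card : ℝ) * (1 + 3 * Real.log W) := by
          rw [Finset.sum_const, nsmul_eq_mul]
      _ ≤ _ := mul_le_mul_of_nonneg_right h1 (by positivity)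
  have hHsc : (Hs.card : ℝ) ≤ 2 * (1 + 3 * Real.log W) / κ ^ 2 := by
    have h1 : (Hs.card : ℝ) * (κ ^ 2 * (R.card : ℝ) ^ 2 / 2) ≤
        (R.card : ℝ) ^ 2 * (1 + 3 * Real.log W) := by
      calc (Hs.card : ℝ) * (κ ^ 2 * (R.card : ℝ) ^ 2 / 2) =
          ∑ b ∈ Hs, (κ ^ 2 * (R.card : ℝ) ^ 2 / 2) := by
            rw [Finset.sum_const, nsmul_eq_mul]
        _ ≤ ∑ b ∈ Hs, (b.2.offDiag.card : ℝ) := Finset.sum_le_sum hlow
        _ ≤ _ := by rw [hdc]; exact hup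
    rw [le_div_iff₀ (by positivity)]
    have hR2 : (0 : ℝ) < (R.card : ℝ) ^ 2 := by positivity
    have h2 : (R.card : ℝ) ^ 2 * ((Hs.card : ℝ) * κ ^ 2) ≤
        (R.card : ℝ) ^ 2 * (2 * (1 + 3 * Real.log W)) := by nlinarith
    exact le_of_mul_le_mul_left h2 hR2
  have hfin : (Hv.card : ℝ) ≤ (Hs.card : ℝ) * (K * ((P.card : ℝ) / Z + 1)) := by
    have h1 : Hv.card = ∑ b ∈ Hs, (Hv.filter fun p => g p = b).card := by
      refine Finset.card_eq_sum_card_fiberwise fun p hp => ?_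
      rw [hHs]
      exact Finset.mem_coe.mpr (Finset.mem_image_of_mem g (Finset.mem_coe.mp hp))
    rw [h1]
    push_cast
    calc ∑ b ∈ Hs, ((Hv.filter fun p => g p = b).card : ℝ) ≤
        ∑ b ∈ Hs, (K * ((P.card : ℝ) / Z + 1)) := Finset.sum_le_sum hB
      _ = _ := by rw [Finset.sum_const, nsmul_eq_mul]
  refine hfin.trans (mul_le_mul_of_nonneg_right hHsc ?_)
  exact mul_nonneg (spr_nonneg h) (by positivity)

end BlkAR
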