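import Pool.Agent.Work.MP_763b10_co.AR.Cls

/-!
# MP_763b10_co, board modar, module Hmf (M)

Facts on values of integer polynomials.

Proof. Modulo `m ∣ rho p q` one has `a ≡ D p.1`, `b ≡ D p.2`, so every term of `hm d F q` is `≡ c_{ij} p.1^i p.2^j D^(2d)` (`i, j ≤ d`), and (`BD d F`)
`hm d F q ≡ D^(2d) F(p) mod m`: `hm_modEq`. If `hm d F q = 0` then `m ∣ D^(2d) F(p)` and `gcd(m, D) = 1` (`coprime_D`): `dvd_ev`. `dvd_hm` is clear.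
`hm_eq`: `hm d F q = D^(2d) F(a/D, b/D)` in `ℚ` (write `F = ∑_{j ≤ d} ∑_{i ≤ d} c_{ij} X^i Y^j`). The bounds are termwise: each of the `(d+1)²` terms of
`F(p)` is `≤ H W^(2d)`, each term of `hm d F q` is `≤ H W^(2d)`.
-/

set_option autoImplicit false

namespace BlkAR

open Finset Polynomial

private lemma evalEval_sum {R : Type*} [CommSemiring R] {d : ℕ} {F : R[X][X]} (hF : BD d F)
    (x y : R) : F.evalEval x y =
      ∑ j ∈ range (d + 1), ∑ i ∈ range (d + 1), (F.coeff j).coeff i * x ^ i * y ^ j := by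
  unfold Polynomial.evalEval
  rw [Polynomial.eval_eq_sum_range' (Nat.lt_succ_of_le hF.1)]
  rw [Polynomial.eval_finsetSum]
  apply Finset.sum_congr rfl
  intro j _
  rw [Polynomial.eval_mul, Polynomial.eval_pow, Polynomial.eval_C,
    Polynomial.eval_eq_sum_range' (Nat.lt_succ_of_le (hF.2 j)), Finset.sum_mul]

private lemma dvd_coords {p : ℤ × ℤ} {q : ℤ × ℤ × ℤ} {m : ℕ} (h : m ∣ rho p q) :
    (m : ℤ) ∣ q.2.2 * p.1 - q.1 ∧ (m : ℤ) ∣ q.2.2 * p.2 - q.2.1 := by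
  have h1 : (m : ℤ) ∣ (rho p q : ℤ) := Int.natCast_dvd_natCast.mpr h
  exact ⟨h1.trans (Int.gcd_dvd_left ..), h1.trans (Int.gcd_dvd_right ..)⟩

theorem hm_modEq {d : ℕ} {F : ℤ[X][X]} (hF : BD d F) {p : ℤ × ℤ} {q : ℤ × ℤ × ℤ} {m : ℕ}
    (h : m ∣ rho p q) : (m : ℤ) ∣ hm d F q - q.2.2 ^ (2 * d) * F.evalEval p.1 p.2 := by
  obtain ⟨h1, h2⟩ := dvd_coords h
  rw [evalEval_sum hF, hm, Finset.mul_sum, ← Finset.sum_sub_distrib]
  apply Finset.dvd_sum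
  intro j hj
  rw [Finset.mul_sum, ← Finset.sum_sub_distrib]
  apply Finset.dvd_sum
  intro i hi
  have hj' : j ≤ d := Nat.lt_succ_iff.mp (Finset.mem_range.mp hj)
  have hi' : i ≤ d := Nat.lt_succ_iff.mp (Finset.mem_range.mp hi)
  have e1 : q.2.2 ^ (2 * d) * ((F.coeff j).coeff i * p.1 ^ i * p.2 ^ j) =
      (F.coeff j).coeff i * ((q.2.2 * p.1) ^ i * q.2.2 ^ (d - i)) *
        ((q.2.2 * p.2) ^ j * q.2.2 ^ (d - j)) := by
    have a1 : q.2.2 ^ d = q.2.2 ^ i * q.2.2 ^ (d - i) := by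
      rw [← pow_add]; congr 1; omega
    have a2 : q.2.2 ^ d = q.2.2 ^ j * q.2.2 ^ (d - j) := by
      rw [← pow_add]; congr 1; omega
    have a3 : q.2.2 ^ (2 * d) = (q.2.2 ^ i * q.2.2 ^ (d - i)) * (q.2.2 ^ j * q.2.2 ^ (d - j)) := by
      rw [← a1, ← a2, ← pow_add]; congr 1; omega
    rw [a3, mul_pow, mul_pow]
    ring
  rw [e1]
  apply Int.ModEq.dvd
  apply Int.ModEq.mul
  · apply Int.ModEq.mul (Int.ModEq.refl _)
    apply Int.ModEq.mul _ (Int.ModEq.refl _)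
    apply Int.ModEq.pow
    exact ((Int.modEq_iff_dvd.mpr h1).symm)
  · apply Int.ModEq.mul _ (Int.ModEq.refl _)
    apply Int.ModEq.pow
    exact ((Int.modEq_iff_dvd.mpr h2).symm)

theorem dvd_ev {d : ℕ} {F : ℤ[X][X]} (hF : BD d F) {p : ℤ × ℤ} {q : ℤ × ℤ × ℤ} (hq : Prim q)
    {m : ℕ} (h : m ∣ rho p q) (h0 : hm d F q = 0) : (m : ℤ) ∣ F.evalEval p.1 p.2 := by
  have h1 := hm_modEq hF h
  rw [h0, zero_sub, dvd_neg] at h1
  exact ((coprime_D hq h).pow_right).dvd_of_dvd_mul_left h1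

theorem dvd_hm {d : ℕ} {F : ℤ[X][X]} (hF : BD d F) {p : ℤ × ℤ} {q : ℤ × ℤ × ℤ} {m : ℕ}
    (h : m ∣ rho p q) (h0 : F.evalEval p.1 p.2 = 0) : (m : ℤ) ∣ hm d F q := by
  have h1 := hm_modEq hF h
  rwa [h0, mul_zero, sub_zero] at h1

private lemma bd_toQ {d : ℕ} {F : ℤ[X][X]} (hF : BD d F) : BD d (toQ F) := by
  constructor
  · exact (Polynomial.natDegree_map_le).trans hF.1
  · intro i
    rw [toQ, Polynomial.coeff_map]
    exact (Polynomial.natDegree_map_le).trans (hF.2 i)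

theorem hm_eq {d : ℕ} {F : ℤ[X][X]} (hF : BD d F) {q : ℤ × ℤ × ℤ} (hq : 1 ≤ q.2.2) :
    (hm d F q : ℚ) = (q.2.2 : ℚ) ^ (2 * d) * ev (toQ F) (qt q) := by
  have hD : (q.2.2 : ℚ) ≠ 0 := by
    have : q.2.2 ≠ 0 := by omega
    exact_mod_cast this
  rw [ev, evalEval_sum (bd_toQ hF), hm, Finset.mul_sum]
  push_cast
  apply Finset.sum_congr rfl
  intro j hj
  rw [Finset.mul_sum]
  apply Finset.sum_congr rfl
  intro i hi
  have hj' : j ≤ d := Nat.lt_succ_iff.mp (Finset.mem_range.mp hj)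
  have hi' : i ≤ d := Nat.lt_succ_iff.mp (Finset.mem_range.mp hi)
  have a1 : (q.2.2 : ℚ) ^ d = (q.2.2 : ℚ) ^ i * (q.2.2 : ℚ) ^ (d - i) := by
    rw [← pow_add]; congr 1; omega
  have a2 : (q.2.2 : ℚ) ^ d = (q.2.2 : ℚ) ^ j * (q.2.2 : ℚ) ^ (d - j) := by
    rw [← pow_add]; congr 1; omega
  have a3 : (q.2.2 : ℚ) ^ (2 * d) = ((q.2.2 : ℚ) ^ i * (q.2.2 : ℚ) ^ (d - i)) *
      ((q.2.2 : ℚ) ^ j * (q.2.2 : ℚ) ^ (d - j)) := by
    rw [← a1, ← a2, ← pow_add]; congr 1; omega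
  have a4 : ((toQ F).coeff j).coeff i = (((F.coeff j).coeff i : ℤ) : ℚ) := by
    simp [toQ, Polynomial.coeff_map]
  rw [a3, a4]
  simp only [qt, div_pow]
  field_simp

theorem ev_toQ (F : ℤ[X][X]) (p : ℤ × ℤ) : ev (toQ F) (pt p) = (F.evalEval p.1 p.2 : ℤ) := by
  have h := Polynomial.map_mapRingHom_evalEval (Int.castRingHom ℚ) (p := F) (x := p.1) (y := p.2)
  simpa [ev, toQ, pt] using h

private lemma sum_abs_le {d : ℕ} {B : ℝ} (g : ℕ → ℕ → ℝ)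
    (h : ∀ j ∈ range (d + 1), ∀ i ∈ range (d + 1), |g j i| ≤ B) :
    |∑ j ∈ range (d + 1), ∑ i ∈ range (d + 1), g j i| ≤ ((d : ℝ) + 1) ^ 2 * B := by
  refine (Finset.abs_sum_le_sum_abs _ _).trans ?_
  have h1 : ∀ j ∈ range (d + 1), |∑ i ∈ range (d + 1), g j i| ≤ ((d : ℝ) + 1) * B := by
    intro j hj
    refine (Finset.abs_sum_le_sum_abs _ _).trans ?_
    refine (Finset.sum_le_card_nsmul _ _ B (h j hj)).trans ?_
    rw [Finset.card_range, nsmul_eq_mul]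
    push_cast
    exact le_refl _
  refine (Finset.sum_le_card_nsmul _ _ _ h1).trans ?_
  rw [Finset.card_range, nsmul_eq_mul]
  push_cast
  nlinarith

theorem abs_ev_le {d : ℕ} {F : ℤ[X][X]} (hF : BD d F) {H W : ℝ} (hW : 1 ≤ W)
    (hH : ∀ i j, |(((F.coeff j).coeff i : ℤ) : ℝ)| ≤ H) {p : ℤ × ℤ}
    (hp : |(p.1 : ℝ)| ≤ W ∧ |(p.2 : ℝ)| ≤ W) :
    |((F.evalEval p.1 p.2 : ℤ) : ℝ)| ≤ ((d : ℝ) + 1) ^ 2 * H * W ^ (2 * d) := by
  have hH0 : 0 ≤ H := (abs_nonneg _).trans (hH 0 0)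
  rw [evalEval_sum hF]
  push_cast
  rw [mul_assoc]
  apply sum_abs_le (fun j i => (((F.coeff j).coeff i : ℤ) : ℝ) * (p.1 : ℝ) ^ i * (p.2 : ℝ) ^ j)
  intro j hj i hi
  have hj' : j ≤ d := Nat.lt_succ_iff.mp (Finset.mem_range.mp hj)
  have hi' : i ≤ d := Nat.lt_succ_iff.mp (Finset.mem_range.mp hi)
  rw [abs_mul, abs_mul, abs_pow, abs_pow]
  have b1 : |(p.1 : ℝ)| ^ i ≤ W ^ d :=
    (pow_le_pow_left₀ (abs_nonneg _) hp.1 i).trans (pow_le_pow_right₀ hW hi')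
  have b2 : |(p.2 : ℝ)| ^ j ≤ W ^ d :=
    (pow_le_pow_left₀ (abs_nonneg _) hp.2 j).trans (pow_le_pow_right₀ hW hj')
  have b3 : W ^ (2 * d) = W ^ d * W ^ d := by rw [← pow_add]; congr 1; omega
  rw [b3, ← mul_assoc]
  have hWd : 0 ≤ W ^ d := by positivity
  apply mul_le_mul _ b2 (by positivity) (by positivity)
  apply mul_le_mul (hH i j) b1 (by positivity) hH0

theorem abs_hm_le {d : ℕ} {F : ℤ[X][X]} {H W : ℝ} (hW : 1 ≤ W)
    (hH : ∀ i j, |(((F.coeff j).coeff i : ℤ) : ℝ)| ≤ H) {q : ℤ × ℤ × ℤ} (hq1 : 1 ≤ q.2.2)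
    (hq : |(q.1 : ℝ)| ≤ W ∧ |(q.2.1 : ℝ)| ≤ W ∧ (q.2.2 : ℝ) ≤ W) :
    |((hm d F q : ℤ) : ℝ)| ≤ ((d : ℝ) + 1) ^ 2 * H * W ^ (2 * d) := by
  have hH0 : 0 ≤ H := (abs_nonneg _).trans (hH 0 0)
  have hDpos : (0 : ℝ) ≤ (q.2.2 : ℝ) := by
    have : (0 : ℤ) ≤ q.2.2 := by omega
    exact_mod_cast this
  have hDabs : |(q.2.2 : ℝ)| ≤ W := by rw [abs_of_nonneg hDpos]; exact hq.2.2
  rw [hm]
  push_cast
  rw [mul_assoc]
  apply sum_abs_le (fun j i => (((F.coeff j).coeff i : ℤ) : ℝ) *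
    ((q.1 : ℝ) ^ i * (q.2.2 : ℝ) ^ (d - i)) * ((q.2.1 : ℝ) ^ j * (q.2.2 : ℝ) ^ (d - j)))
  intro j hj i hi
  have hj' : j ≤ d := Nat.lt_succ_iff.mp (Finset.mem_range.mp hj)
  have hi' : i ≤ d := Nat.lt_succ_iff.mp (Finset.mem_range.mp hi)
  have key : ∀ (x : ℝ) (k : ℕ), |x| ≤ W → k ≤ d → |x ^ k * (q.2.2 : ℝ) ^ (d - k)| ≤ W ^ d := by
    intro x k hx hk
    rw [abs_mul, abs_pow, abs_pow]
    have c1 : W ^ d = W ^ k * W ^ (d - k) := by rw [← pow_add]; congr 1; omega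
    rw [c1]
    exact mul_le_mul (pow_le_pow_left₀ (abs_nonneg _) hx k)
      (pow_le_pow_left₀ (abs_nonneg _) hDabs _) (by positivity) (by positivity)
  have b3 : W ^ (2 * d) = W ^ d * W ^ d := by rw [← pow_add]; congr 1; omega
  have b4 : ∀ c A B : ℝ, |c * A * B| = |c| * |A| * |B| := by
    intro c A B
    rw [abs_mul, abs_mul]
  rw [b3, b4]
  have hWd : 0 ≤ W ^ d := by positivity
  refine le_trans ?_ (le_of_eq (mul_assoc H (W ^ d) (W ^ d)))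
  apply mul_le_mul _ (key _ j hq.2.1 hj') (by positivity) (by positivity)
  exact mul_le_mul (hH i j) (key _ i hq.1 hi') (by positivity) hH0

end BlkAR
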