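import Pool.Agent.Work.MP_763b10_co.AR.Bez

/-!
# MP_763b10_co, board modar, module Homo (M)

On an irreducible curve a point and a ratio have few solutions.

Proof. Let `B(z) = G₁(p + t (z - p))` (substitution `X ↦ p.1 + t (X - p.1)`, `Y ↦ p.2 + t (Y - p.2)`), `BD d B`. If `G₁ ∤ B`, then `G₁` and `B` are relatively prime
(`G₁` irreducible) and `bez` gives the bound. Suppose `G₁ ∣ B`: every zero `z` of `G₁` has `G₁(p + t(z - p)) = 0`. Let `p' ∈ P₁`, `p' ≠ p`. By iteration
`G₁(p + t^i (p' - p)) = 0` for all `i`; these are infinitely many points of the line `ℓ` through `p, p'` (`0 < t < 1`). Let `L` be the linear polynomial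
`(p'.2 - p.2)(X - p.1) - (p'.1 - p.1)(Y - p.2)`, irreducible (degree one in `X` or in `Y` with constant leading coefficient). By `bez` `G₁` and `L` are not relatively
prime (infinitely many common zeros), so they are associated. Then all points of `P₁` are on the line `ℓ`; but `|P₁| ≥ 3`: contradiction with `NC`.
-/

set_option autoImplicit false

namespace BlkAR

open Finset Polynomial

/-- The substitution `X ↦ a₁ + t X`, `Y ↦ a₂ + t Y`. -/
private noncomputable def sub (a₁ a₂ t : ℚ) (F : ℚ[X][X]) : ℚ[X][X] :=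
  (F.map (Polynomial.compRingHom (C a₁ + C t * X))).comp
    ((C a₂ + C t * X : ℚ[X]).map C)

private lemma ev_sub (a₁ a₂ t : ℚ) (F : ℚ[X][X]) (x : ℚ × ℚ) :
    ev (sub a₁ a₂ t F) x = ev F (a₁ + t * x.1, a₂ + t * x.2) := by
  unfold ev sub
  rw [← Polynomial.map_evalRingHom_eval, ← Polynomial.map_evalRingHom_eval, Polynomial.map_comp,
    Polynomial.eval_comp, Polynomial.map_map, Polynomial.map_map]
  have h1 : (Polynomial.evalRingHom x.1).comp (C : ℚ →+* ℚ[X]) = RingHom.id ℚ := by
    ext r
    simp
  have h2 : (Polynomial.evalRingHom x.1).comp (Polynomial.compRingHom (C a₁ + C t * X)) =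
      Polynomial.evalRingHom (a₁ + t * x.1) := by
    ext r
    · simp
    · simp
  rw [h1, h2, Polynomial.map_id]
  congr 1
  simp

private lemma lin_deg (a t : ℚ) : (C a + C t * X : ℚ[X]).natDegree ≤ 1 := by
  compute_degree

private lemma bd_sub {d : ℕ} {F : ℚ[X][X]} (hF : BD d F) (a₁ a₂ t : ℚ) :
    BD d (sub a₁ a₂ t F) := by
  have hc : ∀ j, ((F.map (Polynomial.compRingHom (C a₁ + C t * X))).coeff j).natDegree ≤ d := by
    intro j
    rw [Polynomial.coeff_map, Polynomial.coe_compRingHom_apply]
    refine (Polynomial.natDegree_comp_le).trans ?_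
    calc (F.coeff j).natDegree * (C a₁ + C t * X : ℚ[X]).natDegree ≤ d * 1 :=
          Nat.mul_le_mul (hF.2 j) (lin_deg a₁ t)
      _ = d := mul_one d
  constructor
  · unfold sub
    refine (Polynomial.natDegree_comp_le).trans ?_
    calc (F.map (Polynomial.compRingHom (C a₁ + C t * X))).natDegree *
          ((C a₂ + C t * X : ℚ[X]).map C).natDegree ≤ d * 1 :=
          Nat.mul_le_mul ((Polynomial.natDegree_map_le).trans hF.1)
            ((Polynomial.natDegree_map_le).trans (lin_deg a₂ t))
      _ = d := mul_one d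
  · intro k
    unfold sub
    rw [Polynomial.comp_eq_sum_left, Polynomial.sum, Polynomial.finsetSum_coeff]
    apply Polynomial.natDegree_sum_le_of_forall_le
    intro j _
    have h5 : ((((C a₂ + C t * X : ℚ[X]).map C) ^ j : ℚ[X][X])).coeff k =
        C (((C a₂ + C t * X : ℚ[X]) ^ j).coeff k) := by
      rw [← Polynomial.map_pow, Polynomial.coeff_map]
    rw [Polynomial.coeff_C_mul, h5]
    exact (Polynomial.natDegree_mul_C_le _ _).trans (hc j)

private lemma ev_dvd {F G : ℚ[X][X]} (h : F ∣ G) {x : ℚ × ℚ} (h0 : ev F x = 0) : ev G x = 0 := by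
  obtain ⟨M, rfl⟩ := h
  unfold ev at *
  rw [Polynomial.evalEval_mul, h0, zero_mul]

private lemma bd_mono {d e : ℕ} {F : ℚ[X][X]} (hF : BD d F) (h : d ≤ e) : BD e F :=
  ⟨hF.1.trans h, fun i => (hF.2 i).trans h⟩

private lemma pt_inj : Function.Injective pt := by
  intro a b h
  simp only [pt, Prod.mk.injEq, Int.cast_inj] at h
  exact Prod.ext h.1 h.2

/-- The line through two points. -/
private noncomputable def line (p p' : ℚ × ℚ) : ℚ[X][X] :=
  C (C (p'.2 - p.2) * (X - C p.1)) - C (C (p'.1 - p.1)) * (X - C (C p.2))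

private lemma ev_line (p p' x : ℚ × ℚ) :
    ev (line p p') x = (p'.2 - p.2) * (x.1 - p.1) - (p'.1 - p.1) * (x.2 - p.2) := by
  unfold ev line Polynomial.evalEval
  simp

private lemma bd_line (p p' : ℚ × ℚ) : BD 1 (line p p') := by
  constructor
  · unfold line
    compute_degree
  · intro k
    unfold line
    rw [Polynomial.coeff_sub, Polynomial.coeff_C_mul, Polynomial.coeff_sub]
    refine (Polynomial.natDegree_sub_le _ _).trans ?_
    apply max_le
    · rw [Polynomial.coeff_C]
      split_ifs
      · compute_degree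
      · simp
    · refine (Polynomial.natDegree_C_mul_le _ _).trans ?_
      refine (Polynomial.natDegree_sub_le _ _).trans ?_
      apply max_le
      · rw [Polynomial.coeff_X]
        split_ifs <;> simp
      · rw [Polynomial.coeff_C]
        split_ifs <;> simp

open scoped Classical in
theorem homo {d : ℕ} {G₁ : ℚ[X][X]} (hG : Irreducible G₁) (hd : BD d G₁) {P₁ : Finset (ℤ × ℤ)}
    (hN : NC P₁) (h3 : 3 ≤ P₁.card) (h0 : ∀ p ∈ P₁, ev G₁ (pt p) = 0) {p : ℤ × ℤ} (hp : p ∈ P₁)
    {t : ℚ} (ht : 0 < t) (ht1 : t < 1) :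
    (P₁.filter fun p' => ev G₁ (pt p + t • (pt p' - pt p)) = 0).card ≤ 4 * d ^ 4 := by
  set a₁ : ℚ := (1 - t) * p.1 with ha₁
  set a₂ : ℚ := (1 - t) * p.2 with ha₂
  have hev : ∀ z : ℚ × ℚ, ev (sub a₁ a₂ t G₁) z = ev G₁ (pt p + t • (z - pt p)) := by
    intro z
    rw [ev_sub]
    congr 1
    ext
    · simp only [ha₁, pt, Prod.fst_add, Prod.smul_fst, Prod.fst_sub, smul_eq_mul]
      ring
    · simp only [ha₂, pt, Prod.snd_add, Prod.smul_snd, Prod.snd_sub, smul_eq_mul]
      ring
  by_cases hdv : G₁ ∣ sub a₁ a₂ t G₁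
  · -- impossible
    exfalso
    have hstep : ∀ z : ℚ × ℚ, ev G₁ z = 0 → ev G₁ (pt p + t • (z - pt p)) = 0 := by
      intro z hz
      rw [← hev]
      exact ev_dvd hdv hz
    obtain ⟨p', hp', hpp'⟩ : ∃ p' ∈ P₁, p' ≠ p := by
      by_contra hcon
      push Not at hcon
      have : P₁ ⊆ {p} := fun x hx => by simpa using hcon x hx
      have := Finset.card_le_card this
      simp at this
      omega
    obtain ⟨p'', hp'', hne1, hne2⟩ : ∃ p'' ∈ P₁, p'' ≠ p ∧ p'' ≠ p' := by
      by_contra hcon
      push Not at hcon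
      have : P₁ ⊆ {p, p'} := by
        intro x hx
        rw [Finset.mem_insert, Finset.mem_singleton]
        by_cases hxp : x = p
        · exact Or.inl hxp
        · exact Or.inr (hcon x hx hxp)
      have := (Finset.card_le_card this).trans Finset.card_le_two
      omega
    have hiter : ∀ i : ℕ, ev G₁ (pt p + t ^ i • (pt p' - pt p)) = 0 := by
      intro i
      induction i with
      | zero => simpa using h0 p' hp'
      | succ i ih =>
        have := hstep _ ih
        rw [add_sub_cancel_left, smul_smul, ← pow_succ'] at this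
        exact this
    have hline : ∀ i : ℕ, ev (line (pt p) (pt p')) (pt p + t ^ i • (pt p' - pt p)) = 0 := by
      intro i
      rw [ev_line]
      simp only [Prod.fst_add, Prod.smul_fst, Prod.fst_sub, smul_eq_mul, Prod.snd_add,
        Prod.smul_snd, Prod.snd_sub]
      ring
    have hne : pt p' - pt p ≠ 0 := by
      intro h
      exact hpp' (pt_inj (sub_eq_zero.mp h))
    have hinj : Function.Injective fun i : ℕ => pt p + t ^ i • (pt p' - pt p) := by
      intro i j hij
      have h1 : t ^ i • (pt p' - pt p) = t ^ j • (pt p' - pt p) := add_left_cancel hij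
      have h2 : t ^ i = t ^ j := by
        by_contra hneq
        have h3 : (t ^ i - t ^ j) • (pt p' - pt p) = 0 := by rw [sub_smul, h1, sub_self]
        rcases smul_eq_zero.mp h3 with h4 | h4
        · exact hneq (sub_eq_zero.mp h4)
        · exact hne h4
      exact pow_right_injective₀ ht ht1.ne h2
    have hdvL : G₁ ∣ line (pt p) (pt p') := by
      by_contra hnd
      have hrel := hG.isRelPrime_iff_not_dvd.mpr hnd
      let Z : Finset (ℚ × ℚ) := (Finset.range (4 * (d + 1) ^ 4 + 1)).image
        fun i : ℕ => pt p + t ^ i • (pt p' - pt p)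
      have hb := bez (bd_mono hd (Nat.le_succ d))
        (bd_mono (bd_line (pt p) (pt p')) (by omega : 1 ≤ d + 1)) hrel Z (by
          intro z hz
          obtain ⟨i, _, rfl⟩ := Finset.mem_image.mp hz
          exact ⟨hiter i, hline i⟩)
      rw [Finset.card_image_of_injective _ hinj, Finset.card_range] at hb
      simp only [Nat.succ_eq_add_one] at hb
      omega
    have hz := ev_dvd hdvL (h0 p'' hp'')
    rw [ev_line] at hz
    have hnc := hN p hp p' hp' p'' hp'' (Ne.symm hpp') (Ne.symm hne1) (Ne.symm hne2)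
    apply hnc
    have : (((p'.1 - p.1) * (p''.2 - p.2) - (p'.2 - p.2) * (p''.1 - p.1) : ℤ) : ℚ) = 0 := by
      push_cast
      simp only [pt] at hz
      linarith
    exact_mod_cast this
  · have hrel := hG.isRelPrime_iff_not_dvd.mpr hdv
    have hb := bez hd (bd_sub hd a₁ a₂ t) hrel
      ((P₁.filter fun p' => ev G₁ (pt p + t • (pt p' - pt p)) = 0).image pt) (by
        intro z hz
        obtain ⟨x, hx, rfl⟩ := Finset.mem_image.mp hz
        rw [Finset.mem_filter] at hx
        exact ⟨h0 x hx.1, by rw [hev]; exact hx.2⟩)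
    rwa [Finset.card_image_of_injective _ pt_inj] at hb

end BlkAR
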