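import Pool.Agent.Work.MP_763b10_co.AR.Defs

/-!
# MP_763b10_co, board modar, module La (M)

A small integer solution of integer linear equations on which a given functional does not vanish.

Proof. `M = |ι|`. Let `v_1, .., v_r` be a maximal linearly independent (over `ℚ`) family in `S`. `l` is not in the span of `S` because `l · x ≠ 0` and `v · x = 0` for
all `v ∈ S`. So `v_1, .., v_r, l` are independent; extend by unit vectors `e_j` to a basis of `ℚ^ι`: a square matrix `B` (rows indexed by `ι`) one row of which,
say row `i₀`, is `l` and all other rows are in `S` or unit vectors; `det B ≠ 0`. Let `y_j = det (B with row i₀ replaced by e_j)` (`Matrix.updateRow`), an integer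
(all rows are integral) with `|y_j| ≤ M! B₀^M` (`Matrix.det_apply`, entries `≤ B₀`, `B₀ ≥ 1`). For any vector `w`: `∑ w_j y_j = det (B with row i₀ replaced by w)`
(linearity in the row; or `y = adjugate`: `Matrix.mulVec_cramer`, `Matrix.cramer`). For `w = l`: `det B ≠ 0`. For `w = v ∈ S`: `v` is a combination of the `v_i`,
which are other rows of `B`, so the determinant is `0`.
-/

set_option autoImplicit false

namespace BlkAR

open Finset

theorem la {ι : Type*} [Fintype ι] [DecidableEq ι] (S : Set (ι → ℤ)) (B : ℝ) (hB : 1 ≤ B)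
    (hS : ∀ v ∈ S, ∀ i, |((v i : ℤ) : ℝ)| ≤ B) (l x : ι → ℚ)
    (h0 : ∀ v ∈ S, ∑ i, (v i : ℚ) * x i = 0) (h1 : ∑ i, l i * x i ≠ 0) :
    ∃ y : ι → ℤ, (∀ v ∈ S, ∑ i, v i * y i = 0) ∧ ∑ i, l i * (y i : ℚ) ≠ 0 ∧
      ∀ i, |((y i : ℤ) : ℝ)| ≤ (Fintype.card ι).factorial * B ^ Fintype.card ι := by
  classical
  set cst : (ι → ℤ) → (ι → ℚ) := fun v i => (v i : ℚ) with hcst
  set T : Set (ι → ℚ) := cst '' S with hT
  -- the functional of the products with x
  have hlT : l ∉ Submodule.span ℚ T := by
    intro h
    apply h1
    have : ∀ w ∈ Submodule.span ℚ T, ∑ i, w i * x i = 0 := by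
      intro w hw
      induction hw using Submodule.span_induction with
      | mem w hw =>
        obtain ⟨v, hv, rfl⟩ := hw
        exact h0 v hv
      | zero => simp
      | add a b _ _ ha hb =>
        simp only [Pi.add_apply, add_mul, Finset.sum_add_distrib, ha, hb, add_zero]
      | smul c a _ ha =>
        simp only [Pi.smul_apply, smul_eq_mul, mul_assoc, ← Finset.mul_sum, ha, mul_zero]
    exact this l h
  obtain ⟨b, hbT, hbspan, hbli⟩ := exists_linearIndependent ℚ T
  have hlb : l ∉ Submodule.span ℚ b := by rw [hbspan]; exact hlT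
  have hins : LinearIndepOn ℚ id (insert l b) := by
    apply LinearIndepOn.insert
    · exact hbli
    · simpa using hlb
  set E : Set (ι → ℚ) := Set.range (fun j : ι => (Pi.single j 1 : ι → ℚ)) with hE
  have hsub : insert l b ⊆ insert l b ∪ E := Set.subset_union_left
  obtain ⟨b', hb't, hsb', htb', hb'li⟩ := exists_linearIndepOn_id_extension hins hsub
  have htop : Submodule.span ℚ b' = ⊤ := by
    rw [eq_top_iff]
    have hE' : Submodule.span ℚ E ≤ Submodule.span ℚ b' := by
      rw [Submodule.span_le]
      exact Set.subset_union_right.trans htb'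
    refine le_trans ?_ hE'
    have := (Pi.basisFun ℚ ι).span_eq
    rw [← this]
    apply Submodule.span_mono
    rintro _ ⟨j, rfl⟩
    exact ⟨j, by simp⟩
  let bs : Module.Basis b' ℚ (ι → ℚ) := Module.Basis.mk (v := ((↑) : b' → (ι → ℚ))) hb'li
    (by rw [Subtype.range_coe]; exact htop.ge)
  let e : ι ≃ b' := (Pi.basisFun ℚ ι).indexEquiv bs
  have hlb' : l ∈ b' := hsb' (Set.mem_insert _ _)
  set i₀ : ι := e.symm ⟨l, hlb'⟩ with hi₀
  have hei₀ : ((e i₀ : b') : ι → ℚ) = l := by simp [hi₀]
  -- integer lifts of the rows
  have hlift : ∀ i : ι, i ≠ i₀ → ∃ z : ι → ℤ, cst z = ((e i : b') : ι → ℚ) ∧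
      ∀ j, |((z j : ℤ) : ℝ)| ≤ B := by
    intro i hi
    have hmem : ((e i : b') : ι → ℚ) ∈ insert l b ∪ E := hb't (e i).2
    rcases hmem with h | h
    · rcases h with h | h
      · exfalso
        apply hi
        have : e i = e i₀ := Subtype.ext (by rw [hei₀]; exact h)
        exact e.injective this
      · obtain ⟨v, hv, hv'⟩ := hbT h
        exact ⟨v, hv', hS v hv⟩
    · obtain ⟨j, hj⟩ := h
      refine ⟨Pi.single j 1, ?_, ?_⟩
      · rw [← hj]
        funext k
        simp only [hcst, Pi.single_apply]
        split_ifs <;> simp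
      · intro k
        simp only [Pi.single_apply]
        split_ifs
        · simpa using hB
        · simpa using le_trans zero_le_one hB
  let z : ι → ι → ℤ := fun i => if h : i ≠ i₀ then Classical.choose (hlift i h) else 0
  have hz : ∀ i, i ≠ i₀ → cst (z i) = ((e i : b') : ι → ℚ) ∧ ∀ j, |((z i j : ℤ) : ℝ)| ≤ B := by
    intro i hi
    have : z i = Classical.choose (hlift i hi) := by simp only [z, dif_pos hi]
    rw [this]
    exact Classical.choose_spec (hlift i hi)
  let N : Matrix ι ι ℤ := Matrix.of z
  let NQ : Matrix ι ι ℚ := Matrix.of fun i => ((e i : b') : ι → ℚ)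
  have hdet : NQ.det ≠ 0 := by
    have hli : LinearIndependent ℚ NQ.row := by
      have h2 : LinearIndependent ℚ (fun i : ι => ((e i : b') : ι → ℚ)) :=
        LinearIndependent.comp hb'li e e.injective
      exact h2
    rw [Matrix.linearIndependent_rows_iff_isUnit, Matrix.isUnit_iff_isUnit_det] at hli
    exact hli.ne_zero
  let y : ι → ℤ := fun j => (N.updateRow i₀ (Pi.single j 1)).det
  have hy : ∀ j, (y j : ℚ) = NQ.adjugate j i₀ := by
    intro j
    rw [Matrix.adjugate_apply]
    have : NQ.updateRow i₀ (Pi.single j 1) =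
        (N.updateRow i₀ (Pi.single j 1)).map (Int.castRingHom ℚ) := by
      ext a c
      rw [Matrix.map_apply, Matrix.updateRow_apply, Matrix.updateRow_apply]
      split_ifs with h
      · simp only [Pi.single_apply]
        split_ifs <;> simp
      · have := congrFun (hz a h).1 c
        simp only [NQ, N, Matrix.of_apply]
        rw [← this]
        simp [hcst]
    rw [this, ← RingHom.mapMatrix_apply, ← RingHom.map_det]
    simp [y]
  have hphi : ∀ i, ∑ j, ((e i : b') : ι → ℚ) j * (y j : ℚ) = if i = i₀ then NQ.det else 0 := by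
    intro i
    have h := congrFun (congrFun (Matrix.mul_adjugate NQ) i) i₀
    rw [Matrix.mul_apply] at h
    simp only [Matrix.smul_apply, Matrix.one_apply, smul_eq_mul, mul_ite, mul_one, mul_zero] at h
    rw [← h]
    apply Finset.sum_congr rfl
    intro j _
    rw [hy j]
    rfl
  refine ⟨y, ?_, ?_, ?_⟩
  · intro v hv
    have hv' : cst v ∈ Submodule.span ℚ b := by
      rw [hbspan]
      exact Submodule.subset_span ⟨v, hv, rfl⟩
    have key : ∀ w ∈ Submodule.span ℚ b, ∑ i, w i * (y i : ℚ) = 0 := by
      intro w hw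
      induction hw using Submodule.span_induction with
      | mem w hw =>
        have hwb' : w ∈ b' := hsb' (Set.mem_insert_of_mem _ hw)
        have h3 := hphi (e.symm ⟨w, hwb'⟩)
        have hne : e.symm ⟨w, hwb'⟩ ≠ i₀ := by
          intro h4
          have h5 := e.symm.injective (h4.trans hi₀)
          have h6 : w = l := congrArg Subtype.val h5
          rw [h6] at hw
          exact hlb (Submodule.subset_span hw)
        rw [if_neg hne] at h3
        simpa using h3
      | zero => simp
      | add a c _ _ ha hc =>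
        simp only [Pi.add_apply, add_mul, Finset.sum_add_distrib, ha, hc, add_zero]
      | smul c a _ ha =>
        simp only [Pi.smul_apply, smul_eq_mul, mul_assoc, ← Finset.mul_sum, ha, mul_zero]
    have h7 := key _ hv'
    simp only [hcst] at h7
    exact_mod_cast h7
  · have h8 := hphi i₀
    rw [if_pos rfl, hei₀] at h8
    rw [h8]
    exact hdet
  · intro j
    have h9 : ∀ a c, (AbsoluteValue.abs (S := ℤ)) ((N.updateRow i₀ (Pi.single j 1)) a c) ≤
        ⌊B⌋ := by
      intro a c
      rw [Matrix.updateRow_apply]
      rw [Int.le_floor]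
      split_ifs with h
      · simp only [Pi.single_apply]
        split_ifs
        · simpa using hB
        · simpa using le_trans zero_le_one hB
      · have := (hz a h).2 c
        simpa [N] using this
    have h10 := Matrix.det_le h9
    have h11 : |((y j : ℤ) : ℝ)| ≤ (Fintype.card ι).factorial * (⌊B⌋ : ℝ) ^ Fintype.card ι := by
      have : ((|y j| : ℤ) : ℝ) ≤ (((Fintype.card ι).factorial • ⌊B⌋ ^ Fintype.card ι : ℤ) : ℝ) := by
        exact_mod_cast h10
      rw [nsmul_eq_mul] at this
      push_cast at this
      exact this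
    refine h11.trans ?_
    apply mul_le_mul_of_nonneg_left _ (by positivity)
    apply pow_le_pow_left₀
    · have : (1 : ℤ) ≤ ⌊B⌋ := by rw [Int.le_floor]; simpa using hB
      have h12 : (1 : ℝ) ≤ (⌊B⌋ : ℝ) := by exact_mod_cast this
      linarith
    · exact Int.floor_le B

end BlkAR
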