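import Pool.Agent.Work.MP_763b10_co.AR.Defs

/-!
# MP_763b10_co, board modar, module Sample (M)

Random sampling of blockers (pure finite averaging).

Proof. Consider all `r = |R|^k` tuples `q ∈ R^k` (`Fintype.piFinset`). For `p ∈ P` let `X_p(q) = #{i : q i ∈ N p}`. `∑_q X_p(q) = k |N p| |R|^(k-1) ≥ η k r`
and `X_p ≤ k`, so at least `(η/2) r` tuples have `X_p ≥ η k/2`. For `i ≠ j` the number of tuples with `Cl p (q i) (q j)` is
`#{y ∈ R × R : Cl p y.1 y.2} |R|^(k-2) ≤ (η/(4k²)) r`, so at most `(η/4) r` tuples have a pair `i ≠ j` with `Cl p (q i) (q j)`. So for each `p` at least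
`(η/4) r` tuples are good; sum over `p` and take the best tuple.
-/

set_option autoImplicit false

namespace BlkAR

open Finset

open scoped Classical in
private theorem sa_upd {β : Type*} {k : ℕ} (s : Fin k → Finset β) (i : Fin k) (S : Finset β) :
    (Fintype.piFinset (Function.update s i S)).card * (s i).card =
      S.card * (Fintype.piFinset s).card := by
  rw [Fintype.card_piFinset, Fintype.card_piFinset,
    ← Finset.mul_prod_erase univ (fun j => (Function.update s i S j).card) (mem_univ i),
    ← Finset.mul_prod_erase univ (fun j => (s j).card) (mem_univ i), Function.update_self]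
  have h1 : ∏ j ∈ univ.erase i, (Function.update s i S j).card = ∏ j ∈ univ.erase i, (s j).card := by
    refine Finset.prod_congr rfl fun j hj => ?_
    rw [Function.update_of_ne (Finset.ne_of_mem_erase hj)]
  rw [h1]
  ring

open scoped Classical in
private theorem sa_one {β : Type*} {k : ℕ} (R S : Finset β) (hS : S ⊆ R) (i : Fin k) :
    ((Fintype.piFinset fun _ : Fin k => R).filter fun q => q i ∈ S).card * R.card =
      S.card * (Fintype.piFinset fun _ : Fin k => R).card := by
  rw [← sa_upd (fun _ : Fin k => R) i S]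
  congr 2
  ext q
  rw [Finset.mem_filter, Fintype.mem_piFinset, Fintype.mem_piFinset]
  constructor
  · rintro ⟨h1, h2⟩ j
    by_cases hj : j = i
    · rw [hj, Function.update_self]
      exact h2
    · rw [Function.update_of_ne hj]
      exact h1 j
  · intro h
    have hi := h i
    rw [Function.update_self] at hi
    refine ⟨fun j => ?_, hi⟩
    by_cases hj : j = i
    · rw [hj]
      exact hS hi
    · have h2 := h j
      rw [Function.update_of_ne hj] at h2
      exact h2

open scoped Classical in
private theorem sa_two {β : Type*} {k : ℕ} (R : Finset β) {x y : β} (hx : x ∈ R) (hy : y ∈ R)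
    {i j : Fin k} (hij : i ≠ j) :
    ((Fintype.piFinset fun _ : Fin k => R).filter fun q => q i = x ∧ q j = y).card *
      (R.card * R.card) = (Fintype.piFinset fun _ : Fin k => R).card := by
  have h1 := sa_upd (Function.update (fun _ : Fin k => R) i {x}) j {y}
  have h2 := sa_upd (fun _ : Fin k => R) i {x}
  rw [Function.update_of_ne hij.symm, Finset.card_singleton, one_mul] at h1
  rw [Finset.card_singleton, one_mul] at h2
  have h3 : ((Fintype.piFinset fun _ : Fin k => R).filter fun q => q i = x ∧ q j = y) =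
      Fintype.piFinset (Function.update (Function.update (fun _ : Fin k => R) i {x}) j {y}) := by
    ext q
    rw [Finset.mem_filter, Fintype.mem_piFinset, Fintype.mem_piFinset]
    constructor
    · rintro ⟨a1, a2, a3⟩ l
      by_cases hl : l = j
      · rw [hl, Function.update_self, Finset.mem_singleton]
        exact a3
      · rw [Function.update_of_ne hl]
        by_cases hl2 : l = i
        · rw [hl2, Function.update_self, Finset.mem_singleton]
          exact a2
        · rw [Function.update_of_ne hl2]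
          exact a1 l
    · intro h
      have hj := h j
      rw [Function.update_self, Finset.mem_singleton] at hj
      have hi := h i
      rw [Function.update_of_ne hij, Function.update_self, Finset.mem_singleton] at hi
      refine ⟨fun l => ?_, hi, hj⟩
      by_cases hl : l = j
      · rw [hl, hj]
        exact hy
      · by_cases hl2 : l = i
        · rw [hl2, hi]
          exact hx
        · have h4 := h l
          rw [Function.update_of_ne hl, Function.update_of_ne hl2] at h4
          exact h4
  rw [h3, ← mul_assoc, h1, h2]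

open scoped Classical in
theorem sample {α β : Type*} (P : Finset α) (R : Finset β) (N : α → Finset β)
    (hN : ∀ p ∈ P, N p ⊆ R) (Cl : α → β → β → Prop) (k : ℕ) (hk : 1 ≤ k) (η : ℝ) (h0 : 0 < η)
    (hη : η ≤ 1) (hR : R.Nonempty) (h1 : ∀ p ∈ P, η * R.card ≤ ((N p).card : ℝ))
    (h2 : ∀ p ∈ P, 4 * (k : ℝ) ^ 2 * (((R ×ˢ R).filter fun y => Cl p y.1 y.2).card : ℝ) ≤
      η * (R.card : ℝ) ^ 2) :
    ∃ q : Fin k → β, (∀ i, q i ∈ R) ∧ η / 4 * P.card ≤
      ((P.filter fun p => η * k / 2 ≤ ((univ.filter fun i => q i ∈ N p).card : ℝ) ∧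
        ∀ i j, i ≠ j → ¬ Cl p (q i) (q j)).card : ℝ) := by
  obtain ⟨T, hT⟩ : ∃ T : Finset (Fin k → β), T = Fintype.piFinset fun _ : Fin k => R := ⟨_, rfl⟩
  obtain ⟨r, hr⟩ : ∃ r : ℝ, r = (T.card : ℝ) := ⟨_, rfl⟩
  have hTne : T.Nonempty := by
    obtain ⟨x, hx⟩ := hR
    refine ⟨fun _ => x, ?_⟩
    rw [hT, Fintype.mem_piFinset]
    exact fun _ => hx
  have hRc : (0 : ℝ) < R.card := by exact_mod_cast Finset.card_pos.2 hR
  have hk' : (1 : ℝ) ≤ k := by exact_mod_cast hk
  have hr0 : 0 ≤ r := by
    rw [hr]
    exact Nat.cast_nonneg _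
  obtain ⟨X, hX⟩ : ∃ X : α → (Fin k → β) → ℝ, X = fun p q =>
    ((univ.filter fun i => q i ∈ N p).card : ℝ) := ⟨_, rfl⟩
  -- the first estimate
  have hA : ∀ p ∈ P, η / 2 * r ≤ ((T.filter fun q => η * k / 2 ≤ X p q).card : ℝ) := by
    intro p hp
    have e1 : ∑ q ∈ T, X p q = ∑ i : Fin k, ((T.filter fun q => q i ∈ N p).card : ℝ) := by
      rw [hX]
      simp only [Finset.card_filter, Nat.cast_sum]
      exact Finset.sum_comm
    have e2 : ∀ i : Fin k, ((T.filter fun q => q i ∈ N p).card : ℝ) * R.card =
        (N p).card * r := by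
      intro i
      have h3 := sa_one R (N p) (hN p hp) i
      rw [← hT] at h3
      rw [hr]
      exact_mod_cast h3
    have e3 : ∀ i : Fin k, η * r ≤ ((T.filter fun q => q i ∈ N p).card : ℝ) := by
      intro i
      have h3 := mul_le_mul_of_nonneg_right (h1 p hp) hr0
      rw [← e2 i] at h3
      have h4 : η * r * R.card ≤ ((T.filter fun q => q i ∈ N p).card : ℝ) * R.card := by
        linarith
      exact le_of_mul_le_mul_right h4 hRc
    have e4 : k * (η * r) ≤ ∑ q ∈ T, X p q := by
      rw [e1]
      have h3 := Finset.card_nsmul_le_sum (univ : Finset (Fin k))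
        (fun i => ((T.filter fun q => q i ∈ N p).card : ℝ)) (η * r) (fun i _ => e3 i)
      rw [Finset.card_univ, Fintype.card_fin, nsmul_eq_mul] at h3
      exact h3
    have e5 : ∑ q ∈ T, X p q ≤
        k * ((T.filter fun q => η * k / 2 ≤ X p q).card : ℝ) + η * k / 2 * r := by
      have h3 : ∀ q ∈ T, X p q ≤ (if η * k / 2 ≤ X p q then (k : ℝ) else 0) + η * k / 2 := by
        intro q _
        split_ifs with h4
        · have h5 : X p q ≤ k := by
            rw [hX]
            show ((univ.filter fun i => q i ∈ N p).card : ℝ) ≤ k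
            have h6 := Finset.card_filter_le (univ : Finset (Fin k)) (fun i => q i ∈ N p)
            rw [Finset.card_univ, Fintype.card_fin] at h6
            exact_mod_cast h6
          have h6 : 0 ≤ η * k / 2 := by positivity
          linarith
        · linarith [not_le.1 h4]
      refine (Finset.sum_le_sum h3).trans (le_of_eq ?_)
      rw [Finset.sum_add_distrib, Finset.sum_const, ← Finset.sum_filter, Finset.sum_const,
        nsmul_eq_mul, nsmul_eq_mul, hr]
      ring
    have e6 : k * (η / 2 * r) ≤ k * ((T.filter fun q => η * k / 2 ≤ X p q).card : ℝ) := by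
      linarith
    exact le_of_mul_le_mul_left e6 (by linarith)
  -- the second estimate
  have hB : ∀ p ∈ P, ((T.filter fun q => ∃ i j, i ≠ j ∧ Cl p (q i) (q j)).card : ℝ) ≤
      η / 4 * r := by
    intro p hp
    have e1 : ∀ i j : Fin k, i ≠ j → ((T.filter fun q => Cl p (q i) (q j)).card : ℝ) *
        (R.card * R.card) ≤ (((R ×ˢ R).filter fun y => Cl p y.1 y.2).card : ℝ) * r := by
      intro i j hij
      have h3 : (T.filter fun q => Cl p (q i) (q j)) ⊆
          ((R ×ˢ R).filter fun y => Cl p y.1 y.2).biUnion fun y =>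
            T.filter fun q => q i = y.1 ∧ q j = y.2 := by
        intro q hq
        rw [Finset.mem_filter] at hq
        have hq' := hq.1
        rw [hT, Fintype.mem_piFinset] at hq'
        rw [Finset.mem_biUnion]
        refine ⟨(q i, q j), ?_, ?_⟩
        · rw [Finset.mem_filter, Finset.mem_product]
          exact ⟨⟨hq' i, hq' j⟩, hq.2⟩
        · rw [Finset.mem_filter]
          exact ⟨hq.1, rfl, rfl⟩
      have h4 := (Finset.card_le_card h3).trans Finset.card_biUnion_le
      have h5 : ∀ y ∈ (R ×ˢ R).filter fun y => Cl p y.1 y.2,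
          (T.filter fun q => q i = y.1 ∧ q j = y.2).card * (R.card * R.card) = T.card := by
        intro y hy
        rw [Finset.mem_filter, Finset.mem_product] at hy
        rw [hT]
        exact sa_two R hy.1.1 hy.1.2 hij
      have h6 := Nat.mul_le_mul_right (R.card * R.card) h4
      rw [Finset.sum_mul, Finset.sum_congr rfl h5, Finset.sum_const, smul_eq_mul] at h6
      rw [hr]
      exact_mod_cast h6
    have hk2 : (0 : ℝ) < 4 * (k : ℝ) ^ 2 := by positivity
    have e2 : ∀ i j : Fin k, i ≠ j → 4 * (k : ℝ) ^ 2 *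
        ((T.filter fun q => Cl p (q i) (q j)).card : ℝ) ≤ η * r := by
      intro i j hij
      have h3 := mul_le_mul_of_nonneg_left (e1 i j hij) hk2.le
      have h4 := mul_le_mul_of_nonneg_right (h2 p hp) hr0
      have h5 : 4 * (k : ℝ) ^ 2 * ((T.filter fun q => Cl p (q i) (q j)).card : ℝ) *
          (R.card * R.card) ≤ η * r * (R.card * R.card) := by
        nlinarith
      exact le_of_mul_le_mul_right h5 (by positivity)
    have h3 : (T.filter fun q => ∃ i j, i ≠ j ∧ Cl p (q i) (q j)) ⊆
        (univ : Finset (Fin k × Fin k)).biUnion fun y =>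
          if y.1 ≠ y.2 then T.filter fun q => Cl p (q y.1) (q y.2) else ∅ := by
      intro q hq
      rw [Finset.mem_filter] at hq
      obtain ⟨hqT, i, j, hij, hc⟩ := hq
      rw [Finset.mem_biUnion]
      refine ⟨(i, j), mem_univ _, ?_⟩
      rw [if_pos hij, Finset.mem_filter]
      exact ⟨hqT, hc⟩
    have h4 := (Finset.card_le_card h3).trans Finset.card_biUnion_le
    have h5 : ((T.filter fun q => ∃ i j, i ≠ j ∧ Cl p (q i) (q j)).card : ℝ) ≤
        ∑ y : Fin k × Fin k, (((if y.1 ≠ y.2 then T.filter fun q => Cl p (q y.1) (q y.2)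
          else ∅).card : ℕ) : ℝ) := by exact_mod_cast h4
    have h6 : ∀ y ∈ (univ : Finset (Fin k × Fin k)),
        (((if y.1 ≠ y.2 then T.filter fun q => Cl p (q y.1) (q y.2) else ∅).card : ℕ) : ℝ) ≤
          η * r / (4 * (k : ℝ) ^ 2) := by
      intro y _
      rw [le_div_iff₀ hk2]
      split_ifs with hy
      · have := e2 y.1 y.2 hy
        linarith
      · rw [Finset.card_empty, Nat.cast_zero, zero_mul]
        positivity
    refine h5.trans ((Finset.sum_le_card_nsmul _ _ _ h6).trans (le_of_eq ?_))
    rw [Finset.card_univ, Fintype.card_prod, Fintype.card_fin, nsmul_eq_mul]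
    push_cast
    field_simp
  -- the good tuples
  obtain ⟨Gd, hGd⟩ : ∃ Gd : α → (Fin k → β) → Prop, Gd = fun p q =>
    η * k / 2 ≤ X p q ∧ ∀ i j, i ≠ j → ¬ Cl p (q i) (q j) := ⟨_, rfl⟩
  have hG : ∀ p ∈ P, η / 4 * r ≤ ((T.filter fun q => Gd p q).card : ℝ) := by
    intro p hp
    have h3 : (T.filter fun q => η * k / 2 ≤ X p q) ⊆ (T.filter fun q => Gd p q) ∪
        T.filter fun q => ∃ i j, i ≠ j ∧ Cl p (q i) (q j) := by
      intro q hq
      rw [Finset.mem_filter] at hq
      rw [Finset.mem_union, Finset.mem_filter, Finset.mem_filter]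
      by_cases hc : ∃ i j, i ≠ j ∧ Cl p (q i) (q j)
      · exact Or.inr ⟨hq.1, hc⟩
      · left
        refine ⟨hq.1, ?_⟩
        rw [hGd]
        exact ⟨hq.2, fun i j hij hcl => hc ⟨i, j, hij, hcl⟩⟩
    have h4 := (Finset.card_le_card h3).trans (Finset.card_union_le _ _)
    have h5 : ((T.filter fun q => η * k / 2 ≤ X p q).card : ℝ) ≤
        ((T.filter fun q => Gd p q).card : ℝ) +
          ((T.filter fun q => ∃ i j, i ≠ j ∧ Cl p (q i) (q j)).card : ℝ) := by
      exact_mod_cast h4
    linarith [hA p hp, hB p hp]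
  have hsum : ∑ q ∈ T, η / 4 * (P.card : ℝ) ≤
      ∑ q ∈ T, ((P.filter fun p => Gd p q).card : ℝ) := by
    have h3 : ∑ q ∈ T, ((P.filter fun p => Gd p q).card : ℝ) =
        ∑ p ∈ P, ((T.filter fun q => Gd p q).card : ℝ) := by
      simp only [Finset.card_filter, Nat.cast_sum]
      exact Finset.sum_comm
    rw [h3, Finset.sum_const, nsmul_eq_mul, ← hr]
    have h4 := Finset.card_nsmul_le_sum P (fun p => ((T.filter fun q => Gd p q).card : ℝ))
      (η / 4 * r) hG
    rw [nsmul_eq_mul] at h4
    linarith
  obtain ⟨q, hqT, hq⟩ := Finset.exists_le_of_sum_le hTne hsum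
  rw [hT, Fintype.mem_piFinset] at hqT
  refine ⟨q, hqT, hq.trans (Nat.cast_le.2 (Finset.card_le_card fun p hp => ?_))⟩
  rw [Finset.mem_filter] at hp ⊢
  rw [hGd, hX] at hp
  exact hp

end BlkAR
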