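import Pool.Agent.Work.MP_763b10_co.AR.Defs

/-!
# MP_763b10_co, board modar, module Siegel (M)

Siegel's lemma for an auxiliary polynomial through `k` rational points.

Proof. `k = 0`: `F = 1`. Otherwise apply `Int.Matrix.exists_ne_zero_int_vec_norm_le` to the matrix with rows `l : Fin k`, columns
`(i, j) : Fin (d+1) × Fin (d+1)` and entries `a^i D^(d-i) b^j D^(d-j)` for `(a,b,D) = q l`: absolute values `≤ W^(2d)`; the number of columns is
`(d+1)² ≥ 2k`, so the exponent `k/((d+1)² - k) ≤ 1` and the solution has entries `≤ (d+1)² max(1, W^(2d)) = (d+1)² W^(2d)`. (An example of the use of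
this Mathlib lemma: `Pool/Agent/Work/MP_a793bb_nt/Rad/Siegel.lean`.) `F = ∑_{i,j ≤ d} t(i,j) X^i Y^j`.
-/

set_option autoImplicit false

namespace BlkAR

open Finset Polynomial

attribute [local instance] Matrix.seminormedAddCommGroup

private noncomputable def sgF (d : ℕ) (T : ℕ → ℕ → ℤ) : ℤ[X][X] :=
  ∑ j ∈ range (d + 1), monomial j (∑ i ∈ range (d + 1), monomial i (T i j))

private theorem sgF_coeff (d : ℕ) (T : ℕ → ℕ → ℤ) (i j : ℕ) :
    ((sgF d T).coeff j).coeff i = if j < d + 1 then if i < d + 1 then T i j else 0 else 0 := by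
  unfold sgF
  rw [finsetSum_coeff]
  simp only [coeff_monomial]
  rw [Finset.sum_ite_eq']
  simp only [Finset.mem_range]
  split_ifs with h1 h2
  · rw [finsetSum_coeff]
    simp only [coeff_monomial]
    rw [Finset.sum_ite_eq', if_pos (Finset.mem_range.2 h2)]
  · rw [finsetSum_coeff]
    simp only [coeff_monomial]
    rw [Finset.sum_ite_eq', if_neg (fun h => h2 (Finset.mem_range.1 h))]
  · rw [coeff_zero]

private theorem sgF_BD (d : ℕ) (T : ℕ → ℕ → ℤ) : BD d (sgF d T) := by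
  constructor
  · rw [natDegree_le_iff_coeff_eq_zero]
    intro j hj
    ext i
    rw [sgF_coeff, if_neg (by omega), coeff_zero]
  · intro j
    rw [natDegree_le_iff_coeff_eq_zero]
    intro i hi
    rw [sgF_coeff]
    split_ifs with h1 h2
    · omega
    · rfl
    · rfl

theorem siegelP (d k : ℕ) (hk : 2 * k ≤ (d + 1) ^ 2) (W : ℝ) (hW : 1 ≤ W)
    (q : Fin k → ℤ × ℤ × ℤ)
    (hq : ∀ l, |((q l).1 : ℝ)| ≤ W ∧ |((q l).2.1 : ℝ)| ≤ W ∧ |((q l).2.2 : ℝ)| ≤ W) :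
    ∃ F : ℤ[X][X], F ≠ 0 ∧ BD d F ∧ (∀ l, hm d F (q l) = 0) ∧
      ∀ i j, |(((F.coeff j).coeff i : ℤ) : ℝ)| ≤ ((d : ℝ) + 1) ^ 2 * W ^ (2 * d) := by
  classical
  have hW0 : 0 ≤ W := zero_le_one.trans hW
  have hWp : (1 : ℝ) ≤ W ^ (2 * d) := one_le_pow₀ hW
  have hd0 : (0 : ℝ) ≤ d := Nat.cast_nonneg d
  have hd1 : (1 : ℝ) ≤ ((d : ℝ) + 1) ^ 2 := by nlinarith
  have hB1 : (1 : ℝ) ≤ ((d : ℝ) + 1) ^ 2 * W ^ (2 * d) := by nlinarith
  rcases Nat.eq_zero_or_pos k with rfl | hk0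
  · refine ⟨1, one_ne_zero, ⟨?_, ?_⟩, fun l => l.elim0, ?_⟩
    · rw [natDegree_one]
      exact Nat.zero_le d
    · intro i
      rw [coeff_one]
      split_ifs
      · rw [natDegree_one]
        exact Nat.zero_le d
      · rw [natDegree_zero]
        exact Nat.zero_le d
    · intro i j
      refine le_trans ?_ hB1
      rw [coeff_one]
      split_ifs
      · rw [coeff_one]
        split_ifs
        · simp
        · simp
      · simp
  obtain ⟨A, hA⟩ : ∃ A : Matrix (Fin k) (Fin (d + 1) × Fin (d + 1)) ℤ,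
      ∀ l x, A l x = ((q l).1 ^ (x.1 : ℕ) * (q l).2.2 ^ (d - (x.1 : ℕ))) *
        ((q l).2.1 ^ (x.2 : ℕ) * (q l).2.2 ^ (d - (x.2 : ℕ))) := ⟨fun l x => _, fun l x => rfl⟩
  have hc1 : Fintype.card (Fin k) = k := Fintype.card_fin k
  have hc2 : Fintype.card (Fin (d + 1) × Fin (d + 1)) = (d + 1) ^ 2 := by
    rw [Fintype.card_prod, Fintype.card_fin, pow_two]
  obtain ⟨t, ht0, htA, htn⟩ := Int.Matrix.exists_ne_zero_int_vec_norm_le A
    (by rw [hc1, hc2]; omega) (by rw [hc1]; exact hk0)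
  rw [hc1, hc2] at htn
  have hnorm : ‖A‖ ≤ W ^ (2 * d) := by
    rw [Matrix.norm_le_iff (by positivity)]
    intro l x
    obtain ⟨h1, h2, h3⟩ := hq l
    have hx1 : (x.1 : ℕ) ≤ d := Nat.lt_succ_iff.1 x.1.2
    have hx2 : (x.2 : ℕ) ≤ d := Nat.lt_succ_iff.1 x.2.2
    rw [hA l x, Int.norm_eq_abs]
    push_cast
    rw [abs_mul, abs_mul, abs_mul, abs_pow, abs_pow, abs_pow, abs_pow]
    have e : W ^ (2 * d) = (W ^ (x.1 : ℕ) * W ^ (d - (x.1 : ℕ))) *
        (W ^ (x.2 : ℕ) * W ^ (d - (x.2 : ℕ))) := by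
      rw [← pow_add, ← pow_add, ← pow_add]
      congr 1
      omega
    rw [e]
    gcongr
  have hmax : max 1 ‖A‖ ≤ W ^ (2 * d) := max_le hWp hnorm
  have hcard1 : (1 : ℝ) ≤ (((d + 1) ^ 2 : ℕ) : ℝ) := by
    push_cast
    exact hd1
  have hbase1 : (1 : ℝ) ≤ (((d + 1) ^ 2 : ℕ) : ℝ) * max 1 ‖A‖ :=
    one_le_mul_of_one_le_of_one_le hcard1 (le_max_left _ _)
  have hexp : ((k : ℝ) / ((((d + 1) ^ 2 : ℕ) : ℝ) - k)) ≤ 1 := by
    have h1 : (0 : ℝ) < k := by exact_mod_cast hk0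
    have h2 : (2 : ℝ) * k ≤ (((d + 1) ^ 2 : ℕ) : ℝ) := by exact_mod_cast hk
    rw [div_le_one (by linarith)]
    linarith
  have hfin : ‖t‖ ≤ ((d : ℝ) + 1) ^ 2 * W ^ (2 * d) := by
    calc ‖t‖ ≤ ((((d + 1) ^ 2 : ℕ) : ℝ) * max 1 ‖A‖) ^
          ((k : ℝ) / ((((d + 1) ^ 2 : ℕ) : ℝ) - k)) := htn
      _ ≤ ((((d + 1) ^ 2 : ℕ) : ℝ) * max 1 ‖A‖) ^ (1 : ℝ) :=
          Real.rpow_le_rpow_of_exponent_le hbase1 hexp
      _ = (((d + 1) ^ 2 : ℕ) : ℝ) * max 1 ‖A‖ := Real.rpow_one _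
      _ ≤ ((d : ℝ) + 1) ^ 2 * W ^ (2 * d) := by
          push_cast
          exact mul_le_mul_of_nonneg_left hmax (by positivity)
  obtain ⟨T, hT⟩ : ∃ T : ℕ → ℕ → ℤ, ∀ i j, T i j =
      if h : i < d + 1 ∧ j < d + 1 then t (⟨i, h.1⟩, ⟨j, h.2⟩) else 0 := ⟨fun i j => _, fun i j => rfl⟩
  refine ⟨sgF d T, ?_, sgF_BD d T, ?_, ?_⟩
  · obtain ⟨x, hx⟩ := Function.ne_iff.mp ht0
    intro h0
    apply hx
    have h1 := sgF_coeff d T (x.1 : ℕ) (x.2 : ℕ)
    rw [h0, coeff_zero, coeff_zero, if_pos x.2.2, if_pos x.1.2, hT, dif_pos ⟨x.1.2, x.2.2⟩] at h1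
    exact h1.symm
  · intro l
    have h1 : ∑ x : Fin (d + 1) × Fin (d + 1), A l x * t x = 0 := congrFun htA l
    rw [← h1, Fintype.sum_prod_type_right]
    unfold hm
    rw [Finset.sum_range]
    refine Finset.sum_congr rfl fun j _ => ?_
    rw [Finset.sum_range]
    refine Finset.sum_congr rfl fun i _ => ?_
    rw [sgF_coeff, if_pos j.2, if_pos i.2, hT, dif_pos ⟨i.2, j.2⟩, hA]
    ring
  · intro i j
    rw [sgF_coeff]
    split_ifs with h1 h2
    · rw [hT, dif_pos ⟨h2, h1⟩]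
      have h3 : ‖t (⟨i, h2⟩, ⟨j, h1⟩)‖ ≤ ‖t‖ := norm_le_pi_norm t _
      rw [Int.norm_eq_abs] at h3
      exact h3.trans hfin
    · simp only [Int.cast_zero, abs_zero]
      linarith
    · simp only [Int.cast_zero, abs_zero]
      linarith

end BlkAR
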