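import Pool.Agent.Work.MP_763b10_co.AR.Heavy
import Pool.Agent.Work.MP_763b10_co.AR.Sample
import Pool.Agent.Work.MP_763b10_co.AR.Siegel
import Pool.Agent.Work.MP_763b10_co.AR.Hmf

/-!
# MP_763b10_co, board modar, module LemG (M)

The auxiliary polynomial lemma: if many pairs `(p, q)` have `big Z (rho p q) ≥ R₀`, a positive proportion of the `p` is on a curve of
degree about `log W / log R₀`.

Proof. `B = 1 + 3 log W`, `κ = η/((d+1)⁴ B)`; `κ |R| ≥ 2`. Remove from `P₁` the points which are heavy (`heavy`): at most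
`(2B/κ²) K (n/Z + 1)` points; let `P₂` be the rest. For `p ∈ P₂` let `N p = {q ∈ R : R₀ ≤ big Z (rho p q)}` and
`Cl p q q' :⇔ ∃ m, PM Z m ∧ m ∣ rho p q ∧ m ∣ rho p q'`. For given `q` the number of PM `m` dividing `rho p q ≤ 2W²` is at most `log₂ (2W²) ≤ B` (`pm_card`,
`rho_le`), and for each such `m` at most `κ |R|` `q'` have `m ∣ rho p q'` (`p` is not heavy): at most `B κ |R|²` colliding pairs. With
`k = ⌊(d+1)²/2⌋` (`k ≥ 1`, `4k² ≤ (d+1)⁴`): `4 k² B κ ≤ η`, so `sample` applies: a tuple `q_1, .., q_k ∈ R` such that at least `(η/4)|P₂|` points `p ∈ P₂` have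
at least `η k/2` indices with `R₀ ≤ big Z (rho p q_i)` and no collisions. `siegelP` gives `F`. For such a `p` the numbers `big Z (rho p q_i)` are pairwise
coprime (`coprime_big`), each divides `F(p)` (`dvd_ev`), so their product divides `F(p)`; if `F(p) ≠ 0`, `R₀^(ηk/2) ≤ |F(p)| ≤ (d+1)⁴ W^(4d)`
(`abs_ev_le`), i.e. `(η k/2) log R₀ ≤ 4 log(d+1) + 4 d log W ≤ 8 d log W`, and `k ≥ d²/2`: `η d log R₀ ≤ 32 log W`, against `hdd`. So `F(p) = 0`.
-/

set_option autoImplicit false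

namespace BlkAR

open Finset Polynomial

private theorem log_half : (2 : ℝ) / 3 ≤ Real.log 2 := by
  have := Real.log_two_gt_d9
  linarith

private theorem pm_count {W : ℝ} (hW : 3 ≤ W) {Z N : ℕ} (hZ : 2 ≤ Z) (hN : N ≠ 0)
    (hle : (N : ℝ) ≤ 2 * W ^ 2) (M : Finset ℕ) (hM : ∀ m ∈ M, PM Z m ∧ m ∣ N) :
    (M.card : ℝ) ≤ 1 + 3 * Real.log W := by
  have h2 := pm_card hZ hN M hM
  have h3 : ((2 : ℝ) ^ M.card) ≤ 2 * W ^ 2 := by
    have : ((2 ^ M.card : ℕ) : ℝ) ≤ (N : ℝ) := by exact_mod_cast h2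
    push_cast at this
    linarith
  have hW0 : 0 < W := by linarith
  have h4 := Real.log_le_log (by positivity) h3
  rw [Real.log_pow, Real.log_mul (by norm_num) (by positivity), Real.log_pow] at h4
  push_cast at h4
  have hl : 0 ≤ Real.log W := Real.log_nonneg (by linarith)
  have h5 := log_half
  by_contra hc
  push Not at hc
  have h6 : (1 + 3 * Real.log W) * Real.log 2 < M.card * Real.log 2 := by
    apply mul_lt_mul_of_pos_right hc (by linarith)
  nlinarith

open scoped Classical in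
theorem lemG {P P₁ : Finset (ℤ × ℤ)} {R : Finset (ℤ × ℤ × ℤ)} {K W η R₀ : ℝ} {Z d : ℕ}
    (h : Spr K P) (h1 : P₁ ⊆ P) (hq : ∀ q ∈ R, Prim q) (ho : ∀ q ∈ R, ∀ p ∈ P, rho p q ≠ 0)
    (hP : ∀ p ∈ P, |(p.1 : ℝ)| ≤ W ∧ |(p.2 : ℝ)| ≤ W)
    (hR : ∀ q ∈ R, |(q.1 : ℝ)| ≤ W ∧ |(q.2.1 : ℝ)| ≤ W ∧ (q.2.2 : ℝ) ≤ W) (hW : 3 ≤ W)
    (hZ : 2 ≤ Z) (hη : 0 < η) (hη1 : η ≤ 1) (hR0 : 1 < R₀) (hd : 1 ≤ d)
    (hdd : 32 * Real.log W < d * η * Real.log R₀)
    (hn : ∀ p ∈ P₁, η * R.card ≤ ((R.filter fun q => R₀ ≤ (big Z (rho p q) : ℝ)).card : ℝ))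
    (hRc : 2 * ((d : ℝ) + 1) ^ 4 * (1 + 3 * Real.log W) ≤ η * R.card) :
    ∃ F : ℤ[X][X], F ≠ 0 ∧ BD d F ∧
      η / 4 * (P₁.card - 2 * (1 + 3 * Real.log W) ^ 3 * ((d : ℝ) + 1) ^ 8 / η ^ 2 *
        (K * ((P.card : ℝ) / Z + 1))) ≤
      ((P₁.filter fun p => F.evalEval p.1 p.2 = 0).card : ℝ) := by
  have hW0 : 0 < W := by linarith
  have hlW : 1 ≤ Real.log W := by
    have h3 : Real.log (Real.exp 1) ≤ Real.log W := by
      apply Real.log_le_log (Real.exp_pos 1)
      have := Real.exp_one_lt_d9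
      linarith
    simpa using h3
  set B : ℝ := 1 + 3 * Real.log W with hB
  have hB0 : 0 < B := by linarith
  have hd1 : (0 : ℝ) < ((d : ℝ) + 1) ^ 4 := by positivity
  set κ : ℝ := η / (((d : ℝ) + 1) ^ 4 * B) with hκ
  have hκ0 : 0 < κ := by positivity
  have hκR : 2 ≤ κ * R.card := by
    rw [hκ, div_mul_eq_mul_div, le_div_iff₀ (by positivity)]
    nlinarith
  have hRpos : 0 < R.card := by
    rcases Nat.eq_zero_or_pos R.card with h0 | h0
    · rw [h0] at hκR
      norm_num at hκR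
    · exact h0
  have hRne : R.Nonempty := Finset.card_pos.1 hRpos
  have hHv := heavy (κ := κ) h (by linarith : 1 ≤ W) hq hR hZ hκ0 hκR
  set Hv : Finset (ℤ × ℤ) := P.filter fun p => ∃ m, PM Z m ∧
      κ * R.card < ((R.filter fun q => m ∣ rho p q).card : ℝ) with hHvd
  set P₂ : Finset (ℤ × ℤ) := P₁.filter fun p => ¬ ∃ m, PM Z m ∧
      κ * R.card < ((R.filter fun q => m ∣ rho p q).card : ℝ) with hP₂
  have hcard : (P₁.card : ℝ) ≤ P₂.card + Hv.card := by
    have h3 : P₁ ⊆ P₂ ∪ Hv := by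
      intro p hp
      rw [Finset.mem_union, hP₂, hHvd, Finset.mem_filter, Finset.mem_filter]
      by_cases hc : ∃ m, PM Z m ∧ κ * R.card < ((R.filter fun q => m ∣ rho p q).card : ℝ)
      · exact Or.inr ⟨h1 hp, hc⟩
      · exact Or.inl ⟨hp, hc⟩
    have h4 := (Finset.card_le_card h3).trans (Finset.card_union_le _ _)
    exact_mod_cast h4
  have hloss : 2 * B / κ ^ 2 = 2 * B ^ 3 * ((d : ℝ) + 1) ^ 8 / η ^ 2 := by
    rw [hκ]
    field_simp
  have hlow : (P₁.card : ℝ) - 2 * B ^ 3 * ((d : ℝ) + 1) ^ 8 / η ^ 2 *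
      (K * ((P.card : ℝ) / Z + 1)) ≤ P₂.card := by
    rw [← hloss]
    linarith
  -- sampling
  set k : ℕ := (d + 1) ^ 2 / 2 with hk
  have hk2 : 2 * k ≤ (d + 1) ^ 2 := by
    rw [hk]; omega
  have hk3 : (d + 1) ^ 2 ≤ 2 * k + 1 := by
    rw [hk]; omega
  have hk1 : 1 ≤ k := by
    have : 4 ≤ (d + 1) ^ 2 := by nlinarith
    omega
  have hsub2 : P₂ ⊆ P₁ := Finset.filter_subset _ _
  have hk2R : 2 * (k : ℝ) ≤ ((d : ℝ) + 1) ^ 2 := by exact_mod_cast hk2
  have hk3R : ((d : ℝ) + 1) ^ 2 ≤ 2 * (k : ℝ) + 1 := by exact_mod_cast hk3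
  obtain ⟨q, hqR, hgood⟩ := sample P₂ R (fun p => R.filter fun q => R₀ ≤ (big Z (rho p q) : ℝ))
    (fun p _ => Finset.filter_subset _ _)
    (fun p q q' => ∃ m, PM Z m ∧ m ∣ rho p q ∧ m ∣ rho p q') k hk1 η hη hη1 hRne
    (fun p hp => hn p (hsub2 hp)) (by
      intro p hp
      have hpP : p ∈ P := h1 (hsub2 hp)
      have hnh := (Finset.mem_filter.1 hp).2
      push Not at hnh
      have hcnt : (((R ×ˢ R).filter fun y =>
          ∃ m, PM Z m ∧ m ∣ rho p y.1 ∧ m ∣ rho p y.2).card : ℝ) ≤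
          R.card * (B * (κ * R.card)) := by
        have hle : ((R ×ˢ R).filter fun y =>
          ∃ m, PM Z m ∧ m ∣ rho p y.1 ∧ m ∣ rho p y.2) ⊆
          R.biUnion fun a => ((rho p a).divisors.filter fun m => PM Z m).biUnion fun m =>
            (R.filter fun b => m ∣ rho p b).image fun b => (a, b) := by
          rintro ⟨a, b⟩ hy
          rw [Finset.mem_filter, Finset.mem_product] at hy
          obtain ⟨⟨ha, hb⟩, m, hm, hma, hmb⟩ := hy
          simp only [Finset.mem_biUnion, Finset.mem_filter, Finset.mem_image, Nat.mem_divisors]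
          exact ⟨a, ha, m, ⟨⟨hma, ho a ha p hpP⟩, hm⟩, b, ⟨hb, hmb⟩, rfl⟩
        have h5 := (Finset.card_le_card hle).trans Finset.card_biUnion_le
        have h6 : ((∑ a ∈ R, (((rho p a).divisors.filter fun m => PM Z m).biUnion fun m =>
            (R.filter fun b => m ∣ rho p b).image fun b => (a, b)).card : ℕ) : ℝ) ≤
            ∑ a ∈ R, (B * (κ * R.card)) := by
          push_cast
          apply Finset.sum_le_sum
          intro a ha
          have h7 : ((((rho p a).divisors.filter fun m => PM Z m).biUnion fun m =>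
            (R.filter fun b => m ∣ rho p b).image fun b => (a, b)).card : ℝ) ≤
            ∑ m ∈ (rho p a).divisors.filter fun m => PM Z m, (κ * R.card) := by
            have h8 := Finset.card_biUnion_le (s := (rho p a).divisors.filter fun m => PM Z m)
              (t := fun m => (R.filter fun b => m ∣ rho p b).image fun b => (a, b))
            have h9 : ((∑ m ∈ (rho p a).divisors.filter fun m => PM Z m,
              ((R.filter fun b => m ∣ rho p b).image fun b => (a, b)).card : ℕ) : ℝ) ≤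
              ∑ m ∈ (rho p a).divisors.filter fun m => PM Z m, (κ * R.card) := by
              push_cast
              apply Finset.sum_le_sum
              intro m hm
              have h10 := hnh m (Finset.mem_filter.1 hm).2
              have h11 : (((R.filter fun b => m ∣ rho p b).image fun b => (a, b)).card : ℝ) ≤
                ((R.filter fun b => m ∣ rho p b).card : ℝ) := by
                exact_mod_cast Finset.card_image_le
              linarith
            refine le_trans ?_ h9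
            exact_mod_cast h8
          refine h7.trans ?_
          rw [Finset.sum_const, nsmul_eq_mul]
          apply mul_le_mul_of_nonneg_right _ (by positivity)
          have hra : rho p a ≠ 0 := ho a ha p hpP
          apply pm_count hW hZ hra (rho_le (by linarith) (hP p hpP) (hR a ha) (hq a ha).1 hra)
          intro m hm
          rw [Finset.mem_filter, Nat.mem_divisors] at hm
          exact ⟨hm.2, hm.1.1⟩
        rw [Finset.sum_const, nsmul_eq_mul] at h6
        refine le_trans ?_ h6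
        exact_mod_cast h5
      have h12 : 4 * (k : ℝ) ^ 2 ≤ ((d : ℝ) + 1) ^ 4 := by
        have : (2 * (k : ℝ)) ^ 2 ≤ (((d : ℝ) + 1) ^ 2) ^ 2 := by gcongr
        nlinarith
      have h13 : ((d : ℝ) + 1) ^ 4 * (B * κ) = η := by
        rw [hκ]
        field_simp
      calc 4 * (k : ℝ) ^ 2 * (((R ×ˢ R).filter fun y =>
          ∃ m, PM Z m ∧ m ∣ rho p y.1 ∧ m ∣ rho p y.2).card : ℝ)
          ≤ ((d : ℝ) + 1) ^ 4 * (R.card * (B * (κ * R.card))) := by
            apply mul_le_mul h12 hcnt (by positivity) (by positivity)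
        _ = (((d : ℝ) + 1) ^ 4 * (B * κ)) * (R.card : ℝ) ^ 2 := by ring
        _ = η * (R.card : ℝ) ^ 2 := by rw [h13])
  obtain ⟨F, hF0, hFd, hFq, hFc⟩ := siegelP d k hk2 W (by linarith) q (by
    intro l
    have h5 := hR (q l) (hqR l)
    have h6 := (hq (q l) (hqR l)).1
    refine ⟨h5.1, h5.2.1, ?_⟩
    have h7 : (1 : ℝ) ≤ ((q l).2.2 : ℝ) := by exact_mod_cast h6
    rw [abs_of_nonneg (by linarith)]
    exact h5.2.2)
  refine ⟨F, hF0, hFd, ?_⟩
  have hstep : η / 4 * (P₁.card - 2 * B ^ 3 * ((d : ℝ) + 1) ^ 8 / η ^ 2 *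
        (K * ((P.card : ℝ) / Z + 1))) ≤ η / 4 * P₂.card :=
    mul_le_mul_of_nonneg_left hlow (by positivity)
  refine hstep.trans (hgood.trans ?_)
  refine Nat.cast_le.2 (Finset.card_le_card ?_)
  intro p hp
  rw [Finset.mem_filter] at hp
  obtain ⟨hp2, hcnt0, hcop⟩ := hp
  rw [Finset.mem_filter]
  refine ⟨hsub2 hp2, ?_⟩
  by_contra hne
  have hpP : p ∈ P := h1 (hsub2 hp2)
  set I : Finset (Fin k) :=
    univ.filter fun i => q i ∈ R.filter fun q => R₀ ≤ (big Z (rho p q) : ℝ) with hI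
  have hcnt : η * k / 2 ≤ (I.card : ℝ) := by
    convert hcnt0
  have hIbig : ∀ i ∈ I, R₀ ≤ (big Z (rho p (q i)) : ℝ) := by
    intro i hi
    rw [hI, Finset.mem_filter, Finset.mem_filter] at hi
    exact hi.2.2
  have hdvd : ∀ i, ((big Z (rho p (q i)) : ℕ) : ℤ) ∣ F.evalEval p.1 p.2 := fun i =>
    dvd_ev hFd (hq _ (hqR i)) (big_dvd (ho _ (hqR i) p hpP)) (hFq i)
  have hprod : (∏ i ∈ I, ((big Z (rho p (q i)) : ℕ) : ℤ)) ∣ F.evalEval p.1 p.2 := by
    apply Finset.prod_dvd_of_coprime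
    · intro i _ j _ hij
      rw [Function.onFun, Nat.isCoprime_iff_coprime]
      apply coprime_big hZ (ho _ (hqR i) p hpP) (ho _ (hqR j) p hpP)
      intro m hm hmi hmj
      exact hcop i j hij ⟨m, hm, hmi, hmj⟩
    · intro i _
      exact hdvd i
  have hle := Int.le_of_dvd (abs_pos.2 hne) ((dvd_abs _ _).2 hprod)
  have hleR : (∏ i ∈ I, (big Z (rho p (q i)) : ℝ)) ≤ |((F.evalEval p.1 p.2 : ℤ) : ℝ)| := by
    have : (((∏ i ∈ I, ((big Z (rho p (q i)) : ℕ) : ℤ)) : ℤ) : ℝ) ≤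
      ((|F.evalEval p.1 p.2| : ℤ) : ℝ) := by exact_mod_cast hle
    push_cast at this
    exact this
  have hpow : R₀ ^ I.card ≤ ∏ i ∈ I, (big Z (rho p (q i)) : ℝ) := by
    rw [← Finset.prod_const]
    apply Finset.prod_le_prod
    · intro i _
      linarith
    · exact hIbig
  have habs := abs_ev_le hFd (by linarith : 1 ≤ W) hFc (hP p hpP)
  have hall : R₀ ^ I.card ≤ ((d : ℝ) + 1) ^ 4 * W ^ (4 * d) := by
    refine (hpow.trans (hleR.trans habs)).trans (le_of_eq ?_)
    ring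
  have hlog := Real.log_le_log (by positivity) hall
  rw [Real.log_pow, Real.log_mul (by positivity) (by positivity), Real.log_pow,
    Real.log_pow] at hlog
  push_cast at hlog
  have hdpos : (1 : ℝ) ≤ d := by exact_mod_cast hd
  have hlogd : Real.log ((d : ℝ) + 1) ≤ d := by
    have := Real.log_le_sub_one_of_pos (by positivity : (0 : ℝ) < (d : ℝ) + 1)
    linarith
  have hlR : 0 < Real.log R₀ := Real.log_pos hR0
  have h20 : (I.card : ℝ) * Real.log R₀ ≤ 8 * d * Real.log W := by nlinarith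
  have h21 : η * k / 2 * Real.log R₀ ≤ 8 * d * Real.log W :=
    (mul_le_mul_of_nonneg_right hcnt hlR.le).trans h20
  have h22 : (d : ℝ) ^ 2 / 2 ≤ k := by nlinarith
  have h23 : η * ((d : ℝ) ^ 2 / 2) / 2 * Real.log R₀ ≤ η * k / 2 * Real.log R₀ := by
    apply mul_le_mul_of_nonneg_right _ hlR.le
    apply div_le_div_of_nonneg_right _ (by norm_num)
    exact mul_le_mul_of_nonneg_left h22 hη.le
  have h24 : d * (d * η * Real.log R₀) ≤ d * (32 * Real.log W) := by nlinarith
  have h25 := le_of_mul_le_mul_left h24 (by linarith : (0 : ℝ) < d)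
  linarith

end BlkAR
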