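import Pool.Agent.Work.MP_763b10_co.AR.Defs

/-!
# MP_763b10_co, board modar, module NoCol (S-M)

Sets without three collinear points have no long progressions in `2A - 2A` if the doubling is small.

Proof. `B = {j v : 0 ≤ j ≤ m} ⊆ 2A - 2A`, so `A + B ⊆ 3A - 2A` and `|A + B| ≤ K⁵ |A|`
(`Finset.pluennecke_ruzsa_inequality_nsmul_sub_nsmul_sub` with `A = B`, `m = 3`, `n = 2`). Call `a, a' ∈ A` equivalent if
`a - a'` is parallel to `v` (`v.1 (a-a').2 = v.2 (a-a').1`); a class has at most 2 elements (three would be collinear, as `v ≠ 0`). Choose a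
representative of each class: `A'' ⊆ A`, `|A''| ≥ |A|/2`. The sums `a + j v` (`a ∈ A''`, `j ≤ m`) are different. So
`(m + 1) |A|/2 ≤ |A + B| ≤ K⁵ |A|`.
-/

set_option autoImplicit false

namespace BlkAR

open Finset
open scoped Pointwise

private theorem noc_mul {A : Finset (ℤ × ℤ)} (hN : NC A) {v : ℤ × ℤ} (hv : v ≠ 0) (m : ℕ)
    (h : ∀ j : ℕ, j ≤ m → j • v ∈ (A + A) - (A + A)) :
    A.card * (m + 1) ≤ 2 * (3 • A - 2 • A).card := by
  classical
  have h1 : A.card * (m + 1) = (A ×ˢ Finset.range (m + 1)).card := by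
    rw [Finset.card_product, Finset.card_range]
  rw [h1]
  refine Finset.card_le_mul_card_image_of_maps_to (f := fun x : (ℤ × ℤ) × ℕ => x.1 + x.2 • v)
    ?_ 2 ?_
  · rintro ⟨a, j⟩ hx
    rw [Finset.mem_product, Finset.mem_range] at hx
    obtain ⟨y, hy, z, hz, hyz⟩ := Finset.mem_sub.1 (h j (Nat.lt_succ_iff.1 hx.2))
    refine Finset.mem_sub.2 ⟨a + y, ?_, z, ?_, ?_⟩
    · have h3 : 3 • A = A + (A + A) := by
        rw [show (3 : ℕ) = 2 + 1 from rfl, succ_nsmul', two_nsmul]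
      rw [h3]
      exact Finset.add_mem_add hx.1 hy
    · rw [two_nsmul]
      exact hz
    · show a + y - z = a + j • v
      rw [← hyz, add_sub_assoc]
  · intro w _
    by_contra hcon
    obtain ⟨x1, h1, x2, h2, x3, h3, h12, h13, h23⟩ := Finset.two_lt_card.1 (not_le.1 hcon)
    rw [Finset.mem_filter, Finset.mem_product] at h1 h2 h3
    obtain ⟨⟨a1, _⟩, e1⟩ := h1
    obtain ⟨⟨a2, _⟩, e2⟩ := h2
    obtain ⟨⟨a3, _⟩, e3⟩ := h3
    have f1 : x1.1.1 + x1.2 * v.1 = w.1 ∧ x1.1.2 + x1.2 * v.2 = w.2 := by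
      rw [← e1]
      constructor <;> simp
    have f2 : x2.1.1 + x2.2 * v.1 = w.1 ∧ x2.1.2 + x2.2 * v.2 = w.2 := by
      rw [← e2]
      constructor <;> simp
    have f3 : x3.1.1 + x3.2 * v.1 = w.1 ∧ x3.1.2 + x3.2 * v.2 = w.2 := by
      rw [← e3]
      constructor <;> simp
    have key : ∀ x y : (ℤ × ℤ) × ℕ, x.1.1 + x.2 * v.1 = w.1 ∧ x.1.2 + x.2 * v.2 = w.2 →
        y.1.1 + y.2 * v.1 = w.1 ∧ y.1.2 + y.2 * v.2 = w.2 → x ≠ y → x.1 ≠ y.1 := by
      intro x y hx hy hxy hc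
      apply hxy
      refine Prod.ext hc ?_
      have g1 : ((x.2 : ℤ) - y.2) * v.1 = 0 := by
        have h4 : x.1.1 = y.1.1 := by rw [hc]
        linarith [hx.1, hy.1]
      have g2 : ((x.2 : ℤ) - y.2) * v.2 = 0 := by
        have h4 : x.1.2 = y.1.2 := by rw [hc]
        linarith [hx.2, hy.2]
      by_contra hne
      have h5 : (x.2 : ℤ) - y.2 ≠ 0 := by omega
      apply hv
      exact Prod.ext ((mul_eq_zero.1 g1).resolve_left h5) ((mul_eq_zero.1 g2).resolve_left h5)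
    refine hN _ a1 _ a2 _ a3 (key _ _ f1 f2 h12) (key _ _ f1 f3 h13) (key _ _ f2 f3 h23) ?_
    have g1 : x2.1.1 - x1.1.1 = ((x1.2 : ℤ) - x2.2) * v.1 := by linarith [f1.1, f2.1]
    have g2 : x2.1.2 - x1.1.2 = ((x1.2 : ℤ) - x2.2) * v.2 := by linarith [f1.2, f2.2]
    have g3 : x3.1.1 - x1.1.1 = ((x1.2 : ℤ) - x3.2) * v.1 := by linarith [f1.1, f3.1]
    have g4 : x3.1.2 - x1.1.2 = ((x1.2 : ℤ) - x3.2) * v.2 := by linarith [f1.2, f3.2]
    rw [g1, g2, g3, g4]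
    ring

theorem nocol {A : Finset (ℤ × ℤ)} (hA : A.Nonempty) (hN : NC A) {K : ℝ}
    (hK : ((A - A).card : ℝ) ≤ K * A.card) {v : ℤ × ℤ} (hv : v ≠ 0) (m : ℕ)
    (h : ∀ j : ℕ, j ≤ m → j • v ∈ (A + A) - (A + A)) : (m : ℝ) + 1 ≤ 2 * K ^ 5 := by
  have h1 := noc_mul hN hv m h
  have h2 := Finset.pluennecke_ruzsa_inequality_nsmul_sub_nsmul_sub hA A 3 2
  have hA0 : (0 : ℝ) < A.card := by exact_mod_cast hA.card_pos
  have h3 : ((3 • A - 2 • A).card : ℝ) ≤ (((A - A).card : ℝ) / A.card) ^ (3 + 2) * A.card := by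
    have h8 := (NNRat.cast_le (K := ℝ)).2 h2
    push_cast at h8
    exact h8
  have h4 : ((A - A).card : ℝ) / A.card ≤ K := by
    rw [div_le_iff₀ hA0]
    exact hK
  have h5 : (((A - A).card : ℝ) / A.card) ^ (3 + 2) ≤ K ^ 5 :=
    pow_le_pow_left₀ (by positivity) h4 5
  have h6 : (A.card : ℝ) * (m + 1) ≤ 2 * ((3 • A - 2 • A).card : ℝ) := by
    exact_mod_cast h1
  have h7 : (A.card : ℝ) * (m + 1) ≤ A.card * (2 * K ^ 5) := by
    calc (A.card : ℝ) * (m + 1) ≤ 2 * ((3 • A - 2 • A).card : ℝ) := h6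
      _ ≤ 2 * ((((A - A).card : ℝ) / A.card) ^ (3 + 2) * A.card) := by linarith
      _ ≤ 2 * (K ^ 5 * A.card) := by
        have := mul_le_mul_of_nonneg_right h5 hA0.le
        linarith
      _ = A.card * (2 * K ^ 5) := by ring
  exact le_of_mul_le_mul_left h7 hA0

end BlkAR
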