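import Pool.Agent.Work.MP_763b10_co.AR.Bsg
import Pool.Agent.Work.MP_763b10_co.AR.Ap
import Pool.Agent.Work.MP_763b10_co.AR.NoCol

/-!
# MP_763b10_co, board modar, module Low3 (S-M)

Few sums `a p + b p'` along a dense set of pairs: impossible without three collinear points.

Proof. `bsg`: `A ⊆ P`, `|A| ≥ n/(2K)`, `|A - A| ≤ K₂ |A|`, `K₂ = K²³`. If `log |A| ≥ C₁ (log K₂)⁵` (`C₁` from `ap`), then `ap` gives `A' ⊆ A`,
`|A| ≤ 6 |A'|`, `v ≠ 0`; `|A' - A'| ≤ |A - A| ≤ 6 K₂ |A'|`, and `nocol` with `m = ⌊K₂²⁰⌋₊` gives `K₂²⁰ < m + 1 ≤ 2 (6K₂)⁵ = 15552 K₂⁵`, impossible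
for `K₂ ≥ 2²³` (`K₂¹⁵ > 15552`). So `log n ≤ log(2K) + log |A| ≤ 2 log K + C₁ 23⁵ (log K)⁵ ≤ C (log K)⁵`, as `log K ≥ log 2`
(`2 log K ≤ 2 (log K)⁵/(log 2)⁴`). (`n = 0`: `log 0 = 0`.)
-/

set_option autoImplicit false

namespace BlkAR

open Finset
open scoped Pointwise

private theorem low3_core {C₁ : ℝ} (hap : ∀ (A : Finset (ℤ × ℤ)) (K : ℝ), 2 ≤ K → A.Nonempty →
    ((A - A).card : ℝ) ≤ K * A.card → C₁ * (Real.log K) ^ 5 ≤ Real.log A.card →
    ∃ A' ⊆ A, A.card ≤ 6 * A'.card ∧ ∃ v : ℤ × ℤ, v ≠ 0 ∧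
      ∀ j : ℕ, (j : ℝ) ≤ K ^ 20 → j • v ∈ (A' + A') - (A' + A')) {A : Finset (ℤ × ℤ)} {L : ℝ}
    (hL : 2 ^ 23 ≤ L) (hA : A.Nonempty) (hN : NC A) (hAA : ((A - A).card : ℝ) ≤ L * A.card) :
    Real.log A.card ≤ C₁ * (Real.log L) ^ 5 := by
  by_contra hcon
  obtain ⟨A', hA', hcard, v, hv, hj⟩ := hap A L (by linarith [hL]) hA hAA (not_le.1 hcon).le
  have hApos : 0 < A.card := hA.card_pos
  have hA'pos : 0 < A'.card := by omega
  have hA'n : A'.Nonempty := Finset.card_pos.1 hA'pos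
  have hL0 : 0 < L := by linarith
  have hcR : (A.card : ℝ) ≤ 6 * A'.card := by exact_mod_cast hcard
  have hN' : NC A' := fun p hp q hq r hr => hN p (hA' hp) q (hA' hq) r (hA' hr)
  have hAA' : ((A' - A').card : ℝ) ≤ (6 * L) * A'.card := by
    have h1 : ((A' - A').card : ℝ) ≤ (A - A).card := by
      exact_mod_cast Finset.card_le_card (Finset.sub_subset_sub hA' hA')
    calc ((A' - A').card : ℝ) ≤ (A - A).card := h1
      _ ≤ L * A.card := hAA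
      _ ≤ L * (6 * A'.card) := mul_le_mul_of_nonneg_left hcR hL0.le
      _ = (6 * L) * A'.card := by ring
  have h1 := nocol hA'n hN' hAA' hv ⌊L ^ 20⌋₊ (fun j hjm => hj j (by
    refine le_trans ?_ (Nat.floor_le (by positivity))
    exact_mod_cast hjm))
  have h2 : L ^ 20 < (⌊L ^ 20⌋₊ : ℝ) + 1 := Nat.lt_floor_add_one _
  have h3 : L ^ 20 < 15552 * L ^ 5 := by
    calc L ^ 20 < (⌊L ^ 20⌋₊ : ℝ) + 1 := h2
      _ ≤ 2 * (6 * L) ^ 5 := h1
      _ = 15552 * L ^ 5 := by ring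
  have h4 : L ^ 15 < 15552 := by
    have h5 : L ^ 15 * L ^ 5 < 15552 * L ^ 5 := by
      calc L ^ 15 * L ^ 5 = L ^ 20 := by ring
        _ < 15552 * L ^ 5 := h3
    exact lt_of_mul_lt_mul_right h5 (by positivity)
  have h6 : L ≤ L ^ 15 := by
    calc L = L ^ 1 := (pow_one L).symm
      _ ≤ L ^ 15 := pow_le_pow_right₀ (by linarith [hL]) (by norm_num)
  have h7 : (2 : ℝ) ^ 23 < 15552 := by linarith
  norm_num at h7

theorem low3 : ∃ C : ℝ, 0 < C ∧ ∀ (P : Finset (ℤ × ℤ)) (E : Finset ((ℤ × ℤ) × (ℤ × ℤ))) (a b : ℤ)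
    (K : ℝ), NC P → E ⊆ P ×ˢ P → a ≠ 0 → b ≠ 0 → 2 ≤ K → (P.card : ℝ) ^ 2 / K ≤ E.card →
    ((E.image fun x => a • x.1 + b • x.2).card : ℝ) ≤ K * P.card →
    Real.log P.card ≤ C * (Real.log K) ^ 5 := by
  obtain ⟨C₁, hC₁, hap⟩ := ap
  have hl2 : 0 < Real.log 2 := Real.log_pos (by norm_num)
  refine ⟨C₁ * 23 ^ 5 + 2 / (Real.log 2) ^ 4, by positivity, ?_⟩
  intro P E a b K hN hE ha hb hK hc hS
  have hK0 : 0 < K := by linarith
  have hlK : Real.log 2 ≤ Real.log K := Real.log_le_log (by norm_num) hK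
  have hlK0 : 0 < Real.log K := lt_of_lt_of_le hl2 hlK
  rcases P.eq_empty_or_nonempty with hP | hP
  · rw [hP, Finset.card_empty, Nat.cast_zero, Real.log_zero]
    positivity
  obtain ⟨A, hAP, hAc, hAA⟩ := bsg hP hE ha hb hK hc hS
  have hP0 : (0 : ℝ) < P.card := by exact_mod_cast hP.card_pos
  have hA0 : (0 : ℝ) < A.card := lt_of_lt_of_le (by positivity) hAc
  have hAn : A.Nonempty := by
    rw [← Finset.card_pos]
    exact_mod_cast hA0
  have hNA : NC A := fun p hp q hq r hr => hN p (hAP hp) q (hAP hq) r (hAP hr)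
  have hL : (2 : ℝ) ^ 23 ≤ K ^ 23 := pow_le_pow_left₀ (by norm_num) hK 23
  have h1 := low3_core hap hL hAn hNA hAA
  rw [Real.log_pow] at h1
  have h2 : (P.card : ℝ) ≤ 2 * K * A.card := by
    rw [div_le_iff₀ (by positivity)] at hAc
    linarith
  have h3 : Real.log P.card ≤ Real.log 2 + Real.log K + Real.log A.card := by
    calc Real.log P.card ≤ Real.log (2 * K * A.card) := Real.log_le_log hP0 h2
      _ = Real.log 2 + Real.log K + Real.log A.card := by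
        rw [Real.log_mul (by positivity) hA0.ne', Real.log_mul (by norm_num) hK0.ne']
  have h4 : 2 * Real.log K ≤ 2 / (Real.log 2) ^ 4 * (Real.log K) ^ 5 := by
    rw [div_mul_eq_mul_div, le_div_iff₀ (by positivity)]
    have h5 : (Real.log 2) ^ 4 ≤ (Real.log K) ^ 4 := pow_le_pow_left₀ hl2.le hlK 4
    calc 2 * Real.log K * Real.log 2 ^ 4 ≤ 2 * Real.log K * Real.log K ^ 4 :=
          mul_le_mul_of_nonneg_left h5 (by positivity)
      _ = 2 * Real.log K ^ 5 := by ring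
  push_cast at h1
  have h6 : C₁ * (23 * Real.log K) ^ 5 = C₁ * 23 ^ 5 * (Real.log K) ^ 5 := by ring
  rw [h6] at h1
  calc Real.log P.card ≤ Real.log 2 + Real.log K + Real.log A.card := h3
    _ ≤ 2 * Real.log K + C₁ * 23 ^ 5 * (Real.log K) ^ 5 := by linarith
    _ ≤ 2 / (Real.log 2) ^ 4 * (Real.log K) ^ 5 + C₁ * 23 ^ 5 * (Real.log K) ^ 5 := by linarith
    _ = (C₁ * 23 ^ 5 + 2 / (Real.log 2) ^ 4) * (Real.log K) ^ 5 := by ring

end BlkAR
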