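import Pool.Agent.Work.MP_763b10_co.AR.Low3

/-!
# MP_763b10_co, board modar, module LowP (S-M)

Few pairs are divided in a ratio of small height.

Proof. Let `x = (p, p') ∈ G`, `q = f x = (a, b, D)`, `ρ = rho p q`, `σ = rho p' q` (both `≠ 0` by `out`), `e = gcd(ρ, σ)`, `s = ρ/e`, `s' = σ/e`.
`Opp` divided by `e`: `s' (D p - (a,b)) = -s (D p' - (a,b))`, so `D (s' p + s p') = (s + s') (a, b)`: for given `(s, s')` the point
`s' p + s p'` is determined by `q` (`D ≥ 1`), so it takes at most `|R|` values on `E_{s,s'} = {x ∈ G : (ρ/e, σ/e) = (s, s')}`. If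
`|E_{s,s'}| ≥ n²/T³` then `low3` (`K = T³`, `|R| ≤ T n ≤ K n`) gives `log n ≤ C₃ (3 log T)⁵`, excluded with `C = 243 C₃`. Sum over the at most `T²`
pairs `(s, s')` with `1 ≤ s, s'`, `s + s' ≤ T`: less than `T² n²/T³`.
-/

set_option autoImplicit false

namespace BlkAR

open Finset

private theorem sum_eq {p : ℤ × ℤ} {q : ℤ × ℤ × ℤ} {p' : ℤ × ℤ} (ho : Opp p q p')
    (h1 : rho p q ≠ 0) :
    q.2.2 * (((rho p' q / Nat.gcd (rho p q) (rho p' q) : ℕ) : ℤ) * p.1 +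
      ((rho p q / Nat.gcd (rho p q) (rho p' q) : ℕ) : ℤ) * p'.1) =
      (((rho p q / Nat.gcd (rho p q) (rho p' q) : ℕ) : ℤ) +
      ((rho p' q / Nat.gcd (rho p q) (rho p' q) : ℕ) : ℤ)) * q.1 ∧
    q.2.2 * (((rho p' q / Nat.gcd (rho p q) (rho p' q) : ℕ) : ℤ) * p.2 +
      ((rho p q / Nat.gcd (rho p q) (rho p' q) : ℕ) : ℤ) * p'.2) =
      (((rho p q / Nat.gcd (rho p q) (rho p' q) : ℕ) : ℤ) +
      ((rho p' q / Nat.gcd (rho p q) (rho p' q) : ℕ) : ℤ)) * q.2.1 := by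
  have hs := Nat.mul_div_cancel' (Nat.gcd_dvd_left (rho p q) (rho p' q))
  have hs' := Nat.mul_div_cancel' (Nat.gcd_dvd_right (rho p q) (rho p' q))
  set s := rho p q / Nat.gcd (rho p q) (rho p' q)
  set s' := rho p' q / Nat.gcd (rho p q) (rho p' q)
  set e := Nat.gcd (rho p q) (rho p' q) with he
  have he0 : 0 < e := Nat.gcd_pos_of_pos_left _ (Nat.pos_of_ne_zero h1)
  obtain ⟨o1, o2⟩ := ho
  rw [← hs, ← hs'] at o1 o2
  have he0' : (e : ℤ) ≠ 0 := by exact_mod_cast he0.ne'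
  push_cast at o1 o2
  constructor
  · apply mul_left_cancel₀ he0'
    linear_combination o1
  · apply mul_left_cancel₀ he0'
    linear_combination o2

theorem lowp : ∃ C : ℝ, 0 < C ∧ ∀ (P : Finset (ℤ × ℤ)) (R : Finset (ℤ × ℤ × ℤ))
    (G : Finset ((ℤ × ℤ) × (ℤ × ℤ))) (f : (ℤ × ℤ) × (ℤ × ℤ) → ℤ × ℤ × ℤ) (W : ℝ),
    Cfg P R G f W → ∀ T : ℕ, 2 ≤ T → (R.card : ℝ) ≤ T * P.card →
    C * (Real.log T) ^ 5 < Real.log P.card →
    ((G.filter fun x => (rho x.1 (f x) + rho x.2 (f x)) /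
      Nat.gcd (rho x.1 (f x)) (rho x.2 (f x)) ≤ T).card : ℝ) ≤ (P.card : ℝ) ^ 2 / T := by
  obtain ⟨C₃, hC₃, hlow⟩ := low3
  refine ⟨243 * C₃, by positivity, ?_⟩
  intro P R G f W hcfg T hT hR hn
  have hT0 : (0 : ℝ) < T := by
    have : 0 < T := by omega
    exact_mod_cast this
  have hT2 : (2 : ℝ) ≤ T := by exact_mod_cast hT
  have hpos : ∀ x ∈ G, rho x.1 (f x) ≠ 0 ∧ rho x.2 (f x) ≠ 0 := fun x hx =>
    ⟨hcfg.out _ (hcfg.mem x hx) _ (hcfg.sub x hx).1,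
      hcfg.out _ (hcfg.mem x hx) _ (hcfg.sub x hx).2.1⟩
  set E : ℕ × ℕ → Finset ((ℤ × ℤ) × (ℤ × ℤ)) := fun y => G.filter fun x =>
    rho x.1 (f x) / Nat.gcd (rho x.1 (f x)) (rho x.2 (f x)) = y.1 ∧
      rho x.2 (f x) / Nat.gcd (rho x.1 (f x)) (rho x.2 (f x)) = y.2 with hE
  have hEc : ∀ y ∈ Finset.Icc 1 T ×ˢ Finset.Icc 1 T,
      ((E y).card : ℝ) ≤ (P.card : ℝ) ^ 2 / (T : ℝ) ^ 3 := by
    intro y hy
    rw [Finset.mem_product, Finset.mem_Icc, Finset.mem_Icc] at hy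
    obtain ⟨⟨hy1, -⟩, hy2, -⟩ := hy
    by_contra hcon
    push Not at hcon
    have h1 := hlow P (E y) (y.2 : ℤ) (y.1 : ℤ) ((T : ℝ) ^ 3) hcfg.nc (by
      intro x hx
      rw [hE, Finset.mem_filter] at hx
      rw [Finset.mem_product]
      exact ⟨(hcfg.sub x hx.1).1, (hcfg.sub x hx.1).2.1⟩) (by
      have : y.2 ≠ 0 := by omega
      exact_mod_cast this) (by
      have : y.1 ≠ 0 := by omega
      exact_mod_cast this) (by nlinarith [sq_nonneg ((T : ℝ) - 2)]) hcon.le (by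
      have h2 : ((E y).image fun x => (y.2 : ℤ) • x.1 + (y.1 : ℤ) • x.2) ⊆
          R.image fun q => ((((y.1 : ℤ) + (y.2 : ℤ)) * q.1) / q.2.2,
            (((y.1 : ℤ) + (y.2 : ℤ)) * q.2.1) / q.2.2) := by
        intro v hv
        rw [Finset.mem_image] at hv ⊢
        obtain ⟨x, hx, rfl⟩ := hv
        rw [hE, Finset.mem_filter] at hx
        obtain ⟨hxG, hx1, hx2⟩ := hx
        refine ⟨f x, hcfg.mem x hxG, ?_⟩
        obtain ⟨e1, e2⟩ := sum_eq (hcfg.opp x hxG) (hpos x hxG).1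
        rw [hx1, hx2] at e1 e2
        have hD : (f x).2.2 ≠ 0 := by
          have := (hcfg.prim _ (hcfg.mem x hxG)).1
          omega
        ext
        · simp only [Prod.fst_add, Prod.smul_fst, smul_eq_mul]
          rw [← e1, Int.mul_ediv_cancel_left _ hD]
        · simp only [Prod.snd_add, Prod.smul_snd, smul_eq_mul]
          rw [← e2, Int.mul_ediv_cancel_left _ hD]
      have h3 : (((E y).image fun x => (y.2 : ℤ) • x.1 + (y.1 : ℤ) • x.2).card : ℝ) ≤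
          R.card := by
        exact_mod_cast (Finset.card_le_card h2).trans Finset.card_image_le
      refine h3.trans (hR.trans ?_)
      apply mul_le_mul_of_nonneg_right _ (Nat.cast_nonneg _)
      have h5 : (1 : ℝ) ≤ (T : ℝ) ^ 2 := by nlinarith
      calc (T : ℝ) = T * 1 := (mul_one _).symm
        _ ≤ T * (T : ℝ) ^ 2 := by gcongr
        _ = (T : ℝ) ^ 3 := by ring)
    rw [Real.log_pow] at h1
    push_cast at h1
    have h6 : C₃ * (3 * Real.log T) ^ 5 = 243 * C₃ * Real.log T ^ 5 := by ring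
    linarith
  have hsub : (G.filter fun x => (rho x.1 (f x) + rho x.2 (f x)) /
      Nat.gcd (rho x.1 (f x)) (rho x.2 (f x)) ≤ T) ⊆
      (Finset.Icc 1 T ×ˢ Finset.Icc 1 T).biUnion E := by
    intro x hx
    rw [Finset.mem_filter] at hx
    obtain ⟨hxG, hx1⟩ := hx
    obtain ⟨p1, p2⟩ := hpos x hxG
    have hg := Nat.gcd_pos_of_pos_left (rho x.2 (f x)) (Nat.pos_of_ne_zero p1)
    rw [Nat.add_div_of_dvd_right (Nat.gcd_dvd_left _ _)] at hx1
    have q1 := Nat.div_pos (Nat.le_of_dvd (Nat.pos_of_ne_zero p1)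
      (Nat.gcd_dvd_left (rho x.1 (f x)) (rho x.2 (f x)))) hg
    have q2 := Nat.div_pos (Nat.le_of_dvd (Nat.pos_of_ne_zero p2)
      (Nat.gcd_dvd_right (rho x.1 (f x)) (rho x.2 (f x)))) hg
    rw [Finset.mem_biUnion]
    refine ⟨(rho x.1 (f x) / Nat.gcd (rho x.1 (f x)) (rho x.2 (f x)),
      rho x.2 (f x) / Nat.gcd (rho x.1 (f x)) (rho x.2 (f x))), ?_, ?_⟩
    · rw [Finset.mem_product, Finset.mem_Icc, Finset.mem_Icc]
      refine ⟨⟨?_, ?_⟩, ?_, ?_⟩ <;> dsimp only <;> omega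
    · rw [hE, Finset.mem_filter]
      exact ⟨hxG, rfl, rfl⟩
  have h7 := (Finset.card_le_card hsub).trans Finset.card_biUnion_le
  have h8 : ((∑ y ∈ Finset.Icc 1 T ×ˢ Finset.Icc 1 T, (E y).card : ℕ) : ℝ) ≤
      ∑ y ∈ Finset.Icc 1 T ×ˢ Finset.Icc 1 T, (P.card : ℝ) ^ 2 / (T : ℝ) ^ 3 := by
    push_cast
    exact Finset.sum_le_sum hEc
  rw [Finset.sum_const, Finset.card_product, Nat.card_Icc, nsmul_eq_mul] at h8
  simp only [Nat.add_sub_cancel] at h8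
  push_cast at h8
  have h9 : (T : ℝ) * T * ((P.card : ℝ) ^ 2 / (T : ℝ) ^ 3) = (P.card : ℝ) ^ 2 / T := by
    field_simp
  rw [h9] at h8
  refine le_trans ?_ h8
  exact_mod_cast h7

end BlkAR
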