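import Pool.Agent.Work.MP_763b10_co.AR.Defs

/-!
# MP_763b10_co, board modar, module Num (M)

Asymptotics of the parameters.

Proof. `L = log n → ∞`. `ZZ n ≥ exp(2 L^(1/20))`, `ZZ n ≤ 2 exp(2 L^(1/20))`, so `2 L^(1/20) ≤ log ZZ n ≤ 2 L^(1/20) + 1`; `L^(1/10) ≤ RR n ≤ L^(1/10) + 1`;
`log SS n = RR n * log ZZ n ≤ (L^(1/10) + 1)(2 L^(1/20) + 1) ≤ 6 L^(3/20)` for large `n`, and `log SS n ≥ 2 L^(3/20)`.
`num_poly`: `a L^b KK n (n/ZZ n + 1) ≤ a L^b (n exp(-L^(1/20)) + exp(L^(1/20)))`; with `y = L^(1/20) → ∞` `L^b exp(-y) = y^(20 b) exp(-y) → 0`, and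
`L^b exp(L^(1/20)) ≤ exp(L/2) = √n` eventually. `num_smooth`: `R! ≥ (R/e)^R` (`Real.. factorial`, or Stirling; e.g. `exp R ≥ R^R/R!`), so
`(1 + log Z)^R/R! ≤ (e (2 + 2L^(1/20))/L^(1/10))^R ≤ exp(-2R)` for large `n` (base `→ 0`), times `KK n = exp(L^(1/20))` tends to `0`;
`ZZ^RR = SS ≤ exp(6 L^(3/20)) ≤ n^(1/2)/..`. `num_low`: `(log(2 SS n))^5 ≤ (7 L^(3/20))^5 = C L^(3/4)`, and `C L^(3/4) < L` eventually. The other statements are similar.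
-/

set_option autoImplicit false

namespace BlkAR

open Finset

private theorem nm_master {Q : ℝ → Prop} (hQ : ∀ᶠ y in Filter.atTop, Q y) : ∃ n₀ : ℕ,
    ∀ n : ℕ, n₀ ≤ n → ∃ y : ℝ, Q y ∧ 2 ≤ y ∧ Real.log n = y ^ 20 ∧ (n : ℝ) = Real.exp (y ^ 20) ∧
      KK n = Real.exp y ∧ Real.exp (2 * y) ≤ ZZ n ∧ (ZZ n : ℝ) ≤ Real.exp (2 * y + 1) ∧
      y ^ 2 ≤ RR n ∧ (RR n : ℝ) ≤ y ^ 2 + 1 := by
  have ht : Filter.Tendsto (fun n : ℕ => (Real.log n) ^ (1 / 20 : ℝ)) Filter.atTop Filter.atTop :=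
    (tendsto_rpow_atTop (by norm_num)).comp
      (Real.tendsto_log_atTop.comp tendsto_natCast_atTop_atTop)
  obtain ⟨n₀, h⟩ := Filter.eventually_atTop.1
    (ht.eventually (hQ.and (Filter.eventually_ge_atTop (2 : ℝ))))
  refine ⟨max n₀ 1, ?_⟩
  intro n hn
  obtain ⟨h1, h2⟩ := h n (le_trans (le_max_left _ _) hn)
  have hn1 : 1 ≤ n := le_trans (le_max_right _ _) hn
  have hlog0 : 0 ≤ Real.log n := Real.log_natCast_nonneg n
  have hn0 : (0 : ℝ) < n := by exact_mod_cast hn1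
  have hy20 : ((Real.log n) ^ (1 / 20 : ℝ)) ^ 20 = Real.log n := by
    rw [← Real.rpow_natCast, ← Real.rpow_mul hlog0]
    norm_num
  have hy2 : ((Real.log n) ^ (1 / 20 : ℝ)) ^ 2 = (Real.log n) ^ (1 / 10 : ℝ) := by
    rw [← Real.rpow_natCast, ← Real.rpow_mul hlog0]
    norm_num
  refine ⟨(Real.log n) ^ (1 / 20 : ℝ), h1, h2, hy20.symm, ?_, rfl, ?_, ?_, ?_, ?_⟩
  · rw [hy20, Real.exp_log hn0]
  · exact Nat.le_ceil _
  · have e1 : ((ZZ n : ℕ) : ℝ) < Real.exp (2 * (Real.log n) ^ (1 / 20 : ℝ)) + 1 :=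
      Nat.ceil_lt_add_one (Real.exp_pos _).le
    have e2 : (1 : ℝ) ≤ Real.exp (2 * (Real.log n) ^ (1 / 20 : ℝ)) :=
      Real.one_le_exp (by positivity)
    have e3 : (2 : ℝ) ≤ Real.exp 1 := by linarith [Real.add_one_le_exp (1 : ℝ)]
    rw [Real.exp_add]
    nlinarith
  · rw [hy2]
    exact Nat.le_ceil _
  · rw [hy2]
    exact (Nat.ceil_lt_add_one (Real.rpow_nonneg hlog0 _)).le

private theorem nm_tend (a ε : ℝ) (b : ℕ) (hε : 0 < ε) :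
    ∀ᶠ y : ℝ in Filter.atTop, 2 * |a| * (y ^ b * Real.exp (-y)) ≤ ε := by
  have h1 := (Real.tendsto_pow_mul_exp_neg_atTop_nhds_zero b).const_mul (2 * |a|)
  rw [mul_zero] at h1
  exact (h1.eventually (gt_mem_nhds hε)).mono fun y hy => le_of_lt hy

private theorem nm_pow {y : ℝ} (hy : 2 ≤ y) : 2 ^ 17 * y ^ 3 ≤ y ^ 20 ∧ y ≤ y ^ 3 ∧ y ^ 2 ≤ y ^ 3 ∧
    1 ≤ y ^ 3 := by
  have h1 : (2 : ℝ) ^ 17 ≤ y ^ 17 := pow_le_pow_left₀ (by norm_num) hy 17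
  have h3 : 0 ≤ y ^ 3 := by positivity
  have hy1 : 1 ≤ y := by linarith
  refine ⟨?_, ?_, ?_, ?_⟩
  · calc (2 : ℝ) ^ 17 * y ^ 3 ≤ y ^ 17 * y ^ 3 := mul_le_mul_of_nonneg_right h1 h3
      _ = y ^ 20 := by ring
  · exact le_self_pow₀ hy1 (by norm_num)
  · exact pow_le_pow_right₀ hy1 (by norm_num)
  · exact one_le_pow₀ hy1

private theorem nm_logZ {y Z : ℝ} (h1 : Real.exp (2 * y) ≤ Z) (h2 : Z ≤ Real.exp (2 * y + 1)) :
    0 < Z ∧ 2 * y ≤ Real.log Z ∧ Real.log Z ≤ 2 * y + 1 := by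
  have h0 : 0 < Z := lt_of_lt_of_le (Real.exp_pos _) h1
  refine ⟨h0, ?_, ?_⟩
  · rw [Real.le_log_iff_exp_le h0]
    exact h1
  · rw [Real.log_le_iff_le_exp h0]
    exact h2

private theorem nm_SS {n : ℕ} {y : ℝ} (hy : 2 ≤ y) (h1 : Real.exp (2 * y) ≤ ZZ n)
    (h2 : (ZZ n : ℝ) ≤ Real.exp (2 * y + 1)) (h3 : y ^ 2 ≤ RR n) (h4 : (RR n : ℝ) ≤ y ^ 2 + 1) :
    Real.log (SS n) ≤ 6 * y ^ 3 ∧ 0 ≤ Real.log (SS n) ∧ (0 : ℝ) < SS n := by
  obtain ⟨z0, z1, z2⟩ := nm_logZ h1 h2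
  obtain ⟨p1, p2, p3, p4⟩ := nm_pow hy
  have hS : (SS n : ℝ) = (ZZ n : ℝ) ^ RR n := by
    unfold SS
    push_cast
    rfl
  rw [hS, Real.log_pow]
  refine ⟨?_, ?_, ?_⟩
  · have e1 : (RR n : ℝ) * Real.log (ZZ n) ≤ (y ^ 2 + 1) * (2 * y + 1) :=
      mul_le_mul h4 z2 (by linarith) (by positivity)
    nlinarith
  · exact mul_nonneg (Nat.cast_nonneg _) (by linarith)
  · positivity

theorem num_poly (a ε : ℝ) (b : ℕ) (hε : 0 < ε) : ∃ n₀ : ℕ, ∀ n : ℕ, n₀ ≤ n →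
    a * (Real.log n) ^ b * (KK n * ((n : ℝ) / ZZ n + 1)) ≤ ε * n := by
  obtain ⟨n₀, hn₀⟩ := nm_master (nm_tend a ε (20 * b) hε)
  refine ⟨n₀, ?_⟩
  intro n hn
  obtain ⟨y, hQ, hy, hL, hnE, hK, hZ1, hZ2, -, -⟩ := hn₀ n hn
  obtain ⟨p1, p2, p3, p4⟩ := nm_pow hy
  rw [hL, hK, hnE, ← pow_mul]
  have hZ0 : (0 : ℝ) < ZZ n := lt_of_lt_of_le (Real.exp_pos _) hZ1
  have e1 : Real.exp (y ^ 20) / ZZ n ≤ Real.exp (y ^ 20 - 2 * y) := by
    rw [Real.exp_sub]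
    exact div_le_div_of_nonneg_left (Real.exp_pos _).le (Real.exp_pos _) hZ1
  have e2 : Real.exp y * (Real.exp (y ^ 20) / ZZ n + 1) ≤ 2 * (Real.exp (-y) * Real.exp (y ^ 20)) := by
    have e3 : Real.exp y * Real.exp (y ^ 20 - 2 * y) = Real.exp (-y) * Real.exp (y ^ 20) := by
      rw [← Real.exp_add, ← Real.exp_add]
      congr 1
      ring
    have e4 : Real.exp y ≤ Real.exp (-y) * Real.exp (y ^ 20) := by
      rw [← Real.exp_add]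
      apply Real.exp_le_exp.2
      nlinarith
    have e5 : Real.exp y * (Real.exp (y ^ 20) / ZZ n) ≤ Real.exp y * Real.exp (y ^ 20 - 2 * y) :=
      mul_le_mul_of_nonneg_left e1 (Real.exp_pos _).le
    rw [mul_add, mul_one]
    linarith
  have e6 : 0 ≤ Real.exp y * (Real.exp (y ^ 20) / ZZ n + 1) := by positivity
  calc a * y ^ (20 * b) * (Real.exp y * (Real.exp (y ^ 20) / ZZ n + 1))
      ≤ |a| * y ^ (20 * b) * (Real.exp y * (Real.exp (y ^ 20) / ZZ n + 1)) :=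
        mul_le_mul_of_nonneg_right (mul_le_mul_of_nonneg_right (le_abs_self a) (by positivity)) e6
    _ ≤ |a| * y ^ (20 * b) * (2 * (Real.exp (-y) * Real.exp (y ^ 20))) :=
        mul_le_mul_of_nonneg_left e2 (by positivity)
    _ = (2 * |a| * (y ^ (20 * b) * Real.exp (-y))) * Real.exp (y ^ 20) := by ring
    _ ≤ ε * Real.exp (y ^ 20) := mul_le_mul_of_nonneg_right hQ (Real.exp_pos _).le

theorem num_smooth (ε : ℝ) (hε : 0 < ε) : ∃ n₀ : ℕ, ∀ n : ℕ, n₀ ≤ n →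
    KK n * ((n : ℝ) * (1 + Real.log (ZZ n)) ^ RR n / (RR n).factorial + (ZZ n : ℝ) ^ RR n) ≤
      ε * n := by
  have hev : ∀ᶠ y : ℝ in Filter.atTop, 2 * |(1 : ℝ)| * (y ^ 0 * Real.exp (-y)) ≤ ε ∧
      4 * Real.exp 3 + 1 ≤ y := (nm_tend 1 ε 0 hε).and (Filter.eventually_ge_atTop _)
  obtain ⟨n₀, hn₀⟩ := nm_master hev
  refine ⟨n₀, ?_⟩
  intro n hn
  obtain ⟨y, ⟨hQ, hc⟩, hy, hL, hnE, hK, hZ1, hZ2, hR1, hR2⟩ := hn₀ n hn
  obtain ⟨p1, p2, p3, p4⟩ := nm_pow hy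
  obtain ⟨z0, z1, z2⟩ := nm_logZ hZ1 hZ2
  obtain ⟨s1, s2, s3⟩ := nm_SS hy hZ1 hZ2 hR1 hR2
  rw [pow_zero, one_mul, abs_one, mul_one] at hQ
  rw [hK, hnE]
  have hy0 : 0 < y := by linarith
  -- the first term
  have e1 : (1 + Real.log (ZZ n)) ^ RR n / (RR n).factorial ≤
      Real.exp (4 * Real.exp 3 * y - 3 * y ^ 2) := by
    have e2 : (1 + Real.log (ZZ n)) ^ RR n ≤ (4 * y) ^ RR n :=
      pow_le_pow_left₀ (by linarith) (by linarith) _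
    have e3 := Real.pow_div_factorial_le_exp (4 * y * Real.exp 3) (by positivity) (RR n)
    rw [mul_pow, ← Real.exp_nat_mul] at e3
    have e4 : (4 * y) ^ RR n / (RR n).factorial ≤
        Real.exp (4 * y * Real.exp 3) * Real.exp (-((RR n : ℝ) * 3)) := by
      have e5 : (4 * y) ^ RR n / (RR n).factorial =
          ((4 * y) ^ RR n * Real.exp ((RR n : ℝ) * 3) / (RR n).factorial) *
            Real.exp (-((RR n : ℝ) * 3)) := by
        have e0 : Real.exp ((RR n : ℝ) * 3) * Real.exp (-((RR n : ℝ) * 3)) = 1 := by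
          rw [← Real.exp_add, add_neg_cancel, Real.exp_zero]
        calc (4 * y) ^ RR n / ((RR n).factorial : ℝ) =
            (4 * y) ^ RR n / ((RR n).factorial : ℝ) *
              (Real.exp ((RR n : ℝ) * 3) * Real.exp (-((RR n : ℝ) * 3))) := by rw [e0, mul_one]
          _ = _ := by ring
      rw [e5]
      exact mul_le_mul_of_nonneg_right e3 (Real.exp_pos _).le
    calc (1 + Real.log (ZZ n)) ^ RR n / (RR n).factorial ≤ (4 * y) ^ RR n / (RR n).factorial :=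
          div_le_div_of_nonneg_right e2 (by positivity)
      _ ≤ Real.exp (4 * y * Real.exp 3) * Real.exp (-((RR n : ℝ) * 3)) := e4
      _ = Real.exp (4 * y * Real.exp 3 + -((RR n : ℝ) * 3)) := by rw [← Real.exp_add]
      _ ≤ Real.exp (4 * Real.exp 3 * y - 3 * y ^ 2) := by
        apply Real.exp_le_exp.2
        linarith
  have e6 : Real.exp y * (Real.exp (4 * Real.exp 3 * y - 3 * y ^ 2)) ≤ Real.exp (-y) := by
    rw [← Real.exp_add]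
    apply Real.exp_le_exp.2
    have : (4 * Real.exp 3 + 1) * y ≤ y * y := mul_le_mul_of_nonneg_right hc hy0.le
    nlinarith
  -- the second term
  have e7 : (ZZ n : ℝ) ^ RR n = Real.exp (Real.log (SS n)) := by
    rw [Real.exp_log s3]
    unfold SS
    push_cast
    rfl
  have e8 : Real.exp y * (ZZ n : ℝ) ^ RR n ≤ Real.exp (-y) * Real.exp (y ^ 20) := by
    rw [e7, ← Real.exp_add, ← Real.exp_add]
    apply Real.exp_le_exp.2
    nlinarith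
  have e9 : Real.exp y * (Real.exp (y ^ 20) * (1 + Real.log (ZZ n)) ^ RR n / (RR n).factorial) ≤
      Real.exp (-y) * Real.exp (y ^ 20) := by
    calc Real.exp y * (Real.exp (y ^ 20) * (1 + Real.log (ZZ n)) ^ RR n / (RR n).factorial)
        = Real.exp (y ^ 20) * (Real.exp y *
          ((1 + Real.log (ZZ n)) ^ RR n / (RR n).factorial)) := by ring
      _ ≤ Real.exp (y ^ 20) * (Real.exp y * Real.exp (4 * Real.exp 3 * y - 3 * y ^ 2)) :=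
        mul_le_mul_of_nonneg_left (mul_le_mul_of_nonneg_left e1 (Real.exp_pos _).le)
          (Real.exp_pos _).le
      _ ≤ Real.exp (y ^ 20) * Real.exp (-y) := mul_le_mul_of_nonneg_left e6 (Real.exp_pos _).le
      _ = Real.exp (-y) * Real.exp (y ^ 20) := mul_comm _ _
  have e10 : 2 * Real.exp (-y) * Real.exp (y ^ 20) ≤ ε * Real.exp (y ^ 20) :=
    mul_le_mul_of_nonneg_right hQ (Real.exp_pos _).le
  rw [mul_add]
  linarith

theorem num_low (C : ℝ) : ∃ n₀ : ℕ, ∀ n : ℕ, n₀ ≤ n →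
    C * (Real.log ((2 * SS n : ℕ) : ℝ)) ^ 5 < Real.log n := by
  obtain ⟨n₀, hn₀⟩ := nm_master (Filter.eventually_ge_atTop (|C| * 7 ^ 5 + 1))
  refine ⟨n₀, ?_⟩
  intro n hn
  obtain ⟨y, hQ, hy, hL, hnE, hK, hZ1, hZ2, hR1, hR2⟩ := hn₀ n hn
  obtain ⟨p1, p2, p3, p4⟩ := nm_pow hy
  obtain ⟨s1, s2, s3⟩ := nm_SS hy hZ1 hZ2 hR1 hR2
  have e1 : Real.log ((2 * SS n : ℕ) : ℝ) ≤ 7 * y ^ 3 := by
    push_cast
    rw [Real.log_mul (by norm_num) s3.ne']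
    have := Real.log_two_lt_d9
    linarith
  have e2 : 0 ≤ Real.log ((2 * SS n : ℕ) : ℝ) := Real.log_natCast_nonneg _
  have e3 : (Real.log ((2 * SS n : ℕ) : ℝ)) ^ 5 ≤ (7 * y ^ 3) ^ 5 := pow_le_pow_left₀ e2 e1 5
  rw [hL]
  have hy0 : 0 < y := by linarith
  have e4 : y ≤ y ^ 5 := le_self_pow₀ (by linarith) (by norm_num)
  calc C * (Real.log ((2 * SS n : ℕ) : ℝ)) ^ 5 ≤ |C| * (Real.log ((2 * SS n : ℕ) : ℝ)) ^ 5 :=
        mul_le_mul_of_nonneg_right (le_abs_self C) (by positivity)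
    _ ≤ |C| * (7 * y ^ 3) ^ 5 := mul_le_mul_of_nonneg_left e3 (abs_nonneg C)
    _ = (|C| * 7 ^ 5) * y ^ 15 := by ring
    _ < y ^ 5 * y ^ 15 := mul_lt_mul_of_pos_right (by linarith) (by positivity)
    _ = y ^ 20 := by ring

theorem num_SS (C : ℝ) : ∃ n₀ : ℕ, ∀ n : ℕ, n₀ ≤ n → C ≤ (SS n : ℝ) := by
  obtain ⟨n₀, hn₀⟩ := nm_master (Filter.eventually_ge_atTop C)
  refine ⟨n₀, ?_⟩
  intro n hn
  obtain ⟨y, hQ, hy, hL, hnE, hK, hZ1, hZ2, hR1, hR2⟩ := hn₀ n hn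
  have hS : (SS n : ℝ) = (ZZ n : ℝ) ^ RR n := by
    unfold SS
    push_cast
    rfl
  have h1 : (1 : ℝ) ≤ RR n := by nlinarith
  have h2 : RR n ≠ 0 := by
    intro h0
    rw [h0, Nat.cast_zero] at h1
    linarith
  have h3 : y ≤ ZZ n := by
    have := Real.add_one_le_exp (2 * y)
    linarith
  have h4 : (1 : ℝ) ≤ ZZ n := by linarith
  rw [hS]
  exact (hQ.trans h3).trans (le_self_pow₀ h4 h2)

/-- `Z ≥ 2`, `R ≥ 1`, `K ≥ 2`, `C log n < log n * log Z` and `n^(1/8) * 2 S ≤ n^(1/3)`. -/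
theorem num_misc (C : ℝ) : ∃ n₀ : ℕ, ∀ n : ℕ, n₀ ≤ n → 2 ≤ ZZ n ∧ 1 ≤ RR n ∧ 2 ≤ KK n ∧
    C * Real.log n < Real.log n * Real.log (ZZ n) ∧
    (n : ℝ) ^ (1 / 8 : ℝ) * (2 * SS n) ≤ (n : ℝ) ^ (1 / 3 : ℝ) := by
  obtain ⟨n₀, hn₀⟩ := nm_master (Filter.eventually_ge_atTop C)
  refine ⟨n₀, ?_⟩
  intro n hn
  obtain ⟨y, hQ, hy, hL, hnE, hK, hZ1, hZ2, hR1, hR2⟩ := hn₀ n hn
  obtain ⟨p1, p2, p3, p4⟩ := nm_pow hy
  obtain ⟨s1, s2, s3⟩ := nm_SS hy hZ1 hZ2 hR1 hR2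
  obtain ⟨z0, z1, z2⟩ := nm_logZ hZ1 hZ2
  refine ⟨?_, ?_, ?_, ?_, ?_⟩
  · have h1 : (2 : ℝ) ≤ ZZ n := by
      have := Real.add_one_le_exp (2 * y)
      linarith
    exact_mod_cast h1
  · have h1 : (1 : ℝ) ≤ RR n := by nlinarith
    exact_mod_cast h1
  · rw [hK]
    have := Real.add_one_le_exp y
    linarith
  · rw [hL, mul_comm C]
    apply mul_lt_mul_of_pos_left _ (by positivity)
    linarith
  · have e1 : ∀ c : ℝ, (n : ℝ) ^ c = Real.exp (y ^ 20 * c) := by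
      intro c
      rw [hnE, ← Real.exp_mul]
    rw [e1, e1]
    have e2 : (2 : ℝ) * SS n = Real.exp (Real.log 2 + Real.log (SS n)) := by
      rw [Real.exp_add, Real.exp_log (by norm_num), Real.exp_log s3]
    rw [e2, ← Real.exp_add]
    apply Real.exp_le_exp.2
    have := Real.log_two_lt_d9
    nlinarith

/-- powers of `log n` against powers of `n` -/
theorem num_pow (a ε : ℝ) (b : ℕ) (hε : 0 < ε) : ∃ n₀ : ℕ, ∀ n : ℕ, n₀ ≤ n →
    a * (Real.log n) ^ b * (n : ℝ) ^ (2 / 3 : ℝ) ≤ ε * n ∧ 1 ≤ Real.log n := by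
  obtain ⟨n₀, hn₀⟩ := nm_master (nm_tend a ε (20 * b) hε)
  refine ⟨n₀, ?_⟩
  intro n hn
  obtain ⟨y, hQ, hy, hL, hnE, hK, hZ1, hZ2, -, -⟩ := hn₀ n hn
  obtain ⟨p1, p2, p3, p4⟩ := nm_pow hy
  have e1 : (n : ℝ) ^ (2 / 3 : ℝ) ≤ Real.exp (-y) * Real.exp (y ^ 20) := by
    rw [hnE, ← Real.exp_mul, ← Real.exp_add]
    apply Real.exp_le_exp.2
    nlinarith
  constructor
  · rw [hL, ← pow_mul]
    calc a * y ^ (20 * b) * (n : ℝ) ^ (2 / 3 : ℝ) ≤ |a| * y ^ (20 * b) * (n : ℝ) ^ (2 / 3 : ℝ) :=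
          mul_le_mul_of_nonneg_right (mul_le_mul_of_nonneg_right (le_abs_self a) (by positivity))
            (by positivity)
      _ ≤ |a| * y ^ (20 * b) * (2 * (Real.exp (-y) * Real.exp (y ^ 20))) := by
          apply mul_le_mul_of_nonneg_left _ (by positivity)
          have : 0 ≤ Real.exp (-y) * Real.exp (y ^ 20) := by positivity
          linarith
      _ = (2 * |a| * (y ^ (20 * b) * Real.exp (-y))) * Real.exp (y ^ 20) := by ring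
      _ ≤ ε * Real.exp (y ^ 20) := mul_le_mul_of_nonneg_right hQ (Real.exp_pos _).le
      _ = ε * n := by rw [hnE]
  · rw [hL]
    nlinarith

end BlkAR
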