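import Pool.Agent.Work.MP_763b10_co.AR.Pmf
import Pool.Agent.Work.MP_763b10_co.AR.Cls

/-!
# MP_763b10_co, board modar, module Smooth (M)

The part of `rho p q` with prime powers `< Z` is small for most `p`.

Proof. Let `sml Z (rho p q) > Z^R`. `J_p = {l^v : l prime factor, v = exponent, l^v < Z} ⊆ [2, Z)`; its elements are pairwise coprime with product
`> Z^R`, so `|J_p| > R`; choose `J ⊆ J_p` with `|J| = R`: `∏ J ∣ rho p q`. For each `R`-subset `J` of `[2, Z)` with `m = ∏ J` the number of `p ∈ P` with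
`m ∣ rho p q` is at most `K (n/m + 1)` (`cls`). Sum over `J`: `∑_J 1/∏J ≤ (∑_{2≤i<Z} 1/i)^R / R! ≤ (1 + log Z)^R/R!`
(elementary symmetric sums: every `R`-subset is counted `R!` times in the expansion of the power; or by induction on the set; Mathlib may have it
as an inequality for `Finset.esymm` / `Finset.prod_pow_le..`; `∑_{i≤Z} 1/i ≤ 1 + log Z` is `harmonic_le_one_add_log`), and the number of `J` is at most
`Z^R`.
-/

set_option autoImplicit false

namespace BlkAR

open Finset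

private theorem sm_pow {S x : ℝ} (hS : 0 ≤ S) (hx : 0 ≤ x) (n : ℕ) :
    S ^ (n + 1) + (n + 1) * (x * S ^ n) ≤ (x + S) ^ (n + 1) := by
  induction n with
  | zero => simp; linarith
  | succ n ih =>
    have h1 : (x + S) * (S ^ (n + 1) + (n + 1) * (x * S ^ n)) ≤ (x + S) * (x + S) ^ (n + 1) :=
      mul_le_mul_of_nonneg_left ih (by linarith)
    have h2 : 0 ≤ x * ((n + 1) * (x * S ^ n)) := by positivity
    have h3 : (x + S) ^ (n + 1 + 1) = (x + S) * (x + S) ^ (n + 1) := by ring
    rw [h3]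
    refine le_trans ?_ h1
    push_cast
    have h4 : (x + S) * (S ^ (n + 1) + (n + 1) * (x * S ^ n)) =
        S ^ (n + 1 + 1) + ((n : ℝ) + 1 + 1) * (x * S ^ (n + 1)) + x * ((n + 1) * (x * S ^ n)) := by
      ring
    rw [h4]
    linarith

private theorem sm_sym (x : ℕ → ℝ) (hx : ∀ i, 0 ≤ x i) (s : Finset ℕ) : ∀ n : ℕ,
    (n.factorial : ℝ) * ∑ J ∈ powersetCard n s, ∏ i ∈ J, x i ≤ (∑ i ∈ s, x i) ^ n := by
  classical
  induction s using Finset.induction_on with
  | empty =>
    intro n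
    cases n with
    | zero => simp
    | succ n =>
      rw [powersetCard_eq_empty.2 (by simp)]
      simp
  | insert a s ha ih =>
    intro n
    cases n with
    | zero => simp
    | succ n =>
      have hS : 0 ≤ ∑ i ∈ s, x i := Finset.sum_nonneg fun i _ => hx i
      rw [powersetCard_succ_insert ha, Finset.sum_union, Finset.sum_image, Finset.sum_insert ha]
      · have h1 : ∑ J ∈ powersetCard n s, ∏ i ∈ insert a J, x i =
            x a * ∑ J ∈ powersetCard n s, ∏ i ∈ J, x i := by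
          rw [Finset.mul_sum]
          refine Finset.sum_congr rfl fun J hJ => ?_
          rw [Finset.prod_insert]
          intro haJ
          exact ha ((mem_powersetCard.1 hJ).1 haJ)
        rw [h1]
        have h2 := ih (n + 1)
        have h3 := ih n
        have h4 := sm_pow hS (hx a) n
        rw [Nat.factorial_succ] at h2 ⊢
        push_cast at h2 ⊢
        have h5 : ((n : ℝ) + 1) * (x a * ((n.factorial : ℝ) *
            ∑ J ∈ powersetCard n s, ∏ i ∈ J, x i)) ≤
            ((n : ℝ) + 1) * (x a * (∑ i ∈ s, x i) ^ n) := by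
          refine mul_le_mul_of_nonneg_left (mul_le_mul_of_nonneg_left h3 (hx a)) (by positivity)
        linarith
      · intro J hJ J' hJ' hJJ
        rw [Finset.mem_coe, mem_powersetCard] at hJ hJ'
        have h1 := congrArg (fun T => Finset.erase T a) hJJ
        rw [Finset.erase_insert (fun h => ha (hJ.1 h)),
          Finset.erase_insert (fun h => ha (hJ'.1 h))] at h1
        exact h1
      · rw [Finset.disjoint_left]
        intro J hJ hJ'
        rw [mem_powersetCard] at hJ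
        obtain ⟨T, -, rfl⟩ := Finset.mem_image.1 hJ'
        exact ha (hJ.1 (Finset.mem_insert_self a T))

private theorem sm_harm (Z : ℕ) : ∑ i ∈ Ico 2 Z, (1 : ℝ) / i ≤ 1 + Real.log Z := by
  refine le_trans ?_ (harmonic_le_one_add_log Z)
  rw [harmonic_eq_sum_Icc]
  push_cast
  have h1 : Ico 2 Z ⊆ Icc 1 Z := by
    intro i hi
    rw [mem_Ico] at hi
    rw [mem_Icc]
    omega
  refine le_trans (le_of_eq ?_) (Finset.sum_le_sum_of_subset_of_nonneg h1 fun i _ _ => by positivity)
  exact Finset.sum_congr rfl fun i _ => one_div _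

/-- the choice of the prime powers -/
private theorem sm_choose {Z R ρ : ℕ} (hZ : 2 ≤ Z) (hρ : ρ ≠ 0) (h : Z ^ R < sml Z ρ) :
    ∃ J ∈ powersetCard R (Ico 2 Z), (∏ i ∈ J, i) ∣ ρ := by
  classical
  obtain ⟨S, hS⟩ : ∃ S : Finset ℕ,
      S = ρ.primeFactors.filter (fun l => l ^ ρ.factorization l < Z) := ⟨_, rfl⟩
  have hsml : sml Z ρ = ∏ l ∈ S, l ^ ρ.factorization l := by
    rw [hS]
    rfl
  have hmem : ∀ l ∈ S, l.Prime ∧ 1 ≤ ρ.factorization l ∧ l ^ ρ.factorization l < Z := by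
    intro l hl
    rw [hS, mem_filter, Nat.mem_primeFactors] at hl
    exact ⟨hl.1.1, (hl.1.1.dvd_iff_one_le_factorization hρ).1 hl.1.2.1, hl.2⟩
  have hcard : R ≤ S.card := by
    by_contra hlt
    have h1 : sml Z ρ ≤ Z ^ S.card := by
      rw [hsml]
      exact Finset.prod_le_pow_card _ _ _ fun l hl => (hmem l hl).2.2.le
    have h2 : Z ^ S.card ≤ Z ^ R := Nat.pow_le_pow_right (by omega) (by omega)
    omega
  obtain ⟨T, hTS, hTc⟩ := Finset.exists_subset_card_eq hcard
  have hinj : Set.InjOn (fun l => l ^ ρ.factorization l) (T : Set ℕ) := by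
    intro l hl l' hl' heq
    obtain ⟨p1, p2, -⟩ := hmem l (hTS hl)
    obtain ⟨p1', p2', -⟩ := hmem l' (hTS hl')
    have h1 : l ∣ l' ^ ρ.factorization l' := by
      have h2 : l ^ ρ.factorization l = l' ^ ρ.factorization l' := heq
      rw [← h2]
      exact dvd_pow_self l (by omega)
    exact (Nat.prime_dvd_prime_iff_eq p1 p1').1 (p1.dvd_of_dvd_pow h1)
  refine ⟨T.image fun l => l ^ ρ.factorization l, ?_, ?_⟩
  · rw [mem_powersetCard, Finset.card_image_of_injOn hinj]
    refine ⟨fun i hi => ?_, hTc⟩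
    obtain ⟨l, hl, rfl⟩ := mem_image.1 hi
    obtain ⟨p1, p2, p3⟩ := hmem l (hTS hl)
    rw [mem_Ico]
    refine ⟨?_, p3⟩
    exact p1.two_le.trans (Nat.le_self_pow (by omega) l)
  · rw [Finset.prod_image hinj]
    have h1 : (∏ l ∈ T, l ^ ρ.factorization l) ∣ sml Z ρ := by
      rw [hsml]
      exact Finset.prod_dvd_prod_of_subset _ _ _ hTS
    exact h1.trans (Dvd.intro_left _ (big_mul_sml hρ))

theorem smooth {K : ℝ} {P : Finset (ℤ × ℤ)} (h : Spr K P) {q : ℤ × ℤ × ℤ} (hq : Prim q)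
    (ho : ∀ p ∈ P, rho p q ≠ 0) (Z R : ℕ) (hZ : 2 ≤ Z) (hR : 1 ≤ R) :
    ((P.filter fun p => Z ^ R < sml Z (rho p q)).card : ℝ) ≤
      K * ((P.card : ℝ) * (1 + Real.log Z) ^ R / R.factorial + (Z : ℝ) ^ R) := by
  classical
  have _ := hR
  have hK : 0 ≤ K := spr_nonneg h
  obtain ⟨JJ, hJJ⟩ : ∃ JJ : Finset (Finset ℕ), JJ = powersetCard R (Ico 2 Z) := ⟨_, rfl⟩
  have hsub : (P.filter fun p => Z ^ R < sml Z (rho p q)) ⊆
      JJ.biUnion fun J => P.filter fun p => (∏ i ∈ J, i) ∣ rho p q := by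
    intro p hp
    rw [mem_filter] at hp
    obtain ⟨J, hJ, hd⟩ := sm_choose hZ (ho p hp.1) hp.2
    rw [mem_biUnion]
    refine ⟨J, ?_, ?_⟩
    · rw [hJJ]
      exact hJ
    · rw [mem_filter]
      exact ⟨hp.1, hd⟩
  have h1 := (Finset.card_le_card hsub).trans Finset.card_biUnion_le
  have h2 : ((P.filter fun p => Z ^ R < sml Z (rho p q)).card : ℝ) ≤
      ∑ J ∈ JJ, ((P.filter fun p => (∏ i ∈ J, i) ∣ rho p q).card : ℝ) := by exact_mod_cast h1
  refine h2.trans ?_
  have h3 : ∀ J ∈ JJ, ((P.filter fun p => (∏ i ∈ J, i) ∣ rho p q).card : ℝ) ≤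
      K * ((P.card : ℝ) * ∏ i ∈ J, (1 : ℝ) / i + 1) := by
    intro J hJ
    rw [hJJ, mem_powersetCard] at hJ
    have h4 : 1 ≤ ∏ i ∈ J, i := by
      refine Nat.one_le_iff_ne_zero.2 (Finset.prod_ne_zero_iff.2 fun i hi => ?_)
      have := (mem_Ico.1 (hJ.1 hi)).1
      omega
    refine (cls h hq h4).trans (le_of_eq ?_)
    push_cast
    rw [Finset.prod_div_distrib, Finset.prod_const_one]
    ring
  refine (Finset.sum_le_sum h3).trans ?_
  rw [← Finset.mul_sum, Finset.sum_add_distrib, ← Finset.mul_sum, Finset.sum_const, nsmul_eq_mul,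
    mul_one]
  refine mul_le_mul_of_nonneg_left ?_ hK
  have h5 : (JJ.card : ℝ) ≤ (Z : ℝ) ^ R := by
    have h6 : JJ.card ≤ Z ^ R := by
      rw [hJJ, card_powersetCard, Nat.card_Ico]
      exact (Nat.choose_le_pow _ _).trans (Nat.pow_le_pow_left (by omega) R)
    exact_mod_cast h6
  have h7 : ∑ J ∈ JJ, ∏ i ∈ J, (1 : ℝ) / i ≤ (1 + Real.log Z) ^ R / R.factorial := by
    have hf : (0 : ℝ) < R.factorial := by exact_mod_cast R.factorial_pos
    rw [le_div_iff₀ hf, mul_comm, hJJ]
    refine (sm_sym (fun i => (1 : ℝ) / i) (fun i => by positivity) (Ico 2 Z) R).trans ?_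
    exact pow_le_pow_left₀ (Finset.sum_nonneg fun i _ => by positivity) (sm_harm Z) R
  have h8 := mul_le_mul_of_nonneg_left h7 (Nat.cast_nonneg (α := ℝ) P.card)
  rw [← mul_div_assoc] at h8
  linarith

end BlkAR
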