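import Pool.Agent.Work.MP_763b10_co.AR.Uniq

/-!
# MP_763b10_co, board modar, module Two (S)

Proof. `two`: send `x ∈ G'` to `(x.1, f x)` if this is in `N`, else to `(x.2, f x)`; by `uniq1`, `uniq2` every element of `N` has at most two preimages. `two'`: the same with a bound
`δ` for every `q`: the pairs `x ∈ G'` with `f x = q` and `x.1 ∈ N q` are determined by `x.1`. `restr`: `|G| ≥ n² - C n` pairs, `G ⊆ P × P`: at most `C n` of the ordered pairs of
`P₁` are missing.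
-/

set_option autoImplicit false

namespace BlkAR

open Finset

variable {P : Finset (ℤ × ℤ)} {R : Finset (ℤ × ℤ × ℤ)} {G : Finset ((ℤ × ℤ) × (ℤ × ℤ))}
  {f : (ℤ × ℤ) × (ℤ × ℤ) → ℤ × ℤ × ℤ} {W : ℝ}

theorem two (h : Cfg P R G f W) (G' : Finset ((ℤ × ℤ) × (ℤ × ℤ))) (hG : G' ⊆ G)
    (N : Finset ((ℤ × ℤ) × (ℤ × ℤ × ℤ)))
    (hN : ∀ x ∈ G', (x.1, f x) ∈ N ∨ (x.2, f x) ∈ N) : G'.card ≤ 2 * N.card := by
  classical
  have hsub : G' ⊆ G'.filter (fun x => (x.1, f x) ∈ N) ∪ G'.filter (fun x => (x.2, f x) ∈ N) := by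
    intro x hx
    rw [mem_union, mem_filter, mem_filter]
    exact (hN x hx).imp (fun h => ⟨hx, h⟩) (fun h => ⟨hx, h⟩)
  have h1 : (G'.filter (fun x => (x.1, f x) ∈ N)).card ≤ N.card := by
    refine card_le_card_of_injOn (fun x => (x.1, f x)) (fun x hx => (mem_filter.mp hx).2) ?_
    intro x hx y hy hxy
    have hx' := mem_filter.mp (mem_coe.mp hx)
    have hy' := mem_filter.mp (mem_coe.mp hy)
    have e := Prod.mk.inj hxy
    exact uniq1 h (hG hx'.1) (hG hy'.1) e.1 e.2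
  have h2 : (G'.filter (fun x => (x.2, f x) ∈ N)).card ≤ N.card := by
    refine card_le_card_of_injOn (fun x => (x.2, f x)) (fun x hx => (mem_filter.mp hx).2) ?_
    intro x hx y hy hxy
    have hx' := mem_filter.mp (mem_coe.mp hx)
    have hy' := mem_filter.mp (mem_coe.mp hy)
    have e := Prod.mk.inj hxy
    exact uniq2 h (hG hx'.1) (hG hy'.1) e.1 e.2
  have h3 := (card_le_card hsub).trans (card_union_le _ _)
  omega

theorem two' (h : Cfg P R G f W) (G' : Finset ((ℤ × ℤ) × (ℤ × ℤ))) (hG : G' ⊆ G)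
    (N : ℤ × ℤ × ℤ → Finset (ℤ × ℤ)) (hN : ∀ x ∈ G', x.1 ∈ N (f x) ∨ x.2 ∈ N (f x)) (δ : ℝ)
    (hδ : ∀ q ∈ R, ((N q).card : ℝ) ≤ δ) : (G'.card : ℝ) ≤ 2 * (R.card * δ) := by
  classical
  have key : ∀ g : (ℤ × ℤ) × (ℤ × ℤ) → ℤ × ℤ,
      (∀ x ∈ G', ∀ y ∈ G', g x = g y → f x = f y → x = y) →
      ((G'.filter (fun x => g x ∈ N (f x))).card : ℝ) ≤ R.card * δ := by
    intro g hg
    have h1 : (G'.filter (fun x => g x ∈ N (f x))).card =
        ∑ q ∈ R, ((G'.filter (fun x => g x ∈ N (f x))).filter (fun x => f x = q)).card :=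
      card_eq_sum_card_fiberwise (fun x hx => h.mem x (hG (mem_filter.mp (mem_coe.mp hx)).1))
    have h2 : ∀ q ∈ R,
        (((G'.filter (fun x => g x ∈ N (f x))).filter (fun x => f x = q)).card : ℝ) ≤ δ := by
      intro q hq
      refine le_trans ?_ (hδ q hq)
      rw [Nat.cast_le]
      refine card_le_card_of_injOn g (fun x hx => ?_) ?_
      · have h3 := mem_filter.mp hx
        have h4 := mem_filter.mp h3.1
        rw [← h3.2]
        exact h4.2
      · intro x hx y hy hxy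
        have h3 := mem_filter.mp (mem_coe.mp hx)
        have h4 := mem_filter.mp (mem_coe.mp hy)
        exact hg x (mem_filter.mp h3.1).1 y (mem_filter.mp h4.1).1 hxy (h3.2.trans h4.2.symm)
    rw [h1, Nat.cast_sum]
    calc ∑ q ∈ R, (((G'.filter (fun x => g x ∈ N (f x))).filter (fun x => f x = q)).card : ℝ)
        ≤ ∑ q ∈ R, δ := sum_le_sum h2
      _ = R.card * δ := by rw [sum_const, nsmul_eq_mul]
  have hsub : G' ⊆ G'.filter (fun x => x.1 ∈ N (f x)) ∪ G'.filter (fun x => x.2 ∈ N (f x)) := by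
    intro x hx
    rw [mem_union, mem_filter, mem_filter]
    exact (hN x hx).imp (fun h => ⟨hx, h⟩) (fun h => ⟨hx, h⟩)
  have h1 := key Prod.fst (fun x hx y hy e1 e2 => uniq1 h (hG hx) (hG hy) e1 e2)
  have h2 := key Prod.snd (fun x hx y hy e1 e2 => uniq2 h (hG hx) (hG hy) e1 e2)
  have h3 : (G'.card : ℝ) ≤ (G'.filter (fun x => x.1 ∈ N (f x))).card +
      (G'.filter (fun x => x.2 ∈ N (f x))).card := by
    exact_mod_cast (card_le_card hsub).trans (card_union_le _ _)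
  linarith

open scoped Classical in
theorem restr {C A : ℕ} (h : Sit C A P R G f) {P₁ : Finset (ℤ × ℤ)} (h1 : P₁ ⊆ P) :
    (P₁.card : ℝ) ^ 2 - C * P.card ≤ ((G.filter fun x => x.1 ∈ P₁ ∧ x.2 ∈ P₁).card : ℝ) := by
  have hsub : G ⊆ G.filter (fun x => x.1 ∈ P₁ ∧ x.2 ∈ P₁) ∪ (P ×ˢ P) \ (P₁ ×ˢ P₁) := by
    intro x hx
    obtain ⟨h2, h3, -⟩ := h.cfg.sub x hx
    rw [mem_union, mem_filter, mem_sdiff, mem_product, mem_product]
    by_cases h4 : x.1 ∈ P₁ ∧ x.2 ∈ P₁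
    · exact Or.inl ⟨hx, h4⟩
    · exact Or.inr ⟨⟨h2, h3⟩, h4⟩
  have h2 := (card_le_card hsub).trans (card_union_le _ _)
  rw [card_sdiff_of_subset (product_subset_product h1 h1), card_product, card_product] at h2
  have h3 := card_le_card h1
  have h4 : P₁.card * P₁.card ≤ P.card * P.card := Nat.mul_le_mul h3 h3
  have h5 : (G.card : ℝ) ≤ ((G.filter fun x => x.1 ∈ P₁ ∧ x.2 ∈ P₁).card : ℝ) +
      ((P.card : ℝ) * P.card - P₁.card * P₁.card) := by
    have h6 : (G.card : ℝ) ≤ (((G.filter fun x => x.1 ∈ P₁ ∧ x.2 ∈ P₁).card +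
      (P.card * P.card - P₁.card * P₁.card) : ℕ) : ℝ) := by exact_mod_cast h2
    rw [Nat.cast_add, Nat.cast_sub h4, Nat.cast_mul, Nat.cast_mul] at h6
    exact h6
  have h6 := h.cardG
  nlinarith [h5, h6]

end BlkAR
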