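import Pool.Agent.Work.MP_763b10_co.AR.LowP
import Pool.Agent.Work.MP_763b10_co.AR.Smooth
import Pool.Agent.Work.MP_763b10_co.AR.Two
import Pool.Agent.Work.MP_763b10_co.AR.Num

/-!
# MP_763b10_co, board modar, module Most (M)

For almost all pairs the small parts are small and one of the large parts is not `1`.

Proof. `smlcnt`: for each `q ∈ R` at most `δ = (ε/(2C+2)) n` points `p ∈ P` have `SS n = ZZ^RR < sml (rho p q)` (`smooth`, `num_smooth`); `two'` gives `2 |R| δ ≤ ε n²`.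
`most`: let `x ∈ G`, `big = 1` for both ends. Then either `SS n < sml` for one of the ends (`smlcnt` with `ε/2`), or `rho x.1 q = sml ≤ SS n` and `rho x.2 q ≤ SS n`
(`big_mul_sml`), so `(rho x.1 q + rho x.2 q)/gcd ≤ 2 SS n`: at most `n²/(2 SS n) ≤ (ε/2) n²` by `lowp` with `T = 2 SS n` (`num_low`, `num_SS`; `|R| ≤ C n ≤ T n`).
-/

set_option autoImplicit false

namespace BlkAR

open Finset

open scoped Classical in
theorem smlcnt (C A : ℕ) (ε : ℝ) (hε : 0 < ε) : ∃ n₀ : ℕ, ∀ (P : Finset (ℤ × ℤ))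
    (R : Finset (ℤ × ℤ × ℤ)) (G : Finset ((ℤ × ℤ) × (ℤ × ℤ)))
    (f : (ℤ × ℤ) × (ℤ × ℤ) → ℤ × ℤ × ℤ), Sit C A P R G f → n₀ ≤ P.card →
    ((G.filter fun x => SS P.card < sml (ZZ P.card) (rho x.1 (f x)) ∨
      SS P.card < sml (ZZ P.card) (rho x.2 (f x))).card : ℝ) ≤ ε * (P.card : ℝ) ^ 2 := by
  obtain ⟨n₁, h1⟩ := num_smooth (ε / (2 * C + 2)) (by positivity)
  obtain ⟨n₂, h2⟩ := num_misc 0
  refine ⟨max n₁ n₂, ?_⟩
  intro P R G f hS hn
  have hn1 := h1 P.card ((le_max_left _ _).trans hn)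
  have hn2 := h2 P.card ((le_max_right _ _).trans hn)
  obtain ⟨hZ, hR, -⟩ := hn2
  have h3 := two' hS.cfg (G.filter fun x => SS P.card < sml (ZZ P.card) (rho x.1 (f x)) ∨
      SS P.card < sml (ZZ P.card) (rho x.2 (f x))) (Finset.filter_subset _ _)
    (fun q => P.filter fun p => ZZ P.card ^ RR P.card < sml (ZZ P.card) (rho p q)) (by
      intro x hx
      rw [Finset.mem_filter] at hx
      have hs := hS.cfg.sub x hx.1
      rcases hx.2 with h4 | h4
      · left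
        rw [Finset.mem_filter]
        exact ⟨hs.1, h4⟩
      · right
        rw [Finset.mem_filter]
        exact ⟨hs.2.1, h4⟩) (ε / (2 * C + 2) * P.card) (by
      intro q hq
      exact (smooth hS.spr (hS.cfg.prim q hq) (hS.cfg.out q hq) _ _ hZ hR).trans hn1)
  refine h3.trans ?_
  have hR0 := hS.cardR
  have hC0 : (0 : ℝ) ≤ C := Nat.cast_nonneg C
  have hc : (0 : ℝ) < 2 * C + 2 := by positivity
  have hP0 : (0 : ℝ) ≤ P.card := Nat.cast_nonneg _
  have he : 0 ≤ ε / (2 * C + 2) * P.card := by positivity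
  have h5 : (R.card : ℝ) * (ε / (2 * C + 2) * P.card) ≤
      (C * P.card) * (ε / (2 * C + 2) * P.card) := mul_le_mul_of_nonneg_right hR0 he
  have h6 : 2 * ((C * P.card) * (ε / (2 * C + 2) * P.card)) =
      ε * (P.card : ℝ) ^ 2 * (2 * C / (2 * C + 2)) := by
    field_simp
  have h7 : (2 * C / (2 * C + 2) : ℝ) ≤ 1 := by
    rw [div_le_one hc]
    linarith
  have h8 : ε * (P.card : ℝ) ^ 2 * (2 * C / (2 * C + 2)) ≤ ε * (P.card : ℝ) ^ 2 * 1 :=
    mul_le_mul_of_nonneg_left h7 (by positivity)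
  linarith

open scoped Classical in
theorem most (C A : ℕ) (ε : ℝ) (hε : 0 < ε) : ∃ n₀ : ℕ, ∀ (P : Finset (ℤ × ℤ))
    (R : Finset (ℤ × ℤ × ℤ)) (G : Finset ((ℤ × ℤ) × (ℤ × ℤ)))
    (f : (ℤ × ℤ) × (ℤ × ℤ) → ℤ × ℤ × ℤ), Sit C A P R G f → n₀ ≤ P.card →
    ((G.filter fun x => big (ZZ P.card) (rho x.1 (f x)) = 1 ∧
      big (ZZ P.card) (rho x.2 (f x)) = 1).card : ℝ) ≤ ε * (P.card : ℝ) ^ 2 := by
  obtain ⟨n₁, h1⟩ := smlcnt C A (ε / 2) (by positivity)
  obtain ⟨C₁, hC₁, hlow⟩ := lowp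
  obtain ⟨n₂, h2⟩ := num_low C₁
  obtain ⟨n₃, h3⟩ := num_SS (max (max C (1 / ε)) 1)
  refine ⟨max n₁ (max n₂ n₃), ?_⟩
  intro P R G f hS hn
  have hn1 := h1 P R G f hS ((le_max_left _ _).trans hn)
  have hn2 := h2 P.card (((le_max_left _ _).trans (le_max_right _ _)).trans hn)
  have hn3 := h3 P.card (((le_max_right _ _).trans (le_max_right _ _)).trans hn)
  have hSC : (C : ℝ) ≤ SS P.card := ((le_max_left _ _).trans (le_max_left _ _)).trans hn3
  have hSe : 1 / ε ≤ SS P.card := ((le_max_right _ _).trans (le_max_left _ _)).trans hn3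
  have hS1 : (1 : ℝ) ≤ SS P.card := (le_max_right _ _).trans hn3
  have hS1' : 1 ≤ SS P.card := by exact_mod_cast hS1
  have hP0 : (0 : ℝ) ≤ P.card := Nat.cast_nonneg _
  have h4 := hlow P R G f _ hS.cfg (2 * SS P.card) (by omega) (by
    refine hS.cardR.trans ?_
    push_cast
    nlinarith) hn2
  have hsub : (G.filter fun x => big (ZZ P.card) (rho x.1 (f x)) = 1 ∧
      big (ZZ P.card) (rho x.2 (f x)) = 1) ⊆
      (G.filter fun x => SS P.card < sml (ZZ P.card) (rho x.1 (f x)) ∨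
      SS P.card < sml (ZZ P.card) (rho x.2 (f x))) ∪ (G.filter fun x =>
      (rho x.1 (f x) + rho x.2 (f x)) / Nat.gcd (rho x.1 (f x)) (rho x.2 (f x)) ≤
        2 * SS P.card) := by
    intro x hx
    rw [Finset.mem_filter] at hx
    rw [Finset.mem_union, Finset.mem_filter, Finset.mem_filter]
    obtain ⟨hxG, hb1, hb2⟩ := hx
    have hs := hS.cfg.sub x hxG
    have hr1 := hS.cfg.out (f x) (hS.cfg.mem x hxG) x.1 hs.1
    have hr2 := hS.cfg.out (f x) (hS.cfg.mem x hxG) x.2 hs.2.1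
    have e1 := big_mul_sml (Z := ZZ P.card) hr1
    have e2 := big_mul_sml (Z := ZZ P.card) hr2
    rw [hb1, one_mul] at e1
    rw [hb2, one_mul] at e2
    by_cases hc : SS P.card < sml (ZZ P.card) (rho x.1 (f x)) ∨
      SS P.card < sml (ZZ P.card) (rho x.2 (f x))
    · exact Or.inl ⟨hxG, hc⟩
    · right
      refine ⟨hxG, ?_⟩
      push Not at hc
      refine (Nat.div_le_self _ _).trans ?_
      omega
  have h5 := (Finset.card_le_card hsub).trans (Finset.card_union_le _ _)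
  have h6 : (((G.filter fun x => big (ZZ P.card) (rho x.1 (f x)) = 1 ∧
      big (ZZ P.card) (rho x.2 (f x)) = 1).card : ℕ) : ℝ) ≤
      ((G.filter fun x => SS P.card < sml (ZZ P.card) (rho x.1 (f x)) ∨
      SS P.card < sml (ZZ P.card) (rho x.2 (f x))).card : ℝ) + ((G.filter fun x =>
      (rho x.1 (f x) + rho x.2 (f x)) / Nat.gcd (rho x.1 (f x)) (rho x.2 (f x)) ≤
        2 * SS P.card).card : ℝ) := by exact_mod_cast h5
  have h7 : (P.card : ℝ) ^ 2 / ((2 * SS P.card : ℕ) : ℝ) ≤ ε / 2 * (P.card : ℝ) ^ 2 := by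
    push_cast
    rw [div_le_iff₀ (by positivity)]
    have h8 : 1 ≤ ε * SS P.card := by
      rw [div_le_iff₀ hε] at hSe
      linarith
    nlinarith [sq_nonneg (P.card : ℝ)]
  linarith

end BlkAR
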