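import Pool.Agent.Work.MP_763b10_co.AR.LemG
import Pool.Agent.Work.MP_763b10_co.AR.Most

/-!
# MP_763b10_co, board modar, module Step1 (M)

A positive proportion of `P` is on a curve of bidegree `≤ log n`.

Proof. `Z = ZZ n`. `N` = the set of the `(p, q) ∈ P × R` with `big Z (rho p q) ≠ 1`, equivalently `Z ≤ big` (`le_big`, `Z ≥ 2`). By `most` (`ε = 1/8`) and `two`:
`2 |N| ≥ |G| - n²/8 ≥ n² - C n - n²/8`, so `|N| ≥ n²/4` for large `n`. In particular `|R| ≥ n/4` and `C ≥ 1`. `P₁ = {p ∈ P : #{q ∈ R : Z ≤ big} ≥ n/8}`: as `#{..} ≤ |R| ≤ C n`: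
`n²/4 ≤ |P₁| C n + n²/8`, `|P₁| ≥ n/(8C)`. Apply `lemG` with `η = 1/(8C)` (`n/8 ≥ η |R|`), `R₀ = Z`, `d = ⌈log n⌉₊`, `W = n^A` (`≥ 3`): `32 log W = 32 A log n < d η log Z` for large `n`
(`num_misc`); `2 (d+1)⁴ (1 + 3 A log n) ≤ η n/4 ≤ η |R|` for large `n` (`num_pow`; `d + 1 ≤ 3 log n`); the loss is `≤ n/(16 C)` (`num_poly`). So the zero set has at least
`(η/4)(n/(8C) - n/(16C)) = n/(512 C²)` points of `P`.
-/

set_option autoImplicit false

namespace BlkAR

open Finset Polynomial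

open scoped Classical in
private theorem st_dc {α β : Type*} (P : Finset α) (R : Finset β) (r : α → β → Prop) (t : ℝ)
    (ht : 0 ≤ t) :
    (((P ×ˢ R).filter fun y => r y.1 y.2).card : ℝ) ≤
      ((P.filter fun p => t ≤ ((R.filter fun q => r p q).card : ℝ)).card : ℝ) * R.card +
        P.card * t := by
  have h1 : (((P ×ˢ R).filter fun y => r y.1 y.2).card : ℝ) =
      ∑ p ∈ P, ((R.filter fun q => r p q).card : ℝ) := by
    rw [Finset.card_filter, Finset.sum_product]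
    push_cast
    refine Finset.sum_congr rfl fun p _ => ?_
    rw [Finset.card_filter]
    push_cast
    rfl
  rw [h1]
  have h2 : ∀ p ∈ P, ((R.filter fun q => r p q).card : ℝ) ≤
      (if t ≤ ((R.filter fun q => r p q).card : ℝ) then (R.card : ℝ) else 0) + t := by
    intro p _
    split_ifs with h
    · have : ((R.filter fun q => r p q).card : ℝ) ≤ R.card := by
        exact_mod_cast Finset.card_filter_le _ _
      linarith
    · push Not at h
      linarith
  refine (Finset.sum_le_sum h2).trans (le_of_eq ?_)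
  rw [Finset.sum_add_distrib, ← Finset.sum_filter, Finset.sum_const, Finset.sum_const,
    nsmul_eq_mul, nsmul_eq_mul]

open scoped Classical in
theorem step1 (C A : ℕ) (hA : 1 ≤ A) : ∃ c : ℝ, 0 < c ∧ ∃ n₀ : ℕ, ∀ (P : Finset (ℤ × ℤ))
    (R : Finset (ℤ × ℤ × ℤ)) (G : Finset ((ℤ × ℤ) × (ℤ × ℤ)))
    (f : (ℤ × ℤ) × (ℤ × ℤ) → ℤ × ℤ × ℤ), Sit C A P R G f → n₀ ≤ P.card →
    ∃ F : ℤ[X][X], F ≠ 0 ∧ BD ⌈Real.log P.card⌉₊ F ∧
      c * P.card ≤ ((P.filter fun p => F.evalEval p.1 p.2 = 0).card : ℝ) := by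
  set D : ℝ := (C : ℝ) + 1 with hD
  have hC0 : (0 : ℝ) ≤ C := Nat.cast_nonneg C
  have hD1 : 1 ≤ D := by linarith
  have hA1 : (1 : ℝ) ≤ A := by exact_mod_cast hA
  set η : ℝ := 1 / (8 * D) with hη
  have hη0 : 0 < η := by positivity
  have hη1 : η ≤ 1 := by
    rw [hη, div_le_one (by positivity)]
    linarith
  have hηD : η * D = 1 / 8 := by
    rw [hη]
    field_simp
  obtain ⟨n1, H1⟩ := most C A (1 / 8) (by norm_num)
  obtain ⟨n2, H2⟩ := num_misc (32 * A / η)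
  obtain ⟨n3, H3⟩ := num_pow (2 * 3 ^ 4 * (4 * A)) (3 / (64 * D)) 5 (by positivity)
  obtain ⟨n4, H4⟩ := num_poly (2 * (4 * A) ^ 3 * 3 ^ 8 / η ^ 2) (1 / (16 * D)) 11
    (by positivity)
  refine ⟨1 / (512 * D ^ 2), by positivity, max (max (max n1 n2) (max n3 n4))
    (max 3 (⌈8 * D⌉₊)), ?_⟩
  intro P R G f hS hn
  have hn1 : n1 ≤ P.card := le_trans (by simp) hn
  have hn2 : n2 ≤ P.card := le_trans (by simp) hn
  have hn3 : n3 ≤ P.card := le_trans (by simp) hn
  have hn4 : n4 ≤ P.card := le_trans (by simp) hn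
  have hn5 : 3 ≤ P.card := le_trans (by simp) hn
  have hn6 : 8 * D ≤ (P.card : ℝ) := by
    have h : ⌈8 * D⌉₊ ≤ P.card := le_trans (by simp) hn
    exact (Nat.le_ceil _).trans (by exact_mod_cast h)
  have h1 := H1 P R G f hS hn1
  obtain ⟨hZ2, hR1, hK2, hlog, -⟩ := H2 P.card hn2
  obtain ⟨h3, hl1⟩ := H3 P.card hn3
  have h4 := H4 P.card hn4
  have hn5' : (3 : ℝ) ≤ (P.card : ℝ) := by exact_mod_cast hn5
  set n : ℝ := (P.card : ℝ) with hnn
  set L : ℝ := Real.log n with hL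
  set Z : ℕ := ZZ P.card with hZ
  have hn0 : 0 < n := by linarith
  -- the graph part
  have hG := hS.cardG
  rw [← hnn] at hG
  have hDn : (C : ℝ) * n ≤ n ^ 2 / 8 := by
    have : D * n ≤ n ^ 2 / 8 := by nlinarith
    nlinarith
  set G' := G.filter fun x => ¬ (big Z (rho x.1 (f x)) = 1 ∧ big Z (rho x.2 (f x)) = 1) with hG'
  have hGs : ((G.filter fun x => big Z (rho x.1 (f x)) = 1 ∧
      big Z (rho x.2 (f x)) = 1).card : ℝ) + G'.card = G.card := by
    exact_mod_cast Finset.card_filter_add_card_filter_not (s := G) _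
  have hG'c : 3 * n ^ 2 / 4 ≤ (G'.card : ℝ) := by linarith
  set N := (P ×ˢ R).filter fun y => (Z : ℝ) ≤ (big Z (rho y.1 y.2) : ℝ) with hN
  have hNm : ∀ x ∈ G', (x.1, f x) ∈ N ∨ (x.2, f x) ∈ N := by
    intro x hx
    rw [hG', Finset.mem_filter] at hx
    obtain ⟨hxG, hx2⟩ := hx
    obtain ⟨hP1, hP2, -⟩ := hS.cfg.sub x hxG
    have hfR := hS.cfg.mem x hxG
    by_cases hb : big Z (rho x.1 (f x)) = 1
    · right
      have hb2 : big Z (rho x.2 (f x)) ≠ 1 := fun h => hx2 ⟨hb, h⟩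
      rw [hN, Finset.mem_filter, Finset.mem_product]
      exact ⟨⟨hP2, hfR⟩, by exact_mod_cast le_big hb2⟩
    · left
      rw [hN, Finset.mem_filter, Finset.mem_product]
      exact ⟨⟨hP1, hfR⟩, by exact_mod_cast le_big hb⟩
  have hG'N := two hS.cfg G' (Finset.filter_subset _ _) N hNm
  have hG'N' : (G'.card : ℝ) ≤ 2 * N.card := by exact_mod_cast hG'N
  have hNc : 3 * n ^ 2 / 8 ≤ (N.card : ℝ) := by linarith
  have hNR : (N.card : ℝ) ≤ n * R.card := by
    have h : N.card ≤ P.card * R.card :=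
      (Finset.card_filter_le _ _).trans_eq (Finset.card_product _ _)
    rw [hnn]
    exact_mod_cast h
  have hRlow : 3 * n / 8 ≤ (R.card : ℝ) := by
    by_contra hcon
    push Not at hcon
    nlinarith
  have hRup : (R.card : ℝ) ≤ D * n := by
    have := hS.cardR
    rw [← hnn] at this
    nlinarith
  set P₁ := P.filter fun p => n / 8 ≤
    ((R.filter fun q => (Z : ℝ) ≤ (big Z (rho p q) : ℝ)).card : ℝ) with hP₁
  have hdc := st_dc P R (fun p q => (Z : ℝ) ≤ (big Z (rho p q) : ℝ)) (n / 8) (by positivity)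
  rw [← hN, ← hP₁, ← hnn] at hdc
  have hP₁c : n / (4 * D) ≤ (P₁.card : ℝ) := by
    rw [div_le_iff₀ (by positivity)]
    have h5 : n ^ 2 / 4 ≤ (P₁.card : ℝ) * R.card := by nlinarith
    have h6 : (P₁.card : ℝ) * R.card ≤ P₁.card * (D * n) :=
      mul_le_mul_of_nonneg_left hRup (Nat.cast_nonneg _)
    by_contra hcon
    push Not at hcon
    nlinarith
  -- the parameters
  set d : ℕ := ⌈L⌉₊ with hd
  have hdL : L ≤ d := Nat.le_ceil _
  have hd3 : (d : ℝ) + 1 ≤ 3 * L := by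
    have := Nat.ceil_lt_add_one (show 0 ≤ L by linarith)
    rw [← hd] at this
    linarith
  have hlW : Real.log (n ^ A) = A * L := by rw [Real.log_pow]
  have hBW : 1 + 3 * Real.log (n ^ A) ≤ 4 * A * L := by
    rw [hlW]
    nlinarith
  have hBW0 : 0 ≤ 1 + 3 * Real.log (n ^ A) := by
    rw [hlW]
    positivity
  have hW3 : 3 ≤ n ^ A := by
    calc (3 : ℝ) ≤ n ^ 1 := by rw [pow_one]; exact hn5'
      _ ≤ n ^ A := pow_le_pow_right₀ (by linarith) hA
  have hZ1 : (1 : ℝ) < (Z : ℝ) := by exact_mod_cast (show 1 < Z by omega)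
  have hlZ : 0 < Real.log (Z : ℝ) := Real.log_pos hZ1
  have hdd : 32 * Real.log (n ^ A) < d * η * Real.log (Z : ℝ) := by
    rw [hlW]
    have h5 : 32 * A / η * L < L * Real.log (Z : ℝ) := hlog
    have h6 : 32 * A / η * L * η < L * Real.log (Z : ℝ) * η :=
      mul_lt_mul_of_pos_right h5 hη0
    have h7 : 32 * A / η * L * η = 32 * (A * L) := by
      field_simp
    rw [h7] at h6
    have h8 : L * Real.log (Z : ℝ) * η ≤ d * η * Real.log (Z : ℝ) := by
      calc L * Real.log (Z : ℝ) * η = L * (η * Real.log (Z : ℝ)) := by ring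
        _ ≤ d * (η * Real.log (Z : ℝ)) := mul_le_mul_of_nonneg_right hdL (by positivity)
        _ = _ := by ring
    linarith
  have hn23 : 1 ≤ n ^ (2 / 3 : ℝ) := Real.one_le_rpow (by linarith) (by norm_num)
  have hRc : 2 * ((d : ℝ) + 1) ^ 4 * (1 + 3 * Real.log (n ^ A)) ≤ η * R.card := by
    have e1 : ((d : ℝ) + 1) ^ 4 ≤ (3 * L) ^ 4 := pow_le_pow_left₀ (by positivity) hd3 4
    have e2 : 2 * ((d : ℝ) + 1) ^ 4 * (1 + 3 * Real.log (n ^ A)) ≤
        2 * (3 * L) ^ 4 * (4 * A * L) :=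
      mul_le_mul (by linarith) hBW hBW0 (by positivity)
    have e3 : 2 * (3 * L) ^ 4 * (4 * A * L) ≤
        2 * 3 ^ 4 * (4 * A) * L ^ 5 * n ^ (2 / 3 : ℝ) := by
      have : 0 ≤ 2 * 3 ^ 4 * (4 * (A : ℝ)) * L ^ 5 := by positivity
      calc 2 * (3 * L) ^ 4 * (4 * A * L) = 2 * 3 ^ 4 * (4 * A) * L ^ 5 * 1 := by ring
        _ ≤ _ := mul_le_mul_of_nonneg_left hn23 this
    have e4 : 3 / (64 * D) * n ≤ η * R.card := by
      calc 3 / (64 * D) * n = η * (3 * n / 8) := by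
            rw [hη]
            field_simp
            norm_num
        _ ≤ _ := mul_le_mul_of_nonneg_left hRlow hη0.le
    linarith
  have hres := lemG (P₁ := P₁) (Z := Z) (d := d) (R₀ := (Z : ℝ)) (W := n ^ A) (η := η)
    (K := KK P.card) hS.spr (Finset.filter_subset _ _) hS.cfg.prim hS.cfg.out hS.cfg.htP
    hS.cfg.htR hW3 hZ2 hη0 hη1 hZ1
    (by
      have h5 : 0 < L := by linarith
      exact Nat.one_le_iff_ne_zero.2 (Nat.pos_iff_ne_zero.1 (Nat.ceil_pos.2 h5)))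
    hdd
    (by
      intro p hp
      rw [hP₁, Finset.mem_filter] at hp
      refine le_trans ?_ hp.2
      calc η * R.card ≤ η * (D * n) := mul_le_mul_of_nonneg_left hRup hη0.le
        _ = n / 8 := by rw [← mul_assoc, hηD]; ring) hRc
  obtain ⟨F, hF0, hBD, hF⟩ := hres
  refine ⟨F, hF0, hBD, ?_⟩
  have hsub : ((P₁.filter fun p => F.evalEval p.1 p.2 = 0).card : ℝ) ≤
      ((P.filter fun p => F.evalEval p.1 p.2 = 0).card : ℝ) := by
    exact_mod_cast Finset.card_le_card (Finset.filter_subset_filter _ (Finset.filter_subset _ _))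
  refine le_trans ?_ hsub
  refine le_trans ?_ hF
  have hloss : 2 * (1 + 3 * Real.log (n ^ A)) ^ 3 * ((d : ℝ) + 1) ^ 8 / η ^ 2 *
      (KK P.card * (n / Z + 1)) ≤ 1 / (16 * D) * n := by
    refine le_trans ?_ h4
    have hX : 0 ≤ KK P.card * (n / (Z : ℝ) + 1) := by
      have : 0 ≤ KK P.card := by linarith
      positivity
    refine mul_le_mul_of_nonneg_right ?_ hX
    have e1 : ((d : ℝ) + 1) ^ 8 ≤ (3 * L) ^ 8 := pow_le_pow_left₀ (by positivity) hd3 8
    have e2 : (1 + 3 * Real.log (n ^ A)) ^ 3 ≤ (4 * A * L) ^ 3 :=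
      pow_le_pow_left₀ hBW0 hBW 3
    calc 2 * (1 + 3 * Real.log (n ^ A)) ^ 3 * ((d : ℝ) + 1) ^ 8 / η ^ 2 ≤
          2 * (4 * A * L) ^ 3 * (3 * L) ^ 8 / η ^ 2 := by
          refine div_le_div_of_nonneg_right ?_ (by positivity)
          exact mul_le_mul (by linarith) e1 (by positivity) (by positivity)
      _ = 2 * (4 * A) ^ 3 * 3 ^ 8 / η ^ 2 * L ^ 11 := by ring
  have hfin : 1 / (512 * D ^ 2) * n ≤ η / 4 * (n / (4 * D) - 1 / (16 * D) * n) := by
    have : η / 4 * (n / (4 * D) - 1 / (16 * D) * n) = 3 * (1 / (512 * D ^ 2) * n) := by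
      rw [hη]
      field_simp
      norm_num
    rw [this]
    have : 0 ≤ 1 / (512 * D ^ 2) * n := by positivity
    linarith
  refine hfin.trans ?_
  refine mul_le_mul_of_nonneg_left ?_ (by positivity)
  linarith

end BlkAR
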