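import Pool.Agent.Work.MP_763b10_co.AR.SepCnt
import Pool.Agent.Work.MP_763b10_co.AR.Comp
import Pool.Agent.Work.MP_763b10_co.AR.Most

/-!
# MP_763b10_co, board modar, module Step2 (M)

A positive proportion of `P` is on an irreducible curve of bidegree `≤ log n`.

Proof. `d = ⌈log n⌉₊`, `Z = ZZ n`, `W = n^A`, `P' = {p ∈ P : F(p) = 0}`, `|P'| ≥ c n`, `N q = {p ∈ P' : big Z (rho p q) ≠ 1}`. `restr`: at least `|P'|² - C n` elements of `G` have both ends in `P'`;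
by `most` (`ε = c²/4`) all but `ε n²` of them have `x.1 ∈ N (f x)` or `x.2 ∈ N (f x)`; `two` (with `N = {(p,q) : q ∈ R, p ∈ N q}`): `∑_{q∈R} |N q| ≥ (c² n² - C n - ε n²)/2 ≥ c² n²/4` for large `n`.
`comp` with `G = toQ F` (nonzero, `BD d`, zero on `P'` by `ev_toQ`) and `δ = 9 (d+1)⁴ log W K(n/Z + 1)` (`sepcnt`; `δ ≤ c²n/(32 C)` for large `n` by `num_poly`, `C ≥ 1` because
`R ≠ ∅`): `c² n²/4 ≤ C n (μ + δ) + 16 d⁶ n`, so `μ ≥ c² n/(8C)`. `c₂ = c²/(8C)` (for `C = 0` there is no situation with large `n`: `R = ∅`, `G = ∅`).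
-/

set_option autoImplicit false

namespace BlkAR

open Finset Polynomial

private theorem toQ_ne {F : ℤ[X][X]} (h : F ≠ 0) : toQ F ≠ 0 := by
  intro h0
  apply h
  have hinj : Function.Injective (mapRingHom (Int.castRingHom ℚ)) := by
    rw [coe_mapRingHom]
    exact map_injective _ (RingHom.injective_int _)
  have h2 := map_injective _ hinj
  apply h2
  rw [Polynomial.map_zero]
  exact h0

private theorem toQ_bd {d : ℕ} {F : ℤ[X][X]} (h : BD d F) : BD d (toQ F) := by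
  refine ⟨natDegree_map_le.trans h.1, fun i => ?_⟩
  rw [toQ, coeff_map, coe_mapRingHom]
  exact natDegree_map_le.trans (h.2 i)

private theorem fin2 {c n μ δ r S D : ℝ} {C : ℕ} (hn : 0 < n) (hμ : 0 ≤ μ)
    (hδ0 : 0 ≤ δ) (hr : r ≤ C * n) (hδ : δ ≤ c ^ 2 / (32 * (C + 1)) * n)
    (hS : c ^ 2 * n ^ 2 / 4 ≤ S) (h : S ≤ r * (μ + δ) + D) (hD : D ≤ c ^ 2 / 16 * n * n) :
    c ^ 2 / (8 * (C + 1)) * n ≤ μ := by
  have hC : (0 : ℝ) ≤ C := Nat.cast_nonneg _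
  have hC1 : (0 : ℝ) < C + 1 := by linarith
  have h1 : r * (μ + δ) ≤ C * n * (μ + δ) := mul_le_mul_of_nonneg_right hr (by linarith)
  have h2 : (C : ℝ) * δ ≤ c ^ 2 / 32 * n := by
    have h3 : (C : ℝ) * δ ≤ (C + 1) * δ := by nlinarith
    have h4 : ((C : ℝ) + 1) * δ ≤ (C + 1) * (c ^ 2 / (32 * (C + 1)) * n) :=
      mul_le_mul_of_nonneg_left hδ hC1.le
    have h5 : ((C : ℝ) + 1) * (c ^ 2 / (32 * (C + 1)) * n) = c ^ 2 / 32 * n := by
      field_simp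
    linarith
  have h6 : c ^ 2 * n ^ 2 / 4 ≤ n * (C * μ + c ^ 2 / 32 * n + c ^ 2 / 16 * n) := by
    have : n * (C * δ) ≤ n * (c ^ 2 / 32 * n) := mul_le_mul_of_nonneg_left h2 hn.le
    nlinarith
  have h7 : c ^ 2 * n / 4 ≤ C * μ + c ^ 2 / 32 * n + c ^ 2 / 16 * n := by
    have h8 : n * (c ^ 2 * n / 4) ≤ n * (C * μ + c ^ 2 / 32 * n + c ^ 2 / 16 * n) := by
      calc n * (c ^ 2 * n / 4) = c ^ 2 * n ^ 2 / 4 := by ring
        _ ≤ _ := h6
    exact le_of_mul_le_mul_left h8 hn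
  have h9 : c ^ 2 * n / 8 ≤ (C + 1) * μ := by
    have : 0 ≤ c ^ 2 * n := by positivity
    nlinarith
  have h10 : c ^ 2 / (8 * (C + 1)) * n = (c ^ 2 * n / 8) / (C + 1) := by
    field_simp
  rw [h10, div_le_iff₀ hC1]
  linarith

open scoped Classical in
theorem step2 (C A : ℕ) (hA : 1 ≤ A) (c : ℝ) (hc : 0 < c) : ∃ c₂ : ℝ, 0 < c₂ ∧ ∃ n₀ : ℕ,
    ∀ (P : Finset (ℤ × ℤ)) (R : Finset (ℤ × ℤ × ℤ)) (G : Finset ((ℤ × ℤ) × (ℤ × ℤ)))
    (f : (ℤ × ℤ) × (ℤ × ℤ) → ℤ × ℤ × ℤ), Sit C A P R G f → n₀ ≤ P.card →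
    ∀ F : ℤ[X][X], F ≠ 0 → BD ⌈Real.log P.card⌉₊ F →
      c * P.card ≤ ((P.filter fun p => F.evalEval p.1 p.2 = 0).card : ℝ) →
    ∃ G₁ : ℚ[X][X], Irreducible G₁ ∧ BD ⌈Real.log P.card⌉₊ G₁ ∧
      c₂ * P.card ≤ ((P.filter fun p => ev G₁ (pt p) = 0).card : ℝ) := by
  obtain ⟨n₁, h1⟩ := most C A (c ^ 2 / 4) (by positivity)
  obtain ⟨n₂, h2⟩ := num_poly (729 * A) (c ^ 2 / (32 * (C + 1))) 5 (by positivity)
  obtain ⟨n₃, h3⟩ := num_pow 1024 (c ^ 2 / 16) 6 (by positivity)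
  obtain ⟨n₄, h4⟩ := num_misc 0
  refine ⟨c ^ 2 / (8 * (C + 1)), by positivity,
    n₁ + n₂ + n₃ + n₄ + 3 + ⌈4 * C / c ^ 2⌉₊, ?_⟩
  intro P R G f hS hn F hF0 hFd hFc
  obtain ⟨hZ2, -, -, -, -⟩ := h4 P.card (by omega)
  obtain ⟨h3a, hL1⟩ := h3 P.card (by omega)
  have h2a := h2 P.card (by omega)
  have h1a := h1 P R G f hS (by omega)
  have hn3 : 3 ≤ P.card := by omega
  have hn3' : (3 : ℝ) ≤ P.card := by exact_mod_cast hn3
  have hn0 : (0 : ℝ) < P.card := by linarith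
  have hCn : (C : ℝ) * P.card ≤ c ^ 2 * (P.card : ℝ) ^ 2 / 4 := by
    have h5 : 4 * (C : ℝ) / c ^ 2 ≤ P.card := by
      refine (Nat.le_ceil _).trans ?_
      exact_mod_cast (by omega : ⌈4 * (C : ℝ) / c ^ 2⌉₊ ≤ P.card)
    rw [div_le_iff₀ (by positivity)] at h5
    nlinarith
  have hW3 : (3 : ℝ) ≤ (P.card : ℝ) ^ A := by
    calc (3 : ℝ) ≤ P.card := hn3'
      _ = (P.card : ℝ) ^ 1 := (pow_one _).symm
      _ ≤ (P.card : ℝ) ^ A := pow_le_pow_right₀ (by linarith) hA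
  have hK0 : 0 ≤ KK P.card := (Real.exp_pos _).le
  have hL0 : 0 ≤ Real.log P.card := by linarith
  have hd1 : ((⌈Real.log P.card⌉₊ : ℕ) : ℝ) ≤ Real.log P.card + 1 :=
    (Nat.ceil_lt_add_one hL0).le
  obtain ⟨P', hP'⟩ : ∃ P', P' = P.filter fun p => F.evalEval p.1 p.2 = 0 := ⟨_, rfl⟩
  rw [← hP'] at hFc
  have hPP : P' ⊆ P := by rw [hP']; exact Finset.filter_subset _ _
  obtain ⟨d, hd⟩ : ∃ d, d = ⌈Real.log P.card⌉₊ := ⟨_, rfl⟩
  rw [← hd] at hFd hd1 ⊢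
  obtain ⟨δ, hδ⟩ : ∃ δ, δ = 9 * ((d : ℝ) + 1) ^ 4 * Real.log ((P.card : ℝ) ^ A) *
      (KK P.card * ((P.card : ℝ) / ZZ P.card + 1)) := ⟨_, rfl⟩
  have hX0 : 0 ≤ KK P.card * ((P.card : ℝ) / ZZ P.card + 1) := by positivity
  have hδ0 : 0 ≤ δ := by
    rw [hδ, Real.log_pow]
    positivity
  have hδ1 : δ ≤ c ^ 2 / (32 * (C + 1)) * P.card := by
    refine le_trans ?_ h2a
    rw [hδ, Real.log_pow]
    have h6 : ((d : ℝ) + 1) ^ 4 ≤ (3 * Real.log P.card) ^ 4 := by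
      apply pow_le_pow_left₀ (by positivity)
      linarith
    calc 9 * ((d : ℝ) + 1) ^ 4 * (A * Real.log P.card) *
          (KK P.card * ((P.card : ℝ) / ZZ P.card + 1)) ≤
          9 * (3 * Real.log P.card) ^ 4 * (A * Real.log P.card) *
          (KK P.card * ((P.card : ℝ) / ZZ P.card + 1)) := by gcongr
      _ = 729 * A * (Real.log P.card) ^ 5 *
          (KK P.card * ((P.card : ℝ) / ZZ P.card + 1)) := by ring
  obtain ⟨N, hN⟩ : ∃ N : ℤ × ℤ × ℤ → Finset (ℤ × ℤ),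
      N = fun q => P'.filter fun p => big (ZZ P.card) (rho p q) ≠ 1 := ⟨_, rfl⟩
  have hPne : P'.Nonempty := by
    rw [← Finset.card_pos]
    have : (0 : ℝ) < P'.card := lt_of_lt_of_le (by positivity) hFc
    exact_mod_cast this
  obtain ⟨G₁, hG₁, hG₁d, hG₁s⟩ := comp (toQ_ne hF0) (toQ_bd hFd) hPne
    (fun p hp => by
      rw [hP', Finset.mem_filter] at hp
      rw [ev_toQ, hp.2, Int.cast_zero]) (R := R) hS.cfg.prim N
    (fun q hq => by rw [hN]; exact Finset.filter_subset _ _) δ hδ0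
    (fun q hq H hHd hHq => by
      rw [hδ]
      refine le_trans ?_ (sepcnt hS.spr (hS.cfg.prim q hq) (hS.cfg.out q hq) hS.cfg.htP
        (hS.cfg.htR q hq) hW3 hZ2 hHd hHq)
      rw [hN]
      norm_cast
      apply Finset.card_le_card
      intro p hp
      simp only [Finset.mem_filter] at hp ⊢
      exact ⟨hPP hp.1.1, hp.2, hp.1.2⟩)
  refine ⟨G₁, hG₁, hG₁d, ?_⟩
  -- the sum
  have hsum : c ^ 2 * (P.card : ℝ) ^ 2 / 4 ≤ ∑ q ∈ R, ((N q).card : ℝ) := by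
    have hr := restr hS hPP
    obtain ⟨G1, hG1⟩ : ∃ G1, G1 = G.filter fun x => x.1 ∈ P' ∧ x.2 ∈ P' := ⟨_, rfl⟩
    obtain ⟨G2, hG2⟩ : ∃ G2, G2 = G.filter fun x => big (ZZ P.card) (rho x.1 (f x)) = 1 ∧
      big (ZZ P.card) (rho x.2 (f x)) = 1 := ⟨_, rfl⟩
    rw [← hG1] at hr
    rw [← hG2] at h1a
    obtain ⟨M, hM⟩ : ∃ M : Finset ((ℤ × ℤ) × (ℤ × ℤ × ℤ)),
      M = (P' ×ˢ R).filter fun y => big (ZZ P.card) (rho y.1 y.2) ≠ 1 := ⟨_, rfl⟩
    have ht := two hS.cfg (G1 \ G2)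
      ((Finset.sdiff_subset).trans (by rw [hG1]; exact Finset.filter_subset _ _)) M
      (fun x hx => by
        rw [Finset.mem_sdiff, hG1, hG2, Finset.mem_filter, Finset.mem_filter] at hx
        obtain ⟨⟨hxG, hx1, hx2⟩, hx3⟩ := hx
        have hfx := hS.cfg.mem x hxG
        by_cases hb : big (ZZ P.card) (rho x.1 (f x)) = 1
        · right
          rw [hM, Finset.mem_filter, Finset.mem_product]
          exact ⟨⟨hx2, hfx⟩, fun hb2 => hx3 ⟨hxG, hb, hb2⟩⟩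
        · left
          rw [hM, Finset.mem_filter, Finset.mem_product]
          exact ⟨⟨hx1, hfx⟩, hb⟩)
    have hMs : M.card = ∑ q ∈ R, (N q).card := by
      rw [hM, hN, Finset.card_filter, Finset.sum_product_right]
      apply Finset.sum_congr rfl
      intro q _
      rw [Finset.card_filter]
    have hs : (G1.card : ℝ) ≤ (G1 \ G2).card + G2.card := by
      exact_mod_cast Finset.card_le_card_sdiff_add_card
    have ht' : ((G1 \ G2).card : ℝ) ≤ 2 * ∑ q ∈ R, ((N q).card : ℝ) := by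
      rw [hMs] at ht
      exact_mod_cast ht
    have hcP : c ^ 2 * (P.card : ℝ) ^ 2 ≤ (P'.card : ℝ) ^ 2 := by
      rw [← mul_pow]
      exact pow_le_pow_left₀ (by positivity) hFc 2
    nlinarith
  have hD : 16 * (d : ℝ) ^ 6 * P'.card ≤ c ^ 2 / 16 * P.card * P.card := by
    have hd6 : 16 * (d : ℝ) ^ 6 ≤ c ^ 2 / 16 * P.card := by
      refine le_trans ?_ h3a
      have h7 : (d : ℝ) ^ 6 ≤ (2 * Real.log P.card) ^ 6 := by
        apply pow_le_pow_left₀ (by positivity)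
        linarith
      have h8 : (1 : ℝ) ≤ (P.card : ℝ) ^ (2 / 3 : ℝ) :=
        Real.one_le_rpow (by linarith) (by norm_num)
      calc 16 * (d : ℝ) ^ 6 ≤ 16 * (2 * Real.log P.card) ^ 6 := by gcongr
        _ = 1024 * (Real.log P.card) ^ 6 * 1 := by ring
        _ ≤ 1024 * (Real.log P.card) ^ 6 * (P.card : ℝ) ^ (2 / 3 : ℝ) := by gcongr
    have hPc : (P'.card : ℝ) ≤ P.card := by exact_mod_cast Finset.card_le_card hPP
    exact mul_le_mul hd6 hPc (Nat.cast_nonneg _) (by positivity)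
  have hfin := fin2 hn0 (Nat.cast_nonneg (P'.filter fun p => ev G₁ (pt p) = 0).card) hδ0 hS.cardR
    hδ1 hsum hG₁s hD
  refine hfin.trans ?_
  exact_mod_cast Finset.card_le_card (Finset.filter_subset_filter _ hPP)

end BlkAR
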