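import Pool.Agent.Work.MP_763b10_co.AR.SepCnt
import Pool.Agent.Work.MP_763b10_co.AR.Homo
import Pool.Agent.Work.MP_763b10_co.AR.Most

/-!
# MP_763b10_co, board modar, module Step3 (M)

On an irreducible curve most pairs are divided in a ratio of height `> n^(1/3)`.

Proof. `P₁` = the zeros of `G₁` in `P`, `|P₁| ≥ c₂ n`, `d = ⌈log n⌉₊`. `restr`: `≥ |P₁|² - C n` elements of `G` in `P₁ × P₁`. Remove (a) those with `big = 1` at both ends: `≤ ε n²` (`most`);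
(b) those with `ev G₁ (qt (f x)) ≠ 0` and `big ≠ 1` at one end: by `sepcnt` (`H = G₁`) for each such `q` at most `δ = 9(d+1)⁴ log W K(n/Z+1) ≤ ε n` points, `two'`: `≤ 2 C ε n²`;
(c) those with `ev G₁ (qt (f x)) = 0` and `(ρ + σ)/gcd(ρ,σ) ≤ n^(1/3)`: with `t = ρ/(ρ+σ)` one has `qt (f x) = pt x.1 + t (pt x.2 - pt x.1)` (from `Opp`: `(ρ+σ) u = ρ D (x.1 - x.2)`,
`u = D x.1 - (a,b)`), `0 < t < 1`, and `t` has the reduced form `s/r`, `r = (ρ+σ)/gcd ≤ n^(1/3)`: at most `n^(2/3)` values of `t`; for given `x.1` and `t` at most `4 d⁴` points `x.2` (`homo`):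
in total `≤ n * n^(2/3) * 4 d⁴ ≤ ε n²` (`num_pow`). With `ε` small (`(2C + 2) ε ≤ c₂²/4`) and `n` large at least `|P₁|²/2` pairs remain.
-/

set_option autoImplicit false

namespace BlkAR

open Finset Polynomial

/-- the division point in terms of the ratio -/
private theorem qt_of_opp {p : ℤ × ℤ} {q : ℤ × ℤ × ℤ} {p' : ℤ × ℤ} (hD : 1 ≤ q.2.2)
    (ho : Opp p q p') (h1 : rho p q ≠ 0) (h2 : rho p' q ≠ 0) :
    ∃ s s' : ℕ, 1 ≤ s ∧ 1 ≤ s' ∧
      (rho p q + rho p' q) / Nat.gcd (rho p q) (rho p' q) = s + s' ∧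
      qt q = pt p + ((s : ℚ) / ((s + s' : ℕ) : ℚ)) • (pt p' - pt p) := by
  obtain ⟨s, hs⟩ := Nat.gcd_dvd_left (rho p q) (rho p' q)
  obtain ⟨s', hs'⟩ := Nat.gcd_dvd_right (rho p q) (rho p' q)
  set e := Nat.gcd (rho p q) (rho p' q) with he
  have he0 : 0 < e := Nat.gcd_pos_of_pos_left _ (Nat.pos_of_ne_zero h1)
  have hs1 : 1 ≤ s := by
    rcases Nat.eq_zero_or_pos s with h | h
    · rw [h, mul_zero] at hs
      exact absurd hs h1
    · exact h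
  have hs1' : 1 ≤ s' := by
    rcases Nat.eq_zero_or_pos s' with h | h
    · rw [h, mul_zero] at hs'
      exact absurd hs' h2
    · exact h
  refine ⟨s, s', hs1, hs1', ?_, ?_⟩
  · conv_lhs => rw [hs, hs', ← mul_add]
    exact Nat.mul_div_cancel_left _ he0
  · obtain ⟨o1, o2⟩ := ho
    rw [hs, hs'] at o1 o2
    have he0' : (e : ℤ) ≠ 0 := by exact_mod_cast he0.ne'
    push_cast at o1 o2
    have o3 : (s' : ℤ) * (q.2.2 * p.1 - q.1) = -((s : ℤ) * (q.2.2 * p'.1 - q.1)) := by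
      apply mul_left_cancel₀ he0'
      linear_combination o1
    have o4 : (s' : ℤ) * (q.2.2 * p.2 - q.2.1) = -((s : ℤ) * (q.2.2 * p'.2 - q.2.1)) := by
      apply mul_left_cancel₀ he0'
      linear_combination o2
    have o5 : (s' : ℚ) * (q.2.2 * p.1 - q.1) = -((s : ℚ) * (q.2.2 * p'.1 - q.1)) := by
      exact_mod_cast o3
    have o6 : (s' : ℚ) * (q.2.2 * p.2 - q.2.1) = -((s : ℚ) * (q.2.2 * p'.2 - q.2.1)) := by
      exact_mod_cast o4
    have hDq : (q.2.2 : ℚ) ≠ 0 := by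
      have : (0 : ℤ) < q.2.2 := by omega
      exact_mod_cast this.ne'
    have hss : ((s : ℚ) + s') ≠ 0 := by positivity
    ext
    · simp only [qt, pt, Prod.fst_add, Prod.smul_fst, Prod.fst_sub, smul_eq_mul]
      push_cast
      field_simp
      linear_combination (-1) * o5
    · simp only [qt, pt, Prod.snd_add, Prod.smul_snd, Prod.snd_sub, smul_eq_mul]
      push_cast
      field_simp
      linear_combination (-1) * o6

private theorem ceil_log_bd {n : ℕ} (h : 1 ≤ Real.log n) :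
    ((⌈Real.log n⌉₊ : ℕ) : ℝ) + 1 ≤ 3 * Real.log n := by
  have := Nat.ceil_lt_add_one (by linarith : 0 ≤ Real.log n)
  linarith

open scoped Classical in
theorem step3 (C A : ℕ) (hA : 1 ≤ A) (c₂ : ℝ) (hc : 0 < c₂) : ∃ n₀ : ℕ,
    ∀ (P : Finset (ℤ × ℤ)) (R : Finset (ℤ × ℤ × ℤ)) (G : Finset ((ℤ × ℤ) × (ℤ × ℤ)))
    (f : (ℤ × ℤ) × (ℤ × ℤ) → ℤ × ℤ × ℤ), Sit C A P R G f → n₀ ≤ P.card →
    ∀ G₁ : ℚ[X][X], Irreducible G₁ → BD ⌈Real.log P.card⌉₊ G₁ →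
    ∀ P₁ : Finset (ℤ × ℤ), P₁ = P.filter (fun p => ev G₁ (pt p) = 0) → c₂ * P.card ≤ P₁.card →
      (P₁.card : ℝ) ^ 2 / 2 ≤ ((G.filter fun x => x.1 ∈ P₁ ∧ x.2 ∈ P₁ ∧
        (P.card : ℝ) ^ (1 / 3 : ℝ) < (((rho x.1 (f x) + rho x.2 (f x)) /
          Nat.gcd (rho x.1 (f x)) (rho x.2 (f x)) : ℕ) : ℝ)).card : ℝ) := by
  set ε : ℝ := c₂ ^ 2 / (2 * (2 * C + 3)) with hε
  have hC0 : (0 : ℝ) ≤ C := Nat.cast_nonneg C
  have hε0 : 0 < ε := by positivity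
  obtain ⟨n₁, h1⟩ := most C A ε hε0
  obtain ⟨n₂, h2⟩ := num_poly (729 * A) ε 5 hε0
  obtain ⟨n₃, h3⟩ := num_pow 64 ε 4 hε0
  obtain ⟨n₄, h4⟩ := num_misc 0
  refine ⟨max (max n₁ n₂) (max (max n₃ n₄) (max (max 3 ⌈3 / c₂⌉₊) ⌈C / ε⌉₊)), ?_⟩
  intro P R G f hS hn G₁ hirr hBD P₁ hP₁ hcard
  simp only [max_le_iff] at hn
  obtain ⟨⟨hn1, hn2⟩, ⟨hn3, hn4⟩, ⟨hn5, hn6⟩, hn7⟩ := hn
  have k1 := h1 P R G f hS hn1
  have k2 := h2 P.card hn2
  obtain ⟨k3, hL1⟩ := h3 P.card hn3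
  obtain ⟨hZ, -⟩ := h4 P.card hn4
  set n : ℝ := (P.card : ℝ) with hnd
  have hn3R : (3 : ℝ) ≤ n := by
    rw [hnd]
    exact_mod_cast hn5
  have hn0 : 0 < n := by linarith
  set L : ℝ := Real.log n with hLd
  set d : ℕ := ⌈L⌉₊ with hdd
  have hdL : (d : ℝ) + 1 ≤ 3 * L := ceil_log_bd hL1
  have hd0 : (0 : ℝ) ≤ d := Nat.cast_nonneg d
  have hWn : (3 : ℝ) ≤ n ^ A := by
    calc (3 : ℝ) ≤ n := hn3R
      _ = n ^ 1 := (pow_one n).symm
      _ ≤ n ^ A := pow_le_pow_right₀ (by linarith) hA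
  have hsub : P₁ ⊆ P := by
    rw [hP₁]
    exact Finset.filter_subset _ _
  have hP₁0 : ∀ p ∈ P₁, ev G₁ (pt p) = 0 := by
    intro p hp
    rw [hP₁] at hp
    exact (Finset.mem_filter.1 hp).2
  have hP₁n : (P₁.card : ℝ) ≤ n := by
    rw [hnd]
    exact_mod_cast Finset.card_le_card hsub
  have hNC1 : NC P₁ := fun a ha b hb c hc => hS.cfg.nc a (hsub ha) b (hsub hb) c (hsub hc)
  have h3c : 3 ≤ P₁.card := by
    have : 3 / c₂ ≤ n := (Nat.le_ceil _).trans (by rw [hnd]; exact_mod_cast hn6)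
    rw [div_le_iff₀ hc] at this
    have h5 : (3 : ℝ) ≤ P₁.card := by linarith
    exact_mod_cast h5
  have hCn : (C : ℝ) * n ≤ ε * n ^ 2 := by
    have : C / ε ≤ n := (Nat.le_ceil _).trans (by rw [hnd]; exact_mod_cast hn7)
    rw [div_le_iff₀ hε0] at this
    nlinarith
  have hall := restr hS hsub
  -- (b)
  have hb := two' hS.cfg (G.filter fun x => ev G₁ (qt (f x)) ≠ 0 ∧
      ((x.1 ∈ P₁ ∧ big (ZZ P.card) (rho x.1 (f x)) ≠ 1) ∨
        (x.2 ∈ P₁ ∧ big (ZZ P.card) (rho x.2 (f x)) ≠ 1))) (Finset.filter_subset _ _)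
    (fun q => P.filter fun p => ev G₁ (qt q) ≠ 0 ∧ (ev G₁ (pt p) = 0 ∧
      big (ZZ P.card) (rho p q) ≠ 1)) (by
      intro x hx
      rw [Finset.mem_filter] at hx
      obtain ⟨-, hx1, hx2⟩ := hx
      rcases hx2 with hx2 | hx2
      · left
        rw [Finset.mem_filter]
        exact ⟨hsub hx2.1, hx1, hP₁0 _ hx2.1, hx2.2⟩
      · right
        rw [Finset.mem_filter]
        exact ⟨hsub hx2.1, hx1, hP₁0 _ hx2.1, hx2.2⟩) (ε * n) (by
      intro q hq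
      by_cases hq0 : ev G₁ (qt q) = 0
      · have : (P.filter fun p => ev G₁ (qt q) ≠ 0 ∧ (ev G₁ (pt p) = 0 ∧
            big (ZZ P.card) (rho p q) ≠ 1)) = ∅ := by
          apply Finset.filter_false_of_mem
          intro p _ hp
          exact hp.1 hq0
        rw [this, Finset.card_empty, Nat.cast_zero]
        positivity
      · have h6 := sepcnt hS.spr (hS.cfg.prim q hq) (hS.cfg.out q hq) hS.cfg.htP
          (hS.cfg.htR q hq) hWn hZ hBD hq0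
        have h7 : ((P.filter fun p => ev G₁ (qt q) ≠ 0 ∧ (ev G₁ (pt p) = 0 ∧
            big (ZZ P.card) (rho p q) ≠ 1)).card : ℝ) ≤
            ((P.filter fun p => ev G₁ (pt p) = 0 ∧ big (ZZ P.card) (rho p q) ≠ 1).card : ℝ) := by
          apply Nat.cast_le.2
          apply Finset.card_le_card
          intro p hp
          rw [Finset.mem_filter] at hp ⊢
          exact ⟨hp.1, hp.2.2⟩
        refine h7.trans (h6.trans (le_trans ?_ k2))
        have hKpos : 0 ≤ KK P.card * (n / ZZ P.card + 1) := by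
          have : 0 < KK P.card := Real.exp_pos _
          positivity
        apply mul_le_mul_of_nonneg_right _ hKpos
        rw [Real.log_pow]
        have h8 : ((d : ℝ) + 1) ^ 4 ≤ (3 * L) ^ 4 := by gcongr
        calc 9 * ((d : ℝ) + 1) ^ 4 * (A * L) ≤ 9 * (3 * L) ^ 4 * (A * L) := by
              apply mul_le_mul_of_nonneg_right _ (by positivity)
              linarith
          _ = 729 * A * L ^ 5 := by ring)
  -- (c)
  set M : ℕ := ⌊n ^ (1 / 3 : ℝ)⌋₊ with hM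
  have hMn : (M : ℝ) ≤ n ^ (1 / 3 : ℝ) := Nat.floor_le (by positivity)
  set Tc : Finset (ℕ × ℕ) := (Finset.Icc 1 M ×ˢ Finset.Icc 1 M).filter fun y => y.1 < y.2 with hTc
  have hTcard : (Tc.card : ℝ) ≤ n ^ (2 / 3 : ℝ) := by
    have h9 : Tc.card ≤ M * M := by
      refine (Finset.card_filter_le _ _).trans ?_
      rw [Finset.card_product, Nat.card_Icc]
      simp
    have h10 : (Tc.card : ℝ) ≤ M * M := by exact_mod_cast h9
    refine h10.trans ?_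
    calc (M : ℝ) * M ≤ n ^ (1 / 3 : ℝ) * n ^ (1 / 3 : ℝ) := by gcongr
      _ = n ^ (2 / 3 : ℝ) := by
        rw [← Real.rpow_add hn0]
        norm_num
  have hcset : (G.filter fun x => x.1 ∈ P₁ ∧ x.2 ∈ P₁ ∧ ev G₁ (qt (f x)) = 0 ∧
      (((rho x.1 (f x) + rho x.2 (f x)) /
        Nat.gcd (rho x.1 (f x)) (rho x.2 (f x)) : ℕ) : ℝ) ≤ n ^ (1 / 3 : ℝ)) ⊆
      (P₁ ×ˢ Tc).biUnion fun y => (P₁.filter fun p' =>
        ev G₁ (pt y.1 + (((y.2.1 : ℕ) : ℚ) / ((y.2.2 : ℕ) : ℚ)) • (pt p' - pt y.1)) = 0).image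
          fun p' => (y.1, p') := by
    intro x hx
    rw [Finset.mem_filter] at hx
    obtain ⟨hxG, hx1, hx2, hx3, hx4⟩ := hx
    have hq := hS.cfg.mem x hxG
    obtain ⟨s, s', hs, hs', e1, e2⟩ := qt_of_opp (hS.cfg.prim _ hq).1 (hS.cfg.opp x hxG)
      (hS.cfg.out _ hq _ (hsub hx1)) (hS.cfg.out _ hq _ (hsub hx2))
    rw [e1] at hx4
    have hle : s + s' ≤ M := Nat.le_floor hx4
    rw [Finset.mem_biUnion]
    refine ⟨(x.1, (s, s + s')), ?_, ?_⟩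
    · rw [Finset.mem_product, hTc, Finset.mem_filter, Finset.mem_product, Finset.mem_Icc,
        Finset.mem_Icc]
      refine ⟨hx1, ⟨⟨?_, ?_⟩, ?_, ?_⟩, ?_⟩ <;> dsimp only <;> omega
    · rw [Finset.mem_image]
      refine ⟨x.2, ?_, rfl⟩
      rw [Finset.mem_filter]
      refine ⟨hx2, ?_⟩
      dsimp only
      rw [← e2]
      exact hx3
  have hccard : ((G.filter fun x => x.1 ∈ P₁ ∧ x.2 ∈ P₁ ∧ ev G₁ (qt (f x)) = 0 ∧
      (((rho x.1 (f x) + rho x.2 (f x)) /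
        Nat.gcd (rho x.1 (f x)) (rho x.2 (f x)) : ℕ) : ℝ) ≤ n ^ (1 / 3 : ℝ)).card : ℝ) ≤
      ε * n ^ 2 := by
    have h11 := (Finset.card_le_card hcset).trans Finset.card_biUnion_le
    have h12 : ∑ y ∈ P₁ ×ˢ Tc, ((P₁.filter fun p' =>
        ev G₁ (pt y.1 + (((y.2.1 : ℕ) : ℚ) / ((y.2.2 : ℕ) : ℚ)) • (pt p' - pt y.1)) = 0).image
          fun p' => (y.1, p')).card ≤ ∑ y ∈ P₁ ×ˢ Tc, 4 * d ^ 4 := by
      apply Finset.sum_le_sum
      intro y hy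
      refine Finset.card_image_le.trans ?_
      rw [Finset.mem_product, hTc, Finset.mem_filter, Finset.mem_product, Finset.mem_Icc,
        Finset.mem_Icc] at hy
      obtain ⟨hy1, ⟨⟨hy2, -⟩, hy3, -⟩, hy4⟩ := hy
      have q1 : (0 : ℚ) < (y.2.1 : ℕ) := by exact_mod_cast hy2
      have q2 : (0 : ℚ) < (y.2.2 : ℕ) := by exact_mod_cast hy3
      apply homo hirr hBD hNC1 h3c hP₁0 hy1
      · positivity
      · rw [div_lt_one q2]
        exact_mod_cast hy4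
    rw [Finset.sum_const, Finset.card_product, smul_eq_mul] at h12
    have h13 : ((G.filter fun x => x.1 ∈ P₁ ∧ x.2 ∈ P₁ ∧ ev G₁ (qt (f x)) = 0 ∧
      (((rho x.1 (f x) + rho x.2 (f x)) /
        Nat.gcd (rho x.1 (f x)) (rho x.2 (f x)) : ℕ) : ℝ) ≤ n ^ (1 / 3 : ℝ)).card : ℝ) ≤
      P₁.card * Tc.card * (4 * (d : ℝ) ^ 4) := by
      have h14 := h11.trans h12
      exact_mod_cast h14
    refine h13.trans ?_
    have h15 : (d : ℝ) ^ 4 ≤ 16 * L ^ 4 := by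
      have h16 : (d : ℝ) ≤ 2 * L := by
        have := Nat.ceil_lt_add_one (by linarith : 0 ≤ L)
        rw [← hdd] at this
        linarith
      calc (d : ℝ) ^ 4 ≤ (2 * L) ^ 4 := by gcongr
        _ = 16 * L ^ 4 := by ring
    calc (P₁.card : ℝ) * Tc.card * (4 * (d : ℝ) ^ 4)
        ≤ n * n ^ (2 / 3 : ℝ) * (4 * (16 * L ^ 4)) := by gcongr
      _ = n * (64 * L ^ 4 * n ^ (2 / 3 : ℝ)) := by ring
      _ ≤ n * (ε * n) := by gcongr
      _ = ε * n ^ 2 := by ring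
  -- the union
  have hunion : (G.filter fun x => x.1 ∈ P₁ ∧ x.2 ∈ P₁) ⊆
      (G.filter fun x => x.1 ∈ P₁ ∧ x.2 ∈ P₁ ∧
        n ^ (1 / 3 : ℝ) < (((rho x.1 (f x) + rho x.2 (f x)) /
          Nat.gcd (rho x.1 (f x)) (rho x.2 (f x)) : ℕ) : ℝ)) ∪
      ((G.filter fun x => big (ZZ P.card) (rho x.1 (f x)) = 1 ∧
        big (ZZ P.card) (rho x.2 (f x)) = 1) ∪
      ((G.filter fun x => ev G₁ (qt (f x)) ≠ 0 ∧
        ((x.1 ∈ P₁ ∧ big (ZZ P.card) (rho x.1 (f x)) ≠ 1) ∨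
        (x.2 ∈ P₁ ∧ big (ZZ P.card) (rho x.2 (f x)) ≠ 1))) ∪
      (G.filter fun x => x.1 ∈ P₁ ∧ x.2 ∈ P₁ ∧ ev G₁ (qt (f x)) = 0 ∧
      (((rho x.1 (f x) + rho x.2 (f x)) /
        Nat.gcd (rho x.1 (f x)) (rho x.2 (f x)) : ℕ) : ℝ) ≤ n ^ (1 / 3 : ℝ)))) := by
    intro x hx
    rw [Finset.mem_filter] at hx
    obtain ⟨hxG, hx1, hx2⟩ := hx
    rw [Finset.mem_union, Finset.mem_union, Finset.mem_union, Finset.mem_filter,
      Finset.mem_filter, Finset.mem_filter, Finset.mem_filter]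
    by_cases c1 : n ^ (1 / 3 : ℝ) < (((rho x.1 (f x) + rho x.2 (f x)) /
          Nat.gcd (rho x.1 (f x)) (rho x.2 (f x)) : ℕ) : ℝ)
    · exact Or.inl ⟨hxG, hx1, hx2, c1⟩
    · right
      by_cases c2 : ev G₁ (qt (f x)) = 0
      · exact Or.inr (Or.inr ⟨hxG, hx1, hx2, c2, not_lt.1 c1⟩)
      · by_cases c3 : big (ZZ P.card) (rho x.1 (f x)) = 1
        · by_cases c4 : big (ZZ P.card) (rho x.2 (f x)) = 1
          · exact Or.inl ⟨hxG, c3, c4⟩
          · exact Or.inr (Or.inl ⟨hxG, c2, Or.inr ⟨hx2, c4⟩⟩)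
        · exact Or.inr (Or.inl ⟨hxG, c2, Or.inl ⟨hx1, c3⟩⟩)
  have hu1 := Finset.card_le_card hunion
  have hu2 := hu1.trans (Finset.card_union_le _ _)
  have hu3 := hu2.trans (Nat.add_le_add_left (Finset.card_union_le _ _) _)
  have hu4 := hu3.trans (Nat.add_le_add_left (Nat.add_le_add_left
    (Finset.card_union_le _ _) _) _)
  have hu5 : ((G.filter fun x => x.1 ∈ P₁ ∧ x.2 ∈ P₁).card : ℝ) ≤ _ := Nat.cast_le.2 hu4
  push_cast at hu5
  have hR0 := hS.cardR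
  have hb2 : (R.card : ℝ) * (ε * n) ≤ C * n * (ε * n) :=
    mul_le_mul_of_nonneg_right hR0 (by positivity)
  have hfin : (2 * C + 3) * (ε * n ^ 2) = c₂ ^ 2 * n ^ 2 / 2 := by
    rw [hε]
    field_simp
  have hsq : c₂ ^ 2 * n ^ 2 ≤ (P₁.card : ℝ) ^ 2 := by
    rw [← mul_pow]
    gcongr
  push_cast
  nlinarith

end BlkAR
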