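import Pool.Agent.Work.MP_763b10_co.AR.LemG
import Pool.Agent.Work.MP_763b10_co.AR.Most

/-!
# MP_763b10_co, board modar, module Step5 (M)

A positive proportion of `P` is on a curve of bounded degree.

Proof. Remove from the given set of `≥ |P₁|²/2` pairs those with `SS n < sml` at one end (`smlcnt`, `ε = c₂²/4`): at least `|P₁|²/4` remain (`|P₁| ≥ c₂ n`). For such `x` one of `ρ = rho x.1 q`, `σ = rho x.2 q` is
`≥ (ρ + σ)/2 ≥ n^(1/3)/2`, so its `big` part is `≥ n^(1/3)/(2 SS n) ≥ n^(1/8) =: R₀` (`big_mul_sml`, `num_misc`). `two`: `N = {(p,q) ∈ P₁ × R : R₀ ≤ big}` has `|N| ≥ |P₁|²/8`.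
`P₂ = {p ∈ P₁ : #{q ∈ R : R₀ ≤ big} ≥ |P₁|/16}`: `|P₁|²/8 ≤ |P₂| C n + |P₁|²/16`, so `|P₂| ≥ |P₁|²/(16 C n) ≥ (c₂²/(16C)) n`, `C ≥ 1`. Apply `lemG` to `P₂` with `η = min(1, c₂/(16C))`
(`|P₁|/16 ≥ c₂ n/16 ≥ η |R|`), `d = ⌈256 A/η⌉₊ + 1`: `32 log W = 32 A log n < d η log R₀ = d η (log n)/8`; `|R| ≥ |P₁|/16`, so `hRc` for large `n`; the loss is `≤ (c₂²/(32C)) n`
(`num_poly`). So `c₃ = (η/4) c₂²/(32 C)`.
-/

set_option autoImplicit false

namespace BlkAR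

open Finset Polynomial

open scoped Classical in
private theorem st5_dc {α β : Type*} (P : Finset α) (R : Finset β) (r : α → β → Prop) (t : ℝ)
    (ht : 0 ≤ t) :
    (((P ×ˢ R).filter fun y => r y.1 y.2).card : ℝ) ≤
      ((P.filter fun p => t ≤ ((R.filter fun q => r p q).card : ℝ)).card : ℝ) * R.card +
        P.card * t := by
  have h1 : (((P ×ˢ R).filter fun y => r y.1 y.2).card : ℝ) =
      ∑ p ∈ P, ((R.filter fun q => r p q).card : ℝ) := by
    rw [Finset.card_filter, Finset.sum_product]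
    push_cast
    refine Finset.sum_congr rfl fun p _ => ?_
    rw [Finset.card_filter]
    push_cast
    rfl
  rw [h1]
  have h2 : ∀ p ∈ P, ((R.filter fun q => r p q).card : ℝ) ≤
      (if t ≤ ((R.filter fun q => r p q).card : ℝ) then (R.card : ℝ) else 0) + t := by
    intro p _
    split_ifs with h
    · have : ((R.filter fun q => r p q).card : ℝ) ≤ R.card := by
        exact_mod_cast Finset.card_filter_le _ _
      linarith
    · push Not at h
      linarith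
  refine (Finset.sum_le_sum h2).trans (le_of_eq ?_)
  rw [Finset.sum_add_distrib, ← Finset.sum_filter, Finset.sum_const, Finset.sum_const,
    nsmul_eq_mul, nsmul_eq_mul]

private theorem st5_big {Z ρ : ℕ} {s T U : ℝ} (hρ : ρ ≠ 0) (hsml : (sml Z ρ : ℝ) ≤ s)
    (hs : 0 < s) (hT : U * (2 * s) ≤ T) (hρT : T ≤ 2 * ρ) : U ≤ (big Z ρ : ℝ) := by
  have h := big_mul_sml (Z := Z) hρ
  have h' : (big Z ρ : ℝ) * sml Z ρ = ρ := by exact_mod_cast h
  have h1 : (ρ : ℝ) ≤ big Z ρ * s := by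
    rw [← h']
    exact mul_le_mul_of_nonneg_left hsml (Nat.cast_nonneg _)
  by_contra hcon
  push Not at hcon
  nlinarith

open scoped Classical in
theorem step5 (C A : ℕ) (hA : 1 ≤ A) (c₂ : ℝ) (hc : 0 < c₂) : ∃ c₃ : ℝ, 0 < c₃ ∧ ∃ d n₀ : ℕ,
    ∀ (P : Finset (ℤ × ℤ)) (R : Finset (ℤ × ℤ × ℤ)) (G : Finset ((ℤ × ℤ) × (ℤ × ℤ)))
    (f : (ℤ × ℤ) × (ℤ × ℤ) → ℤ × ℤ × ℤ), Sit C A P R G f → n₀ ≤ P.card →
    ∀ P₁ ⊆ P, c₂ * P.card ≤ P₁.card →
      (P₁.card : ℝ) ^ 2 / 2 ≤ ((G.filter fun x => x.1 ∈ P₁ ∧ x.2 ∈ P₁ ∧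
        (P.card : ℝ) ^ (1 / 3 : ℝ) < (((rho x.1 (f x) + rho x.2 (f x)) /
          Nat.gcd (rho x.1 (f x)) (rho x.2 (f x)) : ℕ) : ℝ)).card : ℝ) →
    ∃ F : ℤ[X][X], F ≠ 0 ∧ BD d F ∧
      c₃ * P.card ≤ ((P.filter fun p => F.evalEval p.1 p.2 = 0).card : ℝ) := by
  set D : ℝ := (C : ℝ) + 1 with hD
  have hC0 : (0 : ℝ) ≤ C := Nat.cast_nonneg C
  have hD1 : 1 ≤ D := by linarith
  have hA1 : (1 : ℝ) ≤ A := by exact_mod_cast hA
  set η : ℝ := min 1 (c₂ / (16 * D)) with hη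
  have hη0 : 0 < η := lt_min one_pos (by positivity)
  have hη1 : η ≤ 1 := min_le_left _ _
  have hηD : η * D ≤ c₂ / 16 := by
    calc η * D ≤ c₂ / (16 * D) * D := mul_le_mul_of_nonneg_right (min_le_right _ _) (by positivity)
      _ = c₂ / 16 := by field_simp
  set d : ℕ := ⌈256 * A / η⌉₊ + 1 with hd
  have hd1 : 256 * A / η < (d : ℝ) := by
    have := Nat.le_ceil (256 * A / η)
    rw [hd]
    push_cast
    linarith
  obtain ⟨n1, H1⟩ := smlcnt C A (c₂ ^ 2 / 4) (by positivity)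
  obtain ⟨n2, H2⟩ := num_misc 0
  obtain ⟨n3, H3⟩ := num_pow (2 * ((d : ℝ) + 1) ^ 4 * (4 * A)) (η * c₂ / 8) 1 (by positivity)
  obtain ⟨n4, H4⟩ := num_poly (2 * (4 * A) ^ 3 * ((d : ℝ) + 1) ^ 8 / η ^ 2) (c₂ ^ 2 / (32 * D)) 3
    (by positivity)
  refine ⟨η * c₂ ^ 2 / (128 * D), by positivity, d, max (max (max n1 n2) (max n3 n4)) 3, ?_⟩
  intro P R G f hS hn Q hQP hQc hQG
  have hn1 : n1 ≤ P.card := le_trans (by simp) hn
  have hn2 : n2 ≤ P.card := le_trans (by simp) hn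
  have hn3 : n3 ≤ P.card := le_trans (by simp) hn
  have hn4 : n4 ≤ P.card := le_trans (by simp) hn
  have hn5 : 3 ≤ P.card := le_trans (by simp) hn
  have h1 := H1 P R G f hS hn1
  obtain ⟨hZ2, hR1, hK2, -, hS8⟩ := H2 P.card hn2
  obtain ⟨h3, hl1⟩ := H3 P.card hn3
  have h4 := H4 P.card hn4
  have hn5' : (3 : ℝ) ≤ (P.card : ℝ) := by exact_mod_cast hn5
  set n : ℝ := (P.card : ℝ) with hnn
  set L : ℝ := Real.log n with hL
  set Z : ℕ := ZZ P.card with hZ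
  have hn0 : 0 < n := by linarith
  set m : ℝ := (Q.card : ℝ) with hm
  have hm0 : 0 < m := lt_of_lt_of_le (by positivity) hQc
  have hSp : (0 : ℝ) < (SS P.card : ℝ) := by
    have : 0 < SS P.card := by
      unfold SS
      exact pow_pos (by omega) _
    exact_mod_cast this
  -- the graph part
  set G₁ := G.filter fun x => x.1 ∈ Q ∧ x.2 ∈ Q ∧
        n ^ (1 / 3 : ℝ) < (((rho x.1 (f x) + rho x.2 (f x)) /
          Nat.gcd (rho x.1 (f x)) (rho x.2 (f x)) : ℕ) : ℝ) with hG₁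
  set B := G.filter fun x => SS P.card < sml Z (rho x.1 (f x)) ∨
      SS P.card < sml Z (rho x.2 (f x)) with hB
  set G' := G₁ \ B with hG'
  have hG'c : m ^ 2 / 4 ≤ (G'.card : ℝ) := by
    have e1 : G₁.card ≤ G'.card + B.card := by
      have := Finset.le_card_sdiff B G₁
      rw [← hG'] at this
      omega
    have e2 : (G₁.card : ℝ) ≤ G'.card + B.card := by exact_mod_cast e1
    have e3 : c₂ ^ 2 / 4 * n ^ 2 ≤ m ^ 2 / 4 := by
      have : (c₂ * n) ^ 2 ≤ m ^ 2 := pow_le_pow_left₀ (by positivity) hQc 2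
      nlinarith
    linarith
  have hG'G : G' ⊆ G := Finset.sdiff_subset.trans (Finset.filter_subset _ _)
  set N := (Q ×ˢ R).filter fun y => n ^ (1 / 8 : ℝ) ≤ (big Z (rho y.1 y.2) : ℝ) with hN
  have hNm : ∀ x ∈ G', (x.1, f x) ∈ N ∨ (x.2, f x) ∈ N := by
    intro x hx
    have hxG := hG'G hx
    rw [hG', Finset.mem_sdiff, hG₁, hB, Finset.mem_filter, Finset.mem_filter] at hx
    obtain ⟨⟨-, hx1, hx2, hx3⟩, hx4⟩ := hx
    have hfR := hS.cfg.mem x hxG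
    have hs1 : (sml Z (rho x.1 (f x)) : ℝ) ≤ (SS P.card : ℝ) := by
      have : ¬ (SS P.card < sml Z (rho x.1 (f x))) := fun h => hx4 ⟨hxG, Or.inl h⟩
      exact_mod_cast not_lt.1 this
    have hs2 : (sml Z (rho x.2 (f x)) : ℝ) ≤ (SS P.card : ℝ) := by
      have : ¬ (SS P.card < sml Z (rho x.2 (f x))) := fun h => hx4 ⟨hxG, Or.inr h⟩
      exact_mod_cast not_lt.1 this
    have hρ1 := hS.cfg.out _ hfR x.1 (hQP hx1)
    have hρ2 := hS.cfg.out _ hfR x.2 (hQP hx2)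
    have hsum : n ^ (1 / 3 : ℝ) ≤ (rho x.1 (f x) : ℝ) + (rho x.2 (f x) : ℝ) := by
      have e1 : (rho x.1 (f x) + rho x.2 (f x)) / Nat.gcd (rho x.1 (f x)) (rho x.2 (f x)) ≤
          rho x.1 (f x) + rho x.2 (f x) := Nat.div_le_self _ _
      have e2 : (((rho x.1 (f x) + rho x.2 (f x)) /
          Nat.gcd (rho x.1 (f x)) (rho x.2 (f x)) : ℕ) : ℝ) ≤
          (rho x.1 (f x) : ℝ) + (rho x.2 (f x) : ℝ) := by exact_mod_cast e1
      exact hx3.le.trans e2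
    rcases le_total (rho x.1 (f x) : ℝ) (rho x.2 (f x) : ℝ) with hle | hle
    · right
      rw [hN, Finset.mem_filter, Finset.mem_product]
      exact ⟨⟨hx2, hfR⟩, st5_big hρ2 hs2 hSp hS8 (by linarith)⟩
    · left
      rw [hN, Finset.mem_filter, Finset.mem_product]
      exact ⟨⟨hx1, hfR⟩, st5_big hρ1 hs1 hSp hS8 (by linarith)⟩
  have hG'N := two hS.cfg G' hG'G N hNm
  have hG'N' : (G'.card : ℝ) ≤ 2 * N.card := by exact_mod_cast hG'N
  have hNc : m ^ 2 / 8 ≤ (N.card : ℝ) := by linarith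
  have hNR : (N.card : ℝ) ≤ m * R.card := by
    have h : N.card ≤ Q.card * R.card :=
      (Finset.card_filter_le _ _).trans_eq (Finset.card_product _ _)
    rw [hm]
    exact_mod_cast h
  have hRlow : m / 8 ≤ (R.card : ℝ) := by
    by_contra hcon
    push Not at hcon
    nlinarith
  have hRup : (R.card : ℝ) ≤ D * n := by
    have := hS.cardR
    rw [← hnn] at this
    nlinarith
  set P₂ := Q.filter fun p => m / 16 ≤
    ((R.filter fun q => n ^ (1 / 8 : ℝ) ≤ (big Z (rho p q) : ℝ)).card : ℝ) with hP₂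
  have hdc := st5_dc Q R (fun p q => n ^ (1 / 8 : ℝ) ≤ (big Z (rho p q) : ℝ)) (m / 16)
    (by positivity)
  rw [← hN, ← hP₂, ← hm] at hdc
  have hP₂c : c₂ ^ 2 * n / (16 * D) ≤ (P₂.card : ℝ) := by
    rw [div_le_iff₀ (by positivity)]
    have h5 : m ^ 2 / 16 ≤ (P₂.card : ℝ) * R.card := by nlinarith
    have h6 : (P₂.card : ℝ) * R.card ≤ P₂.card * (D * n) :=
      mul_le_mul_of_nonneg_left hRup (Nat.cast_nonneg _)
    have h7 : (c₂ * n) ^ 2 ≤ m ^ 2 := pow_le_pow_left₀ (by positivity) hQc 2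
    by_contra hcon
    push Not at hcon
    have h8 : (P₂.card : ℝ) * (16 * D) * n < c₂ ^ 2 * n * n := mul_lt_mul_of_pos_right hcon hn0
    nlinarith
  -- the parameters
  have hlW : Real.log (n ^ A) = A * L := by rw [Real.log_pow]
  have hBW : 1 + 3 * Real.log (n ^ A) ≤ 4 * A * L := by
    rw [hlW]
    nlinarith
  have hBW0 : 0 ≤ 1 + 3 * Real.log (n ^ A) := by
    rw [hlW]
    positivity
  have hW3 : 3 ≤ n ^ A := by
    calc (3 : ℝ) ≤ n ^ 1 := by rw [pow_one]; exact hn5'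
      _ ≤ n ^ A := pow_le_pow_right₀ (by linarith) hA
  have hL0 : 0 < L := by linarith
  have hR01 : 1 < n ^ (1 / 8 : ℝ) := Real.one_lt_rpow (by linarith) (by norm_num)
  have hdd : 32 * Real.log (n ^ A) < d * η * Real.log (n ^ (1 / 8 : ℝ)) := by
    rw [hlW, Real.log_rpow hn0, ← hL]
    have h5 : 256 * A < d * η := by
      rw [div_lt_iff₀ hη0] at hd1
      exact hd1
    have h6 : 256 * A * (1 / 8 * L) < d * η * (1 / 8 * L) :=
      mul_lt_mul_of_pos_right h5 (by positivity)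
    linarith
  have hn23 : 1 ≤ n ^ (2 / 3 : ℝ) := Real.one_le_rpow (by linarith) (by norm_num)
  have hRc : 2 * ((d : ℝ) + 1) ^ 4 * (1 + 3 * Real.log (n ^ A)) ≤ η * R.card := by
    have e2 : 2 * ((d : ℝ) + 1) ^ 4 * (1 + 3 * Real.log (n ^ A)) ≤
        2 * ((d : ℝ) + 1) ^ 4 * (4 * A * L) :=
      mul_le_mul_of_nonneg_left hBW (by positivity)
    have e3 : 2 * ((d : ℝ) + 1) ^ 4 * (4 * A * L) ≤
        2 * ((d : ℝ) + 1) ^ 4 * (4 * A) * L ^ 1 * n ^ (2 / 3 : ℝ) := by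
      have : 0 ≤ 2 * ((d : ℝ) + 1) ^ 4 * (4 * (A : ℝ)) * L ^ 1 := by positivity
      calc 2 * ((d : ℝ) + 1) ^ 4 * (4 * A * L) =
            2 * ((d : ℝ) + 1) ^ 4 * (4 * A) * L ^ 1 * 1 := by ring
        _ ≤ _ := mul_le_mul_of_nonneg_left hn23 this
    have e4 : η * c₂ / 8 * n ≤ η * R.card := by
      calc η * c₂ / 8 * n = η * (c₂ * n / 8) := by ring
        _ ≤ _ := mul_le_mul_of_nonneg_left (by linarith) hη0.le
    linarith
  have hres := lemG (P₁ := P₂) (Z := Z) (d := d) (R₀ := n ^ (1 / 8 : ℝ)) (W := n ^ A) (η := η)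
    (K := KK P.card) hS.spr ((Finset.filter_subset _ _).trans hQP) hS.cfg.prim hS.cfg.out
    hS.cfg.htP hS.cfg.htR hW3 hZ2 hη0 hη1 hR01 (by omega) hdd
    (by
      intro p hp
      rw [hP₂, Finset.mem_filter] at hp
      refine le_trans ?_ hp.2
      calc η * R.card ≤ η * (D * n) := mul_le_mul_of_nonneg_left hRup hη0.le
        _ = (η * D) * n := by ring
        _ ≤ c₂ / 16 * n := mul_le_mul_of_nonneg_right hηD hn0.le
        _ ≤ m / 16 := by linarith) hRc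
  obtain ⟨F, hF0, hBD, hF⟩ := hres
  refine ⟨F, hF0, hBD, ?_⟩
  have hsub : ((P₂.filter fun p => F.evalEval p.1 p.2 = 0).card : ℝ) ≤
      ((P.filter fun p => F.evalEval p.1 p.2 = 0).card : ℝ) := by
    exact_mod_cast Finset.card_le_card
      (Finset.filter_subset_filter _ ((Finset.filter_subset _ _).trans hQP))
  refine le_trans ?_ hsub
  refine le_trans ?_ hF
  have hloss : 2 * (1 + 3 * Real.log (n ^ A)) ^ 3 * ((d : ℝ) + 1) ^ 8 / η ^ 2 *
      (KK P.card * (n / Z + 1)) ≤ c₂ ^ 2 / (32 * D) * n := by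
    refine le_trans ?_ h4
    have hX : 0 ≤ KK P.card * (n / (Z : ℝ) + 1) := by
      have : 0 ≤ KK P.card := by linarith
      positivity
    refine mul_le_mul_of_nonneg_right ?_ hX
    have e2 : (1 + 3 * Real.log (n ^ A)) ^ 3 ≤ (4 * A * L) ^ 3 :=
      pow_le_pow_left₀ hBW0 hBW 3
    calc 2 * (1 + 3 * Real.log (n ^ A)) ^ 3 * ((d : ℝ) + 1) ^ 8 / η ^ 2 ≤
          2 * (4 * A * L) ^ 3 * ((d : ℝ) + 1) ^ 8 / η ^ 2 := by
          refine div_le_div_of_nonneg_right ?_ (by positivity)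
          exact mul_le_mul_of_nonneg_right (by linarith) (by positivity)
      _ = 2 * (4 * A) ^ 3 * ((d : ℝ) + 1) ^ 8 / η ^ 2 * L ^ 3 := by ring
  have hfin : η * c₂ ^ 2 / (128 * D) * n =
      η / 4 * (c₂ ^ 2 * n / (16 * D) - c₂ ^ 2 / (32 * D) * n) := by
    field_simp
    ring
  rw [hfin]
  refine mul_le_mul_of_nonneg_left ?_ (by positivity)
  linarith

end BlkAR
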