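import Pool.Agent.Work.MP_763b10_co.AR.Conf
import Pool.Agent.Work.MP_763b10_co.AR.Step1
import Pool.Agent.Work.MP_763b10_co.AR.Step2
import Pool.Agent.Work.MP_763b10_co.AR.Step3
import Pool.Agent.Work.MP_763b10_co.AR.Step5
import Pool.Agent.Work.MP_763b10_co.AR.CurveBlk

/-!
# MP_763b10_co, board modar, module Main (S-M)

The main theorem.

Proof. Suppose `|Q| < C n`. `conf` gives `R, G, f` with `Sit (2C+1) (3A+5) P R G f`. `step1` (c), `step2` (c₂, from c), `step3` (c₂), `step5` (c₃, d) (with `P₁` = zeros of `G₁`) give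
`F : ℤ[X][Y] ≠ 0` of bidegree `≤ d` with `X = {p ∈ P : F(p) = 0}`, `|X| ≥ c₃ n`. `curveBlk d (C/c₃)`: for large `n`, `(C/c₃)|X| ≤ |Q|`, so `C n ≤ |Q|`, contradiction.
(`NC X`, `Blocks X Q` are inherited.)
-/

set_option autoImplicit false

namespace BlkAR

theorem main (C A : ℕ) : ∃ n₀ : ℕ, ∀ (P : Finset (ℤ × ℤ)) (Q : Finset (ℝ × ℝ)),
    n₀ ≤ P.card → NC P →
    (∀ p ∈ P, |(p.1 : ℝ)| ≤ (P.card : ℝ) ^ A ∧ |(p.2 : ℝ)| ≤ (P.card : ℝ) ^ A) →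
    Spr (KK P.card) P → Blocks P Q → (C : ℝ) * P.card ≤ Q.card := by
  classical
  obtain ⟨c, hc, n₁, h1⟩ := step1 (2 * C + 1) (3 * A + 5) (by omega)
  obtain ⟨c₂, hc₂, n₂, h2⟩ := step2 (2 * C + 1) (3 * A + 5) (by omega) c hc
  obtain ⟨n₃, h3⟩ := step3 (2 * C + 1) (3 * A + 5) (by omega) c₂ hc₂
  obtain ⟨c₃, hc₃, d, n₅, h5⟩ := step5 (2 * C + 1) (3 * A + 5) (by omega) c₂ hc₂
  obtain ⟨N, hN⟩ := curveBlk d ((C : ℝ) / c₃)
  refine ⟨n₁ + n₂ + n₃ + n₅ + ⌈(N : ℝ) / c₃⌉₊, ?_⟩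
  intro P Q hn hNC hP hS hB
  by_contra hlt
  have hQ : (Q.card : ℝ) ≤ C * P.card := (not_le.mp hlt).le
  obtain ⟨R, G, f, hcfg, hR, hG⟩ := conf A C P Q hNC hP hB hQ
  have hn0 : (0 : ℝ) ≤ P.card := Nat.cast_nonneg _
  have hsit : Sit (2 * C + 1) (3 * A + 5) P R G f := by
    refine ⟨hcfg, hS, ?_, ?_⟩
    · push_cast
      have : (0 : ℝ) ≤ (C : ℝ) * P.card := by positivity
      nlinarith
    · push_cast
      exact hG
  obtain ⟨F, hF0, hFd, hFc⟩ := h1 P R G f hsit (by omega)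
  obtain ⟨G₁, hG₁, hG₁d, hG₁c⟩ := h2 P R G f hsit (by omega) F hF0 hFd hFc
  set P₁ : Finset (ℤ × ℤ) := P.filter (fun p => ev G₁ (pt p) = 0) with hP₁
  have hP₁c : c₂ * (P.card : ℝ) ≤ (P₁.card : ℝ) := by
    rw [hP₁]
    exact hG₁c
  have h3' := h3 P R G f hsit (by omega) G₁ hG₁ hG₁d P₁ (by rw [hP₁]) hP₁c
  obtain ⟨F', hF'0, hF'd, hF'c⟩ := h5 P R G f hsit (by omega) P₁ (Finset.filter_subset _ _) hP₁c h3'
  set X : Finset (ℤ × ℤ) := P.filter (fun p => F'.evalEval p.1 p.2 = 0) with hX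
  have hXc : c₃ * (P.card : ℝ) ≤ (X.card : ℝ) := by
    rw [hX]
    exact hF'c
  have hXP : X ⊆ P := Finset.filter_subset _ _
  have hNX : N ≤ X.card := by
    have h : (N : ℝ) / c₃ ≤ (P.card : ℝ) := by
      refine (Nat.le_ceil _).trans ?_
      exact_mod_cast (by omega : ⌈(N : ℝ) / c₃⌉₊ ≤ P.card)
    have h' : (N : ℝ) ≤ c₃ * (P.card : ℝ) := by
      rw [div_le_iff₀ hc₃] at h
      linarith
    exact_mod_cast h'.trans hXc
  have hfin := hN F' X Q hF'0 hF'd (fun p hp q hq r hr => hNC p (hXP hp) q (hXP hq) r (hXP hr))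
    (fun p hp => (Finset.mem_filter.mp hp).2) (fun p hp p' hp' h => hB p (hXP hp) p' (hXP hp') h) hNX
  apply hlt
  have hC0 : (0 : ℝ) ≤ (C : ℝ) / c₃ := by positivity
  calc (C : ℝ) * P.card = (C : ℝ) / c₃ * (c₃ * P.card) := by
        field_simp
    _ ≤ (C : ℝ) / c₃ * X.card := mul_le_mul_of_nonneg_left hXc hC0
    _ ≤ Q.card := hfin

end BlkAR
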