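import Pool.Agent.Work.MP_763b10_co.AR.Defs

/-!
# MP_763b10_co, board modar, module Pmf (S-M)

Facts on `big`, `sml` and minimal prime powers.

Proof. `big_mul_sml`: the two products together are `∏_{l ∈ primeFactors} l^(factorization) = ρ`. `le_big`: if `big ≠ 1` the index set is nonempty and
every factor is `≥ Z` (and `≥ 1`). `pm_of_big`: then a prime `l` has `l^v ≥ Z`, `v = ρ.factorization l ≥ 1`; take the least `i` with `l^i ≥ Z` (`i ≥ 1` as
`Z ≥ 2`), `m = l^i ∣ l^v ∣ ρ`. `coprime_big`: a common prime factor `l` of `big Z ρ` and `big Z σ` has `l^v ≥ Z`, `l^w ≥ Z` for the exponents `v, w` in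
`ρ, σ`; the minimal power `m = l^i ≥ Z` divides both, contradiction. `pm_card`: two different minimal prime powers are coprime (for a given prime the
minimal power is unique), so the product of the elements of `M` divides `N`, and each is `≥ 2`.
-/

set_option autoImplicit false

namespace BlkAR

open Finset

private theorem pm_pow {Z l v : ℕ} (hZ : 2 ≤ Z) (hl : l.Prime) (h : Z ≤ l ^ v) :
    ∃ m, PM Z m ∧ ∀ w, Z ≤ l ^ w → m ∣ l ^ w := by
  classical
  have hex : ∃ i, Z ≤ l ^ i := ⟨v, h⟩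
  obtain ⟨i, hi⟩ : ∃ i, i = Nat.find hex := ⟨_, rfl⟩
  have hi1 : Z ≤ l ^ i := by
    rw [hi]
    exact Nat.find_spec hex
  have hi0 : i ≠ 0 := by
    intro h0
    rw [h0, pow_zero] at hi1
    omega
  obtain ⟨j, rfl⟩ := Nat.exists_eq_succ_of_ne_zero hi0
  refine ⟨l ^ (j + 1), ⟨l, j, hl, rfl, hi1, ?_⟩, fun w hw => ?_⟩
  · by_contra h2
    have h3 := Nat.find_min' hex (not_lt.1 h2)
    omega
  · have h3 := Nat.find_min' hex hw
    exact pow_dvd_pow l (by omega)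

private theorem pm_cop {Z m n : ℕ} (hm : PM Z m) (hn : PM Z n) (hne : m ≠ n) :
    Nat.Coprime m n := by
  obtain ⟨l, j, hl, rfl, h1, h2⟩ := hm
  obtain ⟨l', j', hl', rfl, h3, h4⟩ := hn
  by_cases h : l = l'
  · subst h
    exfalso
    apply hne
    have h5 : j < j' + 1 := (Nat.pow_lt_pow_iff_right hl.one_lt).1 (lt_of_lt_of_le h2 h3)
    have h6 : j' < j + 1 := (Nat.pow_lt_pow_iff_right hl.one_lt).1 (lt_of_lt_of_le h4 h1)
    have h7 : j = j' := by omega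
    rw [h7]
  · exact Nat.Coprime.pow _ _ ((Nat.coprime_primes hl hl').2 h)

private theorem big_ne {Z ρ : ℕ} (h : big Z ρ ≠ 1) :
    ∃ l ∈ ρ.primeFactors.filter (fun l => Z ≤ l ^ ρ.factorization l),
      Z ≤ l ^ ρ.factorization l := by
  by_contra h1
  push Not at h1
  apply h
  unfold big
  have h2 : ρ.primeFactors.filter (fun l => Z ≤ l ^ ρ.factorization l) = ∅ := by
    rw [Finset.eq_empty_iff_forall_notMem]
    intro l hl
    exact absurd (Finset.mem_filter.1 hl).2 (not_le.2 (h1 l hl))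
  rw [h2, Finset.prod_empty]

theorem big_mul_sml {Z ρ : ℕ} (hρ : ρ ≠ 0) : big Z ρ * sml Z ρ = ρ := by
  unfold big sml
  have h1 : ρ.primeFactors.filter (fun l => l ^ ρ.factorization l < Z) =
      ρ.primeFactors.filter (fun l => ¬ Z ≤ l ^ ρ.factorization l) :=
    Finset.filter_congr fun l _ => not_le.symm
  rw [h1, Finset.prod_filter_mul_prod_filter_not]
  exact (Nat.prod_primeFactors_pow_factorization hρ).symm

theorem big_dvd {Z ρ : ℕ} (hρ : ρ ≠ 0) : big Z ρ ∣ ρ := Dvd.intro _ (big_mul_sml hρ)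

theorem le_big {Z ρ : ℕ} (h : big Z ρ ≠ 1) : Z ≤ big Z ρ := by
  obtain ⟨l, hl, h1⟩ := big_ne h
  refine h1.trans (Nat.le_of_dvd ?_ (Finset.dvd_prod_of_mem _ hl))
  exact Finset.prod_pos fun i hi =>
    pow_pos (Nat.prime_of_mem_primeFactors (Finset.mem_filter.1 hi).1).pos _

theorem pm_of_big {Z ρ : ℕ} (hZ : 2 ≤ Z) (hρ : ρ ≠ 0) (h : big Z ρ ≠ 1) :
    ∃ m, PM Z m ∧ m ∣ ρ := by
  obtain ⟨l, hl, h1⟩ := big_ne h
  obtain ⟨m, h2, h3⟩ := pm_pow hZ (Nat.prime_of_mem_primeFactors (Finset.mem_filter.1 hl).1) h1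
  exact ⟨m, h2, (h3 _ h1).trans (Nat.ordProj_dvd ρ l)⟩

theorem coprime_big {Z ρ σ : ℕ} (hZ : 2 ≤ Z) (hρ : ρ ≠ 0) (hσ : σ ≠ 0)
    (h : ∀ m, PM Z m → m ∣ ρ → ¬ m ∣ σ) : Nat.Coprime (big Z ρ) (big Z σ) := by
  unfold big
  rw [Nat.coprime_prod_left_iff]
  intro l hl
  rw [Nat.coprime_prod_right_iff]
  intro l' hl'
  obtain ⟨h1, h2⟩ := Finset.mem_filter.1 hl
  obtain ⟨h3, h4⟩ := Finset.mem_filter.1 hl'
  have hp := Nat.prime_of_mem_primeFactors h1
  have hp' := Nat.prime_of_mem_primeFactors h3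
  by_cases he : l = l'
  · subst he
    exfalso
    obtain ⟨m, h5, h6⟩ := pm_pow hZ hp h2
    exact h m h5 ((h6 _ h2).trans (Nat.ordProj_dvd ρ l)) ((h6 _ h4).trans (Nat.ordProj_dvd σ l))
  · exact Nat.Coprime.pow _ _ ((Nat.coprime_primes hp hp').2 he)

theorem pm_card {Z N : ℕ} (hZ : 2 ≤ Z) (hN : N ≠ 0) (M : Finset ℕ)
    (hM : ∀ m ∈ M, PM Z m ∧ m ∣ N) : 2 ^ M.card ≤ N := by
  have h1 : ∏ m ∈ M, m ∣ N := by
    refine Finset.prod_dvd_of_isRelPrime ?_ fun m hm => (hM m hm).2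
    intro m hm n hn hne
    exact Nat.coprime_iff_isRelPrime.1 (pm_cop (hM m hm).1 (hM n hn).1 hne)
  refine le_trans ?_ (Nat.le_of_dvd (Nat.pos_of_ne_zero hN) h1)
  refine Finset.pow_card_le_prod M _ 2 fun m hm => ?_
  obtain ⟨l, j, -, -, h2, -⟩ := (hM m hm).1
  omega

end BlkAR
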