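import Pool.Agent.Work.MP_763b10_co.AR.DDefs

/-!
# MP_763b10_co, board modar, module Roots (M-L)

Over an interval without multiple roots the real zero set is a finite union of graphs of continuous functions.

Proof. `I = (u, v)`. For `x ∈ I` the real roots of `F(x, ·)` (a polynomial of degree `natDegree F`, leading coefficient `≠ 0` on `I`) are simple; let `k(x)` be their
number (`≤ natDegree F`). Local statement: let `x₀ ∈ I` with roots `r_1 < .. < r_k`. Choose `ε > 0` with the intervals `[r_j - ε, r_j + ε]` disjoint and `∂F/∂Y ≠ 0` on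
`{x₀} × ∪[r_j - ε, r_j + ε]`; by compactness for `x` near `x₀`: `∂F/∂Y(x, ·) ≠ 0` on these intervals, `F(x, r_j ± ε) ≠ 0` has the sign of `F(x₀, r_j ± ε)` (opposite signs at
`r_j - ε` and `r_j + ε`), `F(x, y) ≠ 0` for `|y| ≤ B` outside these intervals, and all roots of `F(x, ·)` have `|y| ≤ B` (Cauchy bound, the leading coefficient is
bounded away from `0`). So for `x` near `x₀` `F(x, ·)` has exactly `k` real roots, the `j`-th one in `(r_j - ε, r_j + ε)`. Hence `k(x)` is locally constant, so constant on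
the interval (`IsPreconnected.constant..`), and `g_j(x)` = the `j`-th root (in increasing order, `Finset.orderEmbOfFin`) is continuous: for every (smaller) `ε` it stays in
`(r_j - ε, r_j + ε)` near `x₀`.
-/

set_option autoImplicit false

namespace BlkAR

open Polynomial Set

private theorem pX_deriv (F : ℝ[X][X]) (x y : ℝ) :
    HasDerivAt (fun y => F.evalEval x y) ((dY F).evalEval x y) y := by
  have h := (F.map (evalRingHom x)).hasDerivAt y
  rw [derivative_map, map_evalRingHom_eval] at h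
  have h1 : (fun y => F.evalEval x y) = fun y => (F.map (evalRingHom x)).eval y := by
    funext z
    rw [map_evalRingHom_eval]
  rw [h1]
  exact h

private theorem ev_sum (F : ℝ[X][X]) (x y : ℝ) :
    F.evalEval x y = ∑ i ∈ Finset.range (F.natDegree + 1), (F.coeff i).eval x * y ^ i := by
  have h : eval (C y) F = ∑ i ∈ Finset.range (F.natDegree + 1), F.coeff i * C y ^ i :=
    eval_eq_sum_range _
  rw [evalEval, h, eval_finsetSum]
  refine Finset.sum_congr rfl fun i _ => ?_
  rw [eval_mul, eval_pow, eval_C]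

private theorem cont2 (F : ℝ[X][X]) : Continuous fun z : ℝ × ℝ => F.evalEval z.1 z.2 := by
  have h : (fun z : ℝ × ℝ => F.evalEval z.1 z.2) =
      fun z => ∑ i ∈ Finset.range (F.natDegree + 1), (F.coeff i).eval z.1 * z.2 ^ i := by
    funext z
    exact ev_sum F z.1 z.2
  rw [h]
  exact continuous_finsetSum _ fun i _ =>
    ((F.coeff i).continuous.comp continuous_fst).mul (continuous_snd.pow i)

private theorem contx (F : ℝ[X][X]) (y : ℝ) : Continuous fun x : ℝ => F.evalEval x y :=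
  (cont2 F).comp (continuous_id.prodMk continuous_const)

private theorem conty (F : ℝ[X][X]) (x : ℝ) : Continuous fun y : ℝ => F.evalEval x y :=
  (cont2 F).comp (continuous_const.prodMk continuous_id)

private theorem map_ne {F : ℝ[X][X]} {x : ℝ} (h : (F.leadingCoeff).eval x ≠ 0) :
    F.map (evalRingHom x) ≠ 0 := by
  intro h0
  apply h
  have h1 : (F.map (evalRingHom x)).coeff F.natDegree = (F.leadingCoeff).eval x := by
    rw [coeff_map]
    rfl
  rw [← h1, h0, coeff_zero]

/-- the real zeros over `x`. -/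
private noncomputable def Zr (F : ℝ[X][X]) (x : ℝ) : Finset ℝ := (F.map (evalRingHom x)).roots.toFinset

private theorem mem_Zr {F : ℝ[X][X]} {x : ℝ} (h : (F.leadingCoeff).eval x ≠ 0) (y : ℝ) :
    y ∈ Zr F x ↔ F.evalEval x y = 0 := by
  unfold Zr
  rw [Multiset.mem_toFinset, mem_roots (map_ne h), IsRoot.def, map_evalRingHom_eval]

private theorem card_Zr (F : ℝ[X][X]) (x : ℝ) : (Zr F x).card ≤ F.natDegree := by
  unfold Zr
  exact (Multiset.toFinset_card_le _).trans ((card_roots' _).trans natDegree_map_le)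

/-- bound of the zeros. -/
private theorem bd_zero {F : ℝ[X][X]} {x y : ℝ} (h : (F.leadingCoeff).eval x ≠ 0)
    (h0 : F.evalEval x y = 0) :
    |y| ≤ 1 + (∑ i ∈ Finset.range F.natDegree, |(F.coeff i).eval x|) /
      |(F.leadingCoeff).eval x| := by
  have hL : 0 < |(F.leadingCoeff).eval x| := abs_pos.2 h
  have hA : 0 ≤ ∑ i ∈ Finset.range F.natDegree, |(F.coeff i).eval x| :=
    Finset.sum_nonneg fun _ _ => abs_nonneg _
  rcases le_or_gt |y| 1 with hy | hy
  · have h1 : 0 ≤ (∑ i ∈ Finset.range F.natDegree, |(F.coeff i).eval x|) /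
      |(F.leadingCoeff).eval x| := by positivity
    linarith
  · have h1 : (F.leadingCoeff).eval x * y ^ F.natDegree =
        - ∑ i ∈ Finset.range F.natDegree, (F.coeff i).eval x * y ^ i := by
      rw [ev_sum, Finset.sum_range_succ] at h0
      have h2 : F.coeff F.natDegree = F.leadingCoeff := rfl
      rw [h2] at h0
      linarith
    have h2 : |(F.leadingCoeff).eval x| * |y| ^ F.natDegree =
        |∑ i ∈ Finset.range F.natDegree, (F.coeff i).eval x * y ^ i| := by
      rw [← abs_pow, ← abs_mul, h1, abs_neg]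
    have h3 : (|(F.leadingCoeff).eval x| * |y|) * |y| ^ F.natDegree ≤
        (∑ i ∈ Finset.range F.natDegree, |(F.coeff i).eval x|) * |y| ^ F.natDegree := by
      calc (|(F.leadingCoeff).eval x| * |y|) * |y| ^ F.natDegree
          = (|(F.leadingCoeff).eval x| * |y| ^ F.natDegree) * |y| := by ring
        _ = |∑ i ∈ Finset.range F.natDegree, (F.coeff i).eval x * y ^ i| * |y| := by rw [h2]
        _ ≤ (∑ i ∈ Finset.range F.natDegree, |(F.coeff i).eval x * y ^ i|) * |y| :=
            mul_le_mul_of_nonneg_right (Finset.abs_sum_le_sum_abs _ _) (abs_nonneg _)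
        _ = ∑ i ∈ Finset.range F.natDegree, |(F.coeff i).eval x| * |y| ^ (i + 1) := by
            rw [Finset.sum_mul]
            refine Finset.sum_congr rfl fun i _ => ?_
            rw [abs_mul, abs_pow, pow_succ]
            ring
        _ ≤ ∑ i ∈ Finset.range F.natDegree, |(F.coeff i).eval x| * |y| ^ F.natDegree := by
            refine Finset.sum_le_sum fun i hi => ?_
            refine mul_le_mul_of_nonneg_left ?_ (abs_nonneg _)
            exact pow_le_pow_right₀ hy.le (Finset.mem_range.1 hi)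
        _ = (∑ i ∈ Finset.range F.natDegree, |(F.coeff i).eval x|) * |y| ^ F.natDegree := by
            rw [Finset.sum_mul]
    have h4 : |(F.leadingCoeff).eval x| * |y| ≤
        ∑ i ∈ Finset.range F.natDegree, |(F.coeff i).eval x| :=
      le_of_mul_le_mul_right h3 (pow_pos (by linarith) _)
    have h5 : |y| ≤ (∑ i ∈ Finset.range F.natDegree, |(F.coeff i).eval x|) /
        |(F.leadingCoeff).eval x| := by
      rw [le_div_iff₀ hL]
      linarith
    linarith

/-- the zeros are locally bounded. -/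
private theorem ev_bd {F : ℝ[X][X]} {x₀ : ℝ} (h : (F.leadingCoeff).eval x₀ ≠ 0) :
    ∃ B : ℝ, ∀ᶠ x in nhds x₀, (F.leadingCoeff).eval x ≠ 0 ∧
      ∀ y, F.evalEval x y = 0 → |y| ≤ B := by
  have hL : ContinuousAt (fun x => |(F.leadingCoeff).eval x|) x₀ :=
    ((F.leadingCoeff).continuous.abs).continuousAt
  have hA : ContinuousAt (fun x => ∑ i ∈ Finset.range F.natDegree, |(F.coeff i).eval x|) x₀ :=
    (continuous_finsetSum _ fun i _ => (F.coeff i).continuous.abs).continuousAt
  have hQ : ContinuousAt (fun x => (∑ i ∈ Finset.range F.natDegree, |(F.coeff i).eval x|) /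
      |(F.leadingCoeff).eval x|) x₀ := hA.div hL (abs_ne_zero.2 h)
  have hlt := hQ.eventually_lt_const (lt_add_one _)
  have hne : ∀ᶠ x in nhds x₀, (F.leadingCoeff).eval x ≠ 0 :=
    (F.leadingCoeff).continuous.continuousAt.eventually_ne h
  refine ⟨1 + ((∑ i ∈ Finset.range F.natDegree, |(F.coeff i).eval x₀|) /
      |(F.leadingCoeff).eval x₀| + 1), ?_⟩
  filter_upwards [hlt, hne] with x h1 h2
  refine ⟨h2, fun y hy => ?_⟩
  have h3 := bd_zero h2 hy
  linarith

/-- a simple zero persists. -/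
private theorem ev_exists {F : ℝ[X][X]} {x₀ r : ℝ} (h0 : F.evalEval x₀ r = 0)
    (h1 : (dY F).evalEval x₀ r ≠ 0) {ε : ℝ} (hε : 0 < ε) :
    ∀ᶠ x in nhds x₀, ∃ y, |y - r| < ε ∧ F.evalEval x y = 0 := by
  have hroot : (F.map (evalRingHom x₀)).IsRoot r := by
    rw [IsRoot.def, map_evalRingHom_eval]
    exact h0
  obtain ⟨q, hq⟩ := dvd_iff_isRoot.2 hroot
  have hqr : q.eval r ≠ 0 := by
    intro hcon
    apply h1
    have h2 : (dY F).evalEval x₀ r = (derivative (F.map (evalRingHom x₀))).eval r := by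
      rw [derivative_map, map_evalRingHom_eval]
      rfl
    rw [h2, hq, derivative_mul]
    simp [hcon]
  have hcont : Continuous fun t : ℝ => q.eval (r + t) * q.eval (r - t) :=
    (q.continuous.comp (continuous_const.add continuous_id)).mul
      (q.continuous.comp (continuous_const.sub continuous_id))
  have hpos0 : 0 < q.eval (r + 0) * q.eval (r - 0) := by
    rw [add_zero, sub_zero]
    exact mul_self_pos.2 hqr
  have hev : ∀ᶠ t : ℝ in nhds 0, 0 < q.eval (r + t) * q.eval (r - t) :=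
    hcont.continuousAt.eventually_const_lt hpos0
  have hev' : ∀ᶠ t : ℝ in nhdsWithin 0 (Ioi 0), 0 < q.eval (r + t) * q.eval (r - t) :=
    hev.filter_mono nhdsWithin_le_nhds
  have hev2 : ∀ᶠ t : ℝ in nhdsWithin 0 (Ioi 0), t ∈ Ioo (0 : ℝ) ε :=
    Ioo_mem_nhdsGT hε
  obtain ⟨t, ht1, ht2⟩ := (hev'.and hev2).exists
  have hval : ∀ y, F.evalEval x₀ y = (y - r) * q.eval y := by
    intro y
    rw [← map_evalRingHom_eval, hq, eval_mul, eval_sub, eval_X, eval_C]
  have hneg : F.evalEval x₀ (r + t) * F.evalEval x₀ (r - t) < 0 := by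
    rw [hval, hval]
    have h2 : (r + t - r) * q.eval (r + t) * ((r - t - r) * q.eval (r - t)) =
        - (t ^ 2 * (q.eval (r + t) * q.eval (r - t))) := by ring
    rw [h2]
    have h3 : 0 < t ^ 2 * (q.eval (r + t) * q.eval (r - t)) :=
      mul_pos (pow_pos ht2.1 2) ht1
    linarith
  have hcx : Continuous fun x : ℝ => F.evalEval x (r + t) * F.evalEval x (r - t) :=
    (contx F _).mul (contx F _)
  filter_upwards [hcx.continuousAt.eventually_lt_const hneg] with x hx
  have hmem : (0 : ℝ) ∈ uIcc (F.evalEval x (r - t)) (F.evalEval x (r + t)) := by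
    rw [mem_uIcc]
    rcases lt_trichotomy (F.evalEval x (r + t)) 0 with h2 | h2 | h2
    · right
      refine ⟨h2.le, ?_⟩
      by_contra hcon
      push Not at hcon
      nlinarith
    · rw [h2, zero_mul] at hx
      exact absurd hx (lt_irrefl _)
    · left
      refine ⟨?_, h2.le⟩
      by_contra hcon
      push Not at hcon
      nlinarith
  obtain ⟨y, hy, hy0⟩ := intermediate_value_uIcc (conty F x).continuousOn hmem
  rw [uIcc_of_le (by linarith [ht2.1])] at hy
  refine ⟨y, ?_, hy0⟩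
  rw [abs_lt]
  constructor
  · linarith [hy.1, ht2.2]
  · linarith [hy.2, ht2.2]

/-- the local statement. -/
private theorem local_roots {F : ℝ[X][X]} {x₀ : ℝ} (h1 : (F.leadingCoeff).eval x₀ ≠ 0)
    (h2 : ∀ y, F.evalEval x₀ y = 0 → (dY F).evalEval x₀ y ≠ 0) {ε : ℝ} (hε : 0 < ε) :
    ∀ᶠ x in nhds x₀, (Zr F x).card = (Zr F x₀).card ∧ ∃ φ : ℝ → ℝ,
      (∀ r ∈ Zr F x₀, φ r ∈ Zr F x ∧ |φ r - r| < ε) ∧ StrictMonoOn φ (Zr F x₀ : Set ℝ) := by
  classical
  -- the small number
  have hgap : ∀ᶠ δ : ℝ in nhdsWithin 0 (Ioi 0), ∀ r ∈ Zr F x₀, ∀ r' ∈ Zr F x₀, r < r' →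
      2 * δ < r' - r := by
    rw [Filter.eventually_all_finset]
    intro r _
    rw [Filter.eventually_all_finset]
    intro r' _
    by_cases hrr : r < r'
    · have h3 : ∀ᶠ δ : ℝ in nhdsWithin 0 (Ioi 0), δ ∈ Ioo (0 : ℝ) ((r' - r) / 2) :=
        Ioo_mem_nhdsGT (by linarith)
      filter_upwards [h3] with δ hδ _
      linarith [hδ.2]
    · exact Filter.Eventually.of_forall fun δ h => absurd h hrr
  have hder : ∀ᶠ δ : ℝ in nhdsWithin 0 (Ioi 0), ∀ r ∈ Zr F x₀, ∀ y, |y - r| ≤ δ →
      (dY F).evalEval x₀ y ≠ 0 := by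
    rw [Filter.eventually_all_finset]
    intro r hr
    have h3 : (dY F).evalEval x₀ r ≠ 0 := h2 r ((mem_Zr h1 r).1 hr)
    have h4 : ∀ᶠ y in nhds r, (dY F).evalEval x₀ y ≠ 0 :=
      (conty (dY F) x₀).continuousAt.eventually_ne h3
    obtain ⟨ρ, hρ, hball⟩ := Metric.eventually_nhds_iff.1 h4
    have h5 : ∀ᶠ δ : ℝ in nhdsWithin 0 (Ioi 0), δ ∈ Ioo (0 : ℝ) ρ := Ioo_mem_nhdsGT hρ
    filter_upwards [h5] with δ hδ y hy
    apply hball
    rw [Real.dist_eq]
    exact lt_of_le_of_lt hy hδ.2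
  have hsm : ∀ᶠ δ : ℝ in nhdsWithin 0 (Ioi 0), δ ∈ Ioo (0 : ℝ) ε := Ioo_mem_nhdsGT hε
  obtain ⟨δ, ⟨hd1, hd2⟩, hd3⟩ := ((hgap.and hder).and hsm).exists
  have hδ0 : 0 < δ := hd3.1
  -- (a)
  have ha : ∀ᶠ x in nhds x₀, ∀ r ∈ Zr F x₀, ∃ y, |y - r| < δ ∧ F.evalEval x y = 0 := by
    rw [Filter.eventually_all_finset]
    intro r hr
    have h3 := (mem_Zr h1 r).1 hr
    exact ev_exists h3 (h2 r h3) hδ0
  -- (b)
  obtain ⟨B, hB⟩ := ev_bd h1
  have hb : ∀ᶠ x in nhds x₀, ∀ y ∈ Icc (-B) B ∩ {y | ∀ r ∈ Zr F x₀, δ ≤ |y - r|},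
      F.evalEval x y ≠ 0 := by
    have hcl : IsClosed {y : ℝ | ∀ r ∈ Zr F x₀, δ ≤ |y - r|} := by
      have h3 : {y : ℝ | ∀ r ∈ Zr F x₀, δ ≤ |y - r|} =
          ⋂ r ∈ (Zr F x₀ : Set ℝ), {y : ℝ | δ ≤ |y - r|} := by
        ext y
        simp
      rw [h3]
      exact isClosed_biInter fun r _ => isClosed_le continuous_const
        (continuous_id.sub continuous_const).abs
    have hK : IsCompact (Icc (-B) B ∩ {y : ℝ | ∀ r ∈ Zr F x₀, δ ≤ |y - r|}) :=
      isCompact_Icc.inter_right hcl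
    refine hK.eventually_forall_of_forall_eventually fun y hy => ?_
    have h3 : F.evalEval x₀ y ≠ 0 := by
      intro h4
      have h5 := hy.2 y ((mem_Zr h1 y).2 h4)
      rw [sub_self, abs_zero] at h5
      linarith
    exact (cont2 F).continuousAt.eventually_ne h3
  -- (c)
  have hc : ∀ᶠ x in nhds x₀, ∀ r ∈ Zr F x₀, ∀ y ∈ Icc (r - δ) (r + δ),
      (dY F).evalEval x y ≠ 0 := by
    rw [Filter.eventually_all_finset]
    intro r hr
    refine isCompact_Icc.eventually_forall_of_forall_eventually fun y hy => ?_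
    have h3 : (dY F).evalEval x₀ y ≠ 0 := by
      apply hd2 r hr
      rw [abs_le]
      constructor
      · linarith [hy.1]
      · linarith [hy.2]
    exact (cont2 (dY F)).continuousAt.eventually_ne h3
  filter_upwards [ha, hB, hb, hc] with x hxa hxB hxb hxc
  obtain ⟨hL, hxB⟩ := hxB
  choose! φ hφ1 hφ2 using hxa
  have hmono : StrictMonoOn φ (Zr F x₀ : Set ℝ) := by
    intro r hr r' hr' hlt
    have h3 := abs_lt.1 (hφ1 r hr)
    have h4 := abs_lt.1 (hφ1 r' hr')
    have h5 := hd1 r hr r' hr' hlt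
    linarith [h3.2, h4.1]
  have hψ : ∀ y ∈ Zr F x, ∃ r ∈ Zr F x₀, |y - r| < δ := by
    intro y hy
    by_contra hcon
    push Not at hcon
    have hy0 := (mem_Zr hL y).1 hy
    have h3 := abs_le.1 (hxB y hy0)
    exact hxb y ⟨⟨h3.1, h3.2⟩, hcon⟩ hy0
  choose! ψ hψ1 hψ2 using hψ
  refine ⟨le_antisymm ?_ ?_, φ, fun r hr => ⟨(mem_Zr hL _).2 (hφ2 r hr),
    (hφ1 r hr).trans hd3.2⟩, hmono⟩
  · refine Finset.card_le_card_of_injOn ψ (fun y hy => hψ1 y hy) ?_
    -- at most one zero near `r`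
    have hone : ∀ y ∈ Zr F x, ∀ y' ∈ Zr F x, ψ y = ψ y' → ¬ y < y' := by
      intro y hy y' hy' heq hlt
      have h3 := abs_lt.1 (hψ2 y hy)
      have h4 := abs_lt.1 (hψ2 y' hy')
      have h5 : F.evalEval x y = F.evalEval x y' := by
        rw [(mem_Zr hL y).1 hy, (mem_Zr hL y').1 hy']
      obtain ⟨z, hz, hz0⟩ := exists_hasDerivAt_eq_zero hlt (conty F x).continuousOn h5
        (fun z _ => pX_deriv F x z)
      refine hxc (ψ y) (hψ1 y hy) z ⟨?_, ?_⟩ hz0
      · linarith [hz.1, h3.1]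
      · rw [heq]
        linarith [hz.2, h4.2]
    intro y hy y' hy' heq
    rcases lt_trichotomy y y' with h3 | h3 | h3
    · exact absurd h3 (hone y hy y' hy' heq)
    · exact h3
    · exact absurd h3 (hone y' hy' y hy heq.symm)
  · exact Finset.card_le_card_of_injOn φ (fun r hr => (mem_Zr hL _).2 (hφ2 r hr))
      hmono.injOn

theorem roots {F : ℝ[X][X]} {u v : ℝ} (huv : u < v)
    (h1 : ∀ x ∈ Ioo u v, (F.leadingCoeff).eval x ≠ 0)
    (h2 : ∀ x ∈ Ioo u v, ∀ y, F.evalEval x y = 0 → (dY F).evalEval x y ≠ 0) :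
    ∃ (k : ℕ) (g : Fin k → ℝ → ℝ), k ≤ F.natDegree ∧ (∀ i, ContinuousOn (g i) (Ioo u v)) ∧
      ∀ x ∈ Ioo u v, ∀ y, F.evalEval x y = 0 ↔ ∃ i, g i x = y := by
  classical
  have hmid : (u + v) / 2 ∈ Ioo u v := ⟨by linarith, by linarith⟩
  have hloc : ContinuousOn (fun x => (Zr F x).card) (Ioo u v) := by
    intro x₀ hx₀
    apply ContinuousAt.continuousWithinAt
    have h3 : (fun x => (Zr F x).card) =ᶠ[nhds x₀] fun _ => (Zr F x₀).card := by
      filter_upwards [local_roots (h1 x₀ hx₀) (h2 x₀ hx₀) one_pos] with x hx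
      exact hx.1
    exact continuousAt_const.congr h3.symm
  have hcard : ∀ x ∈ Ioo u v, (Zr F x).card = (Zr F ((u + v) / 2)).card := fun x hx =>
    isPreconnected_Ioo.constant hloc hx hmid
  refine ⟨(Zr F ((u + v) / 2)).card, fun i x => if h : (Zr F x).card =
    (Zr F ((u + v) / 2)).card then (Zr F x).orderEmbOfFin h i else 0, card_Zr F _, ?_, ?_⟩
  · intro i x₀ hx₀
    apply ContinuousAt.continuousWithinAt
    rw [Metric.continuousAt_iff']
    intro ε hε
    have hI : ∀ᶠ x in nhds x₀, x ∈ Ioo u v := Ioo_mem_nhds hx₀.1 hx₀.2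
    filter_upwards [local_roots (h1 x₀ hx₀) (h2 x₀ hx₀) hε, hI] with x hx hxI
    obtain ⟨-, φ, hφ, hmono⟩ := hx
    rw [dif_pos (hcard x hxI), dif_pos (hcard x₀ hx₀)]
    have h3 : (fun j => φ ((Zr F x₀).orderEmbOfFin (hcard x₀ hx₀) j)) =
        (Zr F x).orderEmbOfFin (hcard x hxI) := by
      apply Finset.orderEmbOfFin_unique
      · intro j
        exact (hφ _ (Finset.orderEmbOfFin_mem _ _ j)).1
      · intro j j' hjj
        exact hmono (Finset.orderEmbOfFin_mem _ _ j) (Finset.orderEmbOfFin_mem _ _ j')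
          ((Zr F x₀).orderEmbOfFin (hcard x₀ hx₀) |>.strictMono hjj)
    rw [← h3, Real.dist_eq]
    exact (hφ _ (Finset.orderEmbOfFin_mem _ _ i)).2
  · intro x hx y
    rw [← mem_Zr (h1 x hx)]
    constructor
    · intro hy
      have h3 : y ∈ Set.range ((Zr F x).orderEmbOfFin (hcard x hx)) := by
        rw [Finset.range_orderEmbOfFin]
        exact hy
      obtain ⟨i, hi⟩ := h3
      exact ⟨i, (dif_pos (hcard x hx)).trans hi⟩
    · rintro ⟨i, hi⟩
      have hi' := (dif_pos (hcard x hx)).symm.trans hi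
      rw [← hi']
      exact Finset.orderEmbOfFin_mem _ _ i

end BlkAR
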