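import Pool.Agent.Work.MP_763b10_co.AR.La
import Pool.Agent.Work.MP_763b10_co.AR.Hmf
import Pool.Agent.Work.MP_763b10_co.AR.Pmf

/-!
# MP_763b10_co, board modar, module SepCnt (M)

If a curve of bidegree `≤ d` does not contain `q`, few of its points `p ∈ P` are congruent to `q` modulo a large prime power.

Proof. `X = {p ∈ P : ev H (pt p) = 0}`, `M = (d+1)²`. Apply `la` with `ι = Fin (d+1) × Fin (d+1)`, `S` = the vectors `(p.1^i p.2^j)_{i,j}`, `p ∈ X` (entries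
`≤ W^(2d)`), `l` = the vector `((a/D)^i (b/D)^j)`, `x` = the coefficients of `H`: an integer polynomial `F` with `BD d F`, `F = 0` on `X`, `F(q) ≠ 0`, so
`hm d F q ≠ 0` (`hm_eq`), coefficients `≤ H₀ = M! W^(2dM)`. `|hm d F q| ≤ M H₀ W^(2d)` (`abs_hm_le`); its logarithm is at most
`M + M² + (2 d M + 2 d) log W ≤ 6 (d+1)⁴ log W` (`log W ≥ 1`), so at most `9 (d+1)⁴ log W` minimal prime powers divide it (`pm_card`). If `p ∈ X` has
`big Z (rho p q) ≠ 1`, then by `pm_of_big` some PM `m` divides `rho p q`, and `m ∣ hm d F q` (`dvd_hm`). For each such `m ≥ Z`: at most `K (n/Z + 1)` points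
(`cls`).
-/

set_option autoImplicit false

namespace BlkAR

open Finset Polynomial

private theorem sep_sum {K : Type*} [CommSemiring K] {d : ℕ} {F : K[X][X]} (hF : BD d F)
    (x y : K) : F.evalEval x y = ∑ k : Fin (d + 1) × Fin (d + 1),
      (F.coeff k.2).coeff k.1 * (x ^ (k.1 : ℕ) * y ^ (k.2 : ℕ)) := by
  have h1 : F.eval (C y) = ∑ j ∈ Finset.range (d + 1), F.coeff j * C y ^ j :=
    eval_eq_sum_range' (Nat.lt_succ_of_le hF.1) _
  unfold Polynomial.evalEval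
  rw [h1, eval_finsetSum, Fintype.sum_prod_type_right, Finset.sum_range]
  refine Finset.sum_congr rfl fun j _ => ?_
  rw [eval_mul, eval_pow, eval_C, eval_eq_sum_range' (Nat.lt_succ_of_le (hF.2 j)) x,
    Finset.sum_range, Finset.sum_mul]
  refine Finset.sum_congr rfl fun i _ => ?_
  ring

private theorem sep_mk (d : ℕ) (y : Fin (d + 1) × Fin (d + 1) → ℤ) :
    ∃ F : ℤ[X][X], BD d F ∧
      (∀ k : Fin (d + 1) × Fin (d + 1), (F.coeff k.2).coeff k.1 = y k) ∧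
      ∀ i j, ¬ (i < d + 1 ∧ j < d + 1) → (F.coeff j).coeff i = 0 := by
  obtain ⟨c, hc⟩ : ∃ c : ℕ → ℕ → ℤ, ∀ i j, c i j =
      if h : i < d + 1 ∧ j < d + 1 then y (⟨i, h.1⟩, ⟨j, h.2⟩) else 0 := ⟨_, fun _ _ => rfl⟩
  obtain ⟨F, hF⟩ : ∃ F : ℤ[X][X], F = ∑ j ∈ Finset.range (d + 1),
      monomial j (∑ i ∈ Finset.range (d + 1), monomial i (c i j)) := ⟨_, rfl⟩
  have hco : ∀ i j, (F.coeff j).coeff i = c i j := by
    intro i j
    rw [hF, finsetSum_coeff]
    simp only [coeff_monomial]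
    rw [Finset.sum_ite_eq']
    by_cases hj : j ∈ Finset.range (d + 1)
    · rw [if_pos hj, finsetSum_coeff]
      simp only [coeff_monomial]
      rw [Finset.sum_ite_eq']
      by_cases hi : i ∈ Finset.range (d + 1)
      · rw [if_pos hi]
      · rw [if_neg hi, hc, dif_neg (fun h => hi (Finset.mem_range.2 h.1))]
    · rw [if_neg hj, coeff_zero, hc, dif_neg (fun h => hj (Finset.mem_range.2 h.2))]
  have hz : ∀ i j, ¬ (i < d + 1 ∧ j < d + 1) → (F.coeff j).coeff i = 0 := by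
    intro i j h
    rw [hco, hc, dif_neg h]
  refine ⟨F, ⟨?_, ?_⟩, ?_, hz⟩
  · rw [natDegree_le_iff_coeff_eq_zero]
    intro j hj
    ext i
    rw [hz i j (fun h => by omega), coeff_zero]
  · intro j
    rw [natDegree_le_iff_coeff_eq_zero]
    intro i hi
    exact hz i j (fun h => by omega)
  · rintro ⟨⟨i, hi⟩, ⟨j, hj⟩⟩
    rw [hco, hc, dif_pos ⟨hi, hj⟩]

private theorem sep_log {W : ℝ} (hW : 3 ≤ W) : 1 ≤ Real.log W := by
  rw [Real.le_log_iff_exp_le (by linarith)]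
  have := Real.exp_one_lt_d9
  linarith

private theorem sep_fact (M : ℕ) (hM : 1 ≤ M) : Real.log (M.factorial : ℝ) ≤ (M : ℝ) ^ 2 := by
  have h1 : (M.factorial : ℝ) ≤ (M : ℝ) ^ M := by exact_mod_cast Nat.factorial_le_pow M
  have h2 : (0 : ℝ) < M.factorial := by exact_mod_cast M.factorial_pos
  have h3 := Real.log_le_log h2 h1
  rw [Real.log_pow] at h3
  have hM0 : (0 : ℝ) < M := by exact_mod_cast hM
  have h4 := Real.log_le_sub_one_of_pos hM0
  nlinarith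

/-- the bound for the logarithm -/
private theorem sep_est {W h : ℝ} {d : ℕ} (hW : 3 ≤ W) (h0 : 0 < h)
    (hh : h ≤ ((d : ℝ) + 1) ^ 2 * ((((d + 1) * (d + 1) : ℕ).factorial : ℝ) *
      (W ^ (2 * d)) ^ ((d + 1) * (d + 1))) * W ^ (2 * d)) :
    Real.log h ≤ 6 * ((d : ℝ) + 1) ^ 4 * Real.log W := by
  have hW0 : (0 : ℝ) < W := by linarith
  have hl := sep_log hW
  have hf : (0 : ℝ) < (((d + 1) * (d + 1) : ℕ).factorial : ℝ) := by
    exact_mod_cast Nat.factorial_pos _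
  have hd : (0 : ℝ) ≤ d := by positivity
  have h1 := Real.log_le_log h0 hh
  rw [Real.log_mul (by positivity) (by positivity), Real.log_mul (by positivity) (by positivity),
    Real.log_mul (by positivity) (by positivity), Real.log_pow, Real.log_pow,
    Real.log_pow] at h1
  have h2 := sep_fact ((d + 1) * (d + 1)) (Nat.mul_pos d.succ_pos d.succ_pos)
  have h3 : Real.log ((d : ℝ) + 1) ≤ d := by
    have := Real.log_le_sub_one_of_pos (show (0 : ℝ) < (d : ℝ) + 1 by linarith)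
    linarith
  push_cast at h1 h2
  have h4 : Real.log h ≤ 2 * d + (((d : ℝ) + 1) * (d + 1)) ^ 2 +
      (((d : ℝ) + 1) * (d + 1) * (2 * d) + 2 * d) * Real.log W := by
    nlinarith
  have h5 : 2 * (d : ℝ) + (((d : ℝ) + 1) * (d + 1)) ^ 2 ≤
      (2 * (d : ℝ) + (((d : ℝ) + 1) * (d + 1)) ^ 2) * Real.log W := by
    have h6 : 0 ≤ 2 * (d : ℝ) + (((d : ℝ) + 1) * (d + 1)) ^ 2 := by positivity
    nlinarith
  have h7 : (2 * (d : ℝ) + (((d : ℝ) + 1) * (d + 1)) ^ 2) +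
      (((d : ℝ) + 1) * (d + 1) * (2 * d) + 2 * d) ≤ 6 * ((d : ℝ) + 1) ^ 4 := by
    have h8 : 0 ≤ (d : ℝ) ^ 2 := by positivity
    have h9 : 0 ≤ (d : ℝ) ^ 3 := by positivity
    have h10 : 0 ≤ (d : ℝ) ^ 4 := by positivity
    nlinarith
  have h11 := mul_le_mul_of_nonneg_right h7 (show 0 ≤ Real.log W by linarith)
  linarith

open scoped Classical in
theorem sepcnt {P : Finset (ℤ × ℤ)} {K W : ℝ} {Z d : ℕ} (h : Spr K P) {q : ℤ × ℤ × ℤ}
    (hq : Prim q) (ho : ∀ p ∈ P, rho p q ≠ 0)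
    (hP : ∀ p ∈ P, |(p.1 : ℝ)| ≤ W ∧ |(p.2 : ℝ)| ≤ W)
    (hR : |(q.1 : ℝ)| ≤ W ∧ |(q.2.1 : ℝ)| ≤ W ∧ (q.2.2 : ℝ) ≤ W) (hW : 3 ≤ W) (hZ : 2 ≤ Z)
    {H : ℚ[X][X]} (hH : BD d H) (hHq : ev H (qt q) ≠ 0) :
    ((P.filter fun p => ev H (pt p) = 0 ∧ big Z (rho p q) ≠ 1).card : ℝ) ≤
      9 * ((d : ℝ) + 1) ^ 4 * Real.log W * (K * ((P.card : ℝ) / Z + 1)) := by
  have hW0 : (0 : ℝ) < W := by linarith
  have hW1 : (1 : ℝ) ≤ W := by linarith
  have hK := spr_nonneg h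
  have hq1 : 1 ≤ q.2.2 := hq.1
  -- the integer polynomial
  obtain ⟨S, hS⟩ : ∃ S : Set (Fin (d + 1) × Fin (d + 1) → ℤ), ∀ v, v ∈ S ↔ ∃ p ∈ P,
      ev H (pt p) = 0 ∧ v = fun k => p.1 ^ (k.1 : ℕ) * p.2 ^ (k.2 : ℕ) :=
    ⟨{v | ∃ p ∈ P, ev H (pt p) = 0 ∧ v = fun k => p.1 ^ (k.1 : ℕ) * p.2 ^ (k.2 : ℕ)},
      fun _ => Iff.rfl⟩
  obtain ⟨y, hy1, hy2, hy3⟩ := la S (W ^ (2 * d)) (one_le_pow₀ hW1) (by
      intro v hv k
      obtain ⟨p, hp, -, rfl⟩ := (hS v).1 hv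
      obtain ⟨h1, h2⟩ := hP p hp
      have e1 : |((p.1 ^ (k.1 : ℕ) * p.2 ^ (k.2 : ℕ) : ℤ) : ℝ)| =
          |(p.1 : ℝ)| ^ (k.1 : ℕ) * |(p.2 : ℝ)| ^ (k.2 : ℕ) := by
        push_cast
        rw [abs_mul, abs_pow, abs_pow]
      show |((p.1 ^ (k.1 : ℕ) * p.2 ^ (k.2 : ℕ) : ℤ) : ℝ)| ≤ W ^ (2 * d)
      rw [e1]
      have hk1 : (k.1 : ℕ) ≤ d := Nat.le_of_lt_succ k.1.2
      have hk2 : (k.2 : ℕ) ≤ d := Nat.le_of_lt_succ k.2.2
      calc |(p.1 : ℝ)| ^ (k.1 : ℕ) * |(p.2 : ℝ)| ^ (k.2 : ℕ) ≤ W ^ (k.1 : ℕ) * W ^ (k.2 : ℕ) :=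
            mul_le_mul (pow_le_pow_left₀ (abs_nonneg _) h1 _)
              (pow_le_pow_left₀ (abs_nonneg _) h2 _) (by positivity) (by positivity)
        _ = W ^ ((k.1 : ℕ) + (k.2 : ℕ)) := (pow_add _ _ _).symm
        _ ≤ W ^ (2 * d) := pow_le_pow_right₀ hW1 (by omega))
    (fun k => (qt q).1 ^ (k.1 : ℕ) * (qt q).2 ^ (k.2 : ℕ))
    (fun k => (H.coeff k.2).coeff k.1) (by
      intro v hv
      obtain ⟨p, hp, h0, rfl⟩ := (hS v).1 hv
      rw [← h0, ev, sep_sum hH]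
      refine Finset.sum_congr rfl fun k _ => ?_
      simp only [pt]
      push_cast
      ring) (by
      have h1 : ∑ k : Fin (d + 1) × Fin (d + 1), (qt q).1 ^ (k.1 : ℕ) * (qt q).2 ^ (k.2 : ℕ) *
          (H.coeff k.2).coeff k.1 = ev H (qt q) := by
        rw [ev, sep_sum hH]
        refine Finset.sum_congr rfl fun k _ => ?_
        ring
      rw [h1]
      exact hHq)
  have hcard : Fintype.card (Fin (d + 1) × Fin (d + 1)) = (d + 1) * (d + 1) := by
    rw [Fintype.card_prod, Fintype.card_fin]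
  rw [hcard] at hy3
  obtain ⟨F, hF, hFy, hFz⟩ := sep_mk d y
  have hFp : ∀ p ∈ P, ev H (pt p) = 0 → F.evalEval p.1 p.2 = 0 := by
    intro p hp h0
    rw [sep_sum hF, ← hy1 _ ((hS _).2 ⟨p, hp, h0, rfl⟩)]
    refine Finset.sum_congr rfl fun k _ => ?_
    rw [hFy]
    ring
  have hFQ : BD d (toQ F) := by
    constructor
    · exact (natDegree_map_le).trans hF.1
    · intro j
      unfold toQ
      rw [coeff_map]
      exact (natDegree_map_le).trans (hF.2 j)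
  have hcQ : ∀ i j, ((toQ F).coeff j).coeff i = ((F.coeff j).coeff i : ℚ) := by
    intro i j
    unfold toQ
    rw [coeff_map, coe_mapRingHom, coeff_map]
    rfl
  have hev : ev (toQ F) (qt q) ≠ 0 := by
    have h1 : ev (toQ F) (qt q) = ∑ k : Fin (d + 1) × Fin (d + 1),
        (qt q).1 ^ (k.1 : ℕ) * (qt q).2 ^ (k.2 : ℕ) * (y k : ℚ) := by
      rw [ev, sep_sum hFQ]
      refine Finset.sum_congr rfl fun k _ => ?_
      rw [hcQ, hFy]
      ring
    rw [h1]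
    exact hy2
  have hD0 : (q.2.2 : ℚ) ≠ 0 := by
    have h1 : q.2.2 ≠ 0 := by omega
    exact_mod_cast h1
  have hhm : hm d F q ≠ 0 := by
    intro h1
    have h2 := hm_eq hF hq1
    rw [h1, Int.cast_zero] at h2
    exact mul_ne_zero (pow_ne_zero _ hD0) hev h2.symm
  -- the bound
  have hco : ∀ i j, |(((F.coeff j).coeff i : ℤ) : ℝ)| ≤
      (((d + 1) * (d + 1) : ℕ).factorial : ℝ) * (W ^ (2 * d)) ^ ((d + 1) * (d + 1)) := by
    intro i j
    by_cases hij : i < d + 1 ∧ j < d + 1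
    · have h1 := hFy (⟨i, hij.1⟩, ⟨j, hij.2⟩)
      simp only at h1
      rw [h1]
      exact hy3 _
    · rw [hFz i j hij, Int.cast_zero, abs_zero]
      positivity
  have habs := abs_hm_le (d := d) (F := F) hW1 hco hq1 hR
  obtain ⟨N, hN⟩ : ∃ N : ℕ, N = (hm d F q).natAbs := ⟨_, rfl⟩
  have hN0 : N ≠ 0 := by rw [hN]; exact Int.natAbs_ne_zero.2 hhm
  have hNr : (N : ℝ) = |((hm d F q : ℤ) : ℝ)| := by
    rw [hN, Nat.cast_natAbs]
    push_cast
    rfl
  have hNpos : (0 : ℝ) < N := by exact_mod_cast Nat.pos_of_ne_zero hN0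
  rw [← hNr] at habs
  have hlog := sep_est hW hNpos habs
  have hZ0 : (0 : ℝ) < Z := by
    have h1 : 0 < Z := by omega
    exact_mod_cast h1
  have hcardM := pm_card hZ hN0 (N.divisors.filter fun m => PM Z m) (by
    intro m hm'
    obtain ⟨h1, h2⟩ := Finset.mem_filter.1 hm'
    exact ⟨h2, Nat.dvd_of_mem_divisors h1⟩)
  have hMlog : ((N.divisors.filter fun m => PM Z m).card : ℝ) ≤
      9 * ((d : ℝ) + 1) ^ 4 * Real.log W := by
    have h1 : ((2 : ℝ)) ^ (N.divisors.filter fun m => PM Z m).card ≤ N := by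
      exact_mod_cast hcardM
    have h2 := Real.log_le_log (by positivity) h1
    rw [Real.log_pow] at h2
    have h3 := Real.log_two_gt_d9
    have h4 : (0 : ℝ) ≤ ((N.divisors.filter fun m => PM Z m).card : ℝ) := by positivity
    have h5 : 0 ≤ ((d : ℝ) + 1) ^ 4 * Real.log W := by
      have := sep_log hW
      positivity
    nlinarith
  have hsub : (P.filter fun p => ev H (pt p) = 0 ∧ big Z (rho p q) ≠ 1) ⊆
      (N.divisors.filter fun m => PM Z m).biUnion fun m => P.filter fun p => m ∣ rho p q := by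
    intro p hp
    obtain ⟨hp1, hp2, hp3⟩ := Finset.mem_filter.1 hp
    obtain ⟨m, hm1, hm2⟩ := pm_of_big hZ (ho p hp1) hp3
    have hm3 := dvd_hm hF hm2 (hFp p hp1 hp2)
    rw [Finset.mem_biUnion]
    refine ⟨m, Finset.mem_filter.2 ⟨Nat.mem_divisors.2 ⟨?_, hN0⟩, hm1⟩,
      Finset.mem_filter.2 ⟨hp1, hm2⟩⟩
    rw [hN]
    exact Int.natCast_dvd.1 hm3
  have hstep : ∀ m ∈ (N.divisors.filter fun m => PM Z m),
      ((P.filter fun p => m ∣ rho p q).card : ℝ) ≤ K * ((P.card : ℝ) / Z + 1) := by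
    intro m hm'
    obtain ⟨h1, l, j, h2, h3, h4, h5⟩ := Finset.mem_filter.1 hm'
    have hm1 : 1 ≤ m := by omega
    refine (cls h hq hm1).trans ?_
    have h6 : (Z : ℝ) ≤ m := by exact_mod_cast h4
    refine mul_le_mul_of_nonneg_left ?_ hK
    have h7 : (P.card : ℝ) / m ≤ (P.card : ℝ) / Z :=
      div_le_div_of_nonneg_left (by positivity) hZ0 h6
    linarith
  calc ((P.filter fun p => ev H (pt p) = 0 ∧ big Z (rho p q) ≠ 1).card : ℝ)
      ≤ (((N.divisors.filter fun m => PM Z m).biUnion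
          fun m => P.filter fun p => m ∣ rho p q).card : ℝ) := by
        exact_mod_cast Finset.card_le_card hsub
    _ ≤ ((∑ m ∈ (N.divisors.filter fun m => PM Z m),
          (P.filter fun p => m ∣ rho p q).card : ℕ) : ℝ) := by
        exact_mod_cast Finset.card_biUnion_le
    _ = ∑ m ∈ (N.divisors.filter fun m => PM Z m),
          ((P.filter fun p => m ∣ rho p q).card : ℝ) := by
        push_cast
        rfl
    _ ≤ ∑ _m ∈ (N.divisors.filter fun m => PM Z m), K * ((P.card : ℝ) / Z + 1) :=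
        Finset.sum_le_sum hstep
    _ = ((N.divisors.filter fun m => PM Z m).card : ℝ) * (K * ((P.card : ℝ) / Z + 1)) := by
        rw [Finset.sum_const, nsmul_eq_mul]
    _ ≤ 9 * ((d : ℝ) + 1) ^ 4 * Real.log W * (K * ((P.card : ℝ) / Z + 1)) := by
        refine mul_le_mul_of_nonneg_right hMlog ?_
        have h1 : (0 : ℝ) ≤ (P.card : ℝ) / Z + 1 := by positivity
        exact mul_nonneg hK h1

end BlkAR
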